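import Mathlib
import Pool.Agent.H189.KS.Base

/-!
# The transfer matrix of the Wilson action

`G` is a closed subgroup of `U(N)`, `E` the finite set of the links of a time slice. The transfer
matrix has the kernel `w (U) w (V) ∏_e exp (β Re tr (U_e V_e*))`.
-/

open MeasureTheory Matrix
open scoped ComplexConjugate

namespace Pool.Agent.H189.WA

open Pool.Agent.H189.KS

set_option linter.unusedSectionVars false

noncomputable section

variable {N : ℕ} {G : Subgroup (UU N)} {E : Type} [Fintype E]

/-- `Re tr (a b*)` -/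
def rt (a b : G) : ℝ := (trace (mt a * (mt b)ᴴ)).re

/-- the kernel of the transfer matrix -/
def ker (β : ℝ) (w : (E → G) → ℝ) (U V : E → G) : ℝ :=
  w U * w V * ∏ e, Real.exp (β * rt (U e) (V e))

/-- the tail of the exponential series -/
def tl (x : ℝ) (J : ℕ) : ℝ := ∑' j : ℕ, x ^ (j + J) / ((j + J).factorial : ℝ)

/-- the absolute value, as a complex valued function -/
def av (F : (E → G) → ℂ) (U : E → G) : ℂ := ((‖F U‖ : ℝ) : ℂ)

variable [MeasurableSpace G] (μ : Measure G)

/-- the form of a kernel -/
def frm (K : (E → G) → (E → G) → ℝ) (F H : (E → G) → ℂ) : ℝ :=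
  ∫ U, ∫ V, (conj (F U) * H V).re * K U V ∂(Measure.pi fun _ : E => μ)
    ∂(Measure.pi fun _ : E => μ)

/-- the operator of a kernel -/
def opr (K : (E → G) → (E → G) → ℝ) (F : (E → G) → ℂ) (U : E → G) : ℂ :=
  ∫ V, F V * K U V ∂(Measure.pi fun _ : E => μ)

/-- the square of the norm -/
def n2 (F : (E → G) → ℂ) : ℝ := ∫ U, ‖F U‖ ^ 2 ∂(Measure.pi fun _ : E => μ)

omit [MeasurableSpace G] in
/-- polynomials in the entries of the matrices and their complex conjugates -/
inductive IsPol {ι : Type} : ((ι → G) → ℂ) → Prop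
  | const (c : ℂ) : IsPol fun _ => c
  | ent (i : ι) (a b : Fin N) : IsPol fun p => mt (p i) a b
  | cnj (i : ι) (a b : Fin N) : IsPol fun p => conj (mt (p i) a b)
  | add {f g : (ι → G) → ℂ} : IsPol f → IsPol g → IsPol fun p => f p + g p
  | mul {f g : (ι → G) → ℂ} : IsPol f → IsPol g → IsPol fun p => f p * g p

/-- the coordinates: `none` is the constant `1`, `some (a, b, false)` the entry `a b` and
`some (a, b, true)` its complex conjugate -/
def crd (c : Option (Fin N × Fin N × Bool)) (g : G) : ℂ :=
  match c with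
  | none => 1
  | some (a, b, false) => mt g a b
  | some (a, b, true) => conj (mt g a b)

end

end Pool.Agent.H189.WA
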