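import Mathlib
import Pool.Agent.H189.KS.Vec
import Pool.Agent.H189.KS.One

/-!
# Division by a covariant family
-/

open MeasureTheory Matrix
open scoped ComplexConjugate Matrix.Norms.Frobenius ComplexOrder

namespace Pool.Agent.H189.WA

open Pool.Agent.H189.KS

set_option linter.unusedSectionVars false
set_option linter.unusedVariables false

noncomputable section

variable {M M' M'' n : ℕ}

/-- the positive matrix of the family -/
def Hm (A : Fin n → Matrix (Fin M'') (Fin M) ℂ) (η : ℝ) : Matrix (Fin M) (Fin M) ℂ :=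
  ∑ k, (A k)ᴴ * A k + (η : ℂ) • (1 : Matrix (Fin M) (Fin M) ℂ)

/-- its inverse -/
def Rm (A : Fin n → Matrix (Fin M'') (Fin M) ℂ) (η : ℝ) : Matrix (Fin M) (Fin M) ℂ := (Hm A η)⁻¹

lemma Hm_posDef (A : Fin n → Matrix (Fin M'') (Fin M) ℂ) {η : ℝ} (hη : 0 < η) :
    (Hm A η).PosDef := by
  unfold Hm
  refine Matrix.PosDef.posSemidef_add ?_ ?_
  · exact Matrix.posSemidef_sum _ fun k _ => Matrix.posSemidef_conjTranspose_mul_self _
  · have h1 : (0 : ℂ) < (η : ℂ) := by exact_mod_cast hη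
    exact Matrix.PosDef.one.smul h1

lemma Hm_mul_Rm (A : Fin n → Matrix (Fin M'') (Fin M) ℂ) {η : ℝ} (hη : 0 < η) :
    Hm A η * Rm A η = 1 := by
  unfold Rm
  exact Matrix.mul_nonsing_inv _ ((Matrix.isUnit_iff_isUnit_det _).1 (Hm_posDef A hη).isUnit)

/-- the solution of the division -/
def dv (A : Fin n → Matrix (Fin M'') (Fin M) ℂ) (η : ℝ) (ψ : HV M M') : HV M M' :=
  lm M' (Rm A η) ψ

lemma dv_eq (A : Fin n → Matrix (Fin M'') (Fin M) ℂ) {η : ℝ} (hη : 0 < η) (ψ : HV M M') :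
    ψ = ∑ k, lm M' (A k)ᴴ (lm M' (A k) (dv A η ψ)) + η • dv A η ψ := by
  have h1 : toM ψ = Hm A η * (Rm A η * toM ψ) := by
    rw [← Matrix.mul_assoc, Hm_mul_Rm A hη, Matrix.one_mul]
  have h2 : ∀ (s : Finset (Fin n)) (f : Fin n → HV M M'), toM (∑ k ∈ s, f k) =
      ∑ k ∈ s, toM (f k) := by
    intro s f
    classical
    induction s using Finset.induction_on with
    | empty => rfl
    | insert i s hi ih => rw [Finset.sum_insert hi, Finset.sum_insert hi, toM_add, ih]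
  apply toM_inj
  rw [toM_add, h2, toM_smul]
  rw [h1]
  unfold dv Hm
  simp only [toM_lm]
  rw [Matrix.add_mul, Matrix.smul_mul, Matrix.one_mul, Matrix.sum_mul]
  congr 1
  refine Finset.sum_congr rfl fun k _ => ?_
  rw [Matrix.mul_assoc]

lemma inner_dv (A : Fin n → Matrix (Fin M'') (Fin M) ℂ) {η : ℝ} (hη : 0 < η) (ψ : HV M M') :
    inner ℝ (dv A η ψ) ψ = ∑ k, ‖lm M' (A k) (dv A η ψ)‖ ^ 2 + η * ‖dv A η ψ‖ ^ 2 := by
  calc inner ℝ (dv A η ψ) ψ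
      = inner ℝ (dv A η ψ) (∑ k, lm M' (A k)ᴴ (lm M' (A k) (dv A η ψ)) + η • dv A η ψ) :=
        congrArg (fun ξ => inner ℝ (dv A η ψ) ξ) (dv_eq A hη ψ)
    _ = _ := by
      rw [inner_add_right, inner_smul_right, real_inner_self_eq_norm_sq, inner_sum]
      congr 1
      refine Finset.sum_congr rfl fun k _ => ?_
      rw [← lm_adj, real_inner_self_eq_norm_sq]

lemma dv_norm (A : Fin n → Matrix (Fin M'') (Fin M) ℂ) {η : ℝ} (hη : 0 < η) (ψ : HV M M') :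
    η * ‖dv A η ψ‖ ≤ ‖ψ‖ := by
  have h1 := inner_dv A hη ψ
  have h2 := real_inner_le_norm (dv A η ψ) ψ
  have h3 : 0 ≤ ∑ k, ‖lm M' (A k) (dv A η ψ)‖ ^ 2 := Finset.sum_nonneg fun k _ => by positivity
  rcases (norm_nonneg (dv A η ψ)).eq_or_lt with h0 | h0
  · rw [← h0, mul_zero]; exact norm_nonneg _
  · have h4 : η * ‖dv A η ψ‖ * ‖dv A η ψ‖ ≤ ‖ψ‖ * ‖dv A η ψ‖ := by nlinarith
    exact le_of_mul_le_mul_right h4 h0

lemma dv_sum (A : Fin n → Matrix (Fin M'') (Fin M) ℂ) {η : ℝ} (hη : 0 < η) (ψ : HV M M') :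
    ∑ k, ‖lm M' (A k) (dv A η ψ)‖ ^ 2 ≤ ‖ψ‖ ^ 2 / η := by
  have h1 := inner_dv A hη ψ
  have h2 := real_inner_le_norm (dv A η ψ) ψ
  have h3 := dv_norm A hη ψ
  rw [le_div_iff₀ hη]
  have h4 : 0 ≤ η * ‖dv A η ψ‖ ^ 2 := by positivity
  have h5 := norm_nonneg ψ
  have h6 : (η * ‖dv A η ψ‖) * ‖ψ‖ ≤ ‖ψ‖ * ‖ψ‖ := mul_le_mul_of_nonneg_right h3 h5
  nlinarith

lemma dv_small (A : Fin n → Matrix (Fin M'') (Fin M) ℂ) {η s : ℝ} (hη : 0 < η) (hs : 0 ≤ s)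
    (hA : ∀ v : Fin M → ℂ, s * ∑ j, ‖v j‖ ^ 2 ≤ ∑ k, ∑ i, ‖(A k *ᵥ v) i‖ ^ 2) (ψ : HV M M') :
    (s + η) * ‖dv A η ψ‖ ≤ ‖ψ‖ := by
  have h1 := inner_dv A hη ψ
  have h2 := real_inner_le_norm (dv A η ψ) ψ
  have h3 : s * ‖dv A η ψ‖ ^ 2 ≤ ∑ k, ‖lm M' (A k) (dv A η ψ)‖ ^ 2 := by
    rw [normsq_col, Finset.mul_sum]
    refine (Finset.sum_le_sum fun j _ => hA fun k => toM (dv A η ψ) k j).trans (le_of_eq ?_)
    rw [Finset.sum_comm]
    exact Finset.sum_congr rfl fun k _ => (normsq_lm _ _).symm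
  rcases (norm_nonneg (dv A η ψ)).eq_or_lt with h0 | h0
  · rw [← h0, mul_zero]; exact norm_nonneg _
  · have h4 : (s + η) * ‖dv A η ψ‖ * ‖dv A η ψ‖ ≤ ‖ψ‖ * ‖dv A η ψ‖ := by nlinarith
    exact le_of_mul_le_mul_right h4 h0

lemma Hm_cont {X : Type} [TopologicalSpace X] {A : Fin n → X → Matrix (Fin M'') (Fin M) ℂ}
    (hA : ∀ k, Continuous (A k)) (η : ℝ) : Continuous fun x => Hm (fun k => A k x) η := by
  unfold Hm
  refine (continuous_finsetSum _ fun k _ => ?_).add continuous_const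
  exact (hA k).matrix_conjTranspose.matrix_mul (hA k)

lemma Rm_cont {X : Type} [TopologicalSpace X] {A : Fin n → X → Matrix (Fin M'') (Fin M) ℂ}
    (hA : ∀ k, Continuous (A k)) {η : ℝ} (hη : 0 < η) :
    Continuous fun x => Rm (fun k => A k x) η := by
  unfold Rm
  have h1 : ∀ x, (Hm (fun k => A k x) η)⁻¹ =
      (Hm (fun k => A k x) η).det⁻¹ • (Hm (fun k => A k x) η).adjugate := by
    intro x
    rw [Matrix.inv_def, Ring.inverse_eq_inv']
  simp only [h1]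
  have hH := Hm_cont hA η
  refine Continuous.smul (hH.matrix_det.inv₀ fun x => ?_) hH.matrix_adjugate
  exact ((Matrix.isUnit_iff_isUnit_det _).1 (Hm_posDef (fun k => A k x) hη).isUnit).ne_zero

/-- covariance of the inverse -/
lemma Rm_cov {A B : Fin n → Matrix (Fin M'') (Fin M) ℂ} {η : ℝ} (hη : 0 < η)
    (k : UU M) (t : UU M'') (h : ∀ i, B i = (t : Mt M'') * A i * (k : Mt M)ᴴ) :
    Rm B η = (k : Mt M) * Rm A η * (k : Mt M)ᴴ := by
  have hk : (k : Mt M) * (k : Mt M)ᴴ = 1 := (Matrix.mem_unitaryGroup_iff).1 k.2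
  have hk' : (k : Mt M)ᴴ * (k : Mt M) = 1 := unit_mul k
  have ht : (t : Mt M'')ᴴ * (t : Mt M'') = 1 := unit_mul t
  have h1 : Hm B η = (k : Mt M) * Hm A η * (k : Mt M)ᴴ := by
    unfold Hm
    rw [Matrix.mul_add, Matrix.add_mul, Matrix.mul_smul, Matrix.mul_one, Matrix.smul_mul, hk,
      Matrix.mul_sum, Matrix.sum_mul]
    congr 1
    refine Finset.sum_congr rfl fun i _ => ?_
    rw [h i, conjTranspose_mul, conjTranspose_mul, conjTranspose_conjTranspose]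
    calc (k : Mt M) * ((A i)ᴴ * (t : Mt M'')ᴴ) * ((t : Mt M'') * A i * (k : Mt M)ᴴ)
        = (k : Mt M) * ((A i)ᴴ * (((t : Mt M'')ᴴ * (t : Mt M'')) * A i)) * (k : Mt M)ᴴ := by
          simp only [Matrix.mul_assoc]
      _ = _ := by rw [ht, Matrix.one_mul]
  unfold Rm
  refine Matrix.inv_eq_right_inv ?_
  rw [h1]
  calc (k : Mt M) * Hm A η * (k : Mt M)ᴴ * ((k : Mt M) * (Hm A η)⁻¹ * (k : Mt M)ᴴ)
      = (k : Mt M) * (Hm A η * (((k : Mt M)ᴴ * (k : Mt M)) * (Hm A η)⁻¹)) * (k : Mt M)ᴴ := by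
        simp only [Matrix.mul_assoc]
    _ = 1 := by
        rw [hk', Matrix.one_mul]
        have := Hm_mul_Rm A hη
        unfold Rm at this
        rw [this, Matrix.mul_one, hk]

end

end Pool.Agent.H189.WA
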