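import Mathlib
import Pool.Agent.H189.WA.Base

/-!
# Statements of the parts
-/

open MeasureTheory Matrix Filter
open scoped ContDiff ComplexConjugate

namespace Pool.Agent.H189.WA

open Pool.Agent.H189.KS

set_option linter.unusedSectionVars false
set_option linter.unusedVariables false

noncomputable section

/-- POS. Kernels which are products of powers and exponentials of `Re tr (U_e V_e*)` are positive
definite. -/
def S_POS : Prop := ∀ (N : ℕ) (G : Subgroup (UU N)), IsClosed (G : Set (UU N)) →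
  ∀ [MeasurableSpace G] [BorelSpace G] (μ : Measure G) [IsProbabilityMeasure μ]
    (E : Type) [Fintype E] (w : (E → G) → ℝ), Continuous w →
    ∀ (j : E → ℕ) (b : E → ℝ), (∀ e, 0 ≤ b e) → ∀ F : (E → G) → ℂ, Continuous F →
    0 ≤ frm μ (fun U V => w U * w V *
      ∏ e, (rt (U e) (V e) ^ j e * Real.exp (b e * rt (U e) (V e)))) F F

/-- MULT. Multiplication by an entry of the matrix of a link. -/
def S_MULT : Prop := ∀ (N : ℕ) (G : Subgroup (UU N)), IsClosed (G : Set (UU N)) →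
  ∀ [MeasurableSpace G] [BorelSpace G] (μ : Measure G) [IsProbabilityMeasure μ]
    (E : Type) [Fintype E] (w : (E → G) → ℝ), Continuous w → (∀ U, 0 ≤ w U) →
    ∀ β : ℝ, 0 < β → ∀ (e : E) (i j : Fin N) (F : (E → G) → ℂ), Continuous F → ∀ J : ℕ,
    frm μ (ker β w) (fun U => mt (U e) i j * F U) (fun U => mt (U e) i j * F U) ≤
        2 * J / β * frm μ (ker β w) F F +
          2 * N * Real.exp (β * N) * tl (β * N) J * frm μ (ker β w) (av F) (av F) ∧
    frm μ (ker β w) (fun U => conj (mt (U e) i j) * F U) (fun U => conj (mt (U e) i j) * F U) ≤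
        2 * J / β * frm μ (ker β w) F F +
          2 * N * Real.exp (β * N) * tl (β * N) J * frm μ (ker β w) (av F) (av F)

/-- STR. The kernel is strictly positive definite. -/
def S_STR : Prop := ∀ (N : ℕ) (G : Subgroup (UU N)), IsClosed (G : Set (UU N)) →
  ∀ [MeasurableSpace G] [BorelSpace G] (μ : Measure G) [IsProbabilityMeasure μ]
    [μ.IsHaarMeasure] (E : Type) [Fintype E] (w : (E → G) → ℝ), Continuous w →
    (∀ U, 0 < w U) → ∀ β : ℝ, 0 < β → ∀ F : (E → G) → ℂ, Continuous F →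
    frm μ (ker β w) F F = 0 → ∀ U, F U = 0

/-- SUPB. Polynomials of degree at most `J` in each of `m` matrices: the supremum of the square is
at most the dimension times the mean. -/
def S_SUPB : Prop := ∀ (N : ℕ) (G : Subgroup (UU N)), IsClosed (G : Set (UU N)) →
  ∀ [MeasurableSpace G] [BorelSpace G] (μ : Measure G) [IsProbabilityMeasure μ]
    [μ.IsHaarMeasure] (m J : ℕ)
    (A : (Fin m → Fin J → Option (Fin N × Fin N × Bool)) → ℂ) (f : (Fin m → G) → ℂ),
    (∀ p, f p = ∑ c, A c * ∏ i, ∏ t, crd (c i t) (p i)) →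
    ∀ p, ‖f p‖ ^ 2 ≤ ((J : ℝ) + 1) ^ (2 * N ^ 2 * m) *
      ∫ q, ‖f q‖ ^ 2 ∂(Measure.pi fun _ : Fin m => μ)

/-- NONC. A function in the range of the transfer matrix is not concentrated on the configurations,
whose loop variables `p i = α i * U (e i) * α' i` belong to a small set. -/
def S_NONC : Prop := ∀ (N m : ℕ) (β cw : ℝ), 0 < β → 0 < cw → ∃ C : ℝ, 0 < C ∧
  ∀ (G : Subgroup (UU N)), IsClosed (G : Set (UU N)) →
  ∀ [MeasurableSpace G] [BorelSpace G] (μ : Measure G) [IsProbabilityMeasure μ]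
    [μ.IsHaarMeasure] (E : Type) [Fintype E] [DecidableEq E] (e : Fin m → E),
    Function.Injective e → ∀ (p α α' : (E → G) → Fin m → G), Continuous α → Continuous α' →
    (∀ U i, p U i = α U i * U (e i) * α' U i) →
    (∀ U U' : E → G, (∀ e', (∀ i, e' ≠ e i) → U e' = U' e') → α U = α U' ∧ α' U = α' U') →
    ∀ (w : (E → G) → ℝ), Continuous w → (∀ U, 0 < w U) →
    (∀ U U' : E → G, (∀ e', (∀ i, e' ≠ e i) → U e' = U' e') → w U ≤ cw * w U') →
    ∀ (F : (E → G) → ℂ), Continuous F → ∀ S : Set (Fin m → G), MeasurableSet S → ∀ J : ℕ,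
    ∫ U, S.indicator (fun _ => (1 : ℝ)) (p U) * ‖opr μ (ker β w) F U‖ ^ 2
        ∂(Measure.pi fun _ : E => μ) ≤
      C * (((J : ℝ) + 1) ^ (2 * N ^ 2 * m) * (Measure.pi fun _ : Fin m => μ).real S *
          n2 μ (opr μ (ker β w) F) +
        (1 + ((J : ℝ) + 1) ^ (2 * N ^ 2 * m) * (Measure.pi fun _ : Fin m => μ).real S) *
          tl (β * N) J ^ 2 * n2 μ (opr μ (ker β w) (av F)))

/-- ODE. Sublevel sets of the solutions of a linear differential equation with constant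
coefficients. -/
def S_ODE : Prop := ∀ (q : ℕ) (c : Fin q → ℝ), ∃ C a : ℝ, 0 < C ∧ 0 < a ∧ ∀ φ : ℝ → ℝ,
  ContDiff ℝ ∞ φ → (∀ t, iteratedDeriv q φ t = ∑ j : Fin q, c j * iteratedDeriv j φ t) →
  ∀ M s : ℝ, 0 < M → 0 < s → s ≤ 1 → (∃ t ∈ Set.Icc (-1 : ℝ) 1, M ≤ |φ t|) →
  volume.real {t : ℝ | t ∈ Set.Icc (-1 : ℝ) 1 ∧ |φ t| ≤ s * M} ≤ C * s ^ a

/-- GEN. The one-parameter subgroups generate a dense subgroup. -/
def S_GEN : Prop := ∀ (N n : ℕ) (G : Subgroup (UU N)), IsClosed (G : Set (UU N)) →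
  ∀ [ConnectedSpace G] (B : LieBasis G n),
    Dense ((Subgroup.closure {g : G | ∃ a t, g = B.ex a t} : Subgroup G) : Set G)

/-- LB. A basis of the Lie algebra exists. -/
def S_LB : Prop := ∀ (N : ℕ) (G : Subgroup (UU N)), IsClosed (G : Set (UU N)) →
  ∃ n : ℕ, Nonempty (LieBasis G n)

/-- SUBL. Sublevel sets of polynomials. -/
def S_SUBL : Prop := ∀ (N : ℕ) (G : Subgroup (UU N)), IsClosed (G : Set (UU N)) →
  ∀ [ConnectedSpace G] [MeasurableSpace G] [BorelSpace G] (μ : Measure G)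
    [IsProbabilityMeasure μ] [μ.IsHaarMeasure] (m : ℕ) (f : (Fin m → G) → ℂ), IsPol f →
    (∃ p, f p ≠ 0) → ∃ C a : ℝ, 0 < C ∧ 0 < a ∧ ∀ s : ℝ, 0 < s →
      (Measure.pi fun _ : Fin m => μ).real {p | ‖f p‖ ≤ s} ≤ C * s ^ a

/-- COVP. Covariant polynomials: polynomials `h_k` on `G ^ m` with values in the linear maps
`C^M → C^M'`, such that `h_k (g p g⁻¹) = τ g h_k (p) (κ g)*`, and such that no vector is almost
annihilated by all `h_k (p)`, except for a set of `p` whose measure is at most a power. -/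
def S_COVP : Prop := ∀ (N : ℕ) (G : Subgroup (UU N)), IsClosed (G : Set (UU N)) →
  ∀ [ConnectedSpace G] [MeasurableSpace G] [BorelSpace G] (μ : Measure G)
    [IsProbabilityMeasure μ] [μ.IsHaarMeasure] (M M' : ℕ)
    (κ : G →* Matrix.unitaryGroup (Fin M) ℂ) (τ : G →* Matrix.unitaryGroup (Fin M') ℂ),
    Continuous κ → Continuous τ → 0 < M' →
    (∀ z : G, (∀ h : G, z * h = h * z) → ∃ c : ℂ,
      (κ z : Matrix (Fin M) (Fin M) ℂ) = c • 1 ∧ (τ z : Matrix (Fin M') (Fin M') ℂ) = c • 1) →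
  ∀ (m : ℕ), (∀ᵐ p ∂(Measure.pi fun _ : Fin m => μ), ∀ g : G, (∀ i, g * p i = p i * g) →
    ∀ h : G, g * h = h * g) →
  ∃ (K : ℕ) (h : Fin K → (Fin m → G) → Matrix (Fin M') (Fin M) ℂ) (C a : ℝ), 0 < C ∧ 0 < a ∧
    (∀ k i j, IsPol fun p => h k p i j) ∧
    (∀ k (g : G) (p : Fin m → G), h k (fun i => g * p i * g⁻¹) =
      (τ g : Matrix (Fin M') (Fin M') ℂ) * h k p * (κ g : Matrix (Fin M) (Fin M) ℂ)ᴴ) ∧
    ∀ s : ℝ, 0 < s → s ≤ 1 → ∃ S : Set (Fin m → G), MeasurableSet S ∧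
      (Measure.pi fun _ : Fin m => μ).real S ≤ C * s ^ a ∧
      ∀ p, p ∉ S → ∀ v : Fin M → ℂ,
        s * ∑ j, ‖v j‖ ^ 2 ≤ ∑ k, ∑ i, ‖(h k p *ᵥ v) i‖ ^ 2

end

end Pool.Agent.H189.WA
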