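import Mathlib
import Pool.Agent.H189.WA.Stm
import Pool.Agent.H189.KS.E0al

/-!
# Elementary properties of the form
-/

open MeasureTheory Matrix
open scoped ComplexConjugate

namespace Pool.Agent.H189.WA

open Pool.Agent.H189.KS

set_option linter.unusedSectionVars false
set_option linter.unusedVariables false

noncomputable section

variable {N : ℕ} {G : Subgroup (UU N)} {E : Type} [Fintype E]

section algebra

lemma abs_rt_le (a b : G) : |rt a b| ≤ N := by
  unfold rt
  have h : mt a * (mt b)ᴴ = mt (a * b⁻¹) := by rw [mt_mul, mt_inv]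
  rw [h, Matrix.trace, Complex.re_sum]
  refine (Finset.abs_sum_le_sum_abs _ _).trans ?_
  have h2 : ∀ i : Fin N, |(diag (mt (a * b⁻¹)) i).re| ≤ 1 := by
    intro i
    refine (Complex.abs_re_le_norm _).trans ?_
    exact entry_norm_bound_of_unitary (a * b⁻¹ : G).1.2 i i
  calc ∑ i, |(diag (mt (a * b⁻¹)) i).re| ≤ ∑ _i : Fin N, (1 : ℝ) :=
        Finset.sum_le_sum fun i _ => h2 i
    _ = N := by simp

lemma rt_comm (a b : G) : rt a b = rt b a := by
  unfold rt
  have h : mt b * (mt a)ᴴ = (mt a * (mt b)ᴴ)ᴴ := by
    rw [conjTranspose_mul, conjTranspose_conjTranspose]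
  rw [h, trace_conjTranspose]
  exact (Complex.conj_re _).symm

lemma norm_mt_le (g : G) (i j : Fin N) : ‖mt g i j‖ ≤ 1 :=
  entry_norm_bound_of_unitary g.1.2 i j

lemma rt_cont : Continuous fun q : G × G => rt q.1 q.2 := by
  have h1 : Continuous fun q : G × G => mt q.1 := mt_cont.comp continuous_fst
  have h2 : Continuous fun q : G × G => mt q.2 := mt_cont.comp continuous_snd
  exact Complex.continuous_re.comp ((h1.mul h2.star).matrix_trace)

lemma ker_comm (β : ℝ) (w : (E → G) → ℝ) (U V : E → G) : ker β w U V = ker β w V U := by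
  unfold ker
  rw [mul_comm (w U) (w V)]
  congr 1
  exact Finset.prod_congr rfl fun e _ => by rw [rt_comm]

lemma ker_cont (β : ℝ) {w : (E → G) → ℝ} (hw : Continuous w) :
    Continuous fun q : (E → G) × (E → G) => ker β w q.1 q.2 := by
  unfold ker
  refine ((hw.comp continuous_fst).mul (hw.comp continuous_snd)).mul ?_
  refine continuous_finsetProd _ fun e _ => Real.continuous_exp.comp (continuous_const.mul ?_)
  have h1 : Continuous fun q : (E → G) × (E → G) => (q.1 e, q.2 e) :=
    ((continuous_apply e).comp continuous_fst).prodMk ((continuous_apply e).comp continuous_snd)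
  exact rt_cont.comp h1

lemma ker_pos (β : ℝ) {w : (E → G) → ℝ} (hw : ∀ U, 0 < w U) (U V : E → G) :
    0 < ker β w U V := by
  unfold ker
  have h1 : 0 < ∏ e, Real.exp (β * rt (U e) (V e)) :=
    Finset.prod_pos fun e _ => Real.exp_pos _
  have := hw U
  have := hw V
  positivity

end algebra

section form

variable [CompactSpace G] [SecondCountableTopology G] [MeasurableSpace G] [BorelSpace G]
  (μ : Measure G) [IsProbabilityMeasure μ]

lemma intg {X : Type} [NormedAddCommGroup X] [SecondCountableTopology X] {H : (E → G) → X}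
    (hH : Continuous H) : Integrable H (Measure.pi fun _ : E => μ) :=
  hH.integrable_of_hasCompactSupport (HasCompactSupport.of_compactSpace _)

lemma intg2 {X : Type} [NormedAddCommGroup X] [SecondCountableTopology X]
    {H : (E → G) × (E → G) → X} (hH : Continuous H) :
    Integrable H ((Measure.pi fun _ : E => μ).prod (Measure.pi fun _ : E => μ)) :=
  hH.integrable_of_hasCompactSupport (HasCompactSupport.of_compactSpace _)

variable {K : (E → G) → (E → G) → ℝ} (hK : Continuous fun q : (E → G) × (E → G) => K q.1 q.2)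

lemma cont_param {X : Type} [NormedAddCommGroup X] [NormedSpace ℝ X] [CompleteSpace X]
    {H : (E → G) → (E → G) → X} (hH : Continuous fun q : (E → G) × (E → G) => H q.1 q.2) :
    Continuous fun U => ∫ V, H U V ∂(Measure.pi fun _ : E => μ) := by
  have h := continuous_parametric_integral_of_continuous
    (μ := (Measure.pi fun _ : E => μ)) (f := H) (s := Set.univ) hH isCompact_univ
  simpa using h

include hK in
lemma opr_cont {F : (E → G) → ℂ} (hF : Continuous F) : Continuous (opr μ K F) := by
  unfold opr
  refine cont_param μ (H := fun U V => F V * (K U V : ℂ)) ?_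
  exact (hF.comp continuous_snd).mul (Complex.continuous_ofReal.comp hK)

include hK in
lemma frm_prod {F H : (E → G) → ℂ} (hF : Continuous F) (hH : Continuous H) :
    frm μ K F H = ∫ q : (E → G) × (E → G), (conj (F q.1) * H q.2).re * K q.1 q.2
      ∂((Measure.pi fun _ : E => μ).prod (Measure.pi fun _ : E => μ)) := by
  unfold frm
  rw [integral_prod]
  refine intg2 μ ?_
  exact (Complex.continuous_re.comp (((Complex.continuous_conj.comp hF).comp continuous_fst).mul
    (hH.comp continuous_snd))).mul hK

lemma c2 {F H : (E → G) → ℂ} (hK : Continuous fun q : (E → G) × (E → G) => K q.1 q.2)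
    (hF : Continuous F) (hH : Continuous H) :
    Continuous fun q : (E → G) × (E → G) => (conj (F q.1) * H q.2).re * K q.1 q.2 :=
  (Complex.continuous_re.comp (((Complex.continuous_conj.comp hF).comp continuous_fst).mul
    (hH.comp continuous_snd))).mul hK

include hK in
lemma frm_add_right {F H H' : (E → G) → ℂ} (hF : Continuous F) (hH : Continuous H)
    (hH' : Continuous H') :
    frm μ K F (fun U => H U + H' U) = frm μ K F H + frm μ K F H' := by
  have hc : Continuous fun U => H U + H' U := hH.add hH'
  rw [frm_prod μ hK hF hc, frm_prod μ hK hF hH, frm_prod μ hK hF hH',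
    ← integral_add (intg2 μ (c2 hK hF hH)) (intg2 μ (c2 hK hF hH'))]
  refine integral_congr_ae (Filter.Eventually.of_forall fun q => ?_)
  dsimp only
  rw [mul_add, Complex.add_re, add_mul]

include hK in
lemma frm_add_left {F H H' : (E → G) → ℂ} (hF : Continuous F) (hH : Continuous H)
    (hH' : Continuous H') :
    frm μ K (fun U => H U + H' U) F = frm μ K H F + frm μ K H' F := by
  have hc : Continuous fun U => H U + H' U := hH.add hH'
  rw [frm_prod μ hK hc hF, frm_prod μ hK hH hF, frm_prod μ hK hH' hF,
    ← integral_add (intg2 μ (c2 hK hH hF)) (intg2 μ (c2 hK hH' hF))]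
  refine integral_congr_ae (Filter.Eventually.of_forall fun q => ?_)
  dsimp only
  rw [map_add, add_mul, Complex.add_re, add_mul]

lemma frm_smul_right (c : ℝ) (F H : (E → G) → ℂ) :
    frm μ K F (fun U => (c : ℂ) * H U) = c * frm μ K F H := by
  unfold frm
  rw [← integral_const_mul]
  refine integral_congr_ae (Filter.Eventually.of_forall fun U => ?_)
  dsimp only
  rw [← integral_const_mul]
  refine integral_congr_ae (Filter.Eventually.of_forall fun V => ?_)
  dsimp only
  rw [mul_left_comm, Complex.re_ofReal_mul, mul_assoc]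

lemma frm_smul_left (c : ℝ) (F H : (E → G) → ℂ) :
    frm μ K (fun U => (c : ℂ) * F U) H = c * frm μ K F H := by
  unfold frm
  rw [← integral_const_mul]
  refine integral_congr_ae (Filter.Eventually.of_forall fun U => ?_)
  dsimp only
  rw [← integral_const_mul]
  refine integral_congr_ae (Filter.Eventually.of_forall fun V => ?_)
  dsimp only
  rw [map_mul, Complex.conj_ofReal, mul_assoc, Complex.re_ofReal_mul, mul_assoc]

/-- multiplication of both functions by the same constant -/
lemma frm_cmul (c : ℂ) (F : (E → G) → ℂ) :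
    frm μ K (fun U => c * F U) (fun U => c * F U) = ‖c‖ ^ 2 * frm μ K F F := by
  unfold frm
  rw [← integral_const_mul]
  refine integral_congr_ae (Filter.Eventually.of_forall fun U => ?_)
  dsimp only
  rw [← integral_const_mul]
  refine integral_congr_ae (Filter.Eventually.of_forall fun V => ?_)
  dsimp only
  have h : conj (c * F U) * (c * F V) = ((‖c‖ ^ 2 : ℝ) : ℂ) * (conj (F U) * F V) := by
    rw [map_mul]
    have h1 : conj c * c = ((‖c‖ ^ 2 : ℝ) : ℂ) := by
      rw [mul_comm, Complex.mul_conj, Complex.normSq_eq_norm_sq]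
    rw [← h1]
    ring
  rw [h, Complex.re_ofReal_mul, mul_assoc]

include hK in
lemma frm_comm (hs : ∀ U V, K U V = K V U) {F H : (E → G) → ℂ} (hF : Continuous F)
    (hH : Continuous H) : frm μ K F H = frm μ K H F := by
  rw [frm_prod μ hK hF hH]
  unfold frm
  rw [integral_prod_symm _ (intg2 μ (c2 hK hF hH))]
  refine integral_congr_ae (Filter.Eventually.of_forall fun V => ?_)
  dsimp only
  refine integral_congr_ae (Filter.Eventually.of_forall fun U => ?_)
  dsimp only
  rw [hs V U]
  congr 1
  rw [← Complex.conj_re, map_mul, Complex.conj_conj, mul_comm]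

include hK in
lemma frm_opr {F H : (E → G) → ℂ} (hF : Continuous F) (hH : Continuous H) :
    frm μ K F H = ∫ U, (conj (F U) * opr μ K H U).re ∂(Measure.pi fun _ : E => μ) := by
  unfold frm opr
  refine integral_congr_ae (Filter.Eventually.of_forall fun U => ?_)
  dsimp only
  have hc : Continuous fun V => H V * (K U V : ℂ) :=
    hH.mul (Complex.continuous_ofReal.comp (hK.comp (Continuous.prodMk_right U)))
  rw [← integral_const_mul]
  have h1 : (∫ V, conj (F U) * (H V * (K U V : ℂ)) ∂(Measure.pi fun _ : E => μ)).re =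
      ∫ V, (conj (F U) * (H V * (K U V : ℂ))).re ∂(Measure.pi fun _ : E => μ) := by
    have := Complex.reCLM.integral_comp_comm (intg μ (continuous_const.mul hc) :
      Integrable (fun V => conj (F U) * (H V * (K U V : ℂ))) (Measure.pi fun _ : E => μ))
    exact this.symm
  rw [h1]
  refine integral_congr_ae (Filter.Eventually.of_forall fun V => ?_)
  dsimp only
  rw [← mul_assoc, Complex.re_mul_ofReal]

include hK in
/-- Cauchy-Schwarz -/
lemma frm_cs (hs : ∀ U V, K U V = K V U) (hp : ∀ F, Continuous F → 0 ≤ frm μ K F F)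
    {F H : (E → G) → ℂ} (hF : Continuous F) (hH : Continuous H) :
    frm μ K F H ^ 2 ≤ frm μ K F F * frm μ K H H := by
  have h1 : ∀ t : ℝ, 0 ≤ frm μ K H H * (t * t) + 2 * frm μ K F H * t + frm μ K F F := by
    intro t
    have hc : Continuous fun U => (t : ℂ) * H U := continuous_const.mul hH
    have hc2 : Continuous fun U => F U + (t : ℂ) * H U := hF.add hc
    have h2 := hp (fun U => F U + (t : ℂ) * H U) hc2
    rw [frm_add_right μ hK hc2 hF hc, frm_add_left μ hK hF hF hc,
      frm_add_left μ hK hc hF hc, frm_smul_right, frm_smul_left, frm_smul_left, frm_smul_right,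
      frm_comm μ hK hs hH hF] at h2
    linarith
  have h3 := discrim_le_zero h1
  unfold discrim at h3
  linarith

include hK in
lemma frm_add_le (hs : ∀ U V, K U V = K V U) (hp : ∀ F, Continuous F → 0 ≤ frm μ K F F)
    {F H : (E → G) → ℂ} (hF : Continuous F) (hH : Continuous H) :
    frm μ K (fun U => F U + H U) (fun U => F U + H U) ≤
      2 * frm μ K F F + 2 * frm μ K H H := by
  have hc : Continuous fun U => ((-1 : ℝ) : ℂ) * H U := continuous_const.mul hH
  have hc2 : Continuous fun U => F U + ((-1 : ℝ) : ℂ) * H U := hF.add hc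
  have hc3 : Continuous fun U => F U + H U := hF.add hH
  have h2 := hp (fun U => F U + ((-1 : ℝ) : ℂ) * H U) hc2
  rw [frm_add_right μ hK hc2 hF hc, frm_add_left μ hK hF hF hc,
    frm_add_left μ hK hc hF hc, frm_smul_right, frm_smul_left, frm_smul_left, frm_smul_right,
    frm_comm μ hK hs hH hF] at h2
  rw [frm_add_right μ hK hc3 hF hH, frm_add_left μ hK hF hF hH,
    frm_add_left μ hK hH hF hH, frm_comm μ hK hs hH hF]
  linarith

include hK in
lemma frm_sum_le (hs : ∀ U V, K U V = K V U) (hp : ∀ F, Continuous F → 0 ≤ frm μ K F F)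
    {ι : Type} [DecidableEq ι] (T : Finset ι) (F : ι → (E → G) → ℂ)
    (hF : ∀ i, Continuous (F i)) :
    frm μ K (fun U => ∑ i ∈ T, F i U) (fun U => ∑ i ∈ T, F i U) ≤
      2 ^ T.card * ∑ i ∈ T, frm μ K (F i) (F i) := by
  induction T using Finset.induction_on with
  | empty =>
    simp only [Finset.sum_empty, mul_zero]
    unfold frm
    simp
  | insert i T hi ih =>
    simp only [Finset.sum_insert hi, Finset.card_insert_of_notMem hi]
    refine (frm_add_le μ hK hs hp (hF i) (continuous_finsetSum _ fun j _ => hF j)).trans ?_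
    have h1 := hp (F i) (hF i)
    have h2 : (1 : ℝ) ≤ 2 ^ T.card := one_le_pow₀ (by norm_num)
    have h3 : 0 ≤ ∑ j ∈ T, frm μ K (F j) (F j) := Finset.sum_nonneg fun j _ => hp _ (hF j)
    rw [pow_succ]
    nlinarith

lemma n2_nonneg (F : (E → G) → ℂ) : 0 ≤ n2 μ F := integral_nonneg fun U => by positivity

include hK in
/-- the form of the absolute values -/
lemma frm_le_av (hK0 : ∀ U V, 0 ≤ K U V) {F : (E → G) → ℂ} (hF : Continuous F) :
    frm μ K F F ≤ frm μ K (av F) (av F) := by
  have hav : Continuous (av F) := Complex.continuous_ofReal.comp hF.norm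
  rw [frm_prod μ hK hF hF, frm_prod μ hK hav hav]
  refine integral_mono (intg2 μ (c2 hK hF hF)) (intg2 μ (c2 hK hav hav)) fun q => ?_
  dsimp only
  refine mul_le_mul_of_nonneg_right ?_ (hK0 _ _)
  unfold av
  rw [Complex.conj_ofReal, ← Complex.ofReal_mul, Complex.ofReal_re]
  refine (Complex.re_le_norm _).trans (le_of_eq ?_)
  rw [norm_mul, RCLike.norm_conj]

end form

end

end Pool.Agent.H189.WA
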