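import Mathlib
import Pool.Agent.H189.WA.Frm
import Pool.Agent.H189.KS.Lasso

/-!
# Multiplication by polynomials
-/

open MeasureTheory Matrix
open scoped ComplexConjugate

namespace Pool.Agent.H189.WA

open Pool.Agent.H189.KS

set_option linter.unusedSectionVars false
set_option linter.unusedVariables false

noncomputable section

variable {N : ℕ} {G : Subgroup (UU N)} {E : Type} [Fintype E] [CompactSpace G]
  [SecondCountableTopology G] [MeasurableSpace G] [BorelSpace G] (μ : Measure G)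
  [IsProbabilityMeasure μ]

lemma tl_nonneg {x : ℝ} (hx : 0 ≤ x) (J : ℕ) : 0 ≤ tl x J := tsum_nonneg fun j => by positivity

/-- the weight is continuous and positive -/
def Nice (w : (E → G) → ℝ) : Prop := Continuous w ∧ ∀ U, 0 < w U

lemma ker_psd (hPOS : S_POS) (hG : IsClosed (G : Set (UU N))) {β : ℝ} (hβ : 0 < β)
    {w : (E → G) → ℝ} (hw : Continuous w) {F : (E → G) → ℂ} (hF : Continuous F) :
    0 ≤ frm μ (ker β w) F F := by
  have h := hPOS N G hG μ E w hw (fun _ => 0) (fun _ => β) (fun _ => hβ.le) F hF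
  have h2 : (fun U V : E → G => w U * w V *
      ∏ e, (rt (U e) (V e) ^ 0 * Real.exp (β * rt (U e) (V e)))) = ker β w := by
    funext U V
    unfold ker
    congr 1
    exact Finset.prod_congr rfl fun e _ => by rw [pow_zero, one_mul]
  rw [h2] at h
  exact h

/-- multiplication by `f` is controlled with the constant `C` and the power `A` of the cutoff -/
def MB (β : ℝ) (w : (E → G) → ℝ) (C : ℝ) (A : ℕ) (f : (E → G) → ℂ) : Prop :=
  Continuous f ∧ (∀ U, ‖f U‖ ≤ C) ∧ ∀ F : (E → G) → ℂ, Continuous F → ∀ J : ℕ, 1 ≤ J →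
    frm μ (ker β w) (fun U => f U * F U) (fun U => f U * F U) ≤
      C * (J : ℝ) ^ A * (frm μ (ker β w) F F +
        tl (β * N) J * frm μ (ker β w) (av F) (av F))

lemma av_cont {F : (E → G) → ℂ} (hF : Continuous F) : Continuous (av F) :=
  Complex.continuous_ofReal.comp hF.norm

section

variable (hPOS : S_POS) (hG : IsClosed (G : Set (UU N))) {β : ℝ} (hβ : 0 < β)
  {w : (E → G) → ℝ} (hw : Nice w)

include hPOS hG hβ hw

lemma rhs_nonneg {F : (E → G) → ℂ} (hF : Continuous F) (J : ℕ) :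
    0 ≤ frm μ (ker β w) F F + tl (β * N) J * frm μ (ker β w) (av F) (av F) := by
  have h1 := ker_psd μ hPOS hG hβ hw.1 hF
  have h2 := ker_psd μ hPOS hG hβ hw.1 (av_cont hF)
  have h3 := tl_nonneg (x := β * N) (by positivity) J
  positivity

lemma MB.mono {C C' : ℝ} {A A' : ℕ} {f : (E → G) → ℂ} (h : MB μ β w C A f) (hC : C ≤ C')
    (hA : A ≤ A') : MB μ β w C' A' f := by
  refine ⟨h.1, fun U => (h.2.1 U).trans hC, fun F hF J hJ => (h.2.2 F hF J hJ).trans ?_⟩
  refine mul_le_mul_of_nonneg_right ?_ (rhs_nonneg μ hPOS hG hβ hw hF J)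
  have h0 : 0 ≤ C := (norm_nonneg _).trans (h.2.1 fun _ => 1)
  have hJ1 : (1 : ℝ) ≤ J := by exact_mod_cast hJ
  have h1 : (J : ℝ) ^ A ≤ (J : ℝ) ^ A' := pow_le_pow_right₀ hJ1 hA
  exact mul_le_mul hC h1 (by positivity) (h0.trans hC)

lemma MB.const (c : ℂ) : MB μ β w (1 + ‖c‖ ^ 2) 0 (fun _ : E → G => c) := by
  refine ⟨continuous_const, fun U => by nlinarith [sq_nonneg (‖c‖ - 1), norm_nonneg c],
    fun F hF J hJ => ?_⟩
  rw [frm_cmul, pow_zero, mul_one]
  have h1 := ker_psd μ hPOS hG hβ hw.1 hF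
  have h2 := ker_psd μ hPOS hG hβ hw.1 (av_cont hF)
  have h3 := tl_nonneg (x := β * N) (by positivity) J
  have h4 := mul_nonneg h3 h2
  nlinarith [sq_nonneg ‖c‖, mul_nonneg (sq_nonneg ‖c‖) h4]

lemma MB.add {C C' : ℝ} {A A' : ℕ} {f g : (E → G) → ℂ} (h : MB μ β w C A f)
    (h' : MB μ β w C' A' g) :
    MB μ β w (2 * (C + C')) (A + A') (fun U => f U + g U) := by
  have c0 : 0 ≤ C := (norm_nonneg _).trans (h.2.1 fun _ => 1)
  have c0' : 0 ≤ C' := (norm_nonneg _).trans (h'.2.1 fun _ => 1)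
  refine ⟨h.1.add h'.1, fun U => ?_, fun F hF J hJ => ?_⟩
  · have := norm_add_le (f U) (g U)
    have := h.2.1 U
    have := h'.2.1 U
    linarith
  · have e1 : (fun U => (f U + g U) * F U) = fun U => f U * F U + g U * F U := by
      funext U; ring
    rw [e1]
    have c1 : Continuous fun U => f U * F U := h.1.mul hF
    have c1' : Continuous fun U => g U * F U := h'.1.mul hF
    have h1 := frm_add_le μ (ker_cont β hw.1) (ker_comm β w)
      (fun F hF => ker_psd μ hPOS hG hβ hw.1 hF) c1 c1'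
    have hm := (h.mono μ hPOS hG hβ hw le_rfl (Nat.le_add_right A A')).2.2 F hF J hJ
    have hm' := (h'.mono μ hPOS hG hβ hw le_rfl (Nat.le_add_left A' A)).2.2 F hF J hJ
    have e2 : 2 * (C + C') * (J : ℝ) ^ (A + A') * (frm μ (ker β w) F F +
        tl (β * N) J * frm μ (ker β w) (av F) (av F)) =
        2 * (C * (J : ℝ) ^ (A + A') * (frm μ (ker β w) F F +
          tl (β * N) J * frm μ (ker β w) (av F) (av F))) +
        2 * (C' * (J : ℝ) ^ (A + A') * (frm μ (ker β w) F F +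
          tl (β * N) J * frm μ (ker β w) (av F) (av F))) := by ring
    rw [e2]
    linarith

omit hPOS hG hβ in
lemma av_mul_le {C : ℝ} {g F : (E → G) → ℂ} (hg : Continuous g) (hF : Continuous F)
    (hC : ∀ U, ‖g U‖ ≤ C) :
    frm μ (ker β w) (av fun U => g U * F U) (av fun U => g U * F U) ≤
      C ^ 2 * frm μ (ker β w) (av F) (av F) := by
  have hK := ker_cont β hw.1
  have hgF : Continuous fun U => g U * F U := hg.mul hF
  have h1 := av_cont hgF
  have h2 := av_cont hF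
  rw [frm_prod μ hK h1 h1, frm_prod μ hK h2 h2, ← integral_const_mul]
  refine integral_mono (intg2 μ (c2 hK h1 h1)) ((intg2 μ (c2 hK h2 h2)).const_mul _) fun q => ?_
  dsimp only
  have h3 := (ker_pos β hw.2 q.1 q.2).le
  have h4 : ∀ H : (E → G) → ℂ, (conj (av H q.1) * av H q.2).re = ‖H q.1‖ * ‖H q.2‖ := by
    intro H
    unfold av
    rw [Complex.conj_ofReal, ← Complex.ofReal_mul, Complex.ofReal_re]
  rw [h4, h4, norm_mul, norm_mul, ← mul_assoc (C ^ 2)]
  refine mul_le_mul_of_nonneg_right ?_ h3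
  have a1 := hC q.1
  have a2 := hC q.2
  have b1 := norm_nonneg (g q.1)
  have b2 := norm_nonneg (g q.2)
  have b3 := norm_nonneg (F q.1)
  have b4 := norm_nonneg (F q.2)
  calc ‖g q.1‖ * ‖F q.1‖ * (‖g q.2‖ * ‖F q.2‖) = (‖g q.1‖ * ‖g q.2‖) * (‖F q.1‖ * ‖F q.2‖) := by ring
    _ ≤ (C * C) * (‖F q.1‖ * ‖F q.2‖) :=
        mul_le_mul_of_nonneg_right (mul_le_mul a1 a2 b2 (b1.trans a1)) (by positivity)
    _ = _ := by ring

lemma MB.mul {C C' : ℝ} {A A' : ℕ} {f g : (E → G) → ℂ} (h : MB μ β w C A f)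
    (h' : MB μ β w C' A' g) :
    MB μ β w (C * (2 * C' + C' ^ 2)) (A + A') (fun U => f U * g U) := by
  have c0 : 0 ≤ C := (norm_nonneg _).trans (h.2.1 fun _ => 1)
  have c0' : 0 ≤ C' := (norm_nonneg _).trans (h'.2.1 fun _ => 1)
  refine ⟨h.1.mul h'.1, fun U => ?_, fun F hF J hJ => ?_⟩
  · rw [norm_mul]
    have h1 := mul_le_mul (h.2.1 U) (h'.2.1 U) (norm_nonneg _) c0
    nlinarith [mul_nonneg c0 c0', mul_nonneg c0 (sq_nonneg C')]
  · have e1 : (fun U => f U * g U * F U) = fun U => f U * (g U * F U) := by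
      funext U; ring
    rw [e1]
    have hgF : Continuous fun U => g U * F U := h'.1.mul hF
    have h1 := h.2.2 (fun U => g U * F U) hgF J hJ
    have h2 := h'.2.2 F hF J hJ
    have h3 := av_mul_le μ hw h'.1 hF h'.2.1 (β := β)
    obtain ⟨Q, hQ⟩ : ∃ Q, Q = frm μ (ker β w) F F := ⟨_, rfl⟩
    obtain ⟨Qa, hQa⟩ : ∃ Qa, Qa = frm μ (ker β w) (av F) (av F) := ⟨_, rfl⟩
    obtain ⟨t, ht⟩ : ∃ t, t = tl (β * N) J := ⟨_, rfl⟩
    have q1 : 0 ≤ Q := by rw [hQ]; exact ker_psd μ hPOS hG hβ hw.1 hF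
    have q2 : 0 ≤ Qa := by rw [hQa]; exact ker_psd μ hPOS hG hβ hw.1 (av_cont hF)
    have q3 : 0 ≤ t := by rw [ht]; exact tl_nonneg (by positivity) J
    rw [← hQ, ← hQa, ← ht] at h2 ⊢
    rw [← hQa] at h3
    rw [← ht] at h1
    have hJ1 : (1 : ℝ) ≤ J := by exact_mod_cast hJ
    have hJA : (1 : ℝ) ≤ (J : ℝ) ^ A' := one_le_pow₀ hJ1
    have hJA0 : (0 : ℝ) ≤ (J : ℝ) ^ A := by positivity
    refine h1.trans ?_
    rw [pow_add]
    have h4 : frm μ (ker β w) (fun U => g U * F U) (fun U => g U * F U) +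
        t * frm μ (ker β w) (av fun U => g U * F U) (av fun U => g U * F U) ≤
        (2 * C' + C' ^ 2) * (J : ℝ) ^ A' * (Q + t * Qa) := by
      have h5 := mul_le_mul_of_nonneg_left h3 q3
      have h6 : C' ^ 2 * (t * Qa) ≤ C' ^ 2 * (J : ℝ) ^ A' * (Q + t * Qa) := by
        have : t * Qa ≤ (J : ℝ) ^ A' * (Q + t * Qa) := by
          nlinarith [mul_nonneg q3 q2, mul_nonneg (by linarith : (0:ℝ) ≤ (J : ℝ) ^ A' - 1)
            (add_nonneg q1 (mul_nonneg q3 q2))]
        calc C' ^ 2 * (t * Qa) ≤ C' ^ 2 * ((J : ℝ) ^ A' * (Q + t * Qa)) :=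
              mul_le_mul_of_nonneg_left this (sq_nonneg _)
          _ = _ := by ring
      have h7 : 0 ≤ C' * (J : ℝ) ^ A' * (Q + t * Qa) := by positivity
      calc _ ≤ C' * (J : ℝ) ^ A' * (Q + t * Qa) + t * (C' ^ 2 * Qa) := add_le_add h2 h5
        _ = C' * (J : ℝ) ^ A' * (Q + t * Qa) + C' ^ 2 * (t * Qa) := by ring
        _ ≤ _ := by linarith
    calc _ ≤ C * (J : ℝ) ^ A * ((2 * C' + C' ^ 2) * (J : ℝ) ^ A' * (Q + t * Qa)) :=
          mul_le_mul_of_nonneg_left h4 (by positivity)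
      _ = _ := by ring

lemma MB.ent (hMULT : S_MULT) (e : E) (i j : Fin N) :
    MB μ β w (1 + 2 / β + 2 * N * Real.exp (β * N)) 1 (fun U => mt (U e) i j) ∧
      MB μ β w (1 + 2 / β + 2 * N * Real.exp (β * N)) 1 (fun U => conj (mt (U e) i j)) := by
  have hc : Continuous fun U : E → G => mt (U e) i j := by
    have h1 : Continuous fun U : E → G => mt (U e) := mt_cont.comp (continuous_apply e)
    exact h1.matrix_elem i j
  have h0 : (0 : ℝ) ≤ 2 / β + 2 * N * Real.exp (β * N) := by positivity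
  have hmain : ∀ F : (E → G) → ℂ, Continuous F → ∀ J : ℕ, 1 ≤ J →
      2 * J / β * frm μ (ker β w) F F +
          2 * N * Real.exp (β * N) * tl (β * N) J * frm μ (ker β w) (av F) (av F) ≤
      (1 + 2 / β + 2 * N * Real.exp (β * N)) * (J : ℝ) ^ 1 * (frm μ (ker β w) F F +
        tl (β * N) J * frm μ (ker β w) (av F) (av F)) := by
    intro F hF J hJ
    have q1 := ker_psd μ hPOS hG hβ hw.1 hF
    have q2 := ker_psd μ hPOS hG hβ hw.1 (av_cont hF)
    have q3 := tl_nonneg (x := β * N) (by positivity) J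
    have hJ1 : (1 : ℝ) ≤ J := by exact_mod_cast hJ
    rw [pow_one]
    obtain ⟨Q, hQ⟩ : ∃ Q, Q = frm μ (ker β w) F F := ⟨_, rfl⟩
    obtain ⟨T, hT⟩ : ∃ T, T = tl (β * N) J * frm μ (ker β w) (av F) (av F) := ⟨_, rfl⟩
    have hT0 : 0 ≤ T := by rw [hT]; exact mul_nonneg q3 q2
    rw [← hQ] at q1 ⊢
    rw [← hT]
    have e1 : 2 * N * Real.exp (β * N) * tl (β * N) J * frm μ (ker β w) (av F) (av F) =
      2 * N * Real.exp (β * N) * T := by rw [hT]; ring
    rw [e1]
    have e2 : 2 * J / β = 2 / β * J := by ring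
    rw [e2]
    have p1 : 0 ≤ 2 / β := by positivity
    have p2 : 0 ≤ 2 * N * Real.exp (β * N) := by positivity
    have p3 : 0 ≤ 2 / β * J * T := by positivity
    have p4 : 0 ≤ 2 * N * Real.exp (β * N) * J * Q := by positivity
    have p5 : 2 * N * Real.exp (β * N) * T ≤ 2 * N * Real.exp (β * N) * J * T := by
      have : 2 * N * Real.exp (β * N) * 1 ≤ 2 * N * Real.exp (β * N) * J :=
        mul_le_mul_of_nonneg_left hJ1 p2
      rw [mul_one] at this
      exact mul_le_mul_of_nonneg_right this hT0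
    have p6 : 0 ≤ (J : ℝ) * (Q + T) := by positivity
    nlinarith
  have hb : ∀ U : E → G, ‖mt (U e) i j‖ ≤ 1 + 2 / β + 2 * N * Real.exp (β * N) := fun U => by
    have := norm_mt_le (U e) i j
    linarith
  refine ⟨⟨hc, hb, fun F hF J hJ => ?_⟩, ⟨Complex.continuous_conj.comp hc, fun U => ?_,
    fun F hF J hJ => ?_⟩⟩
  · exact (hMULT N G hG μ E w hw.1 (fun U => (hw.2 U).le) β hβ e i j F hF J).1.trans
      (hmain F hF J hJ)
  · rw [RCLike.norm_conj]; exact hb U
  · exact (hMULT N G hG μ E w hw.1 (fun U => (hw.2 U).le) β hβ e i j F hF J).2.trans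
      (hmain F hF J hJ)

end

/-- polynomials -/
lemma MB.pol (hPOS : S_POS) (hG : IsClosed (G : Set (UU N))) {β : ℝ} (hβ : 0 < β) {ι : Type}
    {h : (ι → G) → ℂ} (hh : IsPol h) (C0 : ℝ) (A0 : ℕ) : ∃ (C : ℝ) (A : ℕ),
    ∀ (E : Type) [Fintype E] (w : (E → G) → ℝ), Nice w → ∀ p : (E → G) → ι → G,
      (∀ i a b, MB μ β w C0 A0 (fun U => mt (p U i) a b) ∧
        MB μ β w C0 A0 (fun U => conj (mt (p U i) a b))) →
      MB μ β w C A (fun U => h (p U)) := by
  induction hh with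
  | const c => exact ⟨_, 0, fun E _ w hw p hp => MB.const μ hPOS hG hβ hw c⟩
  | ent i a b => exact ⟨C0, A0, fun E _ w hw p hp => (hp i a b).1⟩
  | cnj i a b => exact ⟨C0, A0, fun E _ w hw p hp => (hp i a b).2⟩
  | add _ _ ih1 ih2 =>
    obtain ⟨C1, A1, h1⟩ := ih1
    obtain ⟨C2, A2, h2⟩ := ih2
    exact ⟨_, _, fun E _ w hw p hp =>
      (h1 E w hw p hp).add μ hPOS hG hβ hw (h2 E w hw p hp)⟩
  | mul _ _ ih1 ih2 =>
    obtain ⟨C1, A1, h1⟩ := ih1
    obtain ⟨C2, A2, h2⟩ := ih2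
    exact ⟨_, _, fun E _ w hw p hp =>
      (h1 E w hw p hp).mul μ hPOS hG hβ hw (h2 E w hw p hp)⟩

/-- finite sums -/
lemma MB.sum (hPOS : S_POS) (hG : IsClosed (G : Set (UU N))) {β : ℝ} (hβ : 0 < β) (n : ℕ)
    (C0 : ℝ) (A0 : ℕ) : ∃ (C : ℝ) (A : ℕ),
    ∀ (E : Type) [Fintype E] (w : (E → G) → ℝ), Nice w → ∀ f : Fin n → (E → G) → ℂ,
      (∀ i, MB μ β w C0 A0 (f i)) → MB μ β w C A (fun U => ∑ i, f i U) := by
  induction n with
  | zero =>
    refine ⟨1 + ‖(0 : ℂ)‖ ^ 2, 0, fun E _ w hw f hf => ?_⟩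
    have := MB.const μ hPOS hG hβ hw (0 : ℂ)
    simpa using this
  | succ n ih =>
    obtain ⟨C, A, h⟩ := ih
    refine ⟨2 * (C + C0), A + A0, fun E _ w hw f hf => ?_⟩
    have h1 := (h E w hw (fun i => f i.castSucc) fun i => hf _).add μ hPOS hG hβ hw
      (hf (Fin.last n))
    simpa only [Fin.sum_univ_castSucc] using h1

/-- entries of the product of the link variables along a path -/
lemma MB.path (hPOS : S_POS) (hMULT : S_MULT) (hG : IsClosed (G : Set (UU N))) {β : ℝ}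
    (hβ : 0 < β) (L : ℕ) : ∃ (C : ℝ) (A : ℕ),
    ∀ (E : Type) [Fintype E] (w : (E → G) → ℝ), Nice w → ∀ q : List (E × Bool), q.length ≤ L →
      ∀ a b, MB μ β w C A (fun U => mt (hol q U) a b) ∧
        MB μ β w C A (fun U => conj (mt (hol q U) a b)) := by
  induction L with
  | zero =>
    refine ⟨1 + 1 ^ 2, 0, fun E _ w hw q hq a b => ?_⟩
    have h0 : q = [] := List.length_eq_zero_iff.1 (Nat.le_zero.1 hq)
    subst h0
    have h1 : ∀ U : E → G, mt (hol ([] : List (E × Bool)) U) a b = (1 : Mt N) a b := fun U => rfl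
    have h2 := MB.const μ hPOS hG hβ hw ((1 : Mt N) a b)
    have h3 := MB.const μ hPOS hG hβ hw (conj ((1 : Mt N) a b))
    have h4 : ‖(1 : Mt N) a b‖ ≤ 1 := by
      rw [Matrix.one_apply]
      split_ifs <;> simp
    have h5 : ‖(1 : Mt N) a b‖ ^ 2 ≤ 1 ^ 2 := pow_le_pow_left₀ (norm_nonneg _) h4 2
    have h6 : ‖conj ((1 : Mt N) a b)‖ ^ 2 ≤ 1 ^ 2 := by rw [RCLike.norm_conj]; exact h5
    simp only [h1]
    exact ⟨h2.mono μ hPOS hG hβ hw (by linarith) le_rfl,
      h3.mono μ hPOS hG hβ hw (by linarith) le_rfl⟩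
  | succ L ih =>
    obtain ⟨C, A, h⟩ := ih
    obtain ⟨C1, hC1⟩ : ∃ C1 : ℝ, C1 = 1 + 2 / β + 2 * N * Real.exp (β * N) := ⟨_, rfl⟩
    obtain ⟨C2, A2, h2⟩ := MB.sum μ hPOS hG hβ N (C1 * (2 * C + C ^ 2)) (1 + A) (G := G)
    refine ⟨|C| + |C2|, A + A2, fun E _ w hw q hq a b => ?_⟩
    cases q with
    | nil =>
      have h3 := h E w hw [] (Nat.zero_le _) a b
      have h4 : C ≤ |C| + |C2| := (le_abs_self C).trans (by linarith [abs_nonneg C2])
      exact ⟨h3.1.mono μ hPOS hG hβ hw h4 (Nat.le_add_right _ _),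
        h3.2.mono μ hPOS hG hβ hw h4 (Nat.le_add_right _ _)⟩
    | cons s q =>
      have hq' : q.length ≤ L := by simpa using hq
      have h4 : C2 ≤ |C| + |C2| := (le_abs_self C2).trans (by linarith [abs_nonneg C])
      obtain ⟨e, c⟩ := s
      have hent : ∀ a k, MB μ β w C1 1 (fun U => mt (if c then U e else (U e)⁻¹) a k) ∧
          MB μ β w C1 1 (fun U => conj (mt (if c then U e else (U e)⁻¹) a k)) := by
        intro a k
        cases c
        · have h5 := MB.ent μ hPOS hG hβ hw hMULT e k a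
          rw [← hC1] at h5
          have e1 : ∀ U : E → G, mt (if false = true then U e else (U e)⁻¹) a k =
              conj (mt (U e) k a) := by
            intro U
            rw [if_neg (by simp), mt_inv]
            rfl
          simp only [e1, Complex.conj_conj]
          exact ⟨h5.2, h5.1⟩
        · have h5 := MB.ent μ hPOS hG hβ hw hMULT e a k
          rw [← hC1] at h5
          simpa using h5
      have e2 : ∀ U : E → G, mt (hol ((e, c) :: q) U) a b =
          ∑ k, mt (if c then U e else (U e)⁻¹) a k * mt (hol q U) k b := by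
        intro U
        have : hol ((e, c) :: q) U = (if c then U e else (U e)⁻¹) * hol q U := by
          cases c <;> rfl
        rw [this, mt_mul, Matrix.mul_apply]
      have e3 : ∀ U : E → G, conj (mt (hol ((e, c) :: q) U) a b) =
          ∑ k, conj (mt (if c then U e else (U e)⁻¹) a k) * conj (mt (hol q U) k b) := by
        intro U
        rw [e2, map_sum]
        exact Finset.sum_congr rfl fun k _ => map_mul _ _ _
      constructor
      · simp only [e2]
        refine (h2 E w hw _ fun k => ?_).mono μ hPOS hG hβ hw h4 (Nat.le_add_left _ _)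
        exact (hent a k).1.mul μ hPOS hG hβ hw (h E w hw q hq' k b).1
      · simp only [e3]
        refine (h2 E w hw _ fun k => ?_).mono μ hPOS hG hβ hw h4 (Nat.le_add_left _ _)
        exact (hent a k).2.mul μ hPOS hG hβ hw (h E w hw q hq' k b).2

end

end Pool.Agent.H189.WA
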