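import Mathlib
import Pool.Agent.H189.WA.MB
import Pool.Agent.H189.WA.LA

/-!
# The form on matrix valued functions
-/

open MeasureTheory Matrix
open scoped ComplexConjugate Matrix.Norms.Frobenius

namespace Pool.Agent.H189.WA

open Pool.Agent.H189.KS

set_option linter.unusedSectionVars false
set_option linter.unusedVariables false

noncomputable section

variable {N : ℕ} {G : Subgroup (UU N)} {E : Type} [Fintype E] [CompactSpace G]
  [SecondCountableTopology G] [MeasurableSpace G] [BorelSpace G] (μ : Measure G)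
  [IsProbabilityMeasure μ] {M M' M'' : ℕ}

/-- the form on vector valued functions -/
def vf (K : (E → G) → (E → G) → ℝ) (Ψ Φ : (E → G) → HV M M') : ℝ :=
  ∑ q, frm μ K (fun U => Ψ U q) (fun U => Φ U q)

/-- the operator on vector valued functions -/
def vo (K : (E → G) → (E → G) → ℝ) (Ψ : (E → G) → HV M M') (U : E → G) : HV M M' :=
  WithLp.toLp 2 fun q => opr μ K (fun V => Ψ V q) U

/-- the norm of the values, as a complex valued function -/
def hn (Ψ : (E → G) → HV M M') (U : E → G) : ℂ := ((‖Ψ U‖ : ℝ) : ℂ)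

lemma ent_cont {Ψ : (E → G) → HV M M'} (h : Continuous Ψ) (q : Fin M × Fin M') :
    Continuous fun U => Ψ U q := (entL q).continuous.comp h

lemma cont_of_ent {Ψ : (E → G) → HV M M'} (h : ∀ q, Continuous fun U => Ψ U q) :
    Continuous Ψ := by
  have h1 : Continuous fun U => (WithLp.ofLp (Ψ U) : Fin M × Fin M' → ℂ) := continuous_pi h
  exact (PiLp.continuousLinearEquiv 2 ℝ
    (fun _ : Fin M × Fin M' => ℂ)).symm.continuous.comp h1

variable {K : (E → G) → (E → G) → ℝ} (hK : Continuous fun q : (E → G) × (E → G) => K q.1 q.2)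
  (hs : ∀ U V, K U V = K V U) (hK0 : ∀ U V, 0 ≤ K U V)
  (hp : ∀ F, Continuous F → 0 ≤ frm μ K F F)

include hK in
lemma vo_cont {Ψ : (E → G) → HV M M'} (h : Continuous Ψ) : Continuous (vo μ K Ψ) :=
  cont_of_ent fun q => opr_cont μ hK (ent_cont h q)

lemma isum {ι : Type} [Fintype ι] {f : ι → (E → G) → ℝ} (hf : ∀ i, Continuous (f i)) :
    ∫ U, ∑ i, f i U ∂(Measure.pi fun _ : E => μ) =
      ∑ i, ∫ U, f i U ∂(Measure.pi fun _ : E => μ) :=
  integral_finsetSum _ fun i _ => intg μ (hf i)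

lemma nsq_eq {Ψ : (E → G) → HV M M'} (h : Continuous Ψ) :
    nsq μ Ψ = ∑ q, n2 μ (fun U => Ψ U q) := by
  unfold nsq n2
  rw [← isum μ (f := fun q U => ‖Ψ U q‖ ^ 2) fun q => (ent_cont h q).norm.pow 2]
  refine integral_congr_ae (Filter.Eventually.of_forall fun U => ?_)
  exact normsq' _

lemma nsq_hn (Ψ : (E → G) → HV M M') : n2 μ (hn Ψ) = nsq μ Ψ := by
  unfold nsq n2 hn
  refine integral_congr_ae (Filter.Eventually.of_forall fun U => ?_)
  dsimp only
  rw [Complex.norm_real, norm_norm]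

lemma hn_cont {Ψ : (E → G) → HV M M'} (h : Continuous Ψ) : Continuous (hn Ψ) :=
  Complex.continuous_ofReal.comp h.norm

include hK hp in
lemma vf_nonneg {Ψ : (E → G) → HV M M'} (h : Continuous Ψ) : 0 ≤ vf μ K Ψ Ψ :=
  Finset.sum_nonneg fun q _ => hp _ (ent_cont h q)

include hK in
/-- the form and the operator -/
lemma vf_vo {Ψ Φ : (E → G) → HV M M'} (h : Continuous Ψ) (h' : Continuous Φ) :
    vf μ K Ψ Φ = ∫ U, inner ℝ (Ψ U) (vo μ K Φ U) ∂(Measure.pi fun _ : E => μ) := by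
  unfold vf
  simp only [frm_opr μ hK (ent_cont h _) (ent_cont h' _)]
  have hc : ∀ q, Continuous fun U => (conj (Ψ U q) * opr μ K (fun V => Φ V q) U).re := fun q =>
    Complex.continuous_re.comp ((Complex.continuous_conj.comp (ent_cont h q)).mul
      (opr_cont μ hK (ent_cont h' q)))
  rw [← isum μ hc]
  refine integral_congr_ae (Filter.Eventually.of_forall fun U => ?_)
  dsimp only
  rw [PiLp.inner_apply]
  refine Finset.sum_congr rfl fun q _ => ?_
  rw [Complex.inner, mul_comm]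
  rfl

include hK hs hp in
lemma vf_cs {Ψ Φ : (E → G) → HV M M'} (h : Continuous Ψ) (h' : Continuous Φ) :
    vf μ K Ψ Φ ≤ Real.sqrt (vf μ K Ψ Ψ) * Real.sqrt (vf μ K Φ Φ) := by
  have h1 : ∀ q, frm μ K (fun U => Ψ U q) (fun U => Φ U q) ≤
      Real.sqrt (frm μ K (fun U => Ψ U q) (fun U => Ψ U q)) *
        Real.sqrt (frm μ K (fun U => Φ U q) (fun U => Φ U q)) := by
    intro q
    have h2 := frm_cs μ hK hs hp (ent_cont h q) (ent_cont h' q)
    have a1 := hp _ (ent_cont h q)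
    have a2 := hp _ (ent_cont h' q)
    rw [← Real.sqrt_mul a1]
    exact Real.le_sqrt_of_sq_le h2
  refine (Finset.sum_le_sum fun q _ => h1 q).trans ?_
  have h3 := Finset.sum_mul_sq_le_sq_mul_sq Finset.univ
    (fun q => Real.sqrt (frm μ K (fun U => Ψ U q) (fun U => Ψ U q)))
    (fun q => Real.sqrt (frm μ K (fun U => Φ U q) (fun U => Φ U q)))
  have e1 : ∀ Ξ : (E → G) → HV M M', Continuous Ξ →
      ∑ q, Real.sqrt (frm μ K (fun U => Ξ U q) (fun U => Ξ U q)) ^ 2 = vf μ K Ξ Ξ := by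
    intro Ξ hΞ
    exact Finset.sum_congr rfl fun q _ => Real.sq_sqrt (hp _ (ent_cont hΞ q))
  rw [e1 Ψ h, e1 Φ h'] at h3
  rw [← Real.sqrt_mul (vf_nonneg μ hK hp h)]
  exact Real.le_sqrt_of_sq_le h3

include hK hK0 in
/-- the sum of the forms of the absolute values of the entries -/
lemma sum_av_le {Ψ : (E → G) → HV M M'} (h : Continuous Ψ) :
    ∑ q, frm μ K (av fun U => Ψ U q) (av fun U => Ψ U q) ≤ frm μ K (hn Ψ) (hn Ψ) := by
  have hc : ∀ q, Continuous (av fun U => Ψ U q) := fun q => av_cont (ent_cont h q)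
  simp only [frm_prod μ hK (hc _) (hc _), frm_prod μ hK (hn_cont h) (hn_cont h)]
  rw [← integral_finsetSum _ fun q _ => intg2 μ (c2 hK (hc q) (hc q))]
  refine integral_mono (integrable_finsetSum _ fun q _ => intg2 μ (c2 hK (hc q) (hc q)))
    (intg2 μ (c2 hK (hn_cont h) (hn_cont h))) fun p => ?_
  dsimp only
  rw [← Finset.sum_mul]
  refine mul_le_mul_of_nonneg_right ?_ (hK0 _ _)
  unfold hn av
  simp only [Complex.conj_ofReal, ← Complex.ofReal_mul, Complex.ofReal_re]
  have h3 := Finset.sum_mul_sq_le_sq_mul_sq Finset.univ (fun q => ‖Ψ p.1 q‖) (fun q => ‖Ψ p.2 q‖)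
  rw [← normsq', ← normsq'] at h3
  have h4 : 0 ≤ ‖Ψ p.1‖ * ‖Ψ p.2‖ := by positivity
  refine abs_le_of_sq_le_sq' ?_ h4 |>.2
  rw [mul_pow]
  exact h3

include hK in
/-- the operator applied to the absolute values -/
lemma n2_opr_av_le (hK0 : ∀ U V, 0 ≤ K U V) {Ψ : (E → G) → HV M M'} (h : Continuous Ψ)
    (q : Fin M × Fin M') :
    n2 μ (opr μ K (av fun U => Ψ U q)) ≤ n2 μ (opr μ K (hn Ψ)) := by
  have hc : Continuous (av fun U => Ψ U q) := av_cont (ent_cont h q)
  refine integral_mono (intg μ ((opr_cont μ hK hc).norm.pow 2))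
    (intg μ ((opr_cont μ hK (hn_cont h)).norm.pow 2)) fun U => ?_
  dsimp only
  have h0 : ∀ (f : (E → G) → ℝ), Continuous f → opr μ K (fun V => ((f V : ℝ) : ℂ)) U =
      ((∫ V, f V * K U V ∂(Measure.pi fun _ : E => μ) : ℝ) : ℂ) := by
    intro f hf
    unfold opr
    rw [← integral_complex_ofReal]
    refine integral_congr_ae (Filter.Eventually.of_forall fun V => ?_)
    dsimp only
    push_cast
    rfl
  have hcK : ∀ f : (E → G) → ℝ, Continuous f → Continuous fun V => f V * K U V := fun f hf =>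
    hf.mul (hK.comp (Continuous.prodMk_right U))
  have e1 := h0 (fun V => ‖Ψ V q‖) (ent_cont h q).norm
  have e2 := h0 (fun V => ‖Ψ V‖) h.norm
  have e1' : opr μ K (av fun U => Ψ U q) U = _ := e1
  have e2' : opr μ K (hn Ψ) U = _ := e2
  rw [e1', e2', Complex.norm_real, Complex.norm_real, Real.norm_eq_abs, Real.norm_eq_abs,
    sq_abs, sq_abs]
  have p1 : 0 ≤ ∫ V, ‖Ψ V q‖ * K U V ∂(Measure.pi fun _ : E => μ) :=
    integral_nonneg fun V => mul_nonneg (norm_nonneg _) (hK0 _ _)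
  refine pow_le_pow_left₀ p1 (integral_mono (intg μ (hcK _ (ent_cont h q).norm))
    (intg μ (hcK _ h.norm)) fun V => ?_) 2
  exact mul_le_mul_of_nonneg_right (PiLp.norm_apply_le _ _) (hK0 _ _)

include hK hs hp in
/-- the operator is bounded by the top of the form -/
lemma n2_opr_le {P : ((E → G) → ℂ) → Prop} {lam : ℝ} (hlam : 0 ≤ lam)
    (h1 : ∀ F, Continuous F → P F → frm μ K F F ≤ lam * n2 μ F) {F : (E → G) → ℂ}
    (hF : Continuous F) (hPF : P F) (hPo : P (opr μ K F)) :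
    n2 μ (opr μ K F) ≤ lam ^ 2 * n2 μ F := by
  have hc := opr_cont μ hK hF
  have e1 : frm μ K (opr μ K F) F = n2 μ (opr μ K F) := by
    rw [frm_opr μ hK hc hF]
    unfold n2
    refine integral_congr_ae (Filter.Eventually.of_forall fun U => ?_)
    dsimp only
    rw [mul_comm, Complex.mul_conj, Complex.ofReal_re, Complex.normSq_eq_norm_sq]
  have h2 := frm_cs μ hK hs hp hc hF
  rw [e1] at h2
  have h3 := h1 _ hc hPo
  have h4 := h1 _ hF hPF
  obtain ⟨x, hx⟩ : ∃ x, x = n2 μ (opr μ K F) := ⟨_, rfl⟩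
  obtain ⟨y, hy⟩ : ∃ y, y = n2 μ F := ⟨_, rfl⟩
  have x0 : 0 ≤ x := by rw [hx]; exact n2_nonneg μ _
  have y0 : 0 ≤ y := by rw [hy]; exact n2_nonneg μ _
  rw [← hx] at h2 h3 ⊢
  rw [← hy] at h4 ⊢
  have h5 : x ^ 2 ≤ lam * x * (lam * y) :=
    h2.trans (mul_le_mul h3 h4 (hp _ hF) (by positivity))
  rcases x0.eq_or_lt with hx0 | hx0
  · rw [← hx0]; positivity
  · have h6 : x * x ≤ lam ^ 2 * y * x := by nlinarith
    exact le_of_mul_le_mul_right h6 hx0

end

end Pool.Agent.H189.WA
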