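import Mathlib
import Pool.Agent.H189.WA.Vf

/-!
# Replacement of one source: the inequality at a fixed cutoff
-/

open MeasureTheory Matrix
open scoped ComplexConjugate Matrix.Norms.Frobenius

namespace Pool.Agent.H189.WA

open Pool.Agent.H189.KS

set_option linter.unusedSectionVars false
set_option linter.unusedVariables false

noncomputable section

variable {N : ℕ} {G : Subgroup (UU N)} {E : Type} [Fintype E] [CompactSpace G]
  [SecondCountableTopology G] [MeasurableSpace G] [BorelSpace G] (μ : Measure G)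
  [IsProbabilityMeasure μ] {M M' M'' : ℕ}

lemma IsPol.conj {ι : Type} {f : (ι → G) → ℂ} (h : IsPol f) : IsPol fun p => conj (f p) := by
  induction h with
  | const c => exact IsPol.const (conj c)
  | ent i a b => exact IsPol.cnj i a b
  | cnj i a b =>
    simp only [Complex.conj_conj]
    exact IsPol.ent i a b
  | add _ _ ih1 ih2 =>
    simp only [map_add]
    exact ih1.add ih2
  | mul _ _ ih1 ih2 =>
    simp only [map_mul]
    exact ih1.mul ih2

section cs

variable {K : (E → G) → (E → G) → ℝ} (hK : Continuous fun q : (E → G) × (E → G) => K q.1 q.2)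
  (hs : ∀ U V, K U V = K V U) (hp : ∀ F, Continuous F → 0 ≤ frm μ K F F)

include hK hs hp in
lemma vf_cs2 {Ψ Φ : (E → G) → HV M M'} (h : Continuous Ψ) (h' : Continuous Φ) :
    vf μ K Ψ Φ ^ 2 ≤ vf μ K Ψ Ψ * vf μ K Φ Φ := by
  have h1 : ∀ q, |frm μ K (fun U => Ψ U q) (fun U => Φ U q)| ≤
      Real.sqrt (frm μ K (fun U => Ψ U q) (fun U => Ψ U q)) *
        Real.sqrt (frm μ K (fun U => Φ U q) (fun U => Φ U q)) := by
    intro q
    have h2 := frm_cs μ hK hs hp (ent_cont h q) (ent_cont h' q)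
    have a1 := hp _ (ent_cont h q)
    rw [← Real.sqrt_mul a1]
    exact Real.abs_le_sqrt h2
  have h3 := Finset.sum_mul_sq_le_sq_mul_sq Finset.univ
    (fun q => Real.sqrt (frm μ K (fun U => Ψ U q) (fun U => Ψ U q)))
    (fun q => Real.sqrt (frm μ K (fun U => Φ U q) (fun U => Φ U q)))
  have e1 : ∀ Ξ : (E → G) → HV M M', Continuous Ξ →
      ∑ q, Real.sqrt (frm μ K (fun U => Ξ U q) (fun U => Ξ U q)) ^ 2 = vf μ K Ξ Ξ := by
    intro Ξ hΞ
    exact Finset.sum_congr rfl fun q _ => Real.sq_sqrt (hp _ (ent_cont hΞ q))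
  rw [e1 Ψ h, e1 Φ h'] at h3
  refine le_trans ?_ h3
  have h4 : |vf μ K Ψ Φ| ≤ ∑ q, Real.sqrt (frm μ K (fun U => Ψ U q) (fun U => Ψ U q)) *
      Real.sqrt (frm μ K (fun U => Φ U q) (fun U => Φ U q)) := by
    unfold vf
    exact (Finset.abs_sum_le_sum_abs _ _).trans (Finset.sum_le_sum fun q _ => h1 q)
  rw [← sq_abs]
  exact pow_le_pow_left₀ (abs_nonneg _) h4 2

end cs

/-- Cauchy-Schwarz for the integrals -/
lemma inner_cs {A B : (E → G) → HV M M'} (hA : Continuous A) (hB : Continuous B) :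
    (∫ U, inner ℝ (A U) (B U) ∂(Measure.pi fun _ : E => μ)) ^ 2 ≤ nsq μ A * nsq μ B := by
  obtain ⟨π, hπ⟩ : ∃ π, π = Measure.pi fun _ : E => μ := ⟨_, rfl⟩
  have c1 : Continuous fun U => inner ℝ (A U) (B U) := hA.inner hB
  have h1 : ∀ t : ℝ, 0 ≤ nsq μ B * (t * t) +
      2 * (∫ U, inner ℝ (A U) (B U) ∂(Measure.pi fun _ : E => μ)) * t + nsq μ A := by
    intro t
    have h2 : 0 ≤ ∫ U, ‖A U + t • B U‖ ^ 2 ∂(Measure.pi fun _ : E => μ) :=
      integral_nonneg fun U => by positivity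
    have h3 : ∀ U, ‖A U + t • B U‖ ^ 2 = (t * t) * ‖B U‖ ^ 2 + (2 * t * inner ℝ (A U) (B U) +
        ‖A U‖ ^ 2) := by
      intro U
      rw [norm_add_sq_real, inner_smul_right, norm_smul, mul_pow, Real.norm_eq_abs, sq_abs]
      ring
    simp only [h3] at h2
    have i1 : Integrable (fun U => (t * t) * ‖B U‖ ^ 2) (Measure.pi fun _ : E => μ) :=
      intg μ (continuous_const.mul (hB.norm.pow 2))
    have i2 : Integrable (fun U => 2 * t * inner ℝ (A U) (B U)) (Measure.pi fun _ : E => μ) :=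
      intg μ (continuous_const.mul c1)
    have i3 : Integrable (fun U => ‖A U‖ ^ 2) (Measure.pi fun _ : E => μ) :=
      intg μ (hA.norm.pow 2)
    have i4 : Integrable (fun U => 2 * t * inner ℝ (A U) (B U) + ‖A U‖ ^ 2)
      (Measure.pi fun _ : E => μ) := i2.add i3
    rw [integral_add i1 i4, integral_add i2 i3, integral_const_mul, integral_const_mul] at h2
    unfold nsq
    linarith
  have h3 := discrim_le_zero h1
  unfold discrim at h3
  linarith

lemma nsq_nonneg' (A : (E → G) → HV M M') : 0 ≤ nsq μ A := integral_nonneg fun U => by positivity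

section lmb

variable (hPOS : S_POS) (hG : IsClosed (G : Set (UU N))) {β : ℝ} (hβ : 0 < β)
  {w : (E → G) → ℝ} (hw : Nice w)

include hPOS hG hβ hw

/-- multiplication by a matrix with controlled entries -/
lemma vf_lm {A : (E → G) → Matrix (Fin M'') (Fin M) ℂ} {C : ℝ} {a : ℕ}
    (hA : ∀ i k, MB μ β w C a fun U => A U i k) {Φ : (E → G) → HV M M'} (hΦ : Continuous Φ)
    (hAΦ : Continuous fun U => lm M' (A U) (Φ U)) {J : ℕ} (hJ : 1 ≤ J) :
    vf μ (ker β w) (fun U => lm M' (A U) (Φ U)) (fun U => lm M' (A U) (Φ U)) ≤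
      M'' * 2 ^ M * (|C| * (J : ℝ) ^ a * (vf μ (ker β w) Φ Φ +
        tl (β * N) J * frm μ (ker β w) (hn Φ) (hn Φ))) := by
  have hK := ker_cont β hw.1
  have hps : ∀ F, Continuous F → 0 ≤ frm μ (ker β w) F F := fun F hF =>
    ker_psd μ hPOS hG hβ hw.1 hF
  have ht : 0 ≤ tl (β * N) J := tl_nonneg (by positivity) J
  have hC : ∀ i k, MB μ β w |C| a fun U => A U i k := fun i k =>
    (hA i k).mono μ hPOS hG hβ hw (le_abs_self C) le_rfl
  obtain ⟨R, hR⟩ : ∃ R : Fin M × Fin M' → ℝ, R = fun q =>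
    frm μ (ker β w) (fun U => Φ U q) (fun U => Φ U q) + tl (β * N) J *
      frm μ (ker β w) (av fun U => Φ U q) (av fun U => Φ U q) := ⟨_, rfl⟩
  have hR0 : ∀ q, 0 ≤ R q := fun q => by
    rw [hR]
    exact rhs_nonneg μ hPOS hG hβ hw (ent_cont hΦ q) J
  have h1 : ∀ (i : Fin M'') (j : Fin M'), frm μ (ker β w)
      (fun U => (lm M' (A U) (Φ U)) (i, j)) (fun U => (lm M' (A U) (Φ U)) (i, j)) ≤
      2 ^ M * (|C| * (J : ℝ) ^ a * ∑ k, R (k, j)) := by
    intro i j
    have e1 : (fun U => (lm M' (A U) (Φ U)) (i, j)) = fun U => ∑ k, A U i k * Φ U (k, j) := by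
      funext U
      rfl
    rw [e1]
    have h2 := frm_sum_le μ hK (ker_comm β w) hps Finset.univ (fun k U => A U i k * Φ U (k, j))
      fun k => (hA i k).1.mul (ent_cont hΦ (k, j))
    rw [Finset.card_univ, Fintype.card_fin] at h2
    refine h2.trans (mul_le_mul_of_nonneg_left ?_ (by positivity))
    rw [Finset.mul_sum]
    refine Finset.sum_le_sum fun k _ => ?_
    rw [hR]
    exact (hC i k).2.2 _ (ent_cont hΦ (k, j)) J hJ
  unfold vf
  rw [Fintype.sum_prod_type]
  have h3 : ∑ i : Fin M'', ∑ j : Fin M', frm μ (ker β w)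
      (fun U => (lm M' (A U) (Φ U)) (i, j)) (fun U => (lm M' (A U) (Φ U)) (i, j)) ≤
      ∑ i : Fin M'', ∑ j : Fin M', 2 ^ M * (|C| * (J : ℝ) ^ a * ∑ k, R (k, j)) :=
    Finset.sum_le_sum fun i _ => Finset.sum_le_sum fun j _ => h1 i j
  refine h3.trans ?_
  have h5 : ∑ j : Fin M', ∑ k : Fin M, R (k, j) ≤
      vf μ (ker β w) Φ Φ + tl (β * N) J * frm μ (ker β w) (hn Φ) (hn Φ) := by
    rw [Finset.sum_comm, ← Fintype.sum_prod_type (f := R), hR, Finset.sum_add_distrib,
      ← Finset.mul_sum]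
    have h4 := sum_av_le μ hK (fun U V => (ker_pos β hw.2 U V).le) hΦ
    have := mul_le_mul_of_nonneg_left h4 ht
    unfold vf
    linarith
  have h6 : (0 : ℝ) ≤ |C| * (J : ℝ) ^ a := by positivity
  have h7 : (0 : ℝ) ≤ 2 ^ M := by positivity
  have e2 : ∑ _i : Fin M'', ∑ j : Fin M', 2 ^ M * (|C| * (J : ℝ) ^ a * ∑ k, R (k, j)) =
      M'' * 2 ^ M * (|C| * (J : ℝ) ^ a * ∑ j : Fin M', ∑ k : Fin M, R (k, j)) := by
    rw [Finset.sum_const, Finset.card_univ, Fintype.card_fin, nsmul_eq_mul, ← Finset.mul_sum,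
      ← Finset.mul_sum]
    ring
  rw [e2]
  exact mul_le_mul_of_nonneg_left (mul_le_mul_of_nonneg_left h5 h6) (by positivity)

end lmb

end

end Pool.Agent.H189.WA
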