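import Mathlib
import Pool.Agent.H189.WA.Stm
import Pool.Agent.H189.KS.Stm
import Pool.Agent.H189.KS.Pari
import Pool.Agent.H189.KS.Covf

/-!
# Covariant polynomials (COVP)
-/

open MeasureTheory Matrix Filter
open scoped ContDiff ComplexConjugate Matrix.Norms.Frobenius

namespace Pool.Agent.H189.WA.COVP

open Pool.Agent.H189.KS

set_option linter.unusedSectionVars false
set_option linter.unusedVariables false

noncomputable section

/-! ### matrices -/

lemma mv {n m : ℕ} (X : Matrix (Fin n) (Fin m) ℂ) {B : ℝ} (hB : ∀ i j, ‖X i j‖ ≤ B)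
    (w : Fin m → ℂ) :
    ∑ i, ‖(X *ᵥ w) i‖ ^ 2 ≤ (n * m * B ^ 2) * ∑ j, ‖w j‖ ^ 2 := by
  have h1 : ∀ i, ‖(X *ᵥ w) i‖ ^ 2 ≤ m * B ^ 2 * ∑ j, ‖w j‖ ^ 2 := by
    intro i
    have h2 : ‖(X *ᵥ w) i‖ ≤ ∑ j, B * ‖w j‖ := by
      have h0 : (X *ᵥ w) i = ∑ j, X i j * w j := rfl
      rw [h0]
      refine (norm_sum_le _ _).trans (Finset.sum_le_sum fun j _ => ?_)
      rw [norm_mul]
      exact mul_le_mul_of_nonneg_right (hB i j) (norm_nonneg _)
    calc ‖(X *ᵥ w) i‖ ^ 2 ≤ (∑ j, B * ‖w j‖) ^ 2 := pow_le_pow_left₀ (norm_nonneg _) h2 2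
      _ ≤ (Finset.univ : Finset (Fin m)).card * ∑ j, (B * ‖w j‖) ^ 2 := sq_sum_le_card_mul_sum_sq
      _ = _ := by
        rw [Finset.card_univ, Fintype.card_fin]
        simp only [mul_pow]
        rw [← Finset.mul_sum]; ring
  calc _ ≤ ∑ _i : Fin n, m * B ^ 2 * ∑ j, ‖w j‖ ^ 2 := Finset.sum_le_sum fun i _ => h1 i
    _ = _ := by
        rw [Finset.sum_const, Finset.card_univ, Fintype.card_fin, nsmul_eq_mul]; ring

variable {K M M' : ℕ}

/-- the sum of the squares -/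
def sqm (A : Fin K → Matrix (Fin M') (Fin M) ℂ) : Matrix (Fin M) (Fin M) ℂ := ∑ k, (A k)ᴴ * A k

lemma sqm_mulVec (A : Fin K → Matrix (Fin M') (Fin M) ℂ) (v : Fin M → ℂ) :
    sqm A *ᵥ v = ∑ k, (A k)ᴴ *ᵥ (A k *ᵥ v) := by
  unfold sqm
  rw [Matrix.sum_mulVec]
  simp only [Matrix.mulVec_mulVec]

lemma sqm_form (A : Fin K → Matrix (Fin M') (Fin M) ℂ) (v : Fin M → ℂ) :
    star v ⬝ᵥ (sqm A *ᵥ v) = ((∑ k, ∑ i, ‖(A k *ᵥ v) i‖ ^ 2 : ℝ) : ℂ) := by
  rw [sqm_mulVec, dotProduct_sum]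
  push_cast
  refine Finset.sum_congr rfl fun k _ => ?_
  rw [Matrix.dotProduct_mulVec, ← Matrix.star_mulVec]
  simp only [dotProduct]
  refine Finset.sum_congr rfl fun i _ => ?_
  rw [Pi.star_apply, Complex.star_def, ← Complex.normSq_eq_conj_mul_self, Complex.normSq_eq_norm_sq]
  push_cast
  ring

lemma sqm_det (A : Fin K → Matrix (Fin M') (Fin M) ℂ)
    (h : ∀ v, (∀ k, A k *ᵥ v = 0) → v = 0) : (sqm A).det ≠ 0 := by
  intro h0
  obtain ⟨v, hv, h1⟩ := Matrix.exists_mulVec_eq_zero_iff.2 h0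
  refine hv (h v fun k => ?_)
  have h2 := sqm_form A v
  rw [h1, dotProduct_zero] at h2
  have h3 : ∑ k, ∑ i, ‖(A k *ᵥ v) i‖ ^ 2 = 0 := by exact_mod_cast h2.symm
  have h4 := (Finset.sum_eq_zero_iff_of_nonneg
      (fun k _ => Finset.sum_nonneg fun i _ => by positivity)).1 h3 k (Finset.mem_univ _)
  funext i
  have h5 := (Finset.sum_eq_zero_iff_of_nonneg (fun i _ => by positivity)).1 h4 i
      (Finset.mem_univ i)
  exact norm_eq_zero.1 (pow_eq_zero_iff two_ne_zero |>.1 h5)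

lemma lin (A : Fin K → Matrix (Fin M') (Fin M) ℂ) {B B' : ℝ} (hB : ∀ k i j, ‖A k i j‖ ≤ B)
    (hB' : ∀ i j, ‖(sqm A).adjugate i j‖ ≤ B') (v : Fin M → ℂ) :
    ‖(sqm A).det‖ ^ 2 * ∑ j, ‖v j‖ ^ 2 ≤
      (M * M * B' ^ 2) * (K * (M * M' * B ^ 2)) * ∑ k, ∑ i, ‖(A k *ᵥ v) i‖ ^ 2 := by
  have h1 : (sqm A).adjugate *ᵥ (sqm A *ᵥ v) = (sqm A).det • v := by
    rw [Matrix.mulVec_mulVec, Matrix.adjugate_mul, Matrix.smul_mulVec, Matrix.one_mulVec]
  have h2 := mv (sqm A).adjugate hB' (sqm A *ᵥ v)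
  rw [h1] at h2
  have h3 : ∑ i, ‖((sqm A).det • v) i‖ ^ 2 = ‖(sqm A).det‖ ^ 2 * ∑ j, ‖v j‖ ^ 2 := by
    rw [Finset.mul_sum]
    refine Finset.sum_congr rfl fun j _ => ?_
    rw [Pi.smul_apply, norm_smul, mul_pow]
  rw [h3] at h2
  refine h2.trans ?_
  rw [show (M * M * B' ^ 2 : ℝ) * (K * (M * M' * B ^ 2)) * ∑ k, ∑ i, ‖(A k *ᵥ v) i‖ ^ 2 =
    (M * M * B' ^ 2) * ((K * (M * M' * B ^ 2)) * ∑ k, ∑ i, ‖(A k *ᵥ v) i‖ ^ 2) from
    mul_assoc _ _ _]
  refine mul_le_mul_of_nonneg_left ?_ (by positivity)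
  have h4 : ∀ i, ‖(sqm A *ᵥ v) i‖ ^ 2 ≤ K * ∑ k, ‖((A k)ᴴ *ᵥ (A k *ᵥ v)) i‖ ^ 2 := by
    intro i
    rw [sqm_mulVec, Finset.sum_apply]
    calc _ ≤ (∑ k, ‖((A k)ᴴ *ᵥ (A k *ᵥ v)) i‖) ^ 2 :=
          pow_le_pow_left₀ (norm_nonneg _) (norm_sum_le _ _) 2
      _ ≤ (Finset.univ : Finset (Fin K)).card * ∑ k, ‖((A k)ᴴ *ᵥ (A k *ᵥ v)) i‖ ^ 2 :=
          sq_sum_le_card_mul_sum_sq
      _ = _ := by rw [Finset.card_univ, Fintype.card_fin]
  calc ∑ i, ‖(sqm A *ᵥ v) i‖ ^ 2 ≤ ∑ i, K * ∑ k, ‖((A k)ᴴ *ᵥ (A k *ᵥ v)) i‖ ^ 2 :=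
        Finset.sum_le_sum fun i _ => h4 i
    _ = K * ∑ k, ∑ i, ‖((A k)ᴴ *ᵥ (A k *ᵥ v)) i‖ ^ 2 := by
        rw [← Finset.mul_sum, Finset.sum_comm]
    _ ≤ K * ∑ k, (M * M' * B ^ 2) * ∑ i, ‖(A k *ᵥ v) i‖ ^ 2 := by
        refine mul_le_mul_of_nonneg_left (Finset.sum_le_sum fun k _ => ?_) (by positivity)
        refine mv _ (fun i j => ?_) _
        rw [Matrix.conjTranspose_apply, norm_star]
        exact hB k j i
    _ = _ := by rw [← Finset.mul_sum]; ring

lemma close (A A' : Fin K → Matrix (Fin M') (Fin M) ℂ) {c η : ℝ}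
    (hA : ∀ v : Fin M → ℂ, c * ∑ j, ‖v j‖ ^ 2 ≤ ∑ k, ∑ i, ‖(A k *ᵥ v) i‖ ^ 2)
    (hc : K * (M' * M * η ^ 2) < c) (hη : ∀ k i j, ‖A k i j - A' k i j‖ ≤ η)
    (v : Fin M → ℂ) (hv : ∀ k, A' k *ᵥ v = 0) : v = 0 := by
  have h1 : ∀ k, A k *ᵥ v = (A k - A' k) *ᵥ v := by
    intro k
    rw [Matrix.sub_mulVec, hv k, sub_zero]
  have h2 := hA v
  simp only [h1] at h2
  have h3 : ∑ k, ∑ i, ‖((A k - A' k) *ᵥ v) i‖ ^ 2 ≤
      K * (M' * M * η ^ 2) * ∑ j, ‖v j‖ ^ 2 := by
    calc _ ≤ ∑ _k : Fin K, (M' * M * η ^ 2) * ∑ j, ‖v j‖ ^ 2 :=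
          Finset.sum_le_sum fun k _ => mv _ (fun i j => hη k i j) v
      _ = _ := by
          rw [Finset.sum_const, Finset.card_univ, Fintype.card_fin, nsmul_eq_mul]; ring
  have h4 : 0 ≤ ∑ j, ‖v j‖ ^ 2 := Finset.sum_nonneg fun j _ => by positivity
  have h5 : ∑ j, ‖v j‖ ^ 2 = 0 := by
    rcases h4.eq_or_lt with h | h
    · exact h.symm
    · nlinarith
  funext j
  have h6 := (Finset.sum_eq_zero_iff_of_nonneg (fun i _ => by positivity)).1 h5 j
      (Finset.mem_univ j)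
  exact norm_eq_zero.1 (pow_eq_zero_iff two_ne_zero |>.1 h6)

/-! ### polynomials -/

variable {N m : ℕ} {G : Subgroup (UU N)}

lemma pol_cont {ι : Type} {f : (ι → G) → ℂ} (hf : IsPol f) : Continuous f := by
  induction hf with
  | const c => exact continuous_const
  | ent i a b =>
    exact (mt_cont.comp (continuous_apply i)).matrix_elem a b
  | cnj i a b =>
    exact Complex.continuous_conj.comp ((mt_cont.comp (continuous_apply i)).matrix_elem a b)
  | add _ _ h1 h2 => exact h1.add h2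
  | mul _ _ h1 h2 => exact h1.mul h2

lemma pol_conj {ι : Type} {f : (ι → G) → ℂ} (hf : IsPol f) : IsPol fun p => conj (f p) := by
  induction hf with
  | const c => exact IsPol.const _
  | ent i a b => exact IsPol.cnj i a b
  | cnj i a b =>
    have h1 : (fun p : ι → G => conj (conj (mt (p i) a b))) = fun p => mt (p i) a b := by
      funext p; exact Complex.conj_conj _
    rw [h1]
    exact IsPol.ent i a b
  | @add f g _ _ h1 h2 =>
    have h3 : (fun p : ι → G => conj (f p + g p)) = fun p => conj (f p) + conj (g p) := by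
      funext p; exact map_add _ _ _
    rw [h3]
    exact h1.add h2
  | @mul f g _ _ h1 h2 =>
    have h3 : (fun p : ι → G => conj (f p * g p)) = fun p => conj (f p) * conj (g p) := by
      funext p; exact map_mul _ _ _
    rw [h3]
    exact h1.mul h2

lemma pol_sum {ι J : Type} (s : Finset J) {f : J → (ι → G) → ℂ} (hf : ∀ j ∈ s, IsPol (f j)) :
    IsPol fun p => ∑ j ∈ s, f j p := by
  classical
  induction s using Finset.induction_on with
  | empty => simpa using IsPol.const (0 : ℂ)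
  | insert i s hi ih =>
    simp only [Finset.sum_insert hi]
    exact (hf i (Finset.mem_insert_self _ _)).add
      (ih fun j hj => hf j (Finset.mem_insert_of_mem hj))

lemma pol_prod {ι J : Type} (s : Finset J) {f : J → (ι → G) → ℂ} (hf : ∀ j ∈ s, IsPol (f j)) :
    IsPol fun p => ∏ j ∈ s, f j p := by
  classical
  induction s using Finset.induction_on with
  | empty => simpa using IsPol.const (1 : ℂ)
  | insert i s hi ih =>
    simp only [Finset.prod_insert hi]
    exact (hf i (Finset.mem_insert_self _ _)).mul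
      (ih fun j hj => hf j (Finset.mem_insert_of_mem hj))

lemma pol_det {ι : Type} {n : ℕ} {D : (ι → G) → Matrix (Fin n) (Fin n) ℂ}
    (hD : ∀ i j, IsPol fun p => D p i j) : IsPol fun p => (D p).det := by
  simp only [Matrix.det_apply']
  exact pol_sum _ fun σ _ => (IsPol.const _).mul (pol_prod _ fun i _ => hD _ _)

lemma pol_sqm {ι : Type} {A : Fin K → (ι → G) → Matrix (Fin M') (Fin M) ℂ}
    (hA : ∀ k i j, IsPol fun p => A k p i j) (i j : Fin M) :
    IsPol fun p => sqm (fun k => A k p) i j := by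
  have h1 : (fun p => sqm (fun k => A k p) i j) =
      fun p => ∑ k, ∑ a, conj (A k p a i) * A k p a j := by
    funext p
    unfold sqm
    rw [Matrix.sum_apply]
    refine Finset.sum_congr rfl fun k _ => ?_
    rw [Matrix.mul_apply]
    rfl
  rw [h1]
  exact pol_sum _ fun k _ => pol_sum _ fun a _ => (pol_conj (hA k a i)).mul (hA k a j)

/-- separation of the variables -/
def Rep (f : (Fin m → G) → ℂ) : Prop :=
  ∃ (J : Type) (_ : Fintype J) (c : J → G → ℂ) (b : J → (Fin m → G) → ℂ),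
    (∀ j, Continuous (c j)) ∧ (∀ j, IsPol (b j)) ∧
    ∀ (g : G) (p : Fin m → G), f (fun i => g * p i * g⁻¹) = ∑ j, c j g * b j p

lemma pol_rep {f : (Fin m → G) → ℂ} (hf : IsPol f) : Rep f := by
  induction hf with
  | const c =>
    exact ⟨Unit, inferInstance, fun _ _ => c, fun _ _ => 1, fun _ => continuous_const,
      fun _ => IsPol.const 1, fun g p => by simp⟩
  | ent i a b =>
    refine ⟨Fin N × Fin N, inferInstance, fun x g => mt g a x.1 * conj (mt g b x.2),
      fun x p => mt (p i) x.1 x.2, fun x => ?_, fun x => IsPol.ent i _ _, fun g p => ?_⟩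
    · exact (mt_cont.matrix_elem a x.1).mul
        (Complex.continuous_conj.comp (mt_cont.matrix_elem b x.2))
    · dsimp only
      rw [mt_mul, mt_mul, mt_inv, Matrix.mul_apply, Fintype.sum_prod_type, Finset.sum_comm]
      refine Finset.sum_congr rfl fun l _ => ?_
      rw [Matrix.mul_apply, Finset.sum_mul]
      refine Finset.sum_congr rfl fun k _ => ?_
      rw [Matrix.conjTranspose_apply, Complex.star_def]
      ring
  | cnj i a b =>
    refine ⟨Fin N × Fin N, inferInstance, fun x g => conj (mt g a x.1) * mt g b x.2,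
      fun x p => conj (mt (p i) x.1 x.2), fun x => ?_, fun x => IsPol.cnj i _ _, fun g p => ?_⟩
    · exact (Complex.continuous_conj.comp (mt_cont.matrix_elem a x.1)).mul
        (mt_cont.matrix_elem b x.2)
    · dsimp only
      rw [mt_mul, mt_mul, mt_inv, Matrix.mul_apply, Fintype.sum_prod_type, Finset.sum_comm,
        map_sum]
      refine Finset.sum_congr rfl fun l _ => ?_
      rw [Matrix.mul_apply, Finset.sum_mul, map_sum]
      refine Finset.sum_congr rfl fun k _ => ?_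
      rw [Matrix.conjTranspose_apply, Complex.star_def, map_mul, map_mul, Complex.conj_conj]
      ring
  | @add f g _ _ h1 h2 =>
    obtain ⟨J, _, c, b, hc, hb, h⟩ := h1
    obtain ⟨J', _, c', b', hc', hb', h'⟩ := h2
    refine ⟨J ⊕ J', inferInstance, Sum.elim c c', Sum.elim b b', ?_, ?_, fun x p => ?_⟩
    · rintro (j | j)
      · exact hc j
      · exact hc' j
    · rintro (j | j)
      · exact hb j
      · exact hb' j
    · dsimp only
      rw [h, h', Fintype.sum_sum_type]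
      rfl
  | @mul f g _ _ h1 h2 =>
    obtain ⟨J, _, c, b, hc, hb, h⟩ := h1
    obtain ⟨J', _, c', b', hc', hb', h'⟩ := h2
    refine ⟨J × J', inferInstance, fun x g => c x.1 g * c' x.2 g, fun x p => b x.1 p * b' x.2 p,
      fun x => (hc _).mul (hc' _), fun x => (hb _).mul (hb' _), fun x p => ?_⟩
    dsimp only
    rw [h, h', Fintype.sum_prod_type, Finset.sum_mul_sum]
    refine Finset.sum_congr rfl fun j _ => Finset.sum_congr rfl fun j' _ => ?_
    ring

lemma pol_avg [MeasurableSpace G] [BorelSpace G] [CompactSpace G] (μ : Measure G)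
    [IsProbabilityMeasure μ] {f : (Fin m → G) → ℂ} (hf : IsPol f) {c0 : G → ℂ}
    (hc0 : Continuous c0) : IsPol fun p => ∫ g, c0 g * f (fun i => g * p i * g⁻¹) ∂μ := by
  obtain ⟨J, _, c, b, hc, hb, h⟩ := pol_rep hf
  have h1 : (fun p => ∫ g, c0 g * f (fun i => g * p i * g⁻¹) ∂μ) =
      fun p => ∑ j, (∫ g, c0 g * c j g ∂μ) * b j p := by
    funext p
    have h2 : (fun g => c0 g * f (fun i => g * p i * g⁻¹)) =
        fun g => ∑ j, (c0 g * c j g) * b j p := by
      funext g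
      rw [h, Finset.mul_sum]
      refine Finset.sum_congr rfl fun j _ => ?_
      ring
    rw [h2, integral_finsetSum]
    · refine Finset.sum_congr rfl fun j _ => ?_
      rw [integral_mul_const]
    · intro j _
      exact ((hc0.mul (hc j)).mul continuous_const).integrable_of_hasCompactSupport
        (HasCompactSupport.of_compactSpace _)
  rw [h1]
  exact pol_sum _ fun j _ => (IsPol.const _).mul (hb j)

/-! ### density -/

/-- the polynomials as a star subalgebra -/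
def polAlg (m : ℕ) (G : Subgroup (UU N)) : StarSubalgebra ℂ C(Fin m → G, ℂ) where
  carrier := {f | IsPol (f : (Fin m → G) → ℂ)}
  mul_mem' ha hb := IsPol.mul ha hb
  one_mem' := IsPol.const 1
  add_mem' ha hb := IsPol.add ha hb
  zero_mem' := IsPol.const 0
  algebraMap_mem' c := IsPol.const c
  star_mem' ha := pol_conj ha

lemma pol_dense [CompactSpace G] (f : (Fin m → G) → ℂ) (hf : Continuous f) {δ : ℝ} (hδ : 0 < δ) :
    ∃ g, IsPol g ∧ ∀ p, ‖f p - g p‖ ≤ δ := by
  have h1 := ContinuousMap.starSubalgebra_topologicalClosure_eq_top_of_separatesPoints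
    (polAlg m G) (by
      intro p q hpq
      obtain ⟨i, hi⟩ := Function.ne_iff.1 hpq
      have h2 : mt (p i) ≠ mt (q i) := fun h => hi (mt_inj h)
      have h3 : ∃ a b, mt (p i) a b ≠ mt (q i) a b := by
        by_contra hcon
        push Not at hcon
        exact h2 (Matrix.ext hcon)
      obtain ⟨a, b, hab⟩ := h3
      exact ⟨fun p => mt (p i) a b, ⟨⟨fun p => mt (p i) a b, pol_cont (IsPol.ent i a b)⟩,
        IsPol.ent i a b, rfl⟩, hab⟩)
  have h2 : (⟨f, hf⟩ : C(Fin m → G, ℂ)) ∈ (polAlg m G).topologicalClosure := by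
    rw [h1]; trivial
  rw [← SetLike.mem_coe, StarSubalgebra.topologicalClosure_coe, Metric.mem_closure_iff] at h2
  obtain ⟨g, hg, hd⟩ := h2 δ hδ
  refine ⟨g, hg, fun p => ?_⟩
  have h3 := (ContinuousMap.dist_lt_iff hδ).1 hd p
  rw [dist_eq_norm] at h3
  exact h3.le

/-! ### averages -/

section av

variable (κ : G →* Matrix.unitaryGroup (Fin M) ℂ) (τ : G →* Matrix.unitaryGroup (Fin M') ℂ)

/-- the integrand -/
def cv (Y : (Fin m → G) → Matrix (Fin M') (Fin M) ℂ) (p : Fin m → G) (g : G) :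
    Matrix (Fin M') (Fin M) ℂ :=
  (τ g : Matrix (Fin M') (Fin M') ℂ)ᴴ * Y (fun i => g * p i * g⁻¹) *
    (κ g : Matrix (Fin M) (Fin M) ℂ)

lemma cv_cont (hκ : Continuous κ) (hτ : Continuous τ)
    {Y : (Fin m → G) → Matrix (Fin M') (Fin M) ℂ} (hY : Continuous Y) (p : Fin m → G) :
    Continuous (cv κ τ Y p) := by
  unfold cv
  refine (((continuous_subtype_val.comp hτ).matrix_conjTranspose).matrix_mul (hY.comp ?_)).matrix_mul
    (continuous_subtype_val.comp hκ)
  exact continuous_pi fun i => (continuous_id.mul continuous_const).mul continuous_inv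

lemma un1 {n : ℕ} (u : Matrix.unitaryGroup (Fin n) ℂ) :
    (u : Matrix (Fin n) (Fin n) ℂ)ᴴ * (u : Matrix (Fin n) (Fin n) ℂ) = 1 :=
  Matrix.mem_unitaryGroup_iff'.1 u.2

lemma cv_mul (Y : (Fin m → G) → Matrix (Fin M') (Fin M) ℂ) (p : Fin m → G) (x g : G) :
    cv κ τ Y (fun i => x * p i * x⁻¹) (g * x⁻¹) =
      (τ x : Matrix (Fin M') (Fin M') ℂ) * cv κ τ Y p g * (κ x : Matrix (Fin M) (Fin M) ℂ)ᴴ := by
  unfold cv
  have h1 : (fun i => g * x⁻¹ * (x * p i * x⁻¹) * (g * x⁻¹)⁻¹) = fun i => g * p i * g⁻¹ := by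
    funext i
    group
  dsimp only
  rw [h1, map_mul, map_mul, map_inv, map_inv]
  show ((τ g : Matrix (Fin M') (Fin M') ℂ) * (τ x : Matrix (Fin M') (Fin M') ℂ)ᴴ)ᴴ *
    Y (fun i => g * p i * g⁻¹) *
    ((κ g : Matrix (Fin M) (Fin M) ℂ) * (κ x : Matrix (Fin M) (Fin M) ℂ)ᴴ) = _
  rw [Matrix.conjTranspose_mul, Matrix.conjTranspose_conjTranspose]
  simp only [Matrix.mul_assoc]

lemma cv_inv {Y : (Fin m → G) → Matrix (Fin M') (Fin M) ℂ}
    (hY : ∀ (g : G) (p : Fin m → G), Y (fun i => g * p i * g⁻¹) =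
      (τ g : Matrix (Fin M') (Fin M') ℂ) * Y p * (κ g : Matrix (Fin M) (Fin M) ℂ)ᴴ)
    (p : Fin m → G) (g : G) : cv κ τ Y p g = Y p := by
  unfold cv
  rw [hY]
  have e : (τ g : Matrix (Fin M') (Fin M') ℂ)ᴴ * ((τ g : Matrix (Fin M') (Fin M') ℂ) * Y p *
      (κ g : Matrix (Fin M) (Fin M) ℂ)ᴴ) * (κ g : Matrix (Fin M) (Fin M) ℂ) =
      ((τ g : Matrix (Fin M') (Fin M') ℂ)ᴴ * (τ g : Matrix (Fin M') (Fin M') ℂ)) * Y p *
      ((κ g : Matrix (Fin M) (Fin M) ℂ)ᴴ * (κ g : Matrix (Fin M) (Fin M) ℂ)) := by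
    simp only [Matrix.mul_assoc]
  rw [e, un1, un1, Matrix.one_mul, Matrix.mul_one]

lemma cv_entry (Y : (Fin m → G) → Matrix (Fin M') (Fin M) ℂ) (p : Fin m → G) (g : G)
    (i : Fin M') (j : Fin M) : cv κ τ Y p g i j = ∑ b, ∑ a,
      (conj ((τ g : Matrix (Fin M') (Fin M') ℂ) a i) * (κ g : Matrix (Fin M) (Fin M) ℂ) b j) *
        Y (fun i => g * p i * g⁻¹) a b := by
  unfold cv
  rw [Matrix.mul_apply]
  refine Finset.sum_congr rfl fun b _ => ?_
  rw [Matrix.mul_apply, Finset.sum_mul]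
  refine Finset.sum_congr rfl fun a _ => ?_
  rw [Matrix.conjTranspose_apply, Complex.star_def]
  ring

/-- an entry as a linear map -/
def entL (i : Fin M') (j : Fin M) : Matrix (Fin M') (Fin M) ℂ →L[ℝ] ℂ :=
  LinearMap.toContinuousLinearMap
    { toFun := fun Y => Y i j
      map_add' := fun Y Y' => rfl
      map_smul' := fun c Y => rfl }

lemma entL_apply (i : Fin M') (j : Fin M) (Y : Matrix (Fin M') (Fin M) ℂ) : entL i j Y = Y i j :=
  rfl

variable [MeasurableSpace G] (μ : Measure G)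

/-- the averaged function -/
def avm (Y : (Fin m → G) → Matrix (Fin M') (Fin M) ℂ) (p : Fin m → G) :
    Matrix (Fin M') (Fin M) ℂ := ∫ g, cv κ τ Y p g ∂μ

theorem rinv [CompactSpace G] [BorelSpace G]
    [IsProbabilityMeasure μ] [μ.IsHaarMeasure] : μ.IsMulRightInvariant := by
  refine ⟨fun g => ?_⟩
  have : IsProbabilityMeasure (Measure.map (fun x : G => x * g) μ) :=
    Measure.isProbabilityMeasure_map (measurable_mul_const g).aemeasurable
  exact Measure.isHaarMeasure_eq_of_isProbabilityMeasure _ _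

variable [BorelSpace G] [CompactSpace G] [SecondCountableTopology G] [IsProbabilityMeasure μ]
  [μ.IsHaarMeasure]

lemma avm_entry (hκ : Continuous κ) (hτ : Continuous τ)
    {Y : (Fin m → G) → Matrix (Fin M') (Fin M) ℂ} (hY : Continuous Y) (p : Fin m → G)
    (i : Fin M') (j : Fin M) : avm κ τ μ Y p i j = ∫ g, cv κ τ Y p g i j ∂μ := by
  have h1 := ContinuousLinearMap.integral_comp_comm (entL i j) (φ := cv κ τ Y p) (μ := μ)
    ((cv_cont κ τ hκ hτ hY p).integrable_of_hasCompactSupport (HasCompactSupport.of_compactSpace _))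
  exact h1.symm

lemma avm_cov (hκ : Continuous κ) (hτ : Continuous τ)
    {Y : (Fin m → G) → Matrix (Fin M') (Fin M) ℂ} (hY : Continuous Y) (x : G) (p : Fin m → G) :
    avm κ τ μ Y (fun i => x * p i * x⁻¹) =
      (τ x : Matrix (Fin M') (Fin M') ℂ) * avm κ τ μ Y p * (κ x : Matrix (Fin M) (Fin M) ℂ)ᴴ := by
  let L : Matrix (Fin M') (Fin M) ℂ →L[ℝ] Matrix (Fin M') (Fin M) ℂ :=
    LinearMap.toContinuousLinearMap
      { toFun := fun Y => (τ x : Matrix (Fin M') (Fin M') ℂ) * Y *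
          (κ x : Matrix (Fin M) (Fin M) ℂ)ᴴ
        map_add' := fun Y Y' => by rw [Matrix.mul_add, Matrix.add_mul]
        map_smul' := fun c Y => by
          rw [Matrix.mul_smul, Matrix.smul_mul, RingHom.id_apply] }
  have hr := rinv μ
  have h1 := ContinuousLinearMap.integral_comp_comm L (φ := cv κ τ Y p) (μ := μ)
    ((cv_cont κ τ hκ hτ hY p).integrable_of_hasCompactSupport (HasCompactSupport.of_compactSpace _))
  have h2 : L (∫ g, cv κ τ Y p g ∂μ) = (τ x : Matrix (Fin M') (Fin M') ℂ) * avm κ τ μ Y p *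
      (κ x : Matrix (Fin M) (Fin M) ℂ)ᴴ := rfl
  refine Eq.trans ?_ (h1.trans h2)
  unfold avm
  rw [← integral_mul_right_eq_self _ x⁻¹]
  refine integral_congr_ae (Filter.Eventually.of_forall fun g => ?_)
  exact cv_mul κ τ Y p x g

lemma avm_inv {Y : (Fin m → G) → Matrix (Fin M') (Fin M) ℂ}
    (hY : ∀ (g : G) (p : Fin m → G), Y (fun i => g * p i * g⁻¹) =
      (τ g : Matrix (Fin M') (Fin M') ℂ) * Y p * (κ g : Matrix (Fin M) (Fin M) ℂ)ᴴ)
    (p : Fin m → G) : avm κ τ μ Y p = Y p := by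
  unfold avm
  have h1 : cv κ τ Y p = fun _ => Y p := funext fun g => cv_inv κ τ hY p g
  rw [h1, integral_const]
  simp

lemma avm_pol (hκ : Continuous κ) (hτ : Continuous τ)
    {Y : (Fin m → G) → Matrix (Fin M') (Fin M) ℂ} (hY : Continuous Y)
    (hp : ∀ i j, IsPol fun p => Y p i j) (i : Fin M') (j : Fin M) :
    IsPol fun p => avm κ τ μ Y p i j := by
  have hcc : ∀ a b, Continuous fun g : G =>
      conj ((τ g : Matrix (Fin M') (Fin M') ℂ) a i) * (κ g : Matrix (Fin M) (Fin M) ℂ) b j :=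
    fun a b => (Complex.continuous_conj.comp ((continuous_subtype_val.comp hτ).matrix_elem a i)).mul
      ((continuous_subtype_val.comp hκ).matrix_elem b j)
  have h1 : (fun p => avm κ τ μ Y p i j) = fun p => ∑ b, ∑ a, ∫ g,
      (conj ((τ g : Matrix (Fin M') (Fin M') ℂ) a i) * (κ g : Matrix (Fin M) (Fin M) ℂ) b j) *
        Y (fun i => g * p i * g⁻¹) a b ∂μ := by
    funext p
    have hint : ∀ a b, Integrable (fun g : G =>
        (conj ((τ g : Matrix (Fin M') (Fin M') ℂ) a i) * (κ g : Matrix (Fin M) (Fin M) ℂ) b j) *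
        Y (fun i => g * p i * g⁻¹) a b) μ := by
      intro a b
      refine Continuous.integrable_of_hasCompactSupport ?_ (HasCompactSupport.of_compactSpace _)
      refine (hcc a b).mul ((pol_cont (hp a b)).comp ?_)
      exact continuous_pi fun i => (continuous_id.mul continuous_const).mul continuous_inv
    rw [avm_entry κ τ μ hκ hτ hY]
    simp only [cv_entry]
    rw [integral_finsetSum _ fun b _ => integrable_finsetSum _ fun a _ => hint a b]
    refine Finset.sum_congr rfl fun b _ => ?_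
    rw [integral_finsetSum _ fun a _ => hint a b]
  rw [h1]
  exact pol_sum _ fun b _ => pol_sum _ fun a _ => pol_avg μ (hp a b) (hcc a b)

lemma avm_close (hκ : Continuous κ) (hτ : Continuous τ)
    {Y Y' : (Fin m → G) → Matrix (Fin M') (Fin M) ℂ} (hY : Continuous Y) (hY' : Continuous Y')
    {δ : ℝ} (hδ : ∀ p i j, ‖Y p i j - Y' p i j‖ ≤ δ) (p : Fin m → G) (i : Fin M') (j : Fin M) :
    ‖avm κ τ μ Y p i j - avm κ τ μ Y' p i j‖ ≤ M * M' * δ := by
  have h0 : ∀ {Y : (Fin m → G) → Matrix (Fin M') (Fin M) ℂ}, Continuous Y →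
      Integrable (fun g => cv κ τ Y p g i j) μ := fun hY =>
    ((cv_cont κ τ hκ hτ hY p).matrix_elem i j).integrable_of_hasCompactSupport
      (HasCompactSupport.of_compactSpace _)
  rw [avm_entry κ τ μ hκ hτ hY, avm_entry κ τ μ hκ hτ hY', ← integral_sub (h0 hY) (h0 hY')]
  have h1 : ∀ g, ‖cv κ τ Y p g i j - cv κ τ Y' p g i j‖ ≤ M * M' * δ := by
    intro g
    rw [cv_entry, cv_entry, ← Finset.sum_sub_distrib]
    refine (norm_sum_le _ _).trans ?_
    have h2 : ∀ b : Fin M, ‖∑ a, (conj ((τ g : Matrix (Fin M') (Fin M') ℂ) a i) *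
        (κ g : Matrix (Fin M) (Fin M) ℂ) b j) * Y (fun i => g * p i * g⁻¹) a b -
        ∑ a, (conj ((τ g : Matrix (Fin M') (Fin M') ℂ) a i) *
        (κ g : Matrix (Fin M) (Fin M) ℂ) b j) * Y' (fun i => g * p i * g⁻¹) a b‖ ≤ M' * δ := by
      intro b
      rw [← Finset.sum_sub_distrib]
      refine (norm_sum_le _ _).trans ?_
      have h3 : ∀ a : Fin M', ‖(conj ((τ g : Matrix (Fin M') (Fin M') ℂ) a i) *
        (κ g : Matrix (Fin M) (Fin M) ℂ) b j) * Y (fun i => g * p i * g⁻¹) a b -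
        (conj ((τ g : Matrix (Fin M') (Fin M') ℂ) a i) *
        (κ g : Matrix (Fin M) (Fin M) ℂ) b j) * Y' (fun i => g * p i * g⁻¹) a b‖ ≤ δ := by
        intro a
        rw [← mul_sub, norm_mul, norm_mul, RCLike.norm_conj]
        have h4 := entry_norm_bound_of_unitary (τ g).2 a i
        have h5 := entry_norm_bound_of_unitary (κ g).2 b j
        have h6 := hδ (fun i => g * p i * g⁻¹) a b
        calc _ ≤ (1 * 1) * ‖Y (fun i => g * p i * g⁻¹) a b - Y' (fun i => g * p i * g⁻¹) a b‖ :=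
              mul_le_mul_of_nonneg_right (mul_le_mul h4 h5 (norm_nonneg _) zero_le_one)
                (norm_nonneg _)
          _ ≤ _ := by rw [one_mul, one_mul]; exact h6
      refine (Finset.sum_le_sum fun a _ => h3 a).trans ?_
      rw [Finset.sum_const, Finset.card_univ, Fintype.card_fin, nsmul_eq_mul]
    refine (Finset.sum_le_sum fun b _ => h2 b).trans ?_
    rw [Finset.sum_const, Finset.card_univ, Fintype.card_fin, nsmul_eq_mul, mul_assoc]
  have h2 := norm_integral_le_of_norm_le_const (μ := μ) (Filter.Eventually.of_forall h1)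
  simpa using h2

end av

lemma bdd {X J : Type} [TopologicalSpace X] [CompactSpace X] [Fintype J] (f : J → X → ℂ)
    (hf : ∀ j, Continuous (f j)) : ∃ B : ℝ, ∀ j x, ‖f j x‖ ≤ B := by
  have h1 : ∀ j, ∃ C, ∀ x ∈ (Set.univ : Set X), ‖f j x‖ ≤ C := fun j =>
    isCompact_univ.exists_bound_of_continuousOn (hf j).continuousOn
  choose C hC using h1
  refine ⟨∑ j, |C j|, fun j x => (hC j x trivial).trans ((le_abs_self _).trans ?_)⟩
  exact Finset.single_le_sum (f := fun j => |C j|) (fun j _ => abs_nonneg _) (Finset.mem_univ j)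

lemma small {X c : ℝ} (hX : 0 ≤ X) (hc : 0 < c) : ∃ δ : ℝ, 0 < δ ∧ X * δ ^ 2 < c := by
  refine ⟨min 1 (c / (2 * (X + 1))), by positivity, ?_⟩
  set δ := min 1 (c / (2 * (X + 1))) with hδ
  have h0 : 0 < δ := by positivity
  have h1 : δ ≤ 1 := min_le_left _ _
  have h2 : δ ≤ c / (2 * (X + 1)) := min_le_right _ _
  rw [le_div_iff₀ (by positivity)] at h2
  nlinarith [mul_nonneg hX h0.le, mul_nonneg (mul_nonneg hX h0.le) (sub_nonneg.2 h1)]

end

end Pool.Agent.H189.WA.COVP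

namespace Pool.Agent.H189.WA

open Pool.Agent.H189.KS COVP

theorem t_COVP (hSUBL : S_SUBL) : S_COVP := by
  intro N G hG _ _ _ μ _ _ M M' κ τ hκ hτ hM' hcen m hgood
  have hcU := COVF.compact_UU N
  have hsU := COVF.sc_UU N
  have hcG : CompactSpace G := isCompact_iff_compactSpace.1 hG.isCompact
  have hsc : SecondCountableTopology G := TopologicalSpace.Subtype.secondCountableTopology _
  obtain ⟨K, c, h0, hc, hsm, hcov, S0, hS0m, hS0, hb⟩ :=
    t_COVF t_PARI N G hG μ M M' κ τ hκ hτ hM' hcen m hgood (1 / 2) (by norm_num)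
  obtain ⟨p0, hp0⟩ : ∃ p0, p0 ∉ S0 := by
    by_contra hcon
    push Not at hcon
    have h1 : S0 = Set.univ := Set.eq_univ_of_forall hcon
    rw [h1] at hS0
    have h2 : (Measure.pi fun _ : Fin m => μ).real Set.univ = 1 := by simp
    rw [h2] at hS0
    norm_num at hS0
  obtain ⟨δ, hδ0, hδ⟩ := small (X := K * (M' * M * (M * M') ^ 2)) (c := c) (by positivity) hc
  -- the approximation
  let H0 : Fin K → (Fin m → G) → Matrix (Fin M') (Fin M) ℂ := fun k p => h0 k fun i => mt (p i)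
  have hH0c : ∀ k, Continuous (H0 k) := fun k =>
    (hsm k).continuous.comp (continuous_pi fun i => mt_cont.comp (continuous_apply i))
  have hH0v : ∀ k (g : G) (p : Fin m → G), H0 k (fun i => g * p i * g⁻¹) =
      (τ g : Matrix (Fin M') (Fin M') ℂ) * H0 k p * (κ g : Matrix (Fin M) (Fin M) ℂ)ᴴ :=
    fun k g p => hcov k g p
  have happ : ∀ k i j, ∃ g : (Fin m → G) → ℂ, IsPol g ∧ ∀ p, ‖H0 k p i j - g p‖ ≤ δ :=
    fun k i j => pol_dense (fun p => H0 k p i j) ((hH0c k).matrix_elem i j) hδ0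
  choose gg hgp hgd using happ
  let Y : Fin K → (Fin m → G) → Matrix (Fin M') (Fin M) ℂ := fun k p => Matrix.of fun i j =>
    gg k i j p
  have hYp : ∀ k i j, IsPol fun p => Y k p i j := fun k i j => hgp k i j
  have hYc : ∀ k, Continuous (Y k) := fun k =>
    continuous_pi fun i => continuous_pi fun j => pol_cont (hgp k i j)
  let h : Fin K → (Fin m → G) → Matrix (Fin M') (Fin M) ℂ := fun k => avm κ τ μ (Y k)
  have hhp : ∀ k i j, IsPol fun p => h k p i j := fun k i j =>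
    avm_pol κ τ μ hκ hτ (hYc k) (hYp k) i j
  have hclose : ∀ k i j, ‖H0 k p0 i j - h k p0 i j‖ ≤ M * M' * δ := by
    intro k i j
    have h1 := avm_close κ τ μ hκ hτ (hH0c k) (hYc k) (δ := δ) (fun p i j => hgd k i j p) p0 i j
    rw [avm_inv κ τ μ (hH0v k)] at h1
    exact h1
  let f : (Fin m → G) → ℂ := fun p => (sqm fun k => h k p).det
  have hfp : IsPol f := pol_det fun i j => pol_sqm hhp i j
  have hf0 : f p0 ≠ 0 := by
    refine sqm_det _ fun v hv => ?_
    refine close (fun k => H0 k p0) (fun k => h k p0) (c := c) (η := M * M' * δ)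
      (fun v => hb p0 hp0 v) ?_ hclose v hv
    calc _ = K * (M' * M * (M * M') ^ 2) * δ ^ 2 := by ring
      _ < c := hδ
  obtain ⟨C, a, hC, ha, hsub⟩ := hSUBL N G hG μ m f hfp ⟨p0, hf0⟩
  obtain ⟨B, hB⟩ := bdd (J := Fin K × Fin M' × Fin M) (fun x p => h x.1 p x.2.1 x.2.2)
    fun x => pol_cont (hhp x.1 x.2.1 x.2.2)
  have hsqc : Continuous fun p => sqm fun k => h k p :=
    continuous_pi fun i => continuous_pi fun j => pol_cont (pol_sqm hhp i j)
  obtain ⟨B', hB'⟩ := bdd (J := Fin M × Fin M) (fun x p => (sqm fun k => h k p).adjugate x.1 x.2)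
    fun x => hsqc.matrix_adjugate.matrix_elem x.1 x.2
  let Λ : ℝ := (M * M * B' ^ 2) * (K * (M * M' * B ^ 2)) + 1
  have hΛ : 0 < Λ := by positivity
  have hmain : ∀ p (v : Fin M → ℂ), ‖f p‖ ^ 2 * ∑ j, ‖v j‖ ^ 2 ≤
      Λ * ∑ k, ∑ i, ‖(h k p *ᵥ v) i‖ ^ 2 := by
    intro p v
    have h1 := lin (fun k => h k p) (B := B) (B' := B') (fun k i j => hB (k, i, j) p)
      (fun i j => hB' (i, j) p) v
    refine h1.trans (mul_le_mul_of_nonneg_right ?_ ?_)
    · exact le_add_of_nonneg_right zero_le_one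
    · exact Finset.sum_nonneg fun k _ => Finset.sum_nonneg fun i _ => by positivity
  refine ⟨K, h, C * Λ ^ (a / 2), a / 2, by positivity, by positivity, hhp,
    fun k g p => avm_cov κ τ μ hκ hτ (hYc k) g p, fun s hs hs1 => ?_⟩
  have hfc : Continuous f := pol_cont hfp
  refine ⟨{p | ‖f p‖ ≤ Real.sqrt (s * Λ)}, ?_, ?_, ?_⟩
  · exact (isClosed_le hfc.norm continuous_const).measurableSet
  · refine (hsub (Real.sqrt (s * Λ)) (Real.sqrt_pos.2 (by positivity))).trans (le_of_eq ?_)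
    rw [Real.sqrt_eq_rpow, ← Real.rpow_mul (by positivity), Real.mul_rpow hs.le hΛ.le]
    rw [show (1 : ℝ) / 2 * a = a / 2 by ring]
    ring
  · intro p hp v
    have h1 : Real.sqrt (s * Λ) < ‖f p‖ := not_le.1 hp
    have h2 : s * Λ ≤ ‖f p‖ ^ 2 := by
      have h3 : s * Λ = Real.sqrt (s * Λ) ^ 2 := (Real.sq_sqrt (by positivity)).symm
      rw [h3]
      exact pow_le_pow_left₀ (Real.sqrt_nonneg _) h1.le 2
    have h3 := hmain p v
    have h4 : 0 ≤ ∑ j, ‖v j‖ ^ 2 := Finset.sum_nonneg fun j _ => by positivity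
    have h5 : s * Λ * ∑ j, ‖v j‖ ^ 2 ≤ Λ * ∑ k, ∑ i, ‖(h k p *ᵥ v) i‖ ^ 2 :=
      (mul_le_mul_of_nonneg_right h2 h4).trans h3
    have h6 : Λ * (s * ∑ j, ‖v j‖ ^ 2) ≤ Λ * ∑ k, ∑ i, ‖(h k p *ᵥ v) i‖ ^ 2 := by
      calc _ = s * Λ * ∑ j, ‖v j‖ ^ 2 := by ring
        _ ≤ _ := h5
    exact le_of_mul_le_mul_left h6 hΛ

end Pool.Agent.H189.WA
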