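import Mathlib
import Pool.Agent.H189.WA.Core
import Pool.Agent.H189.KS.Tor
import Pool.Agent.H189.KS.One2

/-!
# The periodic lattice: weights and gauge covariance
-/

open MeasureTheory Matrix
open scoped ComplexConjugate Matrix.Norms.Frobenius

namespace Pool.Agent.H189.WA

open Pool.Agent.H189.KS

set_option linter.unusedSectionVars false
set_option linter.unusedVariables false

noncomputable section

variable {N : ℕ} {G : Subgroup (UU N)} {D l M M' M'' : ℕ} [NeZero l]

/-- the weight of a time slice -/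
def wt (β : ℝ) (U : Link D l → G) : ℝ := Real.exp (-(β / 2) * magnetic U)

lemma wt_nice (β : ℝ) : Nice (wt β : (Link D l → G) → ℝ) :=
  ⟨Real.continuous_exp.comp (continuous_const.mul magnetic_cont), fun _ => Real.exp_pos _⟩

lemma wt_gt (β : ℝ) (γ : (Fin D → ZMod l) → G) (U : Link D l → G) :
    wt β (gt src tgt γ U) = wt β U := by
  unfold wt
  rw [magnetic_gt]

/-- the weight depends only moderately on a few links -/
lemma wt_var {β : ℝ} (hβ : 0 < β) {m : ℕ} (e : Fin m → Link D l) (U U' : Link D l → G)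
    (h : ∀ e', (∀ i, e' ≠ e i) → U e' = U' e') :
    wt β U ≤ Real.exp (β / 2 * (8 * N * D * m)) * wt β U' := by
  classical
  have h1 := magnetic_var (Finset.univ.image e) U U' (fun e' he' => h e' fun i hi => he' (by
    rw [hi]; exact Finset.mem_image_of_mem _ (Finset.mem_univ _)))
  have h2 : ((Finset.univ.image e).card : ℝ) ≤ m := by
    have := Finset.card_image_le (s := (Finset.univ : Finset (Fin m))) (f := e)
    rw [Finset.card_univ, Fintype.card_fin] at this
    exact_mod_cast this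
  have h3 : |magnetic U - magnetic U'| ≤ 8 * N * D * m :=
    h1.trans (mul_le_mul_of_nonneg_left h2 (by positivity))
  unfold wt
  rw [← Real.exp_add]
  refine Real.exp_le_exp.2 ?_
  have h4 := (abs_le.1 h3).1
  nlinarith

lemma rt_gt (γ : (Fin D → ZMod l) → G) (U V : Link D l → G) (e : Link D l) :
    rt (gt src tgt γ U e) (gt src tgt γ V e) = rt (U e) (V e) := by
  unfold rt gt
  have h1 : ∀ a b c d : G, mt (a * b * c⁻¹) * (mt (a * d * c⁻¹))ᴴ =
      mt a * (mt b * (mt d)ᴴ) * (mt a)ᴴ := by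
    intro a b c d
    have e1 : mt (a * b * c⁻¹) * (mt (a * d * c⁻¹))ᴴ = mt (a * b * c⁻¹ * (a * d * c⁻¹)⁻¹) := by
      rw [mt_mul (a * b * c⁻¹), mt_inv (a * d * c⁻¹)]
    have e2 : a * b * c⁻¹ * (a * d * c⁻¹)⁻¹ = a * (b * d⁻¹) * a⁻¹ := by group
    rw [e1, e2, mt_mul, mt_mul, mt_mul, mt_inv, mt_inv]
  rw [h1, trace_mul_comm, ← Matrix.mul_assoc]
  have h2 : (mt (γ (src e)))ᴴ * mt (γ (src e)) = 1 :=
    (Matrix.mem_unitaryGroup_iff').1 (γ (src e) : UU N).2
  rw [h2, Matrix.one_mul]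

lemma ker_gt (β : ℝ) (γ : (Fin D → ZMod l) → G) (U V : Link D l → G) :
    ker β (wt β) (gt src tgt γ U) (gt src tgt γ V) = ker β (wt β) U V := by
  unfold ker
  rw [wt_gt, wt_gt]
  congr 1
  exact Finset.prod_congr rfl fun e _ => by rw [rt_gt]

variable [CompactSpace G] [SecondCountableTopology G] [MeasurableSpace G] [BorelSpace G]
  (μ : Measure G) [IsProbabilityMeasure μ] [μ.IsHaarMeasure]

/-- gauge invariant functions -/
def GI {X : Type} (F : (Link D l → G) → X) : Prop := ∀ γ U, F (gt src tgt γ U) = F U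

/-- a gauge invariant kernel -/
def KI (K : (Link D l → G) → (Link D l → G) → ℝ) : Prop :=
  ∀ γ U V, K (gt src tgt γ U) (gt src tgt γ V) = K U V

variable {K : (Link D l → G) → (Link D l → G) → ℝ}

/-- change of variables in the operator -/
lemma opr_gt (hK : Continuous fun q : (Link D l → G) × (Link D l → G) => K q.1 q.2) (hI : KI K)
    {F : (Link D l → G) → ℂ} (hF : Continuous F)
    (γ : (Fin D → ZMod l) → G) (U : Link D l → G) :
    opr μ K F (gt src tgt γ U) =
      ∫ V, F (gt src tgt γ V) * (K U V : ℂ) ∂(Measure.pi fun _ : Link D l => μ) := by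
  obtain ⟨π, hπ⟩ : ∃ π, π = Measure.pi fun _ : Link D l => μ := ⟨_, rfl⟩
  have h : MeasurePreserving (fun U : Link D l → G => gt src tgt γ U) π π := by
    rw [hπ]
    exact E0AL.mp_gt μ (src : Link D l → Fin D → ZMod l) tgt γ
  obtain ⟨U', hU'⟩ : ∃ U', U' = gt src tgt γ U := ⟨_, rfl⟩
  obtain ⟨f, hf⟩ : ∃ f : (Link D l → G) → ℂ, f = fun V => F V * (K U' V : ℂ) := ⟨_, rfl⟩
  have hKU : Continuous fun V => K U' V := hK.comp (Continuous.prodMk_right U')
  have hc : Continuous f := by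
    rw [hf]
    exact hF.mul (Complex.continuous_ofReal.comp hKU)
  have h2 : ∫ V, f V ∂π = ∫ V, f (gt src tgt γ V) ∂π := by
    conv_lhs => rw [← h.map_eq]
    refine integral_map h.measurable.aemeasurable ?_
    rw [h.map_eq]
    exact hc.aestronglyMeasurable
  have e1 : opr μ K F U' = ∫ V, f V ∂π := by
    rw [hf, hπ]; rfl
  rw [← hU', e1, h2, ← hπ, hf]
  refine integral_congr_ae (Filter.Eventually.of_forall fun V => ?_)
  dsimp only
  rw [hU', hI]

lemma opr_GI (hK : Continuous fun q : (Link D l → G) × (Link D l → G) => K q.1 q.2) (hI : KI K)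
    {F : (Link D l → G) → ℂ} (hF : Continuous F) (h : GI F) : GI (opr μ K F) := by
  intro γ U
  rw [opr_gt μ hK hI hF]
  unfold opr
  simp only [h γ]

variable {κ : G →* UU M} {κ' : G →* UU M'} {τ : G →* UU M''} {x y : Fin D → ZMod l}

/-- the norm of the values of a covariant function is gauge invariant -/
lemma hn_GI {Ψ : (Link D l → G) → HV M M'} (h : PP κ κ' x y Ψ) : GI (hn Ψ) := by
  intro γ U
  unfold hn
  have h1 : ‖Ψ (gt src tgt γ U)‖ ^ 2 = ‖Ψ U‖ ^ 2 := by
    rw [← real_inner_self_eq_norm_sq, ← real_inner_self_eq_norm_sq, inner_eq, inner_eq, h γ U,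
      conjTranspose_mul, conjTranspose_mul, conjTranspose_conjTranspose]
    have e1 := unit_mul (κ (γ x))
    have e2 := unit_mul (κ' (γ y))
    have e3 : (κ' (γ y) : Mt M') * ((toM (Ψ U))ᴴ * (κ (γ x) : Mt M)ᴴ) *
        ((κ (γ x) : Mt M) * toM (Ψ U) * (κ' (γ y) : Mt M')ᴴ) =
        (κ' (γ y) : Mt M') * (((toM (Ψ U))ᴴ * (((κ (γ x) : Mt M)ᴴ * (κ (γ x) : Mt M)) *
          toM (Ψ U))) * (κ' (γ y) : Mt M')ᴴ) := by
      simp only [Matrix.mul_assoc]
    rw [e3, e1, Matrix.one_mul, trace_mul_comm, Matrix.mul_assoc, e2, Matrix.mul_one]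
  have h2 : ‖Ψ (gt src tgt γ U)‖ = ‖Ψ U‖ := by
    have a1 := norm_nonneg (Ψ (gt src tgt γ U))
    have a2 := norm_nonneg (Ψ U)
    nlinarith
  rw [h2]

/-- the operator preserves the covariance -/
lemma vo_PP (hK : Continuous fun q : (Link D l → G) × (Link D l → G) => K q.1 q.2) (hI : KI K)
    {Ψ : (Link D l → G) → HV M M'} (hc : Continuous Ψ) (h : PP κ κ' x y Ψ) :
    PP κ κ' x y (vo μ K Ψ) := by
  intro γ U
  have hKU : Continuous fun V => K U V := hK.comp (Continuous.prodMk_right U)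
  ext i j
  have e0 : toM (vo μ K Ψ (gt src tgt γ U)) i j =
      opr μ K (fun V => Ψ V (i, j)) (gt src tgt γ U) := rfl
  rw [e0, opr_gt μ hK hI (ent_cont hc (i, j))]
  have e1 : ∀ V, Ψ (gt src tgt γ V) (i, j) = ∑ b, ∑ a, (κ (γ x) : Mt M) i a * Ψ V (a, b) *
      (κ' (γ y) : Mt M')ᴴ b j := by
    intro V
    have h1 : Ψ (gt src tgt γ V) (i, j) = toM (Ψ (gt src tgt γ V)) i j := rfl
    rw [h1, h γ V, Matrix.mul_apply]
    refine Finset.sum_congr rfl fun b _ => ?_
    rw [Matrix.mul_apply, Finset.sum_mul]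
    rfl
  have e2 : ∀ V, Ψ (gt src tgt γ V) (i, j) * (K U V : ℂ) =
      ∑ b, ∑ a, (κ (γ x) : Mt M) i a * (κ' (γ y) : Mt M')ᴴ b j *
        (Ψ V (a, b) * (K U V : ℂ)) := by
    intro V
    rw [e1, Finset.sum_mul]
    refine Finset.sum_congr rfl fun b _ => ?_
    rw [Finset.sum_mul]
    refine Finset.sum_congr rfl fun a _ => ?_
    ring
  have hcc : ∀ a b, Continuous fun V => Ψ V (a, b) * (K U V : ℂ) := fun a b =>
    (ent_cont hc (a, b)).mul (Complex.continuous_ofReal.comp hKU)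
  obtain ⟨π, hπ⟩ : ∃ π, π = Measure.pi fun _ : Link D l => μ := ⟨_, rfl⟩
  have hint : ∀ a b, Integrable (fun V => (κ (γ x) : Mt M) i a * (κ' (γ y) : Mt M')ᴴ b j *
      (Ψ V (a, b) * (K U V : ℂ))) π := fun a b => by
    rw [hπ]; exact (intg μ (hcc a b)).const_mul _
  have e3 : ∀ a b, toM (vo μ K Ψ U) a b =
    ∫ V, Ψ V (a, b) * (K U V : ℂ) ∂π := fun a b => by rw [hπ]; rfl
  rw [← hπ]
  calc ∫ V, Ψ (gt src tgt γ V) (i, j) * (K U V : ℂ) ∂π
      = ∫ V, ∑ b, ∑ a, (κ (γ x) : Mt M) i a * (κ' (γ y) : Mt M')ᴴ b j *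
        (Ψ V (a, b) * (K U V : ℂ)) ∂π :=
        integral_congr_ae (Filter.Eventually.of_forall fun V => e2 V)
    _ = ∑ b, ∑ a, ∫ V, (κ (γ x) : Mt M) i a * (κ' (γ y) : Mt M')ᴴ b j *
        (Ψ V (a, b) * (K U V : ℂ)) ∂π := by
        rw [integral_finsetSum _ fun b _ => integrable_finsetSum _ fun a _ => hint a b]
        exact Finset.sum_congr rfl fun b _ => integral_finsetSum _ fun a _ => hint a b
    _ = ∑ b, ∑ a, (κ (γ x) : Mt M) i a * toM (vo μ K Ψ U) a b *
        (κ' (γ y) : Mt M')ᴴ b j := by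
        refine Finset.sum_congr rfl fun b _ => Finset.sum_congr rfl fun a _ => ?_
        rw [integral_const_mul, ← e3]
        ring
    _ = _ := by
        rw [Matrix.mul_apply]
        refine Finset.sum_congr rfl fun b _ => ?_
        rw [Matrix.mul_apply, Finset.sum_mul]

end

end Pool.Agent.H189.WA
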