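import Mathlib
import Pool.Agent.H189.WA.Site

/-!
# Statements for the linear bound
-/

open MeasureTheory Matrix
open scoped ComplexConjugate Matrix.Norms.Frobenius

namespace Pool.Agent.H189.WA

open Pool.Agent.H189.KS

set_option linter.unusedSectionVars false
set_option linter.unusedVariables false

noncomputable section

/-- the kernel of a set of links -/
def kerB {N : ℕ} {G : Subgroup (UU N)} {E : Type} (B : Finset E) (β : ℝ) (U V : E → G) : ℝ :=
  ∏ e ∈ B, Real.exp (β * rt (U e) (V e))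

/-- LIN1. The form of the matrix elements of the holonomy of a list of distinct links. -/
def S_LIN1 : Prop := ∀ (N : ℕ) (G : Subgroup (UU N)), IsClosed (G : Set (UU N)) →
  ∀ [MeasurableSpace G] [BorelSpace G] (μ : Measure G) [IsProbabilityMeasure μ]
    [μ.IsHaarMeasure] (M : ℕ) (κ : G →* UU M), Continuous κ → ∀ β : ℝ, 0 < β →
    ∃ c : ℝ, 0 < c ∧ ∀ (E : Type) [Fintype E] [DecidableEq E] (L : List E), L.Nodup →
      M * c ^ L.length ≤ ∑ i : Fin M, ∑ j : Fin M,
        frm μ (kerB L.toFinset β) (fun U => (κ (L.map U).prod : Mt M) i j)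
          (fun U => (κ (L.map U).prod : Mt M) i j)

/-- LIN. Linear bound of the potential. -/
def S_LIN : Prop := ∀ (N : ℕ) (G : Subgroup (UU N)), IsClosed (G : Set (UU N)) →
  ∀ [MeasurableSpace G] [BorelSpace G] (μ : Measure G) [IsProbabilityMeasure μ]
    [μ.IsHaarMeasure] (M : ℕ) (κ : G →* UU M), Continuous κ → 0 < M → ∀ β : ℝ, 0 < β →
  ∀ D : ℕ, ∃ c : ℝ, 0 ≤ c ∧ ∀ (l : ℕ) [NeZero l] (x : Fin D → ZMod l) (i : Fin D) (R : ℕ),
    R ≤ l → ∀ lam : ℝ, 0 ≤ lam →
    (∀ Ψ : (Link D l → G) → HV M M, Continuous Ψ → PP κ κ x (x + R • unitv i) Ψ →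
      vf μ (ker β (wt β)) Ψ Ψ ≤ lam * nsq μ Ψ) →
    ∀ F : (Link D l → G) → ℂ, Continuous F → GI F →
      frm μ (ker β (wt β)) F F ≤ Real.exp (c * R) * lam * n2 μ F

end

end Pool.Agent.H189.WA
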