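import Mathlib
import Pool.Agent.H189.WA.Stm2

/-!
# Linear bound of the Wilson potential
-/

open MeasureTheory Matrix
open scoped ComplexConjugate Matrix.Norms.Frobenius

namespace Pool.Agent.H189.WA.LIN

set_option linter.unusedSectionVars false

noncomputable section

variable {H : Type} [TopologicalSpace H] [CompactSpace H] [T2Space H] [SecondCountableTopology H]
  [MeasurableSpace H] [BorelSpace H] (μ : Measure H) [IsProbabilityMeasure μ]
  {E : Type} [Fintype E] [DecidableEq E]

/-- `Z` on `B`, `U` off `B` -/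
def gl (B : Finset E) (Z U : E → H) : E → H := fun e => if e ∈ B then Z e else U e

lemma gl_cont (B : Finset E) : Continuous fun q : (E → H) × (E → H) => gl B q.1 q.2 := by
  refine continuous_pi fun e => ?_
  unfold gl
  by_cases h : e ∈ B
  · simp only [h, if_true]
    exact (continuous_apply e).comp continuous_fst
  · simp only [h, if_false]
    exact (continuous_apply e).comp continuous_snd

lemma gl_meas (B : Finset E) : Measurable fun q : (E → H) × (E → H) => gl B q.1 q.2 := by
  refine measurable_pi_lambda _ fun e => ?_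
  unfold gl
  by_cases h : e ∈ B
  · simp only [h, if_true]
    exact (measurable_pi_apply e).comp measurable_fst
  · simp only [h, if_false]
    exact (measurable_pi_apply e).comp measurable_snd

lemma gl_mp (B : Finset E) : MeasurePreserving (fun q : (E → H) × (E → H) => gl B q.1 q.2)
    ((Measure.pi fun _ : E => μ).prod (Measure.pi fun _ : E => μ))
    (Measure.pi fun _ : E => μ) := by
  refine ⟨gl_meas B, ?_⟩
  symm
  refine Measure.pi_eq fun s hs => ?_
  rw [Measure.map_apply (gl_meas B) (MeasurableSet.univ_pi hs)]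
  have h1 : (fun q : (E → H) × (E → H) => gl B q.1 q.2) ⁻¹' (Set.univ.pi s) =
      (Set.univ.pi fun e => if e ∈ B then s e else Set.univ) ×ˢ
        (Set.univ.pi fun e => if e ∈ B then Set.univ else s e) := by
    ext q
    simp only [Set.mem_preimage, Set.mem_univ_pi, Set.mem_prod, gl]
    constructor
    · intro h
      refine ⟨fun e => ?_, fun e => ?_⟩
      · have := h e
        by_cases he : e ∈ B
        · simpa [he] using this
        · simp [he]
      · have := h e
        by_cases he : e ∈ B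
        · simp [he]
        · simpa [he] using this
    · rintro ⟨h1, h2⟩ e
      by_cases he : e ∈ B
      · have := h1 e
        simpa [he] using this
      · have := h2 e
        simpa [he] using this
  rw [h1, Measure.prod_prod, Measure.pi_pi, Measure.pi_pi, ← Finset.prod_mul_distrib]
  refine Finset.prod_congr rfl fun e _ => ?_
  by_cases he : e ∈ B
  · simp [he]
  · simp [he]

lemma ci {X : Type} [NormedAddCommGroup X] [SecondCountableTopology X] {g : (E → H) → X}
    (hg : Continuous g) : Integrable g (Measure.pi fun _ : E => μ) :=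
  hg.integrable_of_hasCompactSupport (HasCompactSupport.of_compactSpace _)

lemma ci2 {X : Type} [NormedAddCommGroup X] [SecondCountableTopology X]
    {g : (E → H) × (E → H) → X} (hg : Continuous g) :
    Integrable g ((Measure.pi fun _ : E => μ).prod (Measure.pi fun _ : E => μ)) :=
  hg.integrable_of_hasCompactSupport (HasCompactSupport.of_compactSpace _)

lemma cpar {g : (E → H) → (E → H) → ℝ}
    (hg : Continuous fun q : (E → H) × (E → H) => g q.1 q.2) :
    Continuous fun U => ∫ V, g U V ∂(Measure.pi fun _ : E => μ) := by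
  have h := continuous_parametric_integral_of_continuous
    (μ := (Measure.pi fun _ : E => μ)) (f := g) (s := Set.univ) hg isCompact_univ
  simpa using h

/-- average over the links of `B` -/
def avg (B : Finset E) (g : (E → H) → ℝ) (U : E → H) : ℝ :=
  ∫ Z, g (gl B Z U) ∂(Measure.pi fun _ : E => μ)

/-- no dependence on the links of `B` -/
def Off (B : Finset E) (b : (E → H) → ℝ) : Prop := ∀ Z U, b (gl B Z U) = b U

/-- dependence on the links of `B` only -/
def On (B : Finset E) (a : (E → H) → ℝ) : Prop := ∀ Z U, a (gl B Z U) = a Z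

variable {B : Finset E}

lemma avg_cont {g : (E → H) → ℝ} (hg : Continuous g) : Continuous (avg μ B g) := by
  unfold avg
  refine cpar μ (g := fun U Z => g (gl B Z U)) ?_
  exact hg.comp ((gl_cont B).comp (continuous_snd.prodMk continuous_fst))

lemma int_avg {g : (E → H) → ℝ} (hg : Continuous g) :
    ∫ U, avg μ B g U ∂(Measure.pi fun _ : E => μ) = ∫ U, g U ∂(Measure.pi fun _ : E => μ) := by
  have h1 := (gl_mp μ B).map_eq
  have h2 : ∫ U, g U ∂(Measure.pi fun _ : E => μ) =
      ∫ q : (E → H) × (E → H), g (gl B q.1 q.2)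
        ∂((Measure.pi fun _ : E => μ).prod (Measure.pi fun _ : E => μ)) := by
    conv_lhs => rw [← h1]
    refine integral_map (gl_meas B).aemeasurable ?_
    rw [h1]
    exact hg.aestronglyMeasurable
  have h3 : Continuous fun q : (E → H) × (E → H) => g (gl B q.1 q.2) := hg.comp (gl_cont B)
  rw [h2, integral_prod_symm _ (ci2 μ h3)]
  rfl

lemma gl_gl (Z Z' U : E → H) : gl B Z (gl B Z' U) = gl B Z U := by
  funext e
  unfold gl
  split_ifs <;> rfl

lemma avg_off (g : (E → H) → ℝ) : Off B (avg μ B g) := by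
  intro Z U
  unfold avg
  simp only [gl_gl]

lemma int_mul_off {a b : (E → H) → ℝ} (ha : Continuous a) (hb : Continuous b) (hb' : Off B b) :
    ∫ U, a U * b U ∂(Measure.pi fun _ : E => μ) =
      ∫ U, avg μ B a U * b U ∂(Measure.pi fun _ : E => μ) := by
  have hab : Continuous fun U => a U * b U := ha.mul hb
  rw [← int_avg μ (B := B) hab]
  refine integral_congr_ae (Filter.Eventually.of_forall fun U => ?_)
  dsimp only
  unfold avg
  rw [← integral_mul_const]
  refine integral_congr_ae (Filter.Eventually.of_forall fun Z => ?_)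
  dsimp only
  rw [hb' Z U]

lemma int_on_off {a b : (E → H) → ℝ} (ha : Continuous a) (hb : Continuous b) (ha' : On B a)
    (hb' : Off B b) : ∫ U, a U * b U ∂(Measure.pi fun _ : E => μ) =
      (∫ U, a U ∂(Measure.pi fun _ : E => μ)) * ∫ U, b U ∂(Measure.pi fun _ : E => μ) := by
  rw [int_mul_off μ ha hb hb', ← integral_const_mul]
  refine integral_congr_ae (Filter.Eventually.of_forall fun U => ?_)
  dsimp only
  unfold avg
  congr 1
  refine integral_congr_ae (Filter.Eventually.of_forall fun Z => ?_)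
  exact ha' Z U

lemma dbl_off {a : (E → H) → ℝ} {k : (E → H) → (E → H) → ℝ} (ha : Continuous a)
    (hk : Continuous fun q : (E → H) × (E → H) => k q.1 q.2) (h1 : ∀ V, Off B fun U => k U V)
    (h2 : ∀ U, Off B (k U)) :
    ∫ U, ∫ V, a U * a V * k U V ∂(Measure.pi fun _ : E => μ) ∂(Measure.pi fun _ : E => μ) =
      ∫ U, ∫ V, avg μ B a U * avg μ B a V * k U V ∂(Measure.pi fun _ : E => μ)
        ∂(Measure.pi fun _ : E => μ) := by
  obtain ⟨T, hT⟩ : ∃ T : (E → H) → ℝ,
    T = fun U => ∫ V, avg μ B a V * k U V ∂(Measure.pi fun _ : E => μ) := ⟨_, rfl⟩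
  have hkU : ∀ U, Continuous (k U) := fun U => hk.comp (Continuous.prodMk_right U)
  have hTc : Continuous T := by
    rw [hT]
    exact cpar μ (g := fun U V => avg μ B a V * k U V)
      (((avg_cont μ ha).comp continuous_snd).mul hk)
  have hTo : Off B T := by
    intro Z U
    rw [hT]
    dsimp only
    refine integral_congr_ae (Filter.Eventually.of_forall fun V => ?_)
    have h3 : k (gl B Z U) V = k U V := h1 V Z U
    dsimp only
    rw [h3]
  have e1 : ∀ U, ∫ V, a U * a V * k U V ∂(Measure.pi fun _ : E => μ) = a U * T U := by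
    intro U
    rw [hT]
    dsimp only
    rw [← int_mul_off μ ha (hkU U) (h2 U), ← integral_const_mul]
    refine integral_congr_ae (Filter.Eventually.of_forall fun V => ?_)
    dsimp only
    ring
  have e2 : ∀ U, ∫ V, avg μ B a U * avg μ B a V * k U V ∂(Measure.pi fun _ : E => μ) =
      avg μ B a U * T U := by
    intro U
    rw [hT]
    dsimp only
    rw [← integral_const_mul]
    refine integral_congr_ae (Filter.Eventually.of_forall fun V => ?_)
    dsimp only
    ring
  simp only [e1, e2]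
  exact int_mul_off μ ha hTc hTo

lemma dbl_on_off {k1 k2 : (E → H) → (E → H) → ℝ}
    (hk1 : Continuous fun q : (E → H) × (E → H) => k1 q.1 q.2)
    (hk2 : Continuous fun q : (E → H) × (E → H) => k2 q.1 q.2)
    (h1 : ∀ V, On B fun U => k1 U V) (h1' : ∀ U, On B (k1 U))
    (h2 : ∀ V, Off B fun U => k2 U V) (h2' : ∀ U, Off B (k2 U)) :
    ∫ U, ∫ V, k1 U V * k2 U V ∂(Measure.pi fun _ : E => μ) ∂(Measure.pi fun _ : E => μ) =
      (∫ U, ∫ V, k1 U V ∂(Measure.pi fun _ : E => μ) ∂(Measure.pi fun _ : E => μ)) *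
      ∫ U, ∫ V, k2 U V ∂(Measure.pi fun _ : E => μ) ∂(Measure.pi fun _ : E => μ) := by
  have e1 : ∀ U, ∫ V, k1 U V * k2 U V ∂(Measure.pi fun _ : E => μ) =
      (∫ V, k1 U V ∂(Measure.pi fun _ : E => μ)) * ∫ V, k2 U V ∂(Measure.pi fun _ : E => μ) :=
    fun U => int_on_off μ (hk1.comp (Continuous.prodMk_right U))
      (hk2.comp (Continuous.prodMk_right U)) (h1' U) (h2' U)
  simp only [e1]
  refine int_on_off μ (B := B) (cpar μ hk1) (cpar μ hk2) ?_ ?_
  · intro Z U
    refine integral_congr_ae (Filter.Eventually.of_forall fun V => ?_)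
    exact h1 V Z U
  · intro Z U
    refine integral_congr_ae (Filter.Eventually.of_forall fun V => ?_)
    exact h2 V Z U

lemma sq_int {ν : Measure (E → H)} [IsProbabilityMeasure ν] {g : (E → H) → ℝ}
    (h1 : Integrable g ν) (h2 : Integrable (fun U => g U ^ 2) ν) :
    (∫ U, g U ∂ν) ^ 2 ≤ ∫ U, g U ^ 2 ∂ν := by
  obtain ⟨m, hm⟩ : ∃ m, m = ∫ U, g U ∂ν := ⟨_, rfl⟩
  have h3 : 0 ≤ ∫ U, (g U - m) ^ 2 ∂ν := integral_nonneg fun U => by positivity
  have h4 : ∫ U, (g U - m) ^ 2 ∂ν = ∫ U, g U ^ 2 ∂ν - m ^ 2 := by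
    have e1 : ∀ U, (g U - m) ^ 2 = g U ^ 2 - (2 * m * g U - m ^ 2) := fun U => by ring
    simp only [e1]
    have h5 : Integrable (fun U => 2 * m * g U) ν := h1.const_mul _
    have h6 : Integrable (fun _ : E → H => m ^ 2) ν := integrable_const _
    have h7 : Integrable (fun U => 2 * m * g U - m ^ 2) ν := h5.sub h6
    have h8 : ∫ _ : E → H, m ^ 2 ∂ν = m ^ 2 := by
      rw [integral_const]
      simp
    rw [integral_sub h2 h7, integral_sub h5 h6, integral_const_mul, ← hm, h8]
    ring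
  rw [← hm]
  linarith

lemma avg_sq {g : (E → H) → ℝ} (hg : Continuous g) :
    ∫ U, avg μ B g U ^ 2 ∂(Measure.pi fun _ : E => μ) ≤
      ∫ U, g U ^ 2 ∂(Measure.pi fun _ : E => μ) := by
  have hg2 : Continuous fun U => g U ^ 2 := hg.pow 2
  rw [← int_avg μ (B := B) hg2]
  refine integral_mono (ci μ ((avg_cont μ hg).pow 2)) (ci μ (avg_cont μ hg2)) fun U => ?_
  have hc : Continuous fun Z => g (gl B Z U) :=
    hg.comp ((gl_cont B).comp (Continuous.prodMk_left U))
  exact sq_int (ci μ hc) (ci μ (hc.pow 2))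

lemma avg_le {g : (E → H) → ℝ} (hg : Continuous g) {U : E → H} {c : ℝ}
    (h : ∀ Z, g (gl B Z U) ≤ c) : avg μ B g U ≤ c := by
  have hc : Continuous fun Z => g (gl B Z U) :=
    hg.comp ((gl_cont B).comp (Continuous.prodMk_left U))
  have h1 : avg μ B g U ≤ ∫ _Z, c ∂(Measure.pi fun _ : E => μ) :=
    integral_mono (ci μ hc) (integrable_const _) h
  rw [integral_const] at h1
  simpa using h1

lemma le_avg {g : (E → H) → ℝ} (hg : Continuous g) {U : E → H} {c : ℝ}
    (h : ∀ Z, c ≤ g (gl B Z U)) : c ≤ avg μ B g U := by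
  have hc : Continuous fun Z => g (gl B Z U) :=
    hg.comp ((gl_cont B).comp (Continuous.prodMk_left U))
  have h1 : ∫ _Z, c ∂(Measure.pi fun _ : E => μ) ≤ avg μ B g U :=
    integral_mono (integrable_const _) (ci μ hc) h
  rw [integral_const] at h1
  simpa using h1

lemma dmono {h1 h2 : (E → H) → (E → H) → ℝ}
    (c1 : Continuous fun q : (E → H) × (E → H) => h1 q.1 q.2)
    (c2 : Continuous fun q : (E → H) × (E → H) => h2 q.1 q.2) (h : ∀ U V, h1 U V ≤ h2 U V) :
    ∫ U, ∫ V, h1 U V ∂(Measure.pi fun _ : E => μ) ∂(Measure.pi fun _ : E => μ) ≤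
      ∫ U, ∫ V, h2 U V ∂(Measure.pi fun _ : E => μ) ∂(Measure.pi fun _ : E => μ) := by
  refine integral_mono (ci μ (cpar μ c1)) (ci μ (cpar μ c2)) fun U => ?_
  exact integral_mono (ci μ (c1.comp (Continuous.prodMk_right U)))
    (ci μ (c2.comp (Continuous.prodMk_right U))) fun V => h U V

lemma dmul (c : ℝ) (h : (E → H) → (E → H) → ℝ) :
    ∫ U, ∫ V, c * h U V ∂(Measure.pi fun _ : E => μ) ∂(Measure.pi fun _ : E => μ) =
      c * ∫ U, ∫ V, h U V ∂(Measure.pi fun _ : E => μ) ∂(Measure.pi fun _ : E => μ) := by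
  simp only [integral_const_mul]

end

noncomputable section

open Pool.Agent.H189.KS

variable {N : ℕ} {G : Subgroup (UU N)} {E : Type} [Fintype E] [DecidableEq E]

/-! ### the kernels -/

lemma kerB_pos (B : Finset E) (β : ℝ) (U V : E → G) : 0 < kerB B β U V :=
  Finset.prod_pos fun _ _ => Real.exp_pos _

lemma kerB_cont (B : Finset E) (β : ℝ) :
    Continuous fun q : (E → G) × (E → G) => kerB B β q.1 q.2 := by
  unfold kerB
  refine continuous_finsetProd _ fun e _ => Real.continuous_exp.comp (continuous_const.mul ?_)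
  have h1 : Continuous fun q : (E → G) × (E → G) => (q.1 e, q.2 e) :=
    ((continuous_apply e).comp continuous_fst).prodMk ((continuous_apply e).comp continuous_snd)
  exact rt_cont.comp h1

lemma kerB_on1 (B : Finset E) (β : ℝ) (Z U V : E → G) :
    kerB B β (gl B Z U) V = kerB B β Z V := by
  unfold kerB gl
  refine Finset.prod_congr rfl fun e he => ?_
  simp only [he, if_true]

lemma kerB_on2 (B : Finset E) (β : ℝ) (Z U V : E → G) :
    kerB B β V (gl B Z U) = kerB B β V Z := by
  unfold kerB gl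
  refine Finset.prod_congr rfl fun e he => ?_
  simp only [he, if_true]

lemma kerB_off1 (B : Finset E) (β : ℝ) (Z U V : E → G) :
    kerB Bᶜ β (gl B Z U) V = kerB Bᶜ β U V := by
  unfold kerB gl
  refine Finset.prod_congr rfl fun e he => ?_
  have he' := Finset.mem_compl.1 he
  simp only [he', if_false]

lemma kerB_off2 (B : Finset E) (β : ℝ) (Z U V : E → G) :
    kerB Bᶜ β V (gl B Z U) = kerB Bᶜ β V U := by
  unfold kerB gl
  refine Finset.prod_congr rfl fun e he => ?_
  have he' := Finset.mem_compl.1 he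
  simp only [he', if_false]

lemma ker_eq (B : Finset E) (β : ℝ) (w : (E → G) → ℝ) (U V : E → G) :
    ker β w U V = w U * w V * (kerB B β U V * kerB Bᶜ β U V) := by
  unfold ker kerB
  rw [Finset.prod_mul_prod_compl]

lemma kerB_le (B : Finset E) {β : ℝ} (hβ : 0 < β) (U V : E → G) :
    kerB B β U V ≤ Real.exp (β * N) ^ B.card := by
  unfold kerB
  rw [← Finset.prod_const]
  refine Finset.prod_le_prod (fun e _ => (Real.exp_pos _).le) fun e _ => ?_
  refine Real.exp_le_exp.2 (mul_le_mul_of_nonneg_left ?_ hβ.le)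
  exact (le_abs_self _).trans (abs_rt_le _ _)

variable [CompactSpace G] [SecondCountableTopology G] [MeasurableSpace G] [BorelSpace G]
  (μ : Measure G) [IsProbabilityMeasure μ]

/-- the reduced form -/
def QQ (B : Finset E) (β : ℝ) (f wo : (E → G) → ℝ) : ℝ :=
  ∫ U, ∫ V, f U * f V * (wo U * wo V * kerB Bᶜ β U V) ∂(Measure.pi fun _ : E => μ)
    ∂(Measure.pi fun _ : E => μ)

lemma QQ_nonneg (B : Finset E) (β : ℝ) {f wo : (E → G) → ℝ} (hf : ∀ U, 0 ≤ f U)
    (hwo : ∀ U, 0 ≤ wo U) : 0 ≤ QQ μ B β f wo := by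
  refine integral_nonneg fun U => integral_nonneg fun V => ?_
  exact mul_nonneg (mul_nonneg (hf U) (hf V))
    (mul_nonneg (mul_nonneg (hwo U) (hwo V)) (kerB_pos _ _ _ _).le)

lemma upper (B : Finset E) {β : ℝ} (hβ : 0 < β) {w : (E → G) → ℝ} (hw : Continuous w)
    (hw0 : ∀ U, 0 < w U) {ρ : ℝ} (hρ0 : 0 < ρ) (hρ : ∀ Z U, w U ≤ ρ * w (gl B Z U))
    {F : (E → G) → ℂ} (hF : Continuous F) :
    frm μ (ker β w) F F ≤ ρ ^ 2 * Real.exp (β * N) ^ B.card *
      QQ μ B β (avg μ B fun U => ‖F U‖) (avg μ B w) := by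
  obtain ⟨wo, hwo⟩ : ∃ wo, wo = avg μ B w := ⟨_, rfl⟩
  obtain ⟨f0, hf0⟩ : ∃ f0 : (E → G) → ℝ, f0 = fun U => ‖F U‖ := ⟨_, rfl⟩
  have hf0c : Continuous f0 := by rw [hf0]; exact hF.norm
  have hwoc : Continuous wo := by rw [hwo]; exact avg_cont μ hw
  have hwo1 : ∀ U, w U ≤ ρ * wo U := by
    intro U
    have h1 : w U / ρ ≤ wo U := by
      rw [hwo]
      refine le_avg μ hw fun Z => ?_
      rw [div_le_iff₀ hρ0, mul_comm]
      exact hρ Z U
    rw [div_le_iff₀ hρ0] at h1
    linarith
  have hwo0 : ∀ U, 0 ≤ wo U := by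
    intro U
    rw [hwo]
    exact le_avg μ hw fun Z => (hw0 _).le
  have hwoff : Off B wo := by rw [hwo]; exact avg_off μ w
  have hkc : Continuous fun q : (E → G) × (E → G) => ker β w q.1 q.2 := ker_cont β hw
  refine (frm_le_av μ hkc (fun U V => (ker_pos β hw0 U V).le) hF).trans ?_
  have e1 : frm μ (ker β w) (av F) (av F) =
      ∫ U, ∫ V, f0 U * f0 V * ker β w U V ∂(Measure.pi fun _ : E => μ)
        ∂(Measure.pi fun _ : E => μ) := by
    unfold frm av
    refine integral_congr_ae (Filter.Eventually.of_forall fun U => ?_)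
    dsimp only
    refine integral_congr_ae (Filter.Eventually.of_forall fun V => ?_)
    dsimp only
    rw [Complex.conj_ofReal, ← Complex.ofReal_mul, Complex.ofReal_re, hf0]
  obtain ⟨A, hA⟩ : ∃ A, A = ρ ^ 2 * Real.exp (β * N) ^ B.card := ⟨_, rfl⟩
  have hkoc := kerB_cont (G := G) Bᶜ β
  have hwwk : Continuous fun q : (E → G) × (E → G) => wo q.1 * wo q.2 * kerB Bᶜ β q.1 q.2 :=
    ((hwoc.comp continuous_fst).mul (hwoc.comp continuous_snd)).mul hkoc
  have e2 : ∫ U, ∫ V, f0 U * f0 V * (wo U * wo V * kerB Bᶜ β U V)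
      ∂(Measure.pi fun _ : E => μ) ∂(Measure.pi fun _ : E => μ) =
      QQ μ B β (avg μ B f0) wo := by
    unfold QQ
    refine dbl_off μ (B := B) (k := fun U V => wo U * wo V * kerB Bᶜ β U V) hf0c hwwk ?_ ?_
    · intro V Z U
      dsimp only
      rw [hwoff Z U, kerB_off1]
    · intro U Z V
      dsimp only
      rw [hwoff Z V, kerB_off2]
  rw [e1, ← hA, ← hf0, ← hwo, ← e2, ← dmul]
  refine dmono μ (h1 := fun U V => f0 U * f0 V * ker β w U V)
    (h2 := fun U V => A * (f0 U * f0 V * (wo U * wo V * kerB Bᶜ β U V))) ?_ ?_ ?_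
  · exact ((hf0c.comp continuous_fst).mul (hf0c.comp continuous_snd)).mul hkc
  · exact continuous_const.mul
      (((hf0c.comp continuous_fst).mul (hf0c.comp continuous_snd)).mul hwwk)
  · intro U V
    have hf1 : 0 ≤ f0 U := by rw [hf0]; exact norm_nonneg _
    have hf2 : 0 ≤ f0 V := by rw [hf0]; exact norm_nonneg _
    have hkB := kerB_le B hβ U V
    have hkB0 := (kerB_pos B β U V).le
    have hkO := (kerB_pos Bᶜ β U V).le
    have a1 : w U * w V ≤ (ρ * wo U) * (ρ * wo V) :=
      mul_le_mul (hwo1 U) (hwo1 V) (hw0 V).le (mul_nonneg hρ0.le (hwo0 U))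
    have a2 : w U * w V * (kerB B β U V * kerB Bᶜ β U V) ≤
        (ρ * wo U) * (ρ * wo V) * (Real.exp (β * N) ^ B.card * kerB Bᶜ β U V) := by
      refine mul_le_mul a1 (mul_le_mul_of_nonneg_right hkB hkO) (mul_nonneg hkB0 hkO) ?_
      exact mul_nonneg (mul_nonneg hρ0.le (hwo0 U)) (mul_nonneg hρ0.le (hwo0 V))
    have a3 := mul_le_mul_of_nonneg_left a2 (mul_nonneg hf1 hf2)
    rw [ker_eq B]
    refine a3.trans (le_of_eq ?_)
    rw [hA]
    ring

/-- the form of the trial state, one entry -/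
lemma trial (B : Finset E) (β : ℝ) {w : (E → G) → ℝ} {φ f wo : (E → G) → ℝ}
    (hφ : ∀ U, φ U * w U = f U * wo U) (hf : Continuous f) (hwo : Continuous wo)
    (hfo : Off B f) (hwoo : Off B wo) {t : (E → G) → ℂ} (ht : Continuous t)
    (hto : ∀ Z U, t (gl B Z U) = t Z) :
    frm μ (ker β w) (fun U => (φ U : ℂ) * t U) (fun U => (φ U : ℂ) * t U) =
      frm μ (kerB B β) t t * QQ μ B β f wo := by
  have hkc := kerB_cont (G := G) B β
  have hkoc := kerB_cont (G := G) Bᶜ β
  have e1 := dbl_on_off μ (B := B) (k1 := fun U V => (conj (t U) * t V).re * kerB B β U V)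
    (k2 := fun U V => f U * f V * (wo U * wo V * kerB Bᶜ β U V)) (c2 hkc ht ht) ?_ ?_ ?_ ?_ ?_
  · unfold frm QQ
    rw [← e1]
    refine integral_congr_ae (Filter.Eventually.of_forall fun U => ?_)
    dsimp only
    refine integral_congr_ae (Filter.Eventually.of_forall fun V => ?_)
    dsimp only
    have e2 : (conj ((φ U : ℂ) * t U) * ((φ V : ℂ) * t V)).re =
        φ U * φ V * (conj (t U) * t V).re := by
      have e3 : conj ((φ U : ℂ) * t U) * ((φ V : ℂ) * t V) =
          ((φ U * φ V : ℝ) : ℂ) * (conj (t U) * t V) := by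
        rw [map_mul, Complex.conj_ofReal]
        push_cast
        ring
      rw [e3, Complex.re_ofReal_mul]
    rw [e2, ker_eq B]
    calc φ U * φ V * (conj (t U) * t V).re * (w U * w V * (kerB B β U V * kerB Bᶜ β U V))
        = (φ U * w U) * (φ V * w V) * ((conj (t U) * t V).re * kerB B β U V) *
          kerB Bᶜ β U V := by ring
      _ = _ := by
        rw [hφ, hφ]
        ring
  · exact (((hf.comp continuous_fst).mul (hf.comp continuous_snd))).mul
      (((hwo.comp continuous_fst).mul (hwo.comp continuous_snd)).mul hkoc)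
  · intro V Z U
    dsimp only
    rw [hto Z U, kerB_on1]
  · intro U Z V
    dsimp only
    rw [hto Z V, kerB_on2]
  · intro V Z U
    dsimp only
    rw [hfo Z U, hwoo Z U, kerB_off1]
  · intro U Z V
    dsimp only
    rw [hfo Z V, hwoo Z V, kerB_off2]

section gauge

variable {D l : ℕ} [NeZero l] [μ.IsHaarMeasure]

lemma gl_gt (B : Finset (Link D l)) (γ : (Fin D → ZMod l) → G) (Z U : Link D l → G) :
    gl B (gt src tgt γ Z) (gt src tgt γ U) = gt src tgt γ (gl B Z U) := by
  funext e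
  unfold gl gt
  by_cases h : e ∈ B
  · simp only [h, if_true]
  · simp only [h, if_false]

lemma avg_gt (B : Finset (Link D l)) {g : (Link D l → G) → ℝ} (hg : Continuous g)
    (h : ∀ γ U, g (gt src tgt γ U) = g U) (γ : (Fin D → ZMod l) → G) (U : Link D l → G) :
    avg μ B g (gt src tgt γ U) = avg μ B g U := by
  obtain ⟨π, hπ⟩ : ∃ π, π = Measure.pi fun _ : Link D l => μ := ⟨_, rfl⟩
  have hm : MeasurePreserving (fun U : Link D l → G => gt src tgt γ U) π π := by
    rw [hπ]
    exact E0AL.mp_gt μ (src : Link D l → Fin D → ZMod l) tgt γ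
  obtain ⟨U', hU'⟩ : ∃ U', U' = gt src tgt γ U := ⟨_, rfl⟩
  obtain ⟨f, hf⟩ : ∃ f : (Link D l → G) → ℝ, f = fun Z => g (gl B Z U') := ⟨_, rfl⟩
  have hc : Continuous f := by
    rw [hf]
    exact hg.comp ((gl_cont B).comp (Continuous.prodMk_left U'))
  have h2 : ∫ V, f V ∂π = ∫ V, f (gt src tgt γ V) ∂π := by
    conv_lhs => rw [← hm.map_eq]
    refine integral_map hm.measurable.aemeasurable ?_
    rw [hm.map_eq]
    exact hc.aestronglyMeasurable
  have e1 : avg μ B g U' = ∫ V, f V ∂π := by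
    rw [hf, hπ]; rfl
  rw [← hU', e1, h2, hf, hπ]
  unfold avg
  refine integral_congr_ae (Filter.Eventually.of_forall fun Z => ?_)
  dsimp only
  rw [hU', gl_gt, h]

end gauge

end

noncomputable section

open Pool.Agent.H189.KS

lemma hol_true {N : ℕ} {G : Subgroup (UU N)} {E : Type} (U : E → G) :
    ∀ p : List (E × Bool), (∀ q ∈ p, q.2 = true) → ((p.map Prod.fst).map U).prod = hol p U
  | [], _ => rfl
  | (e, true) :: p, h => by
    have h1 := hol_true U p fun q hq => h q (List.mem_cons_of_mem _ hq)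
    show (U e :: (p.map Prod.fst).map U).prod = U e * hol p U
    rw [List.prod_cons, h1]
  | (e, false) :: p, h => by
    have h1 := h (e, false) List.mem_cons_self
    exact absurd h1 (by simp)

lemma normsq_unit {M : ℕ} (A : UU M) : ‖(ofM (A : Mt M) : HV M M)‖ ^ 2 = M := by
  rw [← real_inner_self_eq_norm_sq, inner_eq, toM_ofM, unit_mul, trace_one]
  simp

end

end Pool.Agent.H189.WA.LIN

namespace Pool.Agent.H189.WA

open Pool.Agent.H189.KS LIN

theorem t_LIN (h : S_LIN1) : S_LIN := by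
  intro N G hG _ _ μ _ _ M κ hκ hM β hβ D
  have hcU : CompactSpace (UU N) := E0AL.cUU N
  have hcs : CompactSpace G := isCompact_iff_compactSpace.1 hG.isCompact
  have hsc0 : SecondCountableTopology (UU N) := E0AL.sUU N
  have hsc : SecondCountableTopology G := TopologicalSpace.Subtype.secondCountableTopology _
  obtain ⟨c, hc0, hc⟩ := h N G hG μ M κ hκ β hβ
  refine ⟨16 * β * N * D + β * N + |Real.log c|, by positivity, ?_⟩
  intro l _ x i R hR lam hlam hΨ F hF hFG
  classical
  obtain ⟨p, hp⟩ : ∃ p, p = sp i x R := ⟨_, rfl⟩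
  obtain ⟨y, hy⟩ : ∃ y, y = x + R • unitv i := ⟨_, rfl⟩
  obtain ⟨L, hL⟩ : ∃ L, L = p.map Prod.fst := ⟨_, rfl⟩
  have hpath : isPath src tgt x p y := by rw [hp, hy]; exact isPath_sp i x R
  have hLlen : L.length = R := by rw [hL, List.length_map, hp, sp_length]
  have hLnd : L.Nodup := by
    rw [hL, List.nodup_iff_count_le_one]
    intro e
    have h1 := cnt_sp i x hR e
    unfold cnt at h1
    rw [hp]
    convert h1
  obtain ⟨B, hB⟩ : ∃ B, B = L.toFinset := ⟨_, rfl⟩
  have hBc : B.card ≤ R := by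
    rw [hB, ← hLlen]
    exact List.toFinset_card_le L
  obtain ⟨T, hT⟩ : ∃ T : (Link D l → G) → Mt M, T = fun U => (κ (hol p U) : Mt M) := ⟨_, rfl⟩
  have hTL : ∀ U, T U = (κ (L.map U).prod : Mt M) := by
    intro U
    rw [hT, hL, hol_true]
    intro q hq
    rw [hp] at hq
    unfold sp at hq
    obtain ⟨j, -, hj⟩ := List.mem_map.1 hq
    rw [← hj]
  have hTc : Continuous T := by
    rw [hT]
    exact continuous_subtype_val.comp (hκ.comp (hol_cont p))
  have hTe : ∀ a b, Continuous fun U => T U a b := fun a b =>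
    (continuous_apply b).comp ((continuous_apply a).comp hTc)
  have hTon : ∀ Z U, T (gl B Z U) = T Z := by
    intro Z U
    rw [hT]
    dsimp only
    have h1 : hol p (gl B Z U) = hol p Z := by
      refine hol_congr fun q hq => ?_
      have h2 : q.1 ∈ B := by
        rw [hB, List.mem_toFinset, hL]
        exact List.mem_map_of_mem hq
      unfold gl
      simp only [h2, if_true]
    rw [h1]
  -- the weight
  obtain ⟨w, hw⟩ : ∃ w : (Link D l → G) → ℝ, w = wt β := ⟨_, rfl⟩
  have hwc : Continuous w := by rw [hw]; exact (wt_nice β).1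
  have hw0 : ∀ U, 0 < w U := by rw [hw]; exact (wt_nice β).2
  obtain ⟨ρ, hρ⟩ : ∃ ρ, ρ = Real.exp (β / 2 * (8 * N * D * R)) := ⟨_, rfl⟩
  have hρ0 : 0 < ρ := by rw [hρ]; exact Real.exp_pos _
  have hoff : ∀ (Z U : Link D l → G) (e' : Link D l),
      (∀ j : Fin R, e' ≠ (x + (j : ℕ) • unitv i, i)) → U e' = gl B Z U e' := by
    intro Z U e' he'
    have h1 : e' ∉ B := by
      rw [hB, List.mem_toFinset, hL, hp]
      unfold sp
      rw [List.map_map]
      intro h2
      obtain ⟨j, hj, hj2⟩ := List.mem_map.1 h2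
      exact he' ⟨j, List.mem_range.1 hj⟩ hj2.symm
    unfold gl
    simp only [h1, if_false]
  have hv1 : ∀ Z U, w U ≤ ρ * w (gl B Z U) := by
    intro Z U
    rw [hw, hρ]
    exact wt_var hβ (fun j : Fin R => ((x + (j : ℕ) • unitv i, i) : Link D l)) U (gl B Z U)
      (hoff Z U)
  have hv2 : ∀ Z U, w (gl B Z U) ≤ ρ * w U := by
    intro Z U
    rw [hw, hρ]
    exact wt_var hβ (fun j : Fin R => ((x + (j : ℕ) • unitv i, i) : Link D l)) (gl B Z U) U
      (fun e' he' => (hoff Z U e' he').symm)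
  obtain ⟨wo, hwo⟩ : ∃ wo, wo = avg μ B w := ⟨_, rfl⟩
  have hwoc : Continuous wo := by rw [hwo]; exact avg_cont μ hwc
  have hwooff : Off B wo := by rw [hwo]; exact avg_off μ w
  have hwo0 : ∀ U, 0 ≤ wo U := fun U => by
    rw [hwo]; exact le_avg μ hwc fun Z => (hw0 _).le
  have hwole : ∀ U, wo U ≤ ρ * w U := fun U => by
    rw [hwo]; exact avg_le μ hwc fun Z => hv2 Z U
  have hwG : ∀ γ U, w (gt src tgt γ U) = w U := by
    intro γ U; rw [hw, wt_gt]
  have hwoG : ∀ γ U, wo (gt src tgt γ U) = wo U := by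
    intro γ U; rw [hwo]; exact avg_gt μ B hwc hwG γ U
  -- the function
  obtain ⟨f0, hf0⟩ : ∃ f0 : (Link D l → G) → ℝ, f0 = fun U => ‖F U‖ := ⟨_, rfl⟩
  have hf0c : Continuous f0 := by rw [hf0]; exact hF.norm
  obtain ⟨f, hf⟩ : ∃ f, f = avg μ B f0 := ⟨_, rfl⟩
  have hfc : Continuous f := by rw [hf]; exact avg_cont μ hf0c
  have hfoff : Off B f := by rw [hf]; exact avg_off μ f0
  have hfn : ∀ U, 0 ≤ f U := fun U => by
    rw [hf]; exact le_avg μ hf0c fun Z => by rw [hf0]; exact norm_nonneg _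
  have hfG : ∀ γ U, f (gt src tgt γ U) = f U := by
    intro γ U
    rw [hf]
    refine avg_gt μ B hf0c (fun γ U => ?_) γ U
    rw [hf0]
    dsimp only
    rw [hFG γ U]
  -- the trial state
  obtain ⟨φ, hφ⟩ : ∃ φ : (Link D l → G) → ℝ, φ = fun U => f U * wo U / w U := ⟨_, rfl⟩
  have hφc : Continuous φ := by
    rw [hφ]
    exact (hfc.mul hwoc).div hwc fun U => (hw0 U).ne'
  have hφw : ∀ U, φ U * w U = f U * wo U := by
    intro U
    rw [hφ]
    exact div_mul_cancel₀ _ (hw0 U).ne'
  have hφG : ∀ γ U, φ (gt src tgt γ U) = φ U := by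
    intro γ U
    rw [hφ]
    dsimp only
    rw [hfG, hwoG, hwG]
  obtain ⟨Ψ, hΨd⟩ : ∃ Ψ : (Link D l → G) → HV M M, Ψ = fun U => φ U • ofM (T U) := ⟨_, rfl⟩
  have hΨe : ∀ (U : Link D l → G) (q : Fin M × Fin M), Ψ U q = (φ U : ℂ) * T U q.1 q.2 := by
    intro U q
    rw [hΨd]
    show φ U • T U q.1 q.2 = _
    rw [Complex.real_smul]
  have hΨc : Continuous Ψ := by
    refine cont_of_ent fun q => ?_
    simp only [hΨe]
    exact (Complex.continuous_ofReal.comp hφc).mul (hTe q.1 q.2)
  have hΨP : PP κ κ x y Ψ := by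
    intro γ U
    have h1 : toM (Ψ (gt src tgt γ U)) = φ (gt src tgt γ U) • T (gt src tgt γ U) := by
      rw [hΨd]; rfl
    have h2 : toM (Ψ U) = φ U • T U := by rw [hΨd]; rfl
    rw [h1, h2, hφG, hT]
    dsimp only
    rw [hol_gt hpath, map_mul, map_mul, map_inv, Matrix.mul_smul, Matrix.smul_mul]
    rfl
  have hlamΨ := hΨ Ψ hΨc (by rw [← hy]; exact hΨP)
  rw [← hw] at hlamΨ ⊢
  -- the form of the trial state
  obtain ⟨Q, hQ⟩ : ∃ Q, Q = QQ μ B β f wo := ⟨_, rfl⟩
  have hQ0 : 0 ≤ Q := by rw [hQ]; exact QQ_nonneg μ B β hfn hwo0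
  have hvf : vf μ (ker β w) Ψ Ψ = (∑ a : Fin M, ∑ b : Fin M,
      frm μ (kerB B β) (fun U => T U a b) (fun U => T U a b)) * Q := by
    unfold vf
    rw [Fintype.sum_prod_type, Finset.sum_mul]
    refine Finset.sum_congr rfl fun a _ => ?_
    rw [Finset.sum_mul]
    refine Finset.sum_congr rfl fun b _ => ?_
    simp only [hΨe]
    rw [hQ]
    exact trial μ B β hφw hfc hwoc hfoff hwooff (hTe a b) (fun Z U => by rw [hTon])
  have hq : (M : ℝ) * c ^ R ≤ ∑ a : Fin M, ∑ b : Fin M,
      frm μ (kerB B β) (fun U => T U a b) (fun U => T U a b) := by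
    have h1 := hc (Link D l) L hLnd
    rw [hLlen, ← hB] at h1
    simp only [← hTL] at h1
    exact h1
  -- the norm of the trial state
  have hns : nsq μ Ψ ≤ M * (ρ ^ 2 * n2 μ F) := by
    have h1 : ∀ U, ‖Ψ U‖ ^ 2 ≤ M * (ρ ^ 2 * f U ^ 2) := by
      intro U
      have e1 : ‖Ψ U‖ ^ 2 = φ U ^ 2 * M := by
        rw [hΨd]
        dsimp only
        rw [norm_smul, mul_pow, hT]
        dsimp only
        rw [normsq_unit, Real.norm_eq_abs, sq_abs]
      have e2 : φ U ≤ ρ * f U := by
        rw [hφ]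
        dsimp only
        rw [div_le_iff₀ (hw0 U)]
        have := mul_le_mul_of_nonneg_left (hwole U) (hfn U)
        linarith
      have e3 : 0 ≤ φ U := by
        rw [hφ]
        exact div_nonneg (mul_nonneg (hfn U) (hwo0 U)) (hw0 U).le
      have e4 : φ U ^ 2 ≤ (ρ * f U) ^ 2 := pow_le_pow_left₀ e3 e2 2
      rw [e1, mul_comm]
      refine mul_le_mul_of_nonneg_left ?_ (Nat.cast_nonneg M)
      rw [← mul_pow]
      exact e4
    have h2 : nsq μ Ψ ≤ ∫ U, (M * (ρ ^ 2 * f U ^ 2) : ℝ) ∂(Measure.pi fun _ : Link D l => μ) := by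
      unfold nsq
      refine integral_mono (ci μ (hΨc.norm.pow 2)) (ci μ ?_) h1
      exact continuous_const.mul (continuous_const.mul (hfc.pow 2))
    refine h2.trans ?_
    rw [integral_const_mul, integral_const_mul]
    refine mul_le_mul_of_nonneg_left (mul_le_mul_of_nonneg_left ?_ (by positivity))
      (Nat.cast_nonneg M)
    rw [hf]
    refine (avg_sq μ hf0c).trans (le_of_eq ?_)
    unfold n2
    rw [hf0]
  have hM' : (0 : ℝ) < M := by exact_mod_cast hM
  have hcR : 0 < c ^ R := pow_pos hc0 R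
  have hn0 := n2_nonneg μ F
  have hQle : Q ≤ lam * (ρ ^ 2 * n2 μ F) / c ^ R := by
    rw [le_div_iff₀ hcR]
    have h1 : (M : ℝ) * c ^ R * Q ≤ lam * (M * (ρ ^ 2 * n2 μ F)) := by
      refine (mul_le_mul_of_nonneg_right hq hQ0).trans ?_
      rw [← hvf]
      exact hlamΨ.trans (mul_le_mul_of_nonneg_left hns hlam)
    have h2 : (M : ℝ) * (Q * c ^ R) ≤ M * (lam * (ρ ^ 2 * n2 μ F)) := by linarith
    exact le_of_mul_le_mul_left h2 hM'
  have hup := upper μ B hβ hwc hw0 hρ0 hv1 hF
  rw [← hf0, ← hf, ← hwo, ← hQ] at hup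
  have hA0 : 0 ≤ ρ ^ 2 * Real.exp (β * N) ^ B.card := by positivity
  have h3 := hup.trans (mul_le_mul_of_nonneg_left hQle hA0)
  refine h3.trans ?_
  have hE1 : Real.exp (β * N) ^ B.card ≤ Real.exp (β * N * R) := by
    rw [← Real.exp_nat_mul]
    refine Real.exp_le_exp.2 ?_
    have h4 : (B.card : ℝ) ≤ R := by exact_mod_cast hBc
    have h5 : 0 ≤ β * N := by positivity
    nlinarith
  have hcinv : (c ^ R)⁻¹ ≤ Real.exp (|Real.log c| * R) := by
    have h4 : c ^ R = Real.exp (R * Real.log c) := by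
      rw [Real.exp_nat_mul, Real.exp_log hc0]
    rw [h4, ← Real.exp_neg]
    refine Real.exp_le_exp.2 ?_
    have h5 := neg_abs_le (Real.log c)
    have h6 : (0 : ℝ) ≤ R := Nat.cast_nonneg R
    nlinarith
  have hρ4 : ρ ^ 2 * ρ ^ 2 = Real.exp (16 * β * N * D * R) := by
    rw [hρ, ← pow_add, ← Real.exp_nat_mul]
    congr 1
    push_cast
    ring
  have hexp : Real.exp ((16 * β * N * D + β * N + |Real.log c|) * R) =
      Real.exp (16 * β * N * D * R) * Real.exp (β * N * R) * Real.exp (|Real.log c| * R) := by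
    rw [← Real.exp_add, ← Real.exp_add]
    congr 1
    ring
  rw [hexp, ← hρ4]
  have hln : 0 ≤ lam * n2 μ F := mul_nonneg hlam hn0
  calc ρ ^ 2 * Real.exp (β * N) ^ B.card * (lam * (ρ ^ 2 * n2 μ F) / c ^ R)
      = ρ ^ 2 * ρ ^ 2 * (Real.exp (β * N) ^ B.card * (c ^ R)⁻¹) * (lam * n2 μ F) := by
        rw [div_eq_mul_inv]; ring
    _ ≤ ρ ^ 2 * ρ ^ 2 * (Real.exp (β * N * R) * Real.exp (|Real.log c| * R)) *
        (lam * n2 μ F) := by
        refine mul_le_mul_of_nonneg_right (mul_le_mul_of_nonneg_left ?_ (by positivity)) hln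
        exact mul_le_mul hE1 hcinv (by positivity) (by positivity)
    _ = _ := by ring

end Pool.Agent.H189.WA
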