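import Mathlib
import Pool.Agent.H189.WA.Stm
import Pool.Agent.H189.KS.Stm
import Pool.Agent.H189.KS.Subg
import Pool.Agent.TH618.YM.Cartan

/-!
# GEN and LB: one-parameter subgroups generate a dense subgroup; a basis of the Lie algebra exists
-/

open MeasureTheory Matrix Filter
open scoped ContDiff ComplexConjugate Matrix.Norms.Frobenius Topology

namespace Pool.Agent.H189.WA.GEN

open Pool.Agent.H189.KS

set_option linter.unusedSectionVars false

variable {N n : ℕ} {G : Subgroup (UU N)}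

/-- the iteration of `KS.SUBG.step` -/
lemma iter (B : LieBasis G n) (C : ℝ) (hC : 0 < C)
    (hstep : ∀ z : G, ∃ c : Fin n → ℝ, (∀ a, |c a| ≤ ‖mt z - 1‖) ∧
      ‖mt (((List.ofFn fun a => B.ex a (c a)).prod)⁻¹ * z) - 1‖ ≤ C * ‖mt z - 1‖ ^ 2)
    (z : G) (hz : ‖mt z - 1‖ ≤ 1 / (2 * C)) (j : ℕ) :
    ∃ z' : G, ‖mt z' - 1‖ ≤ (1 / 2) ^ j * ‖mt z - 1‖ ∧
      z * z'⁻¹ ∈ Subgroup.closure {g : G | ∃ a t, g = B.ex a t} := by
  induction j with
  | zero => exact ⟨z, by simp, by simp⟩
  | succ j ih =>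
    obtain ⟨z', h2, h3⟩ := ih
    obtain ⟨c, hc, h4⟩ := hstep z'
    have hd0 : 0 ≤ ‖mt z - 1‖ := norm_nonneg _
    have hd1 : 0 ≤ ‖mt z' - 1‖ := norm_nonneg _
    set d := ‖mt z - 1‖ with hd
    set d' := ‖mt z' - 1‖ with hd'
    have hp : (0 : ℝ) < (1 / 2) ^ j := by positivity
    have hp1 : ((1 : ℝ) / 2) ^ j ≤ 1 := pow_le_one₀ (by norm_num) (by norm_num)
    have hdd : d' ≤ 1 / (2 * C) := by
      refine h2.trans (le_trans ?_ hz)
      nlinarith
    have hdd2 : C * d' ^ 2 ≤ 1 / 2 * d' := by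
      have h5 : C * d' ≤ 1 / 2 := by
        rw [le_div_iff₀ (by positivity)] at hdd
        linarith
      nlinarith
    refine ⟨((List.ofFn fun a => B.ex a (c a)).prod)⁻¹ * z', ?_, ?_⟩
    · refine h4.trans (hdd2.trans ?_)
      rw [pow_succ]
      nlinarith
    · have e : z * (((List.ofFn fun a => B.ex a (c a)).prod)⁻¹ * z')⁻¹ =
          z * z'⁻¹ * (List.ofFn fun a => B.ex a (c a)).prod := by
        rw [_root_.mul_inv_rev, inv_inv, mul_assoc]
      rw [e]
      refine Subgroup.mul_mem _ h3 (Subgroup.list_prod_mem _ ?_)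
      intro g hg
      rw [List.mem_ofFn] at hg
      obtain ⟨a, rfl⟩ := hg
      exact Subgroup.subset_closure ⟨a, c a, rfl⟩

end Pool.Agent.H189.WA.GEN

namespace Pool.Agent.H189.WA

open Pool.Agent.H189.KS

/-- TARGET -/
theorem t_LB : S_LB := by
  intro N G hG
  obtain ⟨n, ⟨F⟩⟩ := Pool.Agent.TH618.YM.exists_frame hG
  exact ⟨n, ⟨{ X := F.X, ex := F.ex, ex_eq := F.ex_eq, orth := F.orth, full := F.full }⟩⟩

/-- TARGET -/
theorem t_GEN : S_GEN := by
  intro N n G hG _ B
  obtain ⟨C, hC, hstep⟩ := KS.SUBG.step hG B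
  set H : Subgroup G := Subgroup.closure {g : G | ∃ a t, g = B.ex a t} with hH
  have hnear : ∀ z : G, ‖mt z - 1‖ ≤ 1 / (2 * C) → z ∈ H.topologicalClosure := by
    intro z hz
    choose y hy1 hy2 using GEN.iter B C hC hstep z hz
    have hlim : Tendsto (fun j => ‖mt (y j) - 1‖) atTop (𝓝 0) := by
      refine squeeze_zero (fun j => norm_nonneg _) hy1 ?_
      have := (tendsto_pow_atTop_nhds_zero_of_lt_one (r := (1 : ℝ) / 2) (by norm_num)
        (by norm_num)).mul_const ‖mt z - 1‖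
      rwa [zero_mul] at this
    have h1 := KS.SUBG.tendsto_one_of y hlim
    have h2 : Tendsto (fun j => z * (y j)⁻¹) atTop (𝓝 z) := by
      have := (h1.inv).const_mul z
      rwa [inv_one, mul_one] at this
    exact mem_closure_of_tendsto h2 (Eventually.of_forall hy2)
  have hopen : IsOpen (H.topologicalClosure : Set G) := by
    refine Subgroup.isOpen_of_mem_nhds _ (g := 1) ?_
    have h3 : Continuous fun z : G => ‖mt z - 1‖ := (mt_cont.sub continuous_const).norm
    have h4 : {z : G | ‖mt z - 1‖ < 1 / (2 * C)} ∈ 𝓝 (1 : G) := by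
      refine (isOpen_lt h3 continuous_const).mem_nhds ?_
      show ‖mt (1 : G) - 1‖ < 1 / (2 * C)
      rw [mt_one, sub_self, norm_zero]
      positivity
    exact Filter.mem_of_superset h4 fun z hz => hnear z (le_of_lt hz)
  have hclosed : IsClosed (H.topologicalClosure : Set G) := H.isClosed_topologicalClosure
  have huniv : (H.topologicalClosure : Set G) = Set.univ :=
    IsClopen.eq_univ ⟨hclosed, hopen⟩ ⟨1, H.topologicalClosure.one_mem⟩
  rw [dense_iff_closure_eq]
  exact huniv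

end Pool.Agent.H189.WA
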