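import Mathlib
import Pool.Agent.H189.WA.Stm

/-!
# Multiplication by an entry of the matrix of a link
-/

open MeasureTheory Matrix Filter
open scoped ContDiff ComplexConjugate Topology

namespace Pool.Agent.H189.WA.MULT

open Pool.Agent.H189.KS

noncomputable section

set_option linter.unusedSectionVars false

theorem cUU (N : ℕ) : CompactSpace (UU N) := by
  have h1 : IsCompact (Set.pi Set.univ fun _ : Fin N => Set.pi Set.univ fun _ : Fin N =>
      Metric.closedBall (0 : ℂ) 1) :=
    isCompact_univ_pi fun _ => isCompact_univ_pi fun _ => isCompact_closedBall _ _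
  have h2 : IsCompact ({M : Mt N | ∀ i j, M i j ∈ Metric.closedBall (0 : ℂ) 1} : Set (Mt N)) := by
    have : ({M : Mt N | ∀ i j, M i j ∈ Metric.closedBall (0 : ℂ) 1} : Set (Mt N)) =
        (Set.pi Set.univ fun _ : Fin N => Set.pi Set.univ fun _ : Fin N =>
          Metric.closedBall (0 : ℂ) 1) := by
      ext M
      exact ⟨fun h i _ j _ => h i j, fun h i j => h i trivial j trivial⟩
    rw [this]; exact h1
  have h3 : IsClosed ((UU N : Submonoid (Mt N)) : Set (Mt N)) := by
    have : ((UU N : Submonoid (Mt N)) : Set (Mt N)) = {M | star M * M = 1} := by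
      ext M; exact Matrix.mem_unitaryGroup_iff'
    rw [this]
    exact isClosed_eq ((continuous_id.matrix_conjTranspose).mul continuous_id) continuous_const
  have h4 : IsCompact ((UU N : Submonoid (Mt N)) : Set (Mt N)) := by
    refine h2.of_isClosed_subset h3 ?_
    intro M hM i j
    rw [mem_closedBall_zero_iff]
    exact entry_norm_bound_of_unitary hM i j
  exact isCompact_iff_compactSpace.1 h4

theorem sUU (N : ℕ) : SecondCountableTopology (UU N) := by
  have : SecondCountableTopology (Mt N) :=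
    inferInstanceAs (SecondCountableTopology (Fin N → Fin N → ℂ))
  exact TopologicalSpace.Subtype.secondCountableTopology _

theorem cint {Z V : Type} [TopologicalSpace Z] [CompactSpace Z] [MeasurableSpace Z]
    [OpensMeasurableSpace Z] [NormedAddCommGroup V] (μ : Measure Z) [IsFiniteMeasure μ]
    {f : Z → V} (hf : Continuous f) : Integrable f μ :=
  hf.integrable_of_hasCompactSupport (HasCompactSupport.of_compactSpace f)

/-- the remainder of the exponential series -/
theorem rem_le (β : ℝ) (hβ : 0 < β) (N J : ℕ) (t : ℝ) (ht : |t| ≤ N) :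
    |J / β * Real.exp (β * t) - t * Real.exp (β * t) -
      ∑ n ∈ Finset.range (J + 1), ((J : ℝ) - n) / β * (β ^ n / (n.factorial : ℝ)) * t ^ n| ≤
      N * tl (β * N) J := by
  obtain ⟨x, hx⟩ : ∃ x, x = β * t := ⟨_, rfl⟩
  obtain ⟨X, hX⟩ : ∃ X, X = β * (N : ℝ) := ⟨_, rfl⟩
  have hX0 : 0 ≤ X := by rw [hX]; positivity
  have hxX : |x| ≤ X := by
    rw [hx, hX, abs_mul, abs_of_pos hβ]
    exact mul_le_mul_of_nonneg_left ht hβ.le
  have e1 : HasSum (fun n : ℕ => x ^ n / (n.factorial : ℝ)) (Real.exp x) := by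
    have := NormedSpace.expSeries_div_hasSum_exp (𝔸 := ℝ) x
    rwa [← Real.exp_eq_exp_ℝ] at this
  have fac (n : ℕ) (y : ℝ) : ((n + 1 : ℕ) : ℝ) * (y ^ (n + 1) / ((n + 1).factorial : ℝ)) =
      y * (y ^ n / (n.factorial : ℝ)) := by
    rw [Nat.factorial_succ]
    push_cast
    have h3 : (n.factorial : ℝ) ≠ 0 := by positivity
    have h4 : ((n : ℝ) + 1) ≠ 0 := by positivity
    field_simp
    try ring
  have e2 : HasSum (fun n : ℕ => (n : ℝ) * (x ^ n / (n.factorial : ℝ))) (x * Real.exp x) := by
    have h1 : HasSum (fun n : ℕ => ((n + 1 : ℕ) : ℝ) * (x ^ (n + 1) / ((n + 1).factorial : ℝ)))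
        (x * Real.exp x) := by
      have h2 := e1.mul_left x
      have h3 : (fun n : ℕ => x * (x ^ n / (n.factorial : ℝ))) =
          fun n : ℕ => ((n + 1 : ℕ) : ℝ) * (x ^ (n + 1) / ((n + 1).factorial : ℝ)) := by
        funext n
        rw [fac]
      rwa [h3] at h2
    refine (hasSum_nat_add_iff' (f := fun n : ℕ => (n : ℝ) * (x ^ n / (n.factorial : ℝ))) 1).1 ?_
    simpa using h1
  have e3 : HasSum (fun n : ℕ => ((J : ℝ) - n) * (x ^ n / (n.factorial : ℝ)))
      (J * Real.exp x - x * Real.exp x) := by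
    have h1 := (e1.mul_left (J : ℝ)).sub e2
    have h2 : (fun n : ℕ => (J : ℝ) * (x ^ n / (n.factorial : ℝ)) -
        (n : ℝ) * (x ^ n / (n.factorial : ℝ))) =
        fun n : ℕ => ((J : ℝ) - n) * (x ^ n / (n.factorial : ℝ)) := by
      funext n
      ring
    rwa [h2] at h1
  have e4 := (hasSum_nat_add_iff'
    (f := fun n : ℕ => ((J : ℝ) - n) * (x ^ n / (n.factorial : ℝ))) (J + 1)).2 e3
  have e5 : Summable fun j : ℕ => X ^ (j + J) / ((j + J).factorial : ℝ) :=
    (summable_nat_add_iff (f := fun n : ℕ => X ^ n / (n.factorial : ℝ)) J).2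
      (Real.summable_pow_div_factorial X)
  have e6 : HasSum (fun j : ℕ => X * (X ^ (j + J) / ((j + J).factorial : ℝ))) (X * tl X J) :=
    e5.hasSum.mul_left X
  have e7 := e4.norm_le_of_bounded e6 (fun m => by
    rw [← fac, norm_mul, norm_div, norm_pow, Real.norm_eq_abs, Real.norm_eq_abs, Real.norm_eq_abs]
    have h1 : |(J : ℝ) - ((m + (J + 1) : ℕ) : ℝ)| ≤ ((m + J + 1 : ℕ) : ℝ) := by
      rw [abs_le]
      push_cast
      constructor <;> linarith [(Nat.cast_nonneg m : (0 : ℝ) ≤ m), (Nat.cast_nonneg J : (0 : ℝ) ≤ J)]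
    have h2 : |x| ^ (m + (J + 1)) / |(((m + (J + 1)).factorial : ℕ) : ℝ)| ≤
        X ^ (m + J + 1) / ((m + J + 1).factorial : ℝ) := by
      rw [abs_of_pos (by positivity : (0 : ℝ) < ((m + (J + 1)).factorial : ℝ)), ← Nat.add_assoc]
      exact div_le_div_of_nonneg_right (pow_le_pow_left₀ (abs_nonneg _) hxX _) (by positivity)
    exact mul_le_mul h1 h2 (by positivity) (by positivity))
  have e8 : J / β * Real.exp (β * t) - t * Real.exp (β * t) -
      ∑ n ∈ Finset.range (J + 1), ((J : ℝ) - n) / β * (β ^ n / (n.factorial : ℝ)) * t ^ n =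
      1 / β * (J * Real.exp x - x * Real.exp x -
        ∑ n ∈ Finset.range (J + 1), ((J : ℝ) - n) * (x ^ n / (n.factorial : ℝ))) := by
    rw [mul_sub, mul_sub, Finset.mul_sum, hx]
    congr 1
    · field_simp
    · refine Finset.sum_congr rfl fun n _ => ?_
      rw [mul_pow]
      field_simp
  rw [e8, abs_mul, abs_of_pos (by positivity : 0 < 1 / β), ← hX]
  rw [Real.norm_eq_abs] at e7
  calc 1 / β * |(J * Real.exp x - x * Real.exp x -
        ∑ n ∈ Finset.range (J + 1), ((J : ℝ) - n) * (x ^ n / (n.factorial : ℝ)))|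
      ≤ 1 / β * (X * tl X J) := mul_le_mul_of_nonneg_left e7 (by positivity)
    _ = N * tl X J := by
      rw [hX]; field_simp

variable {N : ℕ} {G : Subgroup (UU N)} {E : Type} [Fintype E]

theorem rt_cont : Continuous fun p : G × G => rt p.1 p.2 := by
  unfold rt
  exact Complex.continuous_re.comp (((mt_cont.comp continuous_fst).matrix_mul
    ((mt_cont.comp continuous_snd).matrix_conjTranspose)).matrix_trace)

theorem rt_abs (a b : G) : |rt a b| ≤ N := by
  have h : mt a * (mt b)ᴴ = mt (a * b⁻¹) := by rw [mt_mul, mt_inv]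
  unfold rt
  rw [h]
  refine (Complex.abs_re_le_norm _).trans ?_
  unfold trace
  refine (norm_sum_le _ _).trans ?_
  calc ∑ i, ‖diag (mt (a * b⁻¹)) i‖ ≤ ∑ i : Fin N, (1 : ℝ) :=
        Finset.sum_le_sum fun i _ =>
          entry_norm_bound_of_unitary ((a * b⁻¹ : G) : UU N).2 i i
    _ = N := by simp

theorem rt_eq (a b : G) : rt a b = ∑ i, ∑ j, (mt a i j * conj (mt b i j)).re := by
  unfold rt trace
  rw [Complex.re_sum]
  refine Finset.sum_congr rfl fun i _ => ?_
  rw [diag_apply, mul_apply, Complex.re_sum]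
  rfl

/-- the kernel without the link `e` -/
def Pk [DecidableEq E] (β : ℝ) (w : (E → G) → ℝ) (e : E) (U V : E → G) : ℝ :=
  w U * w V * ∏ e', Real.exp ((if e' = e then 0 else β) * rt (U e') (V e'))

theorem ker_eq [DecidableEq E] (β : ℝ) (w : (E → G) → ℝ) (e : E) (U V : E → G) :
    ker β w U V = Pk β w e U V * Real.exp (β * rt (U e) (V e)) := by
  unfold ker Pk
  rw [mul_assoc (w U * w V)]
  congr 1
  have h : Real.exp (β * rt (U e) (V e)) =
      ∏ e', if e' = e then Real.exp (β * rt (U e') (V e')) else 1 := by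
    rw [Finset.prod_ite_eq' Finset.univ e]
    simp
  rw [h, ← Finset.prod_mul_distrib]
  refine Finset.prod_congr rfl fun e' _ => ?_
  by_cases he : e' = e
  · simp [he]
  · simp [he]

theorem pow_eq [DecidableEq E] (β : ℝ) (w : (E → G) → ℝ) (e : E) (n : ℕ) (U V : E → G) :
    w U * w V * ∏ e', (rt (U e') (V e') ^ (if e' = e then n else 0) *
      Real.exp ((if e' = e then 0 else β) * rt (U e') (V e'))) =
      Pk β w e U V * rt (U e) (V e) ^ n := by
  unfold Pk
  rw [mul_assoc (w U * w V)]
  congr 1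
  have h : rt (U e) (V e) ^ n =
      ∏ e', if e' = e then rt (U e') (V e') ^ n else 1 := by
    rw [Finset.prod_ite_eq' Finset.univ e]
    simp
  rw [h, ← Finset.prod_mul_distrib]
  refine Finset.prod_congr rfl fun e' _ => ?_
  by_cases he : e' = e
  · simp [he, mul_comm]
  · simp [he]

theorem rtc (e : E) : Continuous fun p : (E → G) × (E → G) => rt (p.1 e) (p.2 e) := by
  have h1 : Continuous fun p : (E → G) × (E → G) => p.1 e :=
    (continuous_apply e).comp continuous_fst
  have h2 : Continuous fun p : (E → G) × (E → G) => p.2 e :=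
    (continuous_apply e).comp continuous_snd
  have h3 : Continuous fun p : (E → G) × (E → G) => ((p.1 e, p.2 e) : G × G) := h1.prodMk h2
  exact Continuous.comp (g := fun q : G × G => rt q.1 q.2)
    (f := fun p : (E → G) × (E → G) => ((p.1 e, p.2 e) : G × G)) rt_cont h3

theorem Pk_cont [DecidableEq E] (β : ℝ) {w : (E → G) → ℝ} (hw : Continuous w) (e : E) :
    Continuous fun p : (E → G) × (E → G) => Pk β w e p.1 p.2 := by
  unfold Pk
  refine ((hw.comp continuous_fst).mul (hw.comp continuous_snd)).mul ?_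
  exact continuous_finsetProd _ fun e' _ => Real.continuous_exp.comp ((rtc e').const_mul _)

theorem ker_cont (β : ℝ) {w : (E → G) → ℝ} (hw : Continuous w) :
    Continuous fun p : (E → G) × (E → G) => ker β w p.1 p.2 := by
  unfold ker
  refine ((hw.comp continuous_fst).mul (hw.comp continuous_snd)).mul ?_
  exact continuous_finsetProd _ fun e' _ => Real.continuous_exp.comp ((rtc e').const_mul _)

theorem alg (u v f f' : ℂ) (k : ℝ) :
    (conj (u * f) * (v * f')).re * k + (conj (conj u * f) * (conj v * f')).re * k =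
      2 * (u * conj v).re * ((conj f * f').re * k) := by
  simp only [map_mul, Complex.mul_re, Complex.mul_im, Complex.conj_re, Complex.conj_im,
    Complex.conj_conj]
  ring

theorem phi_cont {F H : (E → G) → ℂ} (hF : Continuous F) (hH : Continuous H) :
    Continuous fun p : (E → G) × (E → G) => (conj (F p.1) * H p.2).re :=
  Complex.continuous_re.comp ((Complex.continuous_conj.comp (hF.comp continuous_fst)).mul
    (hH.comp continuous_snd))

theorem frm_prod [CompactSpace G] [SecondCountableTopology G] [MeasurableSpace G] [BorelSpace G]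
    (μ : Measure G) [IsProbabilityMeasure μ] {K : (E → G) → (E → G) → ℝ}
    (hK : Continuous fun p : (E → G) × (E → G) => K p.1 p.2) {F H : (E → G) → ℂ}
    (hF : Continuous F) (hH : Continuous H) :
    frm μ K F H = ∫ p : (E → G) × (E → G), (conj (F p.1) * H p.2).re * K p.1 p.2
      ∂((Measure.pi fun _ : E => μ).prod (Measure.pi fun _ : E => μ)) := by
  unfold frm
  rw [integral_prod]
  exact cint _ ((phi_cont hF hH).mul hK)

end

end Pool.Agent.H189.WA.MULT

namespace Pool.Agent.H189.WA

open Pool.Agent.H189.KS MULT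

set_option linter.unusedSectionVars false

/-- MULT. Multiplication by an entry of the matrix of a link. -/
theorem t_MULT (hPOS : S_POS) : S_MULT := by
  classical
  intro N G hG _ _ μ _ E _ w hw hw0 β hβ e i j F hF J
  have hc : CompactSpace G := by
    have := cUU N
    exact isCompact_iff_compactSpace.1 hG.isCompact
  have hs : SecondCountableTopology G := by
    have := sUU N
    exact TopologicalSpace.Subtype.secondCountableTopology _
  obtain ⟨ρ, hρ⟩ : ∃ ρ, ρ = (Measure.pi fun _ : E => μ).prod (Measure.pi fun _ : E => μ) :=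
    ⟨_, rfl⟩
  have hρf : IsFiniteMeasure ρ := by rw [hρ]; infer_instance
  have ci (f : (E → G) × (E → G) → ℝ) (hf : Continuous f) : Integrable f ρ := cint ρ hf
  -- the functions on the product
  obtain ⟨φ, hφ⟩ : ∃ φ : (E → G) × (E → G) → ℝ, φ = fun p => (conj (F p.1) * F p.2).re := ⟨_, rfl⟩
  obtain ⟨ψ, hψ⟩ : ∃ ψ : (E → G) × (E → G) → ℝ, ψ = fun p => ‖F p.1‖ * ‖F p.2‖ := ⟨_, rfl⟩
  obtain ⟨K, hK⟩ : ∃ K : (E → G) × (E → G) → ℝ, K = fun p => ker β w p.1 p.2 := ⟨_, rfl⟩
  obtain ⟨P, hP⟩ : ∃ P : (E → G) × (E → G) → ℝ, P = fun p => Pk β w e p.1 p.2 := ⟨_, rfl⟩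
  obtain ⟨r, hr⟩ : ∃ r : (E → G) × (E → G) → ℝ, r = fun p => rt (p.1 e) (p.2 e) := ⟨_, rfl⟩
  have cφ : Continuous φ := by rw [hφ]; exact phi_cont hF hF
  have cψ : Continuous ψ := by
    rw [hψ]; exact (hF.norm.comp continuous_fst).mul (hF.norm.comp continuous_snd)
  have cK : Continuous K := by rw [hK]; exact ker_cont β hw
  have cP : Continuous P := by rw [hP]; exact Pk_cont β hw e
  have cr : Continuous r := by rw [hr]; exact rtc e
  have hKP (p) : K p = P p * Real.exp (β * r p) := by
    rw [hK, hP, hr]; exact ker_eq β w e p.1 p.2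
  have hP0 (p) : 0 ≤ P p := by
    rw [hP]
    exact mul_nonneg (mul_nonneg (hw0 _) (hw0 _)) (Finset.prod_nonneg fun _ _ => (Real.exp_pos _).le)
  have hK0 (p) : 0 ≤ K p := by rw [hKP]; exact mul_nonneg (hP0 p) (Real.exp_pos _).le
  have hrN (p) : |r p| ≤ N := by rw [hr]; exact rt_abs _ _
  have hφψ (p) : |φ p| ≤ ψ p := by
    rw [hφ, hψ]
    refine (Complex.abs_re_le_norm _).trans ?_
    rw [norm_mul, Complex.norm_conj]
  have hψ0 (p) : 0 ≤ ψ p := (abs_nonneg _).trans (hφψ p)
  -- the forms
  have f1 : frm μ (ker β w) F F = ∫ p, φ p * K p ∂ρ := by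
    rw [frm_prod μ (ker_cont β hw) hF hF, hφ, hK, hρ]
  have f2 : frm μ (ker β w) (av F) (av F) = ∫ p, ψ p * K p ∂ρ := by
    have ca : Continuous (av F) := Complex.continuous_ofReal.comp hF.norm
    rw [frm_prod μ (ker_cont β hw) ca ca, hψ, hK, hρ]
    refine integral_congr_ae (Filter.Eventually.of_forall fun p => ?_)
    dsimp only
    congr 1
    unfold av
    rw [Complex.conj_ofReal, ← Complex.ofReal_mul, Complex.ofReal_re]
  have f3 (n : ℕ) : 0 ≤ ∫ p, φ p * (P p * r p ^ n) ∂ρ := by
    have h := hPOS N G hG μ E w hw (fun e' => if e' = e then n else 0)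
      (fun e' => if e' = e then 0 else β) (fun e' => by split_ifs <;> [exact le_rfl; exact hβ.le])
      F hF
    have h1 : (fun U V : E → G => w U * w V * ∏ e', (rt (U e') (V e') ^ (if e' = e then n else 0) *
        Real.exp ((if e' = e then 0 else β) * rt (U e') (V e')))) =
        fun U V => Pk β w e U V * rt (U e) (V e) ^ n := by
      funext U V
      exact pow_eq β w e n U V
    rw [h1, frm_prod μ ((Pk_cont β hw e).mul ((rtc e).pow n)) hF hF] at h
    rw [hφ, hP, hr, hρ]
    exact h
  -- the main inequality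
  have main : ∫ p, φ p * (r p * K p) ∂ρ ≤ J / β * ∫ p, φ p * K p ∂ρ +
      N * Real.exp (β * N) * tl (β * N) J * ∫ p, ψ p * K p ∂ρ := by
    have g1 (p) : J / β * (φ p * K p) - φ p * (r p * K p) -
        ∑ n ∈ Finset.range (J + 1), ((J : ℝ) - n) / β * (β ^ n / (n.factorial : ℝ)) *
          (φ p * (P p * r p ^ n)) ≥
        -(N * Real.exp (β * N) * tl (β * N) J * (ψ p * K p)) := by
      have h1 := rem_le β hβ N J (r p) (hrN p)
      obtain ⟨R, hR⟩ : ∃ R, R = J / β * Real.exp (β * r p) - r p * Real.exp (β * r p) -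
        ∑ n ∈ Finset.range (J + 1), ((J : ℝ) - n) / β * (β ^ n / (n.factorial : ℝ)) * r p ^ n :=
        ⟨_, rfl⟩
      rw [← hR] at h1
      have h2 : J / β * (φ p * K p) - φ p * (r p * K p) -
        ∑ n ∈ Finset.range (J + 1), ((J : ℝ) - n) / β * (β ^ n / (n.factorial : ℝ)) *
          (φ p * (P p * r p ^ n)) = φ p * (P p * R) := by
        rw [hR, mul_sub, mul_sub, Finset.mul_sum, Finset.mul_sum, hKP]
        congr 1
        · ring
        · refine Finset.sum_congr rfl fun n _ => ?_
          ring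
      rw [h2]
      have h3 : |φ p * (P p * R)| ≤ N * Real.exp (β * N) * tl (β * N) J * (ψ p * K p) := by
        rw [abs_mul, abs_mul, abs_of_nonneg (hP0 p)]
        have h4 : P p ≤ K p * Real.exp (β * N) := by
          rw [hKP, mul_assoc, ← Real.exp_add]
          refine le_mul_of_one_le_right (hP0 p) (Real.one_le_exp ?_)
          have := (abs_le.1 (hrN p)).1
          nlinarith
        calc |φ p| * (P p * |R|) ≤ ψ p * ((K p * Real.exp (β * N)) * (N * tl (β * N) J)) := by
              have h5 : 0 ≤ P p * |R| := mul_nonneg (hP0 p) (abs_nonneg _)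
              have h6 : P p * |R| ≤ (K p * Real.exp (β * N)) * (N * tl (β * N) J) :=
                mul_le_mul h4 h1 (abs_nonneg _) (mul_nonneg (hK0 p) (Real.exp_pos _).le)
              exact mul_le_mul (hφψ p) h6 h5 (hψ0 p)
          _ = _ := by ring
      exact (abs_le.1 h3).1
    have i1 : Integrable (fun p => J / β * (φ p * K p)) ρ := ci _ ((cφ.mul cK).const_mul _)
    have i2 : Integrable (fun p => φ p * (r p * K p)) ρ := ci _ (cφ.mul (cr.mul cK))
    have i3 (n : ℕ) : Integrable (fun p => ((J : ℝ) - n) / β * (β ^ n / (n.factorial : ℝ)) *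
        (φ p * (P p * r p ^ n))) ρ := ci _ ((cφ.mul (cP.mul (cr.pow n))).const_mul _)
    have i4 : Integrable (fun p => ∑ n ∈ Finset.range (J + 1), ((J : ℝ) - n) / β *
        (β ^ n / (n.factorial : ℝ)) * (φ p * (P p * r p ^ n))) ρ :=
      integrable_finsetSum _ fun n _ => i3 n
    have i5 : Integrable (fun p => -(N * Real.exp (β * N) * tl (β * N) J * (ψ p * K p))) ρ :=
      ci _ ((cψ.mul cK).const_mul _).neg
    have i6 : Integrable (fun p => J / β * (φ p * K p) - φ p * (r p * K p)) ρ :=
      ci _ (((cφ.mul cK).const_mul _).sub (cφ.mul (cr.mul cK)))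
    have g2 := integral_mono i5 (i6.sub i4) g1
    rw [integral_neg, integral_const_mul] at g2
    have g4 : ∫ p, (J / β * (φ p * K p) - φ p * (r p * K p) -
        ∑ n ∈ Finset.range (J + 1), ((J : ℝ) - n) / β * (β ^ n / (n.factorial : ℝ)) *
          (φ p * (P p * r p ^ n))) ∂ρ = J / β * (∫ p, φ p * K p ∂ρ) - ∫ p, φ p * (r p * K p) ∂ρ -
        ∑ n ∈ Finset.range (J + 1), ∫ p, ((J : ℝ) - n) / β *
        (β ^ n / (n.factorial : ℝ)) * (φ p * (P p * r p ^ n)) ∂ρ := by
      rw [integral_sub i6 i4, integral_sub i1 i2, integral_const_mul,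
        integral_finsetSum _ fun n _ => i3 n]
    have g3 : 0 ≤ ∑ n ∈ Finset.range (J + 1), ∫ p, ((J : ℝ) - n) / β *
        (β ^ n / (n.factorial : ℝ)) * (φ p * (P p * r p ^ n)) ∂ρ := by
      refine Finset.sum_nonneg fun n hn => ?_
      rw [integral_const_mul]
      refine mul_nonneg (mul_nonneg (div_nonneg ?_ hβ.le) (by positivity)) (f3 n)
      have : n ≤ J := Nat.lt_succ_iff.1 (Finset.mem_range.1 hn)
      have : (n : ℝ) ≤ J := by exact_mod_cast this
      linarith
    have g5 : -(N * Real.exp (β * N) * tl (β * N) J * ∫ p, ψ p * K p ∂ρ) ≤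
        J / β * (∫ p, φ p * K p ∂ρ) - ∫ p, φ p * (r p * K p) ∂ρ -
        ∑ n ∈ Finset.range (J + 1), ∫ p, ((J : ℝ) - n) / β *
        (β ^ n / (n.factorial : ℝ)) * (φ p * (P p * r p ^ n)) ∂ρ := by
      rw [← g4]
      exact g2
    linarith
  -- the single terms
  have pos (H : (E → G) → ℂ) (hH : Continuous H) : 0 ≤ frm μ (ker β w) H H := by
    have h := hPOS N G hG μ E w hw (fun _ => 0) (fun _ => β) (fun _ => hβ.le) H hH
    have h1 : (fun U V : E → G => w U * w V * ∏ e', (rt (U e') (V e') ^ 0 *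
        Real.exp (β * rt (U e') (V e')))) = ker β w := by
      funext U V
      unfold ker
      simp only [pow_zero, one_mul]
    rw [h1] at h
    exact h
  have hu (a b : Fin N) : Continuous fun U : E → G => mt (U e) a b :=
    (mt_cont.comp (continuous_apply e)).matrix_elem a b
  have huc (a b : Fin N) : Continuous fun U : E → G => conj (mt (U e) a b) :=
    Complex.continuous_conj.comp (hu a b)
  have cuv (a b : Fin N) : Continuous fun p : (E → G) × (E → G) =>
      2 * (mt (p.1 e) a b * conj (mt (p.2 e) a b)).re * (φ p * K p) := by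
    have h1 : Continuous fun p : (E → G) × (E → G) => mt (p.1 e) a b :=
      (hu a b).comp continuous_fst
    have h2 : Continuous fun p : (E → G) × (E → G) => conj (mt (p.2 e) a b) :=
      (huc a b).comp continuous_snd
    exact ((Complex.continuous_re.comp (h1.mul h2)).const_mul 2).mul (cφ.mul cK)
  have tot (a b : Fin N) :
      frm μ (ker β w) (fun U => mt (U e) a b * F U) (fun U => mt (U e) a b * F U) +
        frm μ (ker β w) (fun U => conj (mt (U e) a b) * F U)
          (fun U => conj (mt (U e) a b) * F U) =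
        ∫ p, 2 * (mt (p.1 e) a b * conj (mt (p.2 e) a b)).re * (φ p * K p) ∂ρ := by
    have h1 : Continuous fun U : E → G => mt (U e) a b * F U := (hu a b).mul hF
    have h2 : Continuous fun U : E → G => conj (mt (U e) a b) * F U := (huc a b).mul hF
    have i1 : Integrable (fun p : (E → G) × (E → G) => (conj (mt (p.1 e) a b * F p.1) *
        (mt (p.2 e) a b * F p.2)).re * ker β w p.1 p.2) ρ :=
      ci _ ((phi_cont h1 h1).mul (ker_cont β hw))
    have i2 : Integrable (fun p : (E → G) × (E → G) => (conj (conj (mt (p.1 e) a b) * F p.1) *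
        (conj (mt (p.2 e) a b) * F p.2)).re * ker β w p.1 p.2) ρ :=
      ci _ ((phi_cont h2 h2).mul (ker_cont β hw))
    rw [frm_prod μ (ker_cont β hw) h1 h1, frm_prod μ (ker_cont β hw) h2 h2, ← hρ,
      ← integral_add i1 i2]
    refine integral_congr_ae (Filter.Eventually.of_forall fun p => ?_)
    rw [hφ, hK]
    exact alg _ _ _ _ _
  have sum_eq : ∑ a : Fin N, ∑ b : Fin N,
      (frm μ (ker β w) (fun U => mt (U e) a b * F U) (fun U => mt (U e) a b * F U) +
        frm μ (ker β w) (fun U => conj (mt (U e) a b) * F U)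
          (fun U => conj (mt (U e) a b) * F U)) = 2 * ∫ p, φ p * (r p * K p) ∂ρ := by
    have h1 : ∑ a : Fin N, ∑ b : Fin N,
        (frm μ (ker β w) (fun U => mt (U e) a b * F U) (fun U => mt (U e) a b * F U) +
          frm μ (ker β w) (fun U => conj (mt (U e) a b) * F U)
            (fun U => conj (mt (U e) a b) * F U)) =
        ∑ a : Fin N, ∑ b : Fin N,
          ∫ p, 2 * (mt (p.1 e) a b * conj (mt (p.2 e) a b)).re * (φ p * K p) ∂ρ :=
      Finset.sum_congr rfl fun a _ => Finset.sum_congr rfl fun b _ => tot a b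
    have h2 (a : Fin N) : ∑ b : Fin N,
        ∫ p, 2 * (mt (p.1 e) a b * conj (mt (p.2 e) a b)).re * (φ p * K p) ∂ρ =
        ∫ p, ∑ b : Fin N, 2 * (mt (p.1 e) a b * conj (mt (p.2 e) a b)).re * (φ p * K p) ∂ρ :=
      (integral_finsetSum _ fun b _ => ci _ (cuv a b)).symm
    rw [h1, Finset.sum_congr rfl fun a _ => h2 a,
      ← integral_finsetSum _ fun a _ => ci _ (continuous_finsetSum _ fun b _ => cuv a b),
      ← integral_const_mul]
    refine integral_congr_ae (Filter.Eventually.of_forall fun p => ?_)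
    dsimp only
    rw [hr]
    dsimp only
    rw [rt_eq, Finset.sum_mul, Finset.mul_sum, Finset.mul_sum]
    refine Finset.sum_congr rfl fun a _ => ?_
    rw [Finset.sum_mul, Finset.mul_sum, Finset.mul_sum]
    refine Finset.sum_congr rfl fun b _ => ?_
    ring
  have p1 (a b : Fin N) : 0 ≤ frm μ (ker β w) (fun U => mt (U e) a b * F U)
      (fun U => mt (U e) a b * F U) := pos _ ((hu a b).mul hF)
  have p2 (a b : Fin N) : 0 ≤ frm μ (ker β w) (fun U => conj (mt (U e) a b) * F U)
      (fun U => conj (mt (U e) a b) * F U) := pos _ ((huc a b).mul hF)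
  have le1 : frm μ (ker β w) (fun U => mt (U e) i j * F U) (fun U => mt (U e) i j * F U) +
        frm μ (ker β w) (fun U => conj (mt (U e) i j) * F U)
          (fun U => conj (mt (U e) i j) * F U) ≤ 2 * ∫ p, φ p * (r p * K p) ∂ρ := by
    rw [← sum_eq]
    refine le_trans ?_ (Finset.single_le_sum
      (f := fun a : Fin N => ∑ b : Fin N,
        (frm μ (ker β w) (fun U => mt (U e) a b * F U) (fun U => mt (U e) a b * F U) +
          frm μ (ker β w) (fun U => conj (mt (U e) a b) * F U)
            (fun U => conj (mt (U e) a b) * F U)))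
      (fun a _ => Finset.sum_nonneg fun b _ => add_nonneg (p1 a b) (p2 a b))
      (Finset.mem_univ i))
    exact Finset.single_le_sum
      (f := fun b : Fin N =>
        (frm μ (ker β w) (fun U => mt (U e) i b * F U) (fun U => mt (U e) i b * F U) +
          frm μ (ker β w) (fun U => conj (mt (U e) i b) * F U)
            (fun U => conj (mt (U e) i b) * F U)))
      (fun b _ => add_nonneg (p1 i b) (p2 i b)) (Finset.mem_univ j)
  have fin : 2 * ∫ p, φ p * (r p * K p) ∂ρ ≤ 2 * J / β * frm μ (ker β w) F F +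
      2 * N * Real.exp (β * N) * tl (β * N) J * frm μ (ker β w) (av F) (av F) := by
    rw [f1, f2]
    have h1 : 2 * (J : ℝ) / β * (∫ p, φ p * K p ∂ρ) +
      2 * N * Real.exp (β * N) * tl (β * N) J * (∫ p, ψ p * K p ∂ρ) =
      2 * (J / β * (∫ p, φ p * K p ∂ρ) +
        N * Real.exp (β * N) * tl (β * N) J * ∫ p, ψ p * K p ∂ρ) := by ring
    rw [h1]
    linarith
  exact ⟨by linarith [p2 i j], by linarith [p1 i j]⟩

end Pool.Agent.H189.WA
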