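import Mathlib
import Pool.Agent.H189.WA.Stm

open MeasureTheory Matrix Filter
open scoped ComplexConjugate Topology

namespace Pool.Agent.H189.WA.NONC

open Pool.Agent.H189.KS

set_option linter.unusedSectionVars false

lemma haar_rinv {H : Type*} [Group H] [TopologicalSpace H] [IsTopologicalGroup H]
    [CompactSpace H] [MeasurableSpace H] [BorelSpace H] (μ : Measure H)
    [IsProbabilityMeasure μ] [μ.IsHaarMeasure] : μ.IsMulRightInvariant := by
  refine ⟨fun g => ?_⟩
  have : IsProbabilityMeasure (Measure.map (fun x => x * g) μ) :=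
    Measure.isProbabilityMeasure_map (measurable_mul_const g).aemeasurable
  have : (Measure.map (fun x => x * g) μ).IsHaarMeasure := inferInstance
  exact Measure.isHaarMeasure_eq_of_isProbabilityMeasure _ _

lemma cpt (N : ℕ) : CompactSpace (UU N) := by
  apply (isCompact_iff_compactSpace (s := (Matrix.unitaryGroup (Fin N) ℂ :
    Set (Matrix (Fin N) (Fin N) ℂ)))).mp
  have hsub : (Matrix.unitaryGroup (Fin N) ℂ : Set (Matrix (Fin N) (Fin N) ℂ))
      ⊆ Set.pi Set.univ (fun _ => Set.pi Set.univ (fun _ => Metric.closedBall (0 : ℂ) 1)) := by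
    intro A hA i _ j _
    rw [mem_closedBall_zero_iff]
    exact entry_norm_bound_of_unitary hA i j
  have hcomp : IsCompact (Set.pi Set.univ (fun _ : Fin N => Set.pi Set.univ
      (fun _ : Fin N => Metric.closedBall (0 : ℂ) 1))) :=
    isCompact_univ_pi fun _ => isCompact_univ_pi fun _ => isCompact_closedBall 0 1
  refine hcomp.of_isClosed_subset ?_ hsub
  have : (Matrix.unitaryGroup (Fin N) ℂ : Set (Matrix (Fin N) (Fin N) ℂ))
      = {A | A * star A = 1} := by
    ext A
    exact Matrix.mem_unitaryGroup_iff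
  rw [this]
  have hc : Continuous (fun A : Matrix (Fin N) (Fin N) ℂ => A * star A) :=
    continuous_id.mul continuous_star
  exact isClosed_eq hc continuous_const

lemma sct (N : ℕ) : SecondCountableTopology (UU N) := by
  have h : SecondCountableTopology (Fin N → Fin N → ℂ) := inferInstance
  have h' : SecondCountableTopology (Matrix (Fin N) (Fin N) ℂ) := h
  exact TopologicalSpace.Subtype.secondCountableTopology _

/-- the measure of the set of all `z` with `a z u b` in `S`. -/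
lemma inner_eq {H : Type*} [Group H] [TopologicalSpace H] [IsTopologicalGroup H]
    [CompactSpace H] [MeasurableSpace H] [BorelSpace H] (μ : Measure H)
    [IsProbabilityMeasure μ] [μ.IsHaarMeasure] (m : ℕ) (S : Set (Fin m → H))
    (hS : MeasurableSet S) (a u b : Fin m → H) :
    ∫ z, S.indicator (fun _ => (1 : ℝ)) (fun i => a i * (z i * u i) * b i)
      ∂(Measure.pi fun _ : Fin m => μ) = (Measure.pi fun _ : Fin m => μ).real S := by
  have := haar_rinv μ
  have h1 : ∀ i, MeasurePreserving (fun x : H => a i * (x * u i) * b i) μ μ := fun i =>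
    ((measurePreserving_mul_right μ (b i)).comp ((measurePreserving_mul_left μ (a i)).comp
      (measurePreserving_mul_right μ (u i))))
  have h2 : MeasurePreserving (fun (z : Fin m → H) i => a i * (z i * u i) * b i)
      (Measure.pi fun _ : Fin m => μ) (Measure.pi fun _ : Fin m => μ) :=
    measurePreserving_pi _ _ h1
  have h3 : (fun z : Fin m → H => S.indicator (fun _ => (1 : ℝ))
      (fun i => a i * (z i * u i) * b i)) =
      ((fun (z : Fin m → H) i => a i * (z i * u i) * b i) ⁻¹' S).indicator 1 := by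
    funext z
    rfl
  rw [h3, integral_indicator_one (h2.measurable hS), Measure.real, Measure.real,
    h2.measure_preimage hS.nullMeasurableSet]

lemma cint {X : Type*} [TopologicalSpace X] [CompactSpace X] [MeasurableSpace X]
    [OpensMeasurableSpace X] (ν : Measure X) [IsFiniteMeasure ν] {Y : Type*}
    [NormedAddCommGroup Y] [SecondCountableTopologyEither X Y] {f : X → Y}
    (hf : Continuous f) : Integrable f ν :=
  hf.integrable_of_hasCompactSupport (HasCompactSupport.of_compactSpace f)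

lemma cpar {X Y F : Type*} [TopologicalSpace X] [CompactSpace X] [T2Space X]
    [SecondCountableTopology X]
    [TopologicalSpace Y] [CompactSpace Y] [SecondCountableTopology Y] [MeasurableSpace Y]
    [OpensMeasurableSpace Y] (ν : Measure Y) [IsFiniteMeasure ν] [NormedAddCommGroup F]
    [NormedSpace ℝ F] {f : X → Y → F} (hf : Continuous fun q : X × Y => f q.1 q.2) :
    Continuous fun x => ∫ y, f x y ∂ν := by
  have h := continuous_parametric_integral_of_continuous (μ := ν) (f := f) hf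
    (isCompact_univ (X := Y))
  simpa only [Measure.restrict_univ] using h

variable {N : ℕ} {G : Subgroup (UU N)} {E : Type} [Fintype E] [DecidableEq E]

/-- the translation -/
noncomputable def tw {m : ℕ} (e : Fin m → E) (z : Fin m → G) : E → G := Function.extend e z 1

lemma tw_apply {m : ℕ} {e : Fin m → E} (he : Function.Injective e) (z : Fin m → G) (i : Fin m) :
    tw e z (e i) = z i := he.extend_apply _ _ _

lemma tw_apply' {m : ℕ} {e : Fin m → E} (z : Fin m → G) (e' : E) (h : ∀ i, e' ≠ e i) :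
    tw e z e' = 1 := by
  have h0 : ¬ ∃ i, e i = e' := fun ⟨i, hi⟩ => h i hi.symm
  unfold tw
  rw [Function.extend_apply' _ _ _ h0]
  rfl

lemma tw_cont {m : ℕ} (e : Fin m → E) : Continuous (tw e : (Fin m → G) → E → G) := by
  refine continuous_pi fun e' => ?_
  by_cases h : ∃ i, e i = e'
  · have : (fun z : Fin m → G => tw e z e') = fun z => z h.choose := by
      funext z
      unfold tw
      rw [Function.extend_def, dif_pos h]
    rw [this]
    exact continuous_apply _
  · have : (fun z : Fin m → G => tw e z e') = fun z => 1 := by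
      funext z
      unfold tw
      rw [Function.extend_apply' _ _ _ h]
      rfl
    rw [this]
    exact continuous_const

/-! ### the function `rt` -/

lemma rt_mul (z u v : G) : rt (z * u) v = rt z (v * u⁻¹) := by
  unfold rt
  rw [mt_mul, mt_mul, mt_inv, conjTranspose_mul, conjTranspose_conjTranspose, Matrix.mul_assoc]

lemma rt_cont {X : Type} [TopologicalSpace X] {a b : X → G} (ha : Continuous a)
    (hb : Continuous b) : Continuous fun x => rt (a x) (b x) := by
  unfold rt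
  have h1 : Continuous fun x => KS.mt (a x) := mt_cont.comp ha
  have h2 : Continuous fun x => KS.mt (b x) := mt_cont.comp hb
  exact Complex.continuous_re.comp ((h1.matrix_mul h2.matrix_conjTranspose).matrix_trace)

lemma ent_le (g : G) (i j : Fin N) : ‖mt g i j‖ ≤ 1 :=
  entry_norm_bound_of_unitary (g : UU N).2 i j

lemma rt_abs (a b : G) : |rt a b| ≤ N := by
  have h1 : rt a b = rt (a * b⁻¹) 1 := by
    rw [rt_mul, one_mul, inv_inv]
  rw [h1]
  unfold rt
  rw [mt_one, conjTranspose_one, Matrix.mul_one]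
  refine (Complex.abs_re_le_norm _).trans ?_
  unfold trace
  refine (norm_sum_le _ _).trans ?_
  calc ∑ i, ‖(mt (a * b⁻¹)).diag i‖ ≤ ∑ _i : Fin N, (1 : ℝ) :=
        Finset.sum_le_sum fun i _ => ent_le _ i i
    _ = N := by simp

/-! ### polynomials with parameters -/

/-- the index set of the coordinates -/
abbrev OO (N : ℕ) := Option (Fin N × Fin N × Bool)

/-- polynomials of degree at most `J` in the coordinates of one matrix, with a parameter -/
def PF {X : Type} [TopologicalSpace X] (J : ℕ) (g : X → G → ℂ) : Prop :=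
  ∃ B : (Fin J → OO N) → X → ℂ, (∀ c, Continuous (B c)) ∧
    ∀ v z, g v z = ∑ c, B c v * ∏ t, crd (c t) z

section

variable {X : Type} [TopologicalSpace X]

lemma PF.one : PF (X := X) 0 (fun _ (_ : G) => (1 : ℂ)) :=
  ⟨fun _ _ => 1, fun _ => continuous_const, fun v z => by simp⟩

lemma PF.mul {J : ℕ} {g h : X → G → ℂ} (hg : PF J g) (γ : OO N → X → ℂ)
    (hγ : ∀ o, Continuous (γ o)) (hh : ∀ v z, h v z = ∑ o, γ o v * crd o z) :
    PF (J + 1) fun v z => h v z * g v z := by
  obtain ⟨B, hB, hg⟩ := hg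
  refine ⟨fun c v => γ (c 0) v * B (Fin.tail c) v, fun c => (hγ _).mul (hB _), fun v z => ?_⟩
  dsimp only
  rw [hg, hh, Finset.sum_mul_sum, ← (Fin.consEquiv fun _ => OO N).sum_comp,
    Fintype.sum_prod_type]
  refine Finset.sum_congr rfl fun o _ => Finset.sum_congr rfl fun c _ => ?_
  have ht : Fin.tail ((Fin.consEquiv fun _ : Fin (J + 1) => OO N) (o, c)) = c :=
    Fin.tail_cons (α := fun _ => OO N) o c
  rw [ht]
  simp only [Fin.consEquiv_apply, Fin.cons_zero, Fin.prod_univ_succ, Fin.cons_succ]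
  ring

lemma PF.lift {J : ℕ} {g : X → G → ℂ} (hg : PF J g) : PF (J + 1) g := by
  have h := hg.mul (h := fun _ (_ : G) => (1 : ℂ))
    (fun o _ => match o with
      | none => 1
      | some _ => 0)
    (fun o => by cases o <;> exact continuous_const) (fun v z => by
      rw [Fintype.sum_option]
      simp [crd])
  simpa using h

lemma PF.mono {J K : ℕ} {g : X → G → ℂ} (hg : PF J g) (h : J ≤ K) : PF K g := by
  induction h with
  | refl => exact hg
  | step _ ih => exact ih.lift

lemma PF.zero (J : ℕ) : PF (X := X) J (fun _ (_ : G) => (0 : ℂ)) :=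
  ⟨fun _ _ => 0, fun _ => continuous_const, fun v z => by simp⟩

lemma PF.add {J : ℕ} {g h : X → G → ℂ} (hg : PF J g) (hh : PF J h) :
    PF J fun v z => g v z + h v z := by
  obtain ⟨B, hB, hg⟩ := hg
  obtain ⟨B', hB', hh⟩ := hh
  refine ⟨fun c v => B c v + B' c v, fun c => (hB c).add (hB' c), fun v z => ?_⟩
  dsimp only
  rw [hg, hh, ← Finset.sum_add_distrib]
  refine Finset.sum_congr rfl fun c _ => ?_
  ring

lemma PF.const_mul {J : ℕ} {g : X → G → ℂ} (hg : PF J g) (a : ℂ) :
    PF J fun v z => a * g v z := by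
  obtain ⟨B, hB, hg⟩ := hg
  refine ⟨fun c v => a * B c v, fun c => continuous_const.mul (hB c), fun v z => ?_⟩
  dsimp only
  rw [hg, Finset.mul_sum]
  refine Finset.sum_congr rfl fun c _ => ?_
  ring

lemma PF.sum {J : ℕ} {ι : Type} (s : Finset ι) {g : ι → X → G → ℂ} (hg : ∀ i ∈ s, PF J (g i)) :
    PF J fun v z => ∑ i ∈ s, g i v z := by
  classical
  induction s using Finset.induction_on with
  | empty => simpa using PF.zero (X := X) (G := G) J
  | insert i s hi ih =>
    simp only [Finset.sum_insert hi]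
    exact (hg i (Finset.mem_insert_self _ _)).add
      (ih fun j hj => hg j (Finset.mem_insert_of_mem hj))

/-- `rt z b` is a linear combination of the coordinates of `z` -/
lemma rt_lin (z b : G) : ((rt z b : ℝ) : ℂ) = ∑ o : OO N, (match o with
      | none => (0 : ℂ)
      | some (i, j, false) => (1 / 2) * conj (mt b i j)
      | some (i, j, true) => (1 / 2) * mt b i j) * crd o z := by
  rw [Fintype.sum_option, Fintype.sum_prod_type]
  simp only [Fintype.sum_prod_type, Fintype.sum_bool, crd, zero_mul, zero_add]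
  have h1 : ((rt z b : ℝ) : ℂ) = (1 / 2) * (trace (KS.mt z * (KS.mt b)ᴴ) +
      (starRingEnd ℂ) (trace (KS.mt z * (KS.mt b)ᴴ))) := by
    unfold rt
    rw [Complex.add_conj]
    push_cast
    ring
  rw [h1]
  unfold trace
  rw [map_sum, ← Finset.sum_add_distrib, Finset.mul_sum]
  refine Finset.sum_congr rfl fun i _ => ?_
  simp only [Matrix.diag_apply, Matrix.mul_apply, conjTranspose_apply]
  rw [map_sum, ← Finset.sum_add_distrib, Finset.mul_sum]
  refine Finset.sum_congr rfl fun j _ => ?_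
  simp only [map_mul, RCLike.star_def, Complex.conj_conj]
  ring

lemma PF.rt_pow {b : X → G} (hb : Continuous b) (j : ℕ) :
    PF j fun v z => ((rt z (b v) : ℝ) : ℂ) ^ j := by
  have hc : ∀ i k, Continuous fun v => mt (b v) i k := fun i k =>
    (mt_cont.comp hb).matrix_elem i k
  induction j with
  | zero => simpa using PF.one
  | succ j ih =>
    have h := ih.mul (h := fun v z => ((rt z (b v) : ℝ) : ℂ))
      (fun o v => match o with
        | none => (0 : ℂ)
        | some (i, j, false) => (1 / 2) * conj (mt (b v) i j)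
        | some (i, j, true) => (1 / 2) * mt (b v) i j)
      (fun o => by
        match o with
        | none => exact continuous_const
        | some (i, k, false) => exact continuous_const.mul (Complex.continuous_conj.comp (hc i k))
        | some (i, k, true) => exact continuous_const.mul (hc i k))
      (fun v z => rt_lin z (b v))
    simpa only [pow_succ'] using h

/-- the truncated exponential -/
noncomputable def kJ (β : ℝ) (J : ℕ) (t : ℝ) : ℝ :=
  ∑ j ∈ Finset.range J, (β * t) ^ j / (j.factorial : ℝ)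

lemma PF.kJ {b : X → G} (hb : Continuous b) (β : ℝ) (J : ℕ) :
    PF J fun v z => ((kJ β J (rt z (b v)) : ℝ) : ℂ) := by
  have h : PF J fun v z => ∑ j ∈ Finset.range J,
      ((β : ℂ) ^ j / (j.factorial : ℂ)) * ((rt z (b v) : ℝ) : ℂ) ^ j :=
    PF.sum _ fun j hj => ((PF.rt_pow hb j).mono (Finset.mem_range.1 hj).le).const_mul _
  have h2 : (fun v z => ((NONC.kJ β J (rt z (b v)) : ℝ) : ℂ)) = fun v z =>
      ∑ j ∈ Finset.range J,
      ((β : ℂ) ^ j / (j.factorial : ℂ)) * ((rt z (b v) : ℝ) : ℂ) ^ j := by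
    funext v z
    unfold NONC.kJ
    push_cast
    refine Finset.sum_congr rfl fun j _ => ?_
    ring
  rw [h2]
  exact h

/-- the product over several matrices -/
lemma prod_PF {m J : ℕ} {g : Fin m → X → G → ℂ} (hg : ∀ i, PF J (g i)) :
    ∃ B : (Fin m → Fin J → OO N) → X → ℂ, (∀ c, Continuous (B c)) ∧
      ∀ v (z : Fin m → G), ∏ i, g i v (z i) = ∑ c, B c v * ∏ i, ∏ t, crd (c i t) (z i) := by
  choose B hB hg using hg
  refine ⟨fun c v => ∏ i, B i (c i) v, fun c => continuous_finsetProd _ fun i _ => hB i (c i),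
    fun v z => ?_⟩
  simp only [hg]
  rw [Finset.prod_univ_sum, Fintype.piFinset_univ]
  refine Finset.sum_congr rfl fun c _ => ?_
  rw [Finset.prod_mul_distrib]

end

/-! ### the truncated kernel -/

lemma prod_diff {ι : Type} (s : Finset ι) (a b : ι → ℝ) (M t : ℝ) (hM : 1 ≤ M)
    (ha : ∀ i, |a i| ≤ M) (hb : ∀ i, |b i| ≤ M) (ht : ∀ i, |a i - b i| ≤ t) (ht0 : 0 ≤ t) :
    |∏ i ∈ s, a i - ∏ i ∈ s, b i| ≤ s.card * M ^ s.card * t := by
  classical
  induction s using Finset.induction_on with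
  | empty => simp
  | insert i s hi ih =>
    rw [Finset.prod_insert hi, Finset.prod_insert hi, Finset.card_insert_of_notMem hi]
    have h1 : a i * ∏ j ∈ s, a j - b i * ∏ j ∈ s, b j =
        (a i - b i) * ∏ j ∈ s, a j + b i * (∏ j ∈ s, a j - ∏ j ∈ s, b j) := by ring
    rw [h1]
    have h2 : |∏ j ∈ s, a j| ≤ M ^ s.card := by
      rw [Finset.abs_prod]
      calc ∏ j ∈ s, |a j| ≤ ∏ _j ∈ s, M :=
            Finset.prod_le_prod (fun j _ => abs_nonneg _) fun j _ => ha j
        _ = M ^ s.card := by rw [Finset.prod_const]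
    have hM0 : 0 ≤ M := by linarith
    calc |(a i - b i) * ∏ j ∈ s, a j + b i * (∏ j ∈ s, a j - ∏ j ∈ s, b j)|
        ≤ |a i - b i| * |∏ j ∈ s, a j| + |b i| * |∏ j ∈ s, a j - ∏ j ∈ s, b j| := by
          rw [← abs_mul, ← abs_mul]
          exact abs_add_le _ _
      _ ≤ t * M ^ s.card + M * (s.card * M ^ s.card * t) := by
          gcongr
          · exact ht i
          · exact hb i
      _ ≤ t * M ^ (s.card + 1) + M * (s.card * M ^ s.card * t) := by
          gcongr
          omega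
      _ = ((s.card + 1 : ℕ) : ℝ) * M ^ (s.card + 1) * t := by
          push_cast
          ring

lemma kJ_diff {β : ℝ} (hβ : 0 < β) (J : ℕ) {n : ℝ} (t : ℝ) (ht : |t| ≤ n) :
    |Real.exp (β * t) - kJ β J t| ≤ tl (β * n) J := by
  have h0 : Real.exp (β * t) = ∑' j : ℕ, (β * t) ^ j / (j.factorial : ℝ) := by
    rw [Real.exp_eq_exp_ℝ, NormedSpace.exp_eq_tsum_div]
  have h1 := (Real.summable_pow_div_factorial (β * t)).sum_add_tsum_nat_add J
  have h2 : Real.exp (β * t) - kJ β J t =
      ∑' j : ℕ, (β * t) ^ (j + J) / ((j + J).factorial : ℝ) := by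
    rw [h0, ← h1]
    unfold kJ
    ring
  rw [h2]
  unfold tl
  have hb : |β * t| ≤ β * n := by
    rw [abs_mul, abs_of_pos hβ]
    exact mul_le_mul_of_nonneg_left ht hβ.le
  have hs1 : Summable fun j : ℕ => (β * n) ^ (j + J) / ((j + J).factorial : ℝ) :=
    (summable_nat_add_iff J).2 (Real.summable_pow_div_factorial (β * n))
  have hle : ∀ j : ℕ, ‖(β * t) ^ (j + J) / ((j + J).factorial : ℝ)‖ ≤
      (β * n) ^ (j + J) / ((j + J).factorial : ℝ) := by
    intro j
    rw [norm_div, norm_pow, Real.norm_eq_abs, Real.norm_natCast]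
    gcongr
  have hs2 : Summable fun j : ℕ => ‖(β * t) ^ (j + J) / ((j + J).factorial : ℝ)‖ :=
    Summable.of_nonneg_of_le (fun _ => norm_nonneg _) hle hs1
  calc |∑' j : ℕ, (β * t) ^ (j + J) / ((j + J).factorial : ℝ)|
      ≤ ∑' j : ℕ, ‖(β * t) ^ (j + J) / ((j + J).factorial : ℝ)‖ := norm_tsum_le_tsum_norm hs2
    _ ≤ _ := hs2.tsum_le_tsum hle hs1

lemma kJ_abs {β : ℝ} (hβ : 0 < β) (J : ℕ) {n : ℝ} (t : ℝ) (ht : |t| ≤ n) :
    |kJ β J t| ≤ Real.exp (β * n) := by
  have hb : |β * t| ≤ β * n := by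
    rw [abs_mul, abs_of_pos hβ]
    exact mul_le_mul_of_nonneg_left ht hβ.le
  have hn : 0 ≤ β * n := (abs_nonneg _).trans hb
  unfold kJ
  calc |∑ j ∈ Finset.range J, (β * t) ^ j / (j.factorial : ℝ)|
      ≤ ∑ j ∈ Finset.range J, |(β * t) ^ j / (j.factorial : ℝ)| :=
        Finset.abs_sum_le_sum_abs _ _
    _ ≤ ∑ j ∈ Finset.range J, (β * n) ^ j / (j.factorial : ℝ) := by
        refine Finset.sum_le_sum fun j _ => ?_
        rw [abs_div, abs_pow, Nat.abs_cast]
        gcongr
    _ ≤ _ := Real.sum_le_exp_of_nonneg hn J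

lemma kJ_cont (β : ℝ) (J : ℕ) : Continuous (kJ β J) := by
  unfold kJ
  refine continuous_finsetSum _ fun j _ => ?_
  exact ((continuous_const.mul continuous_id).pow j).div_const _

/-- the factor of the links which do not occur -/
noncomputable def po (β : ℝ) {m : ℕ} (e : Fin m → E) (U V : E → G) : ℝ :=
  ∏ e' ∈ (Finset.univ.image e)ᶜ, Real.exp (β * rt (U e') (V e'))

/-- the truncated kernel, without the weight of the first argument -/
noncomputable def thJ (β : ℝ) (J : ℕ) {m : ℕ} (e : Fin m → E) (w : (E → G) → ℝ) (U V : E → G) : ℝ :=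
  w V * (po β e U V * ∏ i, kJ β J (rt (U (e i)) (V (e i))))

/-- the truncated kernel -/
noncomputable def kerJ (β : ℝ) (J : ℕ) {m : ℕ} (e : Fin m → E) (w : (E → G) → ℝ) (U V : E → G) :
    ℝ := w U * thJ β J e w U V

lemma ker_split (β : ℝ) {m : ℕ} {e : Fin m → E} (he : Function.Injective e) (w : (E → G) → ℝ)
    (U V : E → G) : ker β w U V =
      w U * (w V * (po β e U V * ∏ i, Real.exp (β * rt (U (e i)) (V (e i))))) := by
  unfold ker po
  have h1 : ∏ e', Real.exp (β * rt (U e') (V e')) =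
      (∏ e' ∈ Finset.univ.image e, Real.exp (β * rt (U e') (V e'))) *
        ∏ e' ∈ (Finset.univ.image e)ᶜ, Real.exp (β * rt (U e') (V e')) :=
    (Finset.prod_mul_prod_compl _ _).symm
  rw [h1, Finset.prod_image fun i _ j _ h => he h]
  ring

lemma po_pos (β : ℝ) {m : ℕ} (e : Fin m → E) (U V : E → G) : 0 < po β e U V :=
  Finset.prod_pos fun _ _ => Real.exp_pos _

lemma rtc (e' : E) : Continuous fun q : (E → G) × (E → G) => rt (q.1 e') (q.2 e') := by
  have h1 : Continuous fun q : (E → G) × (E → G) => q.1 e' :=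
    (continuous_apply e').comp continuous_fst
  have h2 : Continuous fun q : (E → G) × (E → G) => q.2 e' :=
    (continuous_apply e').comp continuous_snd
  exact rt_cont h1 h2

lemma ker_cont (β : ℝ) (w : (E → G) → ℝ) (hw : Continuous w) :
    Continuous fun q : (E → G) × (E → G) => ker β w q.1 q.2 := by
  unfold ker
  refine ((hw.comp continuous_fst).mul (hw.comp continuous_snd)).mul ?_
  exact continuous_finsetProd _ fun e' _ =>
    Real.continuous_exp.comp (continuous_const.mul (rtc e'))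

lemma po_cont (β : ℝ) {m : ℕ} (e : Fin m → E) :
    Continuous fun q : (E → G) × (E → G) => po β e q.1 q.2 := by
  unfold po
  exact continuous_finsetProd _ fun e' _ =>
    Real.continuous_exp.comp (continuous_const.mul (rtc e'))

lemma po_cont2 (β : ℝ) {m : ℕ} (e : Fin m → E) (U : E → G) : Continuous fun V => po β e U V := by
  unfold po
  exact continuous_finsetProd _ fun e' _ =>
    Real.continuous_exp.comp (continuous_const.mul (rt_cont continuous_const (continuous_apply e')))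

lemma thJ_cont (β : ℝ) (J : ℕ) {m : ℕ} (e : Fin m → E) (w : (E → G) → ℝ) (hw : Continuous w) :
    Continuous fun q : (E → G) × (E → G) => thJ β J e w q.1 q.2 := by
  unfold thJ
  refine (hw.comp continuous_snd).mul ((po_cont β e).mul ?_)
  exact continuous_finsetProd _ fun i _ => (kJ_cont β J).comp (rtc (e i))

lemma kerJ_cont (β : ℝ) (J : ℕ) {m : ℕ} (e : Fin m → E) (w : (E → G) → ℝ) (hw : Continuous w) :
    Continuous fun q : (E → G) × (E → G) => kerJ β J e w q.1 q.2 := by
  unfold kerJ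
  exact (hw.comp continuous_fst).mul (thJ_cont β J e w hw)

/-- the constant -/
noncomputable def cc (N m : ℕ) (β : ℝ) : ℝ := m * Real.exp (β * N) ^ m * Real.exp (β * N) ^ m

lemma cc_nonneg (N m : ℕ) (β : ℝ) : 0 ≤ cc N m β := by unfold cc; positivity

lemma ker_diff {β : ℝ} (hβ : 0 < β) (J : ℕ) {m : ℕ} {e : Fin m → E} (he : Function.Injective e)
    (w : (E → G) → ℝ) (hw : ∀ U, 0 < w U) (U V : E → G) :
    |ker β w U V - kerJ β J e w U V| ≤ cc N m β * tl (β * N) J * ker β w U V := by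
  have hM : 1 ≤ Real.exp (β * N) := Real.one_le_exp (by positivity)
  have htl : 0 ≤ tl (β * N) J :=
    (abs_nonneg _).trans (kJ_diff hβ J (n := (N : ℝ)) 0 (by simp))
  have h1 := prod_diff (Finset.univ : Finset (Fin m))
    (fun i => Real.exp (β * rt (U (e i)) (V (e i)))) (fun i => kJ β J (rt (U (e i)) (V (e i))))
    (Real.exp (β * N)) (tl (β * N) J) hM
    (fun i => by
      rw [abs_of_pos (Real.exp_pos _)]
      exact Real.exp_le_exp.2 (mul_le_mul_of_nonneg_left
        ((le_abs_self _).trans (rt_abs _ _)) hβ.le))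
    (fun i => kJ_abs hβ J _ (rt_abs _ _)) (fun i => kJ_diff hβ J _ (rt_abs _ _)) htl
  rw [Finset.card_univ, Fintype.card_fin] at h1
  have h2 : 1 ≤ Real.exp (β * N) ^ m * ∏ i, Real.exp (β * rt (U (e i)) (V (e i))) := by
    have h3 : Real.exp (β * N) ^ m = ∏ _i : Fin m, Real.exp (β * N) := by simp
    rw [h3, ← Finset.prod_mul_distrib]
    refine Finset.one_le_prod fun i _ => ?_
    rw [← Real.exp_add]
    apply Real.one_le_exp
    have h4 := (neg_abs_le _).trans' (neg_le_neg (rt_abs (U (e i)) (V (e i))))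
    nlinarith
  rw [ker_split β he]
  unfold kerJ thJ
  have hwU := hw U
  have hwV := hw V
  have hpo := po_pos β e U V
  have h5 : w U * (w V * (po β e U V * ∏ i, Real.exp (β * rt (U (e i)) (V (e i))))) -
      w U * (w V * (po β e U V * ∏ i, kJ β J (rt (U (e i)) (V (e i))))) =
      (w U * (w V * po β e U V)) * (∏ i, Real.exp (β * rt (U (e i)) (V (e i))) -
        ∏ i, kJ β J (rt (U (e i)) (V (e i)))) := by ring
  have hpos : 0 < w U * (w V * po β e U V) := by positivity
  rw [h5, abs_mul, abs_of_pos hpos]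
  have h6 : (m : ℝ) * Real.exp (β * N) ^ m * tl (β * N) J ≤
      m * Real.exp (β * N) ^ m * tl (β * N) J *
        (Real.exp (β * N) ^ m * ∏ i, Real.exp (β * rt (U (e i)) (V (e i)))) :=
    le_mul_of_one_le_right (by positivity) h2
  calc w U * (w V * po β e U V) * |∏ i, Real.exp (β * rt (U (e i)) (V (e i))) -
        ∏ i, kJ β J (rt (U (e i)) (V (e i)))|
      ≤ w U * (w V * po β e U V) * (m * Real.exp (β * N) ^ m * tl (β * N) J *
        (Real.exp (β * N) ^ m * ∏ i, Real.exp (β * rt (U (e i)) (V (e i))))) :=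
        mul_le_mul_of_nonneg_left (h1.trans h6) hpos.le
    _ = _ := by
        unfold cc
        ring

section

variable [MeasurableSpace G] [BorelSpace G] (μ : Measure G) [IsProbabilityMeasure μ]
  [μ.IsHaarMeasure] [CompactSpace G] [SecondCountableTopology G]

lemma opr_cont (K : (E → G) → (E → G) → ℝ)
    (hK : Continuous fun q : (E → G) × (E → G) => K q.1 q.2) (F : (E → G) → ℂ)
    (hF : Continuous F) : Continuous (opr μ K F) := by
  unfold opr
  refine cpar _ (f := fun U V => F V * ((K U V : ℝ) : ℂ)) ?_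
  exact (hF.comp continuous_snd).mul (Complex.continuous_ofReal.comp hK)

lemma av_cont (F : (E → G) → ℂ) (hF : Continuous F) : Continuous (av F) :=
  Complex.continuous_ofReal.comp hF.norm

lemma opr_diff {β : ℝ} (hβ : 0 < β) (J : ℕ) {m : ℕ} {e : Fin m → E} (he : Function.Injective e)
    (w : (E → G) → ℝ) (hwc : Continuous w) (hw : ∀ U, 0 < w U) (F : (E → G) → ℂ)
    (hF : Continuous F) (U : E → G) :
    ‖opr μ (ker β w) F U - opr μ (kerJ β J e w) F U‖ ≤
      cc N m β * tl (β * N) J * ‖opr μ (ker β w) (av F) U‖ := by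
  set ν : Measure (E → G) := Measure.pi fun _ : E => μ with hν
  have hk1 : Continuous fun V => ker β w U V :=
    (ker_cont β w hwc).comp (continuous_const.prodMk continuous_id)
  have hk2 : Continuous fun V => kerJ β J e w U V :=
    (kerJ_cont β J e w hwc).comp (continuous_const.prodMk continuous_id)
  have hc1 : Continuous fun V => F V * ((ker β w U V : ℝ) : ℂ) :=
    hF.mul (Complex.continuous_ofReal.comp hk1)
  have hc2 : Continuous fun V => F V * ((kerJ β J e w U V : ℝ) : ℂ) :=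
    hF.mul (Complex.continuous_ofReal.comp hk2)
  have h1 : opr μ (ker β w) F U - opr μ (kerJ β J e w) F U =
      ∫ V, (F V * ((ker β w U V : ℝ) : ℂ) - F V * ((kerJ β J e w U V : ℝ) : ℂ)) ∂ν := by
    rw [integral_sub (cint ν hc1) (cint ν hc2)]
    rfl
  have h2 : opr μ (ker β w) (av F) U = ((∫ V, ‖F V‖ * ker β w U V ∂ν : ℝ) : ℂ) := by
    unfold opr av
    rw [← integral_complex_ofReal]
    refine integral_congr_ae (Eventually.of_forall fun V => ?_)
    dsimp only
    push_cast
    ring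
  have hc3 : Continuous fun V => ‖F V‖ * ker β w U V := hF.norm.mul hk1
  rw [h1, h2, Complex.norm_real]
  calc ‖∫ V, (F V * ((ker β w U V : ℝ) : ℂ) - F V * ((kerJ β J e w U V : ℝ) : ℂ)) ∂ν‖
      ≤ ∫ V, ‖F V * ((ker β w U V : ℝ) : ℂ) - F V * ((kerJ β J e w U V : ℝ) : ℂ)‖ ∂ν :=
        norm_integral_le_integral_norm _
    _ ≤ ∫ V, cc N m β * tl (β * N) J * (‖F V‖ * ker β w U V) ∂ν := by
        refine integral_mono (cint ν (hc1.sub hc2).norm) (cint ν (continuous_const.mul hc3))
          fun V => ?_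
        have h3 : F V * ((ker β w U V : ℝ) : ℂ) - F V * ((kerJ β J e w U V : ℝ) : ℂ) =
            F V * ((ker β w U V - kerJ β J e w U V : ℝ) : ℂ) := by
          push_cast
          ring
        dsimp only
        rw [h3, norm_mul, Complex.norm_real, Real.norm_eq_abs]
        calc ‖F V‖ * |ker β w U V - kerJ β J e w U V|
            ≤ ‖F V‖ * (cc N m β * tl (β * N) J * ker β w U V) :=
              mul_le_mul_of_nonneg_left (ker_diff hβ J he w hw U V) (norm_nonneg _)
          _ = _ := by ring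
    _ = cc N m β * tl (β * N) J * ∫ V, ‖F V‖ * ker β w U V ∂ν := integral_const_mul _ _
    _ ≤ _ := by
        have htl : 0 ≤ tl (β * N) J :=
          (abs_nonneg _).trans (kJ_diff hβ J (n := (N : ℝ)) 0 (by simp))
        exact mul_le_mul_of_nonneg_left (le_abs_self _) (mul_nonneg (cc_nonneg N m β) htl)

/-- the function of the link variables without the weight -/
noncomputable def Th (β : ℝ) (J : ℕ) {m : ℕ} (e : Fin m → E) (w : (E → G) → ℝ)
    (F : (E → G) → ℂ) (U : E → G) : ℂ := opr μ (thJ β J e w) F U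

lemma opr_kerJ (β : ℝ) (J : ℕ) {m : ℕ} (e : Fin m → E) (w : (E → G) → ℝ)
    (F : (E → G) → ℂ) (U : E → G) :
    opr μ (kerJ β J e w) F U = (w U : ℂ) * Th μ β J e w F U := by
  unfold Th opr kerJ
  rw [← integral_const_mul]
  refine integral_congr_ae (Eventually.of_forall fun V => ?_)
  dsimp only
  push_cast
  ring

lemma po_tw (β : ℝ) {m : ℕ} (e : Fin m → E) (z : Fin m → G) (U V : E → G) :
    po β e (tw e z * U) V = po β e U V := by
  unfold po
  refine Finset.prod_congr rfl fun e' he' => ?_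
  rw [Pi.mul_apply, tw_apply' z e' fun i hi => ?_, one_mul]
  rw [Finset.mem_compl, Finset.mem_image] at he'
  exact he' ⟨i, Finset.mem_univ _, hi.symm⟩

lemma thJ_tw (β : ℝ) (J : ℕ) {m : ℕ} {e : Fin m → E} (he : Function.Injective e)
    (w : (E → G) → ℝ) (U : E → G) (z : Fin m → G) (V : E → G) :
    ((thJ β J e w (tw e z * U) V : ℝ) : ℂ) = ((w V * po β e U V : ℝ) : ℂ) *
      ∏ i, ((kJ β J (rt (z i) (V (e i) * (U (e i))⁻¹)) : ℝ) : ℂ) := by
  have h2 : ∀ i, rt ((tw e z * U) (e i)) (V (e i)) = rt (z i) (V (e i) * (U (e i))⁻¹) := by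
    intro i
    rw [Pi.mul_apply, tw_apply he, rt_mul]
  unfold thJ
  simp only [h2, po_tw]
  push_cast
  ring

lemma Th_poly (β : ℝ) (J : ℕ) {m : ℕ} {e : Fin m → E} (he : Function.Injective e)
    (w : (E → G) → ℝ) (hwc : Continuous w) (F : (E → G) → ℂ) (hF : Continuous F) (U : E → G) :
    ∃ A : (Fin m → Fin J → OO N) → ℂ, ∀ z : Fin m → G,
      Th μ β J e w F (tw e z * U) = ∑ c, A c * ∏ i, ∏ t, crd (c i t) (z i) := by
  have hb : ∀ i : Fin m, Continuous fun V : E → G => V (e i) * (U (e i))⁻¹ := fun i =>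
    (continuous_apply (e i)).mul continuous_const
  have hPF : ∀ i : Fin m, PF (X := E → G) J
      (fun V z => ((kJ β J (rt z (V (e i) * (U (e i))⁻¹)) : ℝ) : ℂ)) :=
    fun i => PF.kJ (hb i) β J
  obtain ⟨B, hB, hP⟩ := prod_PF hPF
  have hpo : Continuous fun V => po β e U V := po_cont2 β e U
  have hc : Continuous fun V => F V * ((w V * po β e U V : ℝ) : ℂ) :=
    hF.mul (Complex.continuous_ofReal.comp (hwc.mul hpo))
  refine ⟨fun c => ∫ V, F V * ((w V * po β e U V : ℝ) : ℂ) * B c V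
    ∂(Measure.pi fun _ : E => μ), fun z => ?_⟩
  have h1 : ∀ V, F V * ((thJ β J e w (tw e z * U) V : ℝ) : ℂ) =
      ∑ c, F V * ((w V * po β e U V : ℝ) : ℂ) * B c V * ∏ i, ∏ t, crd (c i t) (z i) := by
    intro V
    rw [thJ_tw β J he w U z V, hP V z, Finset.mul_sum, Finset.mul_sum]
    refine Finset.sum_congr rfl fun c _ => ?_
    ring
  have h5 : Th μ β J e w F (tw e z * U) = ∫ V, ∑ c, F V * ((w V * po β e U V : ℝ) : ℂ) * B c V *
      ∏ i, ∏ t, crd (c i t) (z i) ∂(Measure.pi fun _ : E => μ) := by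
    unfold Th opr
    exact integral_congr_ae (Eventually.of_forall h1)
  have h6 : ∀ c ∈ (Finset.univ : Finset (Fin m → Fin J → OO N)),
      Integrable (fun V => F V * ((w V * po β e U V : ℝ) : ℂ) * B c V *
        ∏ i, ∏ t, crd (c i t) (z i)) (Measure.pi fun _ : E => μ) := fun c _ =>
    cint _ ((hc.mul (hB c)).mul continuous_const)
  rw [h5, integral_finsetSum _ h6]
  refine Finset.sum_congr rfl fun c _ => ?_
  exact integral_mul_const _ _

/-- averaging over the translations -/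
lemma avg_int {m : ℕ} (e : Fin m → E) (f : (E → G) → ℝ) (hf : Measurable f) (b : ℝ)
    (hb : ∀ U, |f U| ≤ b) :
    Integrable (fun q : (Fin m → G) × (E → G) => f (tw e q.1 * q.2))
      ((Measure.pi fun _ : Fin m => μ).prod (Measure.pi fun _ : E => μ)) := by
  have hc : Continuous fun q : (Fin m → G) × (E → G) => tw e q.1 * q.2 :=
    ((tw_cont e).comp continuous_fst).mul continuous_snd
  exact Integrable.of_bound (hf.comp hc.measurable).aestronglyMeasurable b
    (Eventually.of_forall fun q => hb _)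

lemma avg {m : ℕ} (e : Fin m → E) (f : (E → G) → ℝ) (hf : Measurable f) (b : ℝ)
    (hb : ∀ U, |f U| ≤ b) :
    ∫ U, f U ∂(Measure.pi fun _ : E => μ) =
      ∫ U, ∫ z, f (tw e z * U) ∂(Measure.pi fun _ : Fin m => μ) ∂(Measure.pi fun _ : E => μ) := by
  have hint := avg_int μ e f hf b hb
  rw [← integral_integral_swap (f := fun z U => f (tw e z * U)) hint]
  have h1 : ∀ z : Fin m → G, ∫ U, f (tw e z * U) ∂(Measure.pi fun _ : E => μ) =
      ∫ U, f U ∂(Measure.pi fun _ : E => μ) := fun z => integral_mul_left_eq_self f (tw e z)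
  simp only [h1]
  simp

lemma bdd_cont (f : (E → G) → ℝ) (hf : Continuous f) : ∃ b, ∀ U, |f U| ≤ b := by
  obtain ⟨b, hb⟩ := (isCompact_univ (X := E → G)).exists_bound_of_continuousOn hf.continuousOn
  exact ⟨b, fun U => hb U (Set.mem_univ U)⟩

lemma pt_ineq (hSUPB : S_SUPB) (hG : IsClosed (G : Set (UU N))) {m : ℕ} {β cw : ℝ} (hcw : 0 < cw)
    (J : ℕ) {e : Fin m → E} (he : Function.Injective e) (w : (E → G) → ℝ) (hwc : Continuous w)
    (hw : ∀ U, 0 < w U)
    (hww : ∀ U U' : E → G, (∀ e', (∀ i, e' ≠ e i) → U e' = U' e') → w U ≤ cw * w U')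
    (F : (E → G) → ℂ) (hF : Continuous F) (U : E → G) (z : Fin m → G) :
    ‖opr μ (kerJ β J e w) F (tw e z * U)‖ ^ 2 ≤ cw ^ 4 * ((J : ℝ) + 1) ^ (2 * N ^ 2 * m) *
      ∫ q, ‖opr μ (kerJ β J e w) F (tw e q * U)‖ ^ 2 ∂(Measure.pi fun _ : Fin m => μ) := by
  obtain ⟨A, hA⟩ := Th_poly μ β J he w hwc F hF U
  have h1 := hSUPB N G hG μ m J A (fun z => Th μ β J e w F (tw e z * U)) hA z
  have htw : Continuous fun q : Fin m → G => tw e q * U := (tw_cont e).mul continuous_const
  have hThc : Continuous (Th μ β J e w F) := opr_cont μ _ (thJ_cont β J e w hwc) F hF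
  have hc1 : Continuous fun q : Fin m → G => ‖Th μ β J e w F (tw e q * U)‖ ^ 2 :=
    (hThc.comp htw).norm.pow 2
  have hc2 : Continuous fun q : Fin m → G =>
      cw ^ 2 * (w (tw e q * U) ^ 2 * ‖Th μ β J e w F (tw e q * U)‖ ^ 2) :=
    continuous_const.mul (((hwc.comp htw).pow 2).mul hc1)
  have hag : ∀ q : Fin m → G, ∀ e', (∀ i, e' ≠ e i) → (tw e q * U) e' = U e' := by
    intro q e' he'
    rw [Pi.mul_apply, tw_apply' q e' he', one_mul]
  have hw1 : w (tw e z * U) ≤ cw * w U := hww _ _ (hag z)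
  have hw2 : ∀ q : Fin m → G, w U ≤ cw * w (tw e q * U) := fun q =>
    hww _ _ fun e' he' => (hag q e' he').symm
  set I1 : ℝ := ∫ q, ‖Th μ β J e w F (tw e q * U)‖ ^ 2 ∂(Measure.pi fun _ : Fin m => μ) with hI1
  have hI10 : 0 ≤ I1 := integral_nonneg fun q => by positivity
  have hex : ∀ q : Fin m → G, ‖opr μ (kerJ β J e w) F (tw e q * U)‖ ^ 2 =
      w (tw e q * U) ^ 2 * ‖Th μ β J e w F (tw e q * U)‖ ^ 2 := by
    intro q
    rw [opr_kerJ, norm_mul, mul_pow, Complex.norm_real, Real.norm_eq_abs, sq_abs]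
  have h2 : w U ^ 2 * I1 ≤ cw ^ 2 *
      ∫ q, ‖opr μ (kerJ β J e w) F (tw e q * U)‖ ^ 2 ∂(Measure.pi fun _ : Fin m => μ) := by
    simp only [hex]
    rw [hI1, ← integral_const_mul, ← integral_const_mul]
    refine integral_mono (cint _ (continuous_const.mul hc1)) (cint _ hc2) fun q => ?_
    dsimp only
    have h3 : w U ^ 2 ≤ (cw * w (tw e q * U)) ^ 2 :=
      pow_le_pow_left₀ (hw U).le (hw2 q) 2
    calc w U ^ 2 * ‖Th μ β J e w F (tw e q * U)‖ ^ 2
        ≤ (cw * w (tw e q * U)) ^ 2 * ‖Th μ β J e w F (tw e q * U)‖ ^ 2 :=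
          mul_le_mul_of_nonneg_right h3 (by positivity)
      _ = _ := by ring
  have h4 : w (tw e z * U) ^ 2 ≤ (cw * w U) ^ 2 := pow_le_pow_left₀ (hw _).le hw1 2
  have hD : 0 ≤ ((J : ℝ) + 1) ^ (2 * N ^ 2 * m) := by positivity
  rw [hex z]
  calc w (tw e z * U) ^ 2 * ‖Th μ β J e w F (tw e z * U)‖ ^ 2
      ≤ (cw * w U) ^ 2 * (((J : ℝ) + 1) ^ (2 * N ^ 2 * m) * I1) :=
        mul_le_mul h4 h1 (by positivity) (by positivity)
    _ = cw ^ 2 * ((J : ℝ) + 1) ^ (2 * N ^ 2 * m) * (w U ^ 2 * I1) := by ring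
    _ ≤ cw ^ 2 * ((J : ℝ) + 1) ^ (2 * N ^ 2 * m) * (cw ^ 2 *
        ∫ q, ‖opr μ (kerJ β J e w) F (tw e q * U)‖ ^ 2 ∂(Measure.pi fun _ : Fin m => μ)) :=
        mul_le_mul_of_nonneg_left h2 (by positivity)
    _ = _ := by ring

lemma main_ineq (hSUPB : S_SUPB) (hG : IsClosed (G : Set (UU N))) {m : ℕ} {β cw : ℝ}
    (hcw : 0 < cw)
    (J : ℕ) {e : Fin m → E} (he : Function.Injective e) (p α α' : (E → G) → Fin m → G)
    (hpc : Continuous p) (hp : ∀ U i, p U i = α U i * U (e i) * α' U i)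
    (hind : ∀ U U' : E → G, (∀ e', (∀ i, e' ≠ e i) → U e' = U' e') → α U = α U' ∧ α' U = α' U')
    (w : (E → G) → ℝ) (hwc : Continuous w) (hw : ∀ U, 0 < w U)
    (hww : ∀ U U' : E → G, (∀ e', (∀ i, e' ≠ e i) → U e' = U' e') → w U ≤ cw * w U')
    (F : (E → G) → ℂ) (hF : Continuous F) (S : Set (Fin m → G)) (hS : MeasurableSet S) :
    ∫ U, S.indicator (fun _ => (1 : ℝ)) (p U) * ‖opr μ (kerJ β J e w) F U‖ ^ 2
        ∂(Measure.pi fun _ : E => μ) ≤
      cw ^ 4 * ((J : ℝ) + 1) ^ (2 * N ^ 2 * m) * (Measure.pi fun _ : Fin m => μ).real S *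
        ∫ U, ‖opr μ (kerJ β J e w) F U‖ ^ 2 ∂(Measure.pi fun _ : E => μ) := by
  obtain ⟨H, hH⟩ : ∃ H : (E → G) → ℝ, H = fun U => ‖opr μ (kerJ β J e w) F U‖ ^ 2 := ⟨_, rfl⟩
  obtain ⟨χ, hχ⟩ : ∃ χ : (E → G) → ℝ, χ = fun U => S.indicator (fun _ => (1 : ℝ)) (p U) :=
    ⟨_, rfl⟩
  have hχ0 : ∀ U, 0 ≤ χ U := by
    intro U; rw [hχ]; exact Set.indicator_nonneg (fun _ _ => zero_le_one) _
  have hχ1 : ∀ U, χ U ≤ 1 := by
    intro U; rw [hχ]; exact Set.indicator_le_self' (fun _ _ => zero_le_one) _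
  have hχm : Measurable χ := by
    rw [hχ]; exact (measurable_const.indicator hS).comp hpc.measurable
  have hHc : Continuous H := by
    rw [hH]
    exact (opr_cont μ _ (kerJ_cont β J e w hwc) F hF).norm.pow 2
  have hH0 : ∀ U, 0 ≤ H U := fun U => by rw [hH]; positivity
  obtain ⟨b, hb⟩ := bdd_cont H hHc
  have hgoal : ∫ U, S.indicator (fun _ => (1 : ℝ)) (p U) * ‖opr μ (kerJ β J e w) F U‖ ^ 2
      ∂(Measure.pi fun _ : E => μ) = ∫ U, χ U * H U ∂(Measure.pi fun _ : E => μ) := by
    rw [hχ, hH]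
  have hgoal2 : ∫ U, ‖opr μ (kerJ β J e w) F U‖ ^ 2 ∂(Measure.pi fun _ : E => μ) =
      ∫ U, H U ∂(Measure.pi fun _ : E => μ) := by rw [hH]
  rw [hgoal, hgoal2]
  have hm1 : Measurable fun U => χ U * H U := hχm.mul hHc.measurable
  have hb1 : ∀ U, |χ U * H U| ≤ b := by
    intro U
    rw [abs_mul, abs_of_nonneg (hχ0 U)]
    exact (mul_le_of_le_one_left (abs_nonneg _) (hχ1 U)).trans (hb U)
  have hi1 := avg_int μ e (fun U => χ U * H U) hm1 b hb1
  have hi2 := avg_int μ e H hHc.measurable b hb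
  rw [avg μ e (fun U => χ U * H U) hm1 b hb1, avg μ e H hHc.measurable b hb,
    ← integral_const_mul]
  refine integral_mono hi1.integral_prod_right (hi2.integral_prod_right.const_mul _) fun U => ?_
  dsimp only
  set I : ℝ := ∫ z, H (tw e z * U) ∂(Measure.pi fun _ : Fin m => μ) with hI
  have hpt : ∀ z : Fin m → G, H (tw e z * U) ≤
      cw ^ 4 * ((J : ℝ) + 1) ^ (2 * N ^ 2 * m) * I := by
    intro z
    rw [hI, hH]
    exact pt_ineq μ hSUPB hG hcw J he w hwc hw hww F hF U z
  have htw : Continuous fun q : Fin m → G => tw e q * U := (tw_cont e).mul continuous_const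
  have hχi : Integrable (fun z : Fin m → G => χ (tw e z * U)) (Measure.pi fun _ : Fin m => μ) :=
    Integrable.of_bound (hχm.comp htw.measurable).aestronglyMeasurable 1
      (Eventually.of_forall fun z => by
        rw [Real.norm_eq_abs, abs_of_nonneg (hχ0 _)]; exact hχ1 _)
  have hχHi : Integrable (fun z : Fin m → G => χ (tw e z * U) * H (tw e z * U))
      (Measure.pi fun _ : Fin m => μ) :=
    Integrable.of_bound ((hm1.comp htw.measurable)).aestronglyMeasurable b
      (Eventually.of_forall fun z => hb1 _)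
  have hinner : ∫ z, χ (tw e z * U) ∂(Measure.pi fun _ : Fin m => μ) =
      (Measure.pi fun _ : Fin m => μ).real S := by
    rw [← inner_eq μ m S hS (α U) (fun i => U (e i)) (α' U)]
    refine integral_congr_ae (Eventually.of_forall fun z => ?_)
    rw [hχ]
    dsimp only
    congr 1
    funext i
    have h1 := hind (tw e z * U) U (fun e' he' => by
      rw [Pi.mul_apply, tw_apply' z e' he', one_mul])
    rw [hp, h1.1, h1.2, Pi.mul_apply, tw_apply he]
  calc ∫ z, χ (tw e z * U) * H (tw e z * U) ∂(Measure.pi fun _ : Fin m => μ)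
      ≤ ∫ z, χ (tw e z * U) * (cw ^ 4 * ((J : ℝ) + 1) ^ (2 * N ^ 2 * m) * I)
          ∂(Measure.pi fun _ : Fin m => μ) := by
        refine integral_mono hχHi (hχi.mul_const _) fun z => ?_
        exact mul_le_mul_of_nonneg_left (hpt z) (hχ0 _)
    _ = (Measure.pi fun _ : Fin m => μ).real S *
          (cw ^ 4 * ((J : ℝ) + 1) ^ (2 * N ^ 2 * m) * I) := by
        rw [integral_mul_const, hinner]
    _ = _ := by ring

end

end Pool.Agent.H189.WA.NONC

namespace Pool.Agent.H189.WA

open Pool.Agent.H189.KS Pool.Agent.H189.WA.NONC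

theorem t_NONC (hSUPB : S_SUPB) : S_NONC := by
  intro N m β cw hβ hcw
  set c1 : ℝ := cc N m β with hc1
  have hc10 : 0 ≤ c1 := cc_nonneg N m β
  refine ⟨(4 * cw ^ 4 + 2) * (1 + c1 ^ 2), by positivity, ?_⟩
  intro G hG _ _ μ _ _ E _ _ e he p α α' hα hα' hp hind w hwc hw hww F hF S hS J
  have := cpt N
  have := sct N
  have hcomp : CompactSpace G := isCompact_iff_compactSpace.1 hG.isCompact
  have hsec : SecondCountableTopology G := TopologicalSpace.Subtype.secondCountableTopology _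
  have hpc : Continuous p := by
    have h1 : p = fun U i => α U i * U (e i) * α' U i := funext₂ hp
    rw [h1]
    refine continuous_pi fun i => ?_
    exact (((continuous_apply i).comp hα).mul (continuous_apply (e i))).mul
      ((continuous_apply i).comp hα')
  set D : ℝ := ((J : ℝ) + 1) ^ (2 * N ^ 2 * m) with hD
  set s : ℝ := (Measure.pi fun _ : Fin m => μ).real S with hs
  have hs0 : 0 ≤ s := measureReal_nonneg
  have hD0 : 0 ≤ D := by positivity
  set t : ℝ := tl (β * N) J with ht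
  have ht0 : 0 ≤ t := (abs_nonneg _).trans (kJ_diff hβ J (n := (N : ℝ)) 0 (by simp))
  obtain ⟨Φ, hΦ⟩ : ∃ Φ : (E → G) → ℂ, Φ = opr μ (ker β w) F := ⟨_, rfl⟩
  obtain ⟨Ψ, hΨ⟩ : ∃ Ψ : (E → G) → ℂ, Ψ = opr μ (kerJ β J e w) F := ⟨_, rfl⟩
  obtain ⟨Φa, hΦa⟩ : ∃ Φa : (E → G) → ℂ, Φa = opr μ (ker β w) (av F) := ⟨_, rfl⟩
  have hΦc : Continuous Φ := by rw [hΦ]; exact opr_cont μ _ (ker_cont β w hwc) F hF
  have hΨc : Continuous Ψ := by rw [hΨ]; exact opr_cont μ _ (kerJ_cont β J e w hwc) F hF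
  have hΦac : Continuous Φa := by
    rw [hΦa]; exact opr_cont μ _ (ker_cont β w hwc) (av F) (av_cont F hF)
  have hdiff : ∀ U, ‖Φ U - Ψ U‖ ≤ c1 * t * ‖Φa U‖ := by
    intro U
    rw [hΦ, hΨ, hΦa]
    exact opr_diff μ hβ J he w hwc hw F hF U
  have hmain := main_ineq μ hSUPB hG hcw J he p α α' hpc hp hind w hwc hw hww F hF S hS (β := β)
  rw [← hΨ] at hmain
  have hn1 : n2 μ (opr μ (ker β w) F) = ∫ U, ‖Φ U‖ ^ 2 ∂(Measure.pi fun _ : E => μ) := by
    rw [hΦ]; rfl
  have hn2 : n2 μ (opr μ (ker β w) (av F)) =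
      ∫ U, ‖Φa U‖ ^ 2 ∂(Measure.pi fun _ : E => μ) := by
    rw [hΦa]; rfl
  rw [hn1, hn2, ← hΦ]
  set A : ℝ := ∫ U, ‖Φ U‖ ^ 2 ∂(Measure.pi fun _ : E => μ) with hA
  set B : ℝ := ∫ U, ‖Φa U‖ ^ 2 ∂(Measure.pi fun _ : E => μ) with hB
  have hA0 : 0 ≤ A := integral_nonneg fun U => by positivity
  have hB0 : 0 ≤ B := integral_nonneg fun U => by positivity
  set Err : ℝ := ∫ U, ‖Φ U - Ψ U‖ ^ 2 ∂(Measure.pi fun _ : E => μ) with hErr
  have hErrB : Err ≤ c1 ^ 2 * t ^ 2 * B := by
    rw [hErr, hB, ← integral_const_mul]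
    refine integral_mono (cint _ ((hΦc.sub hΨc).norm.pow 2))
      (cint _ (continuous_const.mul (hΦac.norm.pow 2))) fun U => ?_
    dsimp only
    calc ‖Φ U - Ψ U‖ ^ 2 ≤ (c1 * t * ‖Φa U‖) ^ 2 :=
          pow_le_pow_left₀ (norm_nonneg _) (hdiff U) 2
      _ = _ := by ring
  have hErr0 : 0 ≤ Err := integral_nonneg fun U => by positivity
  have hsq : ∀ x y : ℂ, ‖x‖ ^ 2 ≤ 2 * ‖y‖ ^ 2 + 2 * ‖x - y‖ ^ 2 := by
    intro x y
    have h1 : ‖x‖ ≤ ‖y‖ + ‖x - y‖ := by
      have := norm_add_le y (x - y)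
      rwa [add_sub_cancel] at this
    nlinarith [norm_nonneg x, norm_nonneg y, norm_nonneg (x - y), sq_nonneg (‖y‖ - ‖x - y‖)]
  have hΨA : ∫ U, ‖Ψ U‖ ^ 2 ∂(Measure.pi fun _ : E => μ) ≤ 2 * A + 2 * Err := by
    rw [hA, hErr, ← integral_const_mul, ← integral_const_mul, ← integral_add]
    · refine integral_mono (cint _ (hΨc.norm.pow 2)) (cint _ ?_) fun U => ?_
      · exact (continuous_const.mul (hΦc.norm.pow 2)).add
          (continuous_const.mul ((hΦc.sub hΨc).norm.pow 2))
      · have h1 := hsq (Ψ U) (Φ U)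
        rw [norm_sub_rev (Ψ U) (Φ U)] at h1
        exact h1
    · exact cint _ (continuous_const.mul (hΦc.norm.pow 2))
    · exact cint _ (continuous_const.mul ((hΦc.sub hΨc).norm.pow 2))
  obtain ⟨χ, hχ⟩ : ∃ χ : (E → G) → ℝ, χ = fun U => S.indicator (fun _ => (1 : ℝ)) (p U) :=
    ⟨_, rfl⟩
  have hχ0 : ∀ U, 0 ≤ χ U := by
    intro U; rw [hχ]; exact Set.indicator_nonneg (fun _ _ => zero_le_one) _
  have hχ1 : ∀ U, χ U ≤ 1 := by
    intro U; rw [hχ]; exact Set.indicator_le_self' (fun _ _ => zero_le_one) _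
  have hχm : Measurable χ := by
    rw [hχ]; exact (measurable_const.indicator hS).comp hpc.measurable
  have hχi : ∀ f : (E → G) → ℝ, Continuous f →
      Integrable (fun U => χ U * f U) (Measure.pi fun _ : E => μ) := by
    intro f hf
    refine Integrable.mono' (cint _ hf.norm) (hχm.mul hf.measurable).aestronglyMeasurable
      (Eventually.of_forall fun U => ?_)
    rw [norm_mul, Real.norm_of_nonneg (hχ0 _)]
    exact mul_le_of_le_one_left (norm_nonneg _) (hχ1 _)
  have hgoal : ∫ U, S.indicator (fun _ => (1 : ℝ)) (p U) * ‖Φ U‖ ^ 2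
      ∂(Measure.pi fun _ : E => μ) = ∫ U, χ U * ‖Φ U‖ ^ 2 ∂(Measure.pi fun _ : E => μ) := by
    rw [hχ]
  have hgoal2 : ∫ U, S.indicator (fun _ => (1 : ℝ)) (p U) * ‖Ψ U‖ ^ 2
      ∂(Measure.pi fun _ : E => μ) = ∫ U, χ U * ‖Ψ U‖ ^ 2 ∂(Measure.pi fun _ : E => μ) := by
    rw [hχ]
  rw [hgoal]
  rw [hgoal2] at hmain
  have h1 : ∫ U, χ U * ‖Φ U‖ ^ 2 ∂(Measure.pi fun _ : E => μ) ≤
      2 * ∫ U, χ U * ‖Ψ U‖ ^ 2 ∂(Measure.pi fun _ : E => μ) + 2 * Err := by
    rw [hErr, ← integral_const_mul, ← integral_const_mul, ← integral_add]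
    · refine integral_mono (hχi _ (hΦc.norm.pow 2)) ?_ fun U => ?_
      · exact ((hχi _ (hΨc.norm.pow 2)).const_mul 2).add
          (cint _ (continuous_const.mul ((hΦc.sub hΨc).norm.pow 2)))
      · dsimp only
        have h2 := mul_le_mul_of_nonneg_left (hsq (Φ U) (Ψ U)) (hχ0 U)
        have h3 : χ U * (2 * ‖Φ U - Ψ U‖ ^ 2) ≤ 1 * (2 * ‖Φ U - Ψ U‖ ^ 2) :=
          mul_le_mul_of_nonneg_right (hχ1 U) (by positivity)
        linarith
    · exact (hχi _ (hΨc.norm.pow 2)).const_mul 2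
    · exact cint _ (continuous_const.mul ((hΦc.sub hΨc).norm.pow 2))
  have h4 : ∫ U, χ U * ‖Ψ U‖ ^ 2 ∂(Measure.pi fun _ : E => μ) ≤
      cw ^ 4 * D * s * (2 * A + 2 * Err) :=
    hmain.trans (mul_le_mul_of_nonneg_left hΨA (by positivity))
  have h5 : ∫ U, χ U * ‖Φ U‖ ^ 2 ∂(Measure.pi fun _ : E => μ) ≤
      4 * cw ^ 4 * (D * s * A) + (4 * cw ^ 4 * (D * s) + 2) * Err := by
    refine h1.trans ?_
    linarith [h4]
  refine h5.trans ?_
  have h6 : (4 * cw ^ 4 * (D * s) + 2) * Err ≤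
      (4 * cw ^ 4 * (D * s) + 2) * (c1 ^ 2 * t ^ 2 * B) :=
    mul_le_mul_of_nonneg_left hErrB (by positivity)
  have h7 : 4 * cw ^ 4 * (D * s * A) ≤ (4 * cw ^ 4 + 2) * (1 + c1 ^ 2) * (D * s * A) := by
    apply mul_le_mul_of_nonneg_right _ (by positivity)
    have : 0 < cw ^ 4 := by positivity
    have h8 : 0 ≤ c1 ^ 2 := by positivity
    nlinarith
  have h8 : (4 * cw ^ 4 * (D * s) + 2) * (c1 ^ 2 * t ^ 2 * B) ≤
      (4 * cw ^ 4 + 2) * (1 + c1 ^ 2) * ((1 + D * s) * t ^ 2 * B) := by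
    have h9 : 4 * cw ^ 4 * (D * s) + 2 ≤ (4 * cw ^ 4 + 2) * (1 + D * s) := by
      have : 0 < cw ^ 4 := by positivity
      have hDs : 0 ≤ D * s := by positivity
      nlinarith
    have h10 : c1 ^ 2 * t ^ 2 * B ≤ (1 + c1 ^ 2) * (t ^ 2 * B) := by
      have h11 : 0 ≤ t ^ 2 * B := by positivity
      nlinarith
    calc (4 * cw ^ 4 * (D * s) + 2) * (c1 ^ 2 * t ^ 2 * B)
        ≤ ((4 * cw ^ 4 + 2) * (1 + D * s)) * ((1 + c1 ^ 2) * (t ^ 2 * B)) :=
          mul_le_mul h9 h10 (by positivity) (by positivity)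
      _ = _ := by ring
  calc 4 * cw ^ 4 * (D * s * A) + (4 * cw ^ 4 * (D * s) + 2) * Err
      ≤ (4 * cw ^ 4 + 2) * (1 + c1 ^ 2) * (D * s * A) +
        (4 * cw ^ 4 + 2) * (1 + c1 ^ 2) * ((1 + D * s) * t ^ 2 * B) := by linarith
    _ = _ := by ring

end Pool.Agent.H189.WA
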