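import Mathlib
import Pool.Agent.H189.WA.Stm

/-!
# Sublevel sets of solutions of linear differential equations
-/

open MeasureTheory Matrix Filter
open scoped ContDiff ComplexConjugate

namespace Pool.Agent.H189.WA

namespace ODE

/-- A function whose derivative is at least `c` has slopes at least `c`. -/
theorem slope {g : ℝ → ℝ} (hg : Differentiable ℝ g) {I : Set ℝ} (hI : I.OrdConnected) {c : ℝ}
    (h : ∀ t ∈ I, c ≤ deriv g t) {x y : ℝ} (hx : x ∈ I) (hy : y ∈ I) (hxy : x ≤ y) :
    c * (y - x) ≤ g y - g x :=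
  hI.convex.mul_sub_le_image_sub_of_le_deriv hg.continuous.continuousOn hg.differentiableOn
    (fun x hx => h x (interior_subset hx)) x hx y hy hxy

/-- Iterated derivatives of smooth functions are differentiable. -/
theorem diff_iter {φ : ℝ → ℝ} (hφ : ContDiff ℝ ∞ φ) (k : ℕ) :
    Differentiable ℝ (iteratedDeriv k φ) :=
  hφ.differentiable_iteratedDeriv k (by exact_mod_cast WithTop.coe_lt_top _)

/-- The classical sublevel lemma. -/
theorem sublevel (k : ℕ) : ∀ (φ : ℝ → ℝ), ContDiff ℝ ∞ φ → ∀ (I : Set ℝ), I.OrdConnected →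
    ∀ (c d : ℝ), 0 < c → 0 < d → (∀ t ∈ I, c ≤ iteratedDeriv k φ t) →
    volume {t | t ∈ I ∧ |φ t| < d ^ k * c} ≤ ENNReal.ofReal ((2 ^ (k + 1) - 2) * d) := by
  induction k with
  | zero =>
    intro φ hφ I hI c d hc hd h
    have : {t | t ∈ I ∧ |φ t| < d ^ 0 * c} = ∅ := by
      ext t
      simp only [pow_zero, one_mul, Set.mem_ofPred_eq, Set.mem_empty_iff_false, iff_false,
        not_and, not_lt]
      intro ht
      have := h t ht
      simp only [iteratedDeriv_zero] at this
      exact this.trans (le_abs_self _)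
    rw [this]
    simp
  | succ k ih =>
    intro φ hφ I hI c d hc hd h
    set g := iteratedDeriv k φ with hg
    have hgd : Differentiable ℝ g := diff_iter hφ k
    have hder : ∀ t ∈ I, c ≤ deriv g t := by
      intro t ht
      have := h t ht
      rwa [iteratedDeriv_succ] at this
    have hsl : ∀ x ∈ I, ∀ y ∈ I, x ≤ y → c * (y - x) ≤ g y - g x :=
      fun x hx y hy hxy => slope hgd hI hder hx hy hxy
    have hmono : ∀ x ∈ I, ∀ y ∈ I, x ≤ y → g x ≤ g y := by
      intro x hx y hy hxy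
      have h1 := hsl x hx y hy hxy
      have h2 : 0 ≤ c * (y - x) := mul_nonneg hc.le (by linarith)
      linarith
    have h1 : (I ∩ {t | d * c ≤ g t}).OrdConnected := by
      constructor
      intro x hx y hy z hz
      have hzI : z ∈ I := hI.out hx.1 hy.1 hz
      exact ⟨hzI, le_trans hx.2 (hmono x hx.1 z hzI hz.1)⟩
    have h2 : (I ∩ {t | g t ≤ -(d * c)}).OrdConnected := by
      constructor
      intro x hx y hy z hz
      have hzI : z ∈ I := hI.out hx.1 hy.1 hz
      exact ⟨hzI, le_trans (hmono z hzI y hy.1 hz.2) hy.2⟩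
    have b1 := ih φ hφ _ h1 (d * c) d (by positivity) hd (fun t ht => ht.2)
    have b2 := ih (fun t => -φ t) hφ.neg _ h2 (d * c) d (by positivity) hd (fun t ht => by
      have e : iteratedDeriv k (fun t => -φ t) t = -iteratedDeriv k φ t :=
        iteratedDeriv_fun_neg k φ t
      rw [e]
      have := ht.2
      simp only [Set.mem_ofPred_eq, hg] at this
      linarith)
    have b3 : volume (I ∩ {t | |g t| < d * c}) ≤ ENNReal.ofReal (2 * d) := by
      refine (Real.volume_le_diam _).trans ?_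
      refine Metric.ediam_le ?_
      intro x hx y hy
      rw [edist_dist]
      refine ENNReal.ofReal_le_ofReal ?_
      have key : ∀ x ∈ I ∩ {t | |g t| < d * c}, ∀ y ∈ I ∩ {t | |g t| < d * c}, x ≤ y →
          y - x ≤ 2 * d := by
        intro x hx y hy hxy
        have e1 := hsl x hx.1 y hy.1 hxy
        have e2 : -(d * c) < g x ∧ g x < d * c := abs_lt.1 hx.2
        have e3 : -(d * c) < g y ∧ g y < d * c := abs_lt.1 hy.2
        have e4 : c * (y - x) ≤ c * (2 * d) := by nlinarith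
        exact le_of_mul_le_mul_left e4 hc
      rw [Real.dist_eq]
      rcases le_total x y with hxy | hxy
      · rw [abs_sub_comm, abs_of_nonneg (by linarith)]
        exact key x hx y hy hxy
      · rw [abs_of_nonneg (by linarith)]
        exact key y hy x hx hxy
    have hsub : {t | t ∈ I ∧ |φ t| < d ^ (k + 1) * c} ⊆
        {t | t ∈ I ∩ {t | d * c ≤ g t} ∧ |φ t| < d ^ k * (d * c)} ∪
        {t | t ∈ I ∩ {t | g t ≤ -(d * c)} ∧ |(fun t => -φ t) t| < d ^ k * (d * c)} ∪
        (I ∩ {t | |g t| < d * c}) := by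
      intro t ht
      have e : d ^ (k + 1) * c = d ^ k * (d * c) := by ring
      obtain ⟨htI, ht2⟩ := ht
      rw [e] at ht2
      by_cases c1 : d * c ≤ g t
      · exact Or.inl (Or.inl ⟨⟨htI, c1⟩, ht2⟩)
      by_cases c2 : g t ≤ -(d * c)
      · exact Or.inl (Or.inr ⟨⟨htI, c2⟩, by simpa using ht2⟩)
      · exact Or.inr ⟨htI, abs_lt.2 ⟨not_le.1 c2, not_le.1 c1⟩⟩
    have hp : (0 : ℝ) ≤ 2 ^ (k + 1) - 2 := by
      have : (1 : ℝ) ≤ 2 ^ k := one_le_pow₀ (by norm_num)
      rw [pow_succ]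
      linarith
    calc volume {t | t ∈ I ∧ |φ t| < d ^ (k + 1) * c}
        ≤ _ := measure_mono hsub
      _ ≤ ENNReal.ofReal ((2 ^ (k + 1) - 2) * d) + ENNReal.ofReal ((2 ^ (k + 1) - 2) * d) +
          ENNReal.ofReal (2 * d) :=
          (measure_union_le _ _).trans (add_le_add ((measure_union_le _ _).trans
            (add_le_add b1 b2)) b3)
      _ = ENNReal.ofReal ((2 ^ (k + 1 + 1) - 2) * d) := by
          rw [← ENNReal.ofReal_add (by positivity) (by positivity),
            ← ENNReal.ofReal_add (by positivity) (by positivity)]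
          congr 1
          ring

/-- The derivative of an iterated derivative. -/
theorem hda {φ : ℝ → ℝ} (hφ : ContDiff ℝ ∞ φ) (j : ℕ) (t : ℝ) :
    HasDerivAt (iteratedDeriv j φ) (iteratedDeriv (j + 1) φ t) t := by
  have := (diff_iter hφ j t).hasDerivAt
  rwa [← iteratedDeriv_succ] at this

/-- The energy. -/
noncomputable def En (q : ℕ) (φ : ℝ → ℝ) (t : ℝ) : ℝ :=
  ∑ j ∈ Finset.range q, iteratedDeriv j φ t ^ 2

theorem En_nonneg (q : ℕ) (φ : ℝ → ℝ) (t : ℝ) : 0 ≤ En q φ t :=
  Finset.sum_nonneg fun _ _ => sq_nonneg _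

/-- The constant. -/
noncomputable def KK {q : ℕ} (c : Fin q → ℝ) : ℝ := 2 + ∑ j, c j ^ 2

theorem KK_ge {q : ℕ} (c : Fin q → ℝ) : 2 ≤ KK c := by
  have : 0 ≤ ∑ j, c j ^ 2 := Finset.sum_nonneg fun _ _ => sq_nonneg _
  unfold KK
  linarith

theorem top_le {q : ℕ} (c : Fin q → ℝ) {φ : ℝ → ℝ}
    (h : ∀ t, iteratedDeriv q φ t = ∑ j : Fin q, c j * iteratedDeriv j φ t) (t : ℝ) :
    iteratedDeriv q φ t ^ 2 ≤ (∑ j, c j ^ 2) * En q φ t := by
  rw [h t, En, Finset.sum_range]
  exact Finset.sum_mul_sq_le_sq_mul_sq _ _ _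

theorem all_le {q : ℕ} (c : Fin q → ℝ) {φ : ℝ → ℝ}
    (h : ∀ t, iteratedDeriv q φ t = ∑ j : Fin q, c j * iteratedDeriv j φ t) (t : ℝ) (j : ℕ)
    (hj : j ≤ q) : iteratedDeriv j φ t ^ 2 ≤ KK c * En q φ t := by
  have hE := En_nonneg q φ t
  have hc : 0 ≤ ∑ j, c j ^ 2 := Finset.sum_nonneg fun _ _ => sq_nonneg _
  rcases hj.lt_or_eq with hj | rfl
  · have h1 : iteratedDeriv j φ t ^ 2 ≤ En q φ t :=
      Finset.single_le_sum (f := fun j => iteratedDeriv j φ t ^ 2) (fun _ _ => sq_nonneg _)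
        (Finset.mem_range.2 hj)
    have h2 : En q φ t ≤ KK c * En q φ t := le_mul_of_one_le_left hE (by have := KK_ge c; linarith)
    exact h1.trans h2
  · refine (top_le c h t).trans ?_
    refine mul_le_mul_of_nonneg_right ?_ hE
    unfold KK
    linarith

theorem En_deriv {q : ℕ} {φ : ℝ → ℝ} (hφ : ContDiff ℝ ∞ φ) (t : ℝ) :
    HasDerivAt (En q φ) (∑ j ∈ Finset.range q,
      2 * (iteratedDeriv j φ t * iteratedDeriv (j + 1) φ t)) t := by
  have : En q φ = fun t => ∑ j ∈ Finset.range q, iteratedDeriv j φ t ^ 2 := rfl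
  rw [this]
  refine HasDerivAt.fun_sum fun j _ => ?_
  have := (hda hφ j t).fun_pow 2
  refine this.congr_deriv ?_
  simp
  ring

theorem En_deriv_le {q : ℕ} (c : Fin q → ℝ) {φ : ℝ → ℝ}
    (h : ∀ t, iteratedDeriv q φ t = ∑ j : Fin q, c j * iteratedDeriv j φ t) (t : ℝ) :
    |∑ j ∈ Finset.range q, 2 * (iteratedDeriv j φ t * iteratedDeriv (j + 1) φ t)| ≤
      KK c * En q φ t := by
  have h1 : |∑ j ∈ Finset.range q, 2 * (iteratedDeriv j φ t * iteratedDeriv (j + 1) φ t)| ≤
      ∑ j ∈ Finset.range q, (iteratedDeriv j φ t ^ 2 + iteratedDeriv (j + 1) φ t ^ 2) := by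
    refine (Finset.abs_sum_le_sum_abs _ _).trans (Finset.sum_le_sum fun j _ => ?_)
    rw [abs_le]
    constructor
    · nlinarith [sq_nonneg (iteratedDeriv j φ t + iteratedDeriv (j + 1) φ t)]
    · nlinarith [sq_nonneg (iteratedDeriv j φ t - iteratedDeriv (j + 1) φ t)]
  have h2 : ∑ j ∈ Finset.range q, iteratedDeriv (j + 1) φ t ^ 2 ≤
      En q φ t + iteratedDeriv q φ t ^ 2 := by
    have e1 := Finset.sum_range_succ' (fun j => iteratedDeriv j φ t ^ 2) q
    have e2 := Finset.sum_range_succ (fun j => iteratedDeriv j φ t ^ 2) q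
    have e3 : 0 ≤ iteratedDeriv 0 φ t ^ 2 := sq_nonneg _
    unfold En
    linarith
  rw [Finset.sum_add_distrib] at h1
  have h3 := top_le c h t
  have h4 : KK c * En q φ t = 2 * En q φ t + (∑ j, c j ^ 2) * En q φ t := by
    unfold KK
    ring
  have h5 : ∑ j ∈ Finset.range q, iteratedDeriv j φ t ^ 2 = En q φ t := rfl
  linarith

theorem En_growth {q : ℕ} (c : Fin q → ℝ) {φ : ℝ → ℝ} (hφ : ContDiff ℝ ∞ φ)
    (h : ∀ t, iteratedDeriv q φ t = ∑ j : Fin q, c j * iteratedDeriv j φ t) (t t' : ℝ) :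
    En q φ t' ≤ Real.exp (KK c * |t - t'|) * En q φ t := by
  have hd : ∀ (K : ℝ) (t : ℝ), HasDerivAt (fun t => En q φ t * Real.exp (K * t))
      ((∑ j ∈ Finset.range q, 2 * (iteratedDeriv j φ t * iteratedDeriv (j + 1) φ t)) *
        Real.exp (K * t) + En q φ t * (Real.exp (K * t) * K)) t := by
    intro K t
    have h1 := En_deriv (q := q) hφ t
    have h2 : HasDerivAt (fun t => Real.exp (K * t)) (Real.exp (K * t) * K) t := by
      have h3 : HasDerivAt (fun t : ℝ => K * t) K t := by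
        simpa using (hasDerivAt_id t).const_mul K
      exact h3.exp
    exact h1.mul h2
  have hm : Monotone (fun t => En q φ t * Real.exp (KK c * t)) := by
    refine monotone_of_deriv_nonneg (fun t => (hd (KK c) t).differentiableAt) fun t => ?_
    rw [(hd (KK c) t).deriv]
    have h1 := (abs_le.1 (En_deriv_le c h t)).1
    have h2 : 0 < Real.exp (KK c * t) := Real.exp_pos _
    have h3 : 0 ≤ (∑ j ∈ Finset.range q,
      2 * (iteratedDeriv j φ t * iteratedDeriv (j + 1) φ t)) + KK c * En q φ t := by linarith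
    nlinarith [mul_nonneg h3 h2.le]
  have ha : Antitone (fun t => En q φ t * Real.exp (-KK c * t)) := by
    refine antitone_of_deriv_nonpos (fun t => (hd (-KK c) t).differentiableAt) fun t => ?_
    rw [(hd (-KK c) t).deriv]
    have h1 := (abs_le.1 (En_deriv_le c h t)).2
    have h2 : 0 < Real.exp (-KK c * t) := Real.exp_pos _
    have h3 : 0 ≤ KK c * En q φ t - (∑ j ∈ Finset.range q,
      2 * (iteratedDeriv j φ t * iteratedDeriv (j + 1) φ t)) := by linarith
    nlinarith [mul_nonneg h3 h2.le]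
  rcases le_total t t' with htt | htt
  · have h1 := ha htt
    simp only at h1
    have e : Real.exp (KK c * |t - t'|) = Real.exp (-KK c * t) * Real.exp (KK c * t') := by
      rw [← Real.exp_add, abs_sub_comm, abs_of_nonneg (by linarith)]
      congr 1
      ring
    have e2 : Real.exp (-KK c * t') * Real.exp (KK c * t') = 1 := by
      rw [← Real.exp_add]
      simp
    calc En q φ t' = (En q φ t' * Real.exp (-KK c * t')) * Real.exp (KK c * t') := by
          rw [mul_assoc, e2, mul_one]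
      _ ≤ (En q φ t * Real.exp (-KK c * t)) * Real.exp (KK c * t') :=
          mul_le_mul_of_nonneg_right h1 (Real.exp_pos _).le
      _ = _ := by
          rw [e]
          ring
  · have h1 := hm htt
    simp only at h1
    have e : Real.exp (KK c * |t - t'|) = Real.exp (KK c * t) * Real.exp (-KK c * t') := by
      rw [← Real.exp_add, abs_of_nonneg (by linarith)]
      congr 1
      ring
    have e2 : Real.exp (KK c * t') * Real.exp (-KK c * t') = 1 := by
      rw [← Real.exp_add]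
      simp
    calc En q φ t' = (En q φ t' * Real.exp (KK c * t')) * Real.exp (-KK c * t') := by
          rw [mul_assoc, e2, mul_one]
      _ ≤ (En q φ t * Real.exp (KK c * t)) * Real.exp (-KK c * t') :=
          mul_le_mul_of_nonneg_right h1 (Real.exp_pos _).le
      _ = _ := by
          rw [e]
          ring

/-- The local constants. -/
noncomputable def BB {q : ℕ} (c : Fin q → ℝ) : ℝ := KK c * Real.exp (KK c) * q

noncomputable def d0 {q : ℕ} (c : Fin q → ℝ) : ℝ := 1 / (2 * BB c)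

noncomputable def kap {q : ℕ} (c : Fin q → ℝ) : ℝ := Real.exp (-(KK c * 3)) / (2 * q)

noncomputable def AA {q : ℕ} (c : Fin q → ℝ) : ℝ := 2 / kap c

theorem BB_ge {q : ℕ} (hq : 0 < q) (c : Fin q → ℝ) : 2 ≤ BB c := by
  have h1 := KK_ge c
  have h2 : 1 ≤ Real.exp (KK c) := Real.one_le_exp (by linarith)
  have h3 : (1 : ℝ) ≤ q := by exact_mod_cast hq
  unfold BB
  have h4 : 2 ≤ KK c * Real.exp (KK c) := by nlinarith
  nlinarith

/-- The sublevel set near a point. -/
theorem loc {q : ℕ} (hq : 0 < q) (c : Fin q → ℝ) {φ : ℝ → ℝ} (hφ : ContDiff ℝ ∞ φ)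
    (h : ∀ t, iteratedDeriv q φ t = ∑ j : Fin q, c j * iteratedDeriv j φ t) {M r t0 t1 : ℝ}
    (hM : 0 < M) (hr : 0 < r) (hAr : AA c * r ≤ 1) (ht0 : M ≤ |φ t0|) (ht1 : |t1 - t0| ≤ 3) :
    volume {t | t ∈ Set.Icc t1 (t1 + d0 c) ∧ |φ t| ≤ r ^ q * M} ≤
      ENNReal.ofReal (2 ^ (q + 1) * (AA c * r)) := by
  have hK := KK_ge c
  have hB := BB_ge hq c
  have hq' : (1 : ℝ) ≤ q := by exact_mod_cast hq
  have hd0 : 0 < d0 c := by
    unfold d0
    positivity
  have hd01 : d0 c ≤ 1 := by
    unfold d0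
    rw [div_le_one (by linarith)]
    linarith
  have hkap : 0 < kap c := by
    unfold kap
    positivity
  have hkap1 : kap c ≤ 1 := by
    unfold kap
    rw [div_le_one (by linarith)]
    have : Real.exp (-(KK c * 3)) ≤ 1 := Real.exp_le_one_iff.2 (by linarith)
    linarith
  have hA : 0 < AA c := by
    unfold AA
    positivity
  have hA1 : 1 ≤ AA c := by
    unfold AA
    rw [le_div_iff₀ hkap]
    linarith
  -- the energy at `t1`
  have hE0 : M ^ 2 ≤ En q φ t0 := by
    have h1 : iteratedDeriv 0 φ t0 ^ 2 ≤ En q φ t0 :=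
      Finset.single_le_sum (f := fun j => iteratedDeriv j φ t0 ^ 2) (fun _ _ => sq_nonneg _)
        (Finset.mem_range.2 hq)
    rw [iteratedDeriv_zero, ← sq_abs] at h1
    exact (pow_le_pow_left₀ hM.le ht0 2).trans h1
  have hE1 : Real.exp (-(KK c * 3)) * M ^ 2 ≤ En q φ t1 := by
    have h1 := En_growth c hφ h t1 t0
    have h2 : Real.exp (KK c * |t1 - t0|) ≤ Real.exp (KK c * 3) :=
      Real.exp_le_exp.2 (mul_le_mul_of_nonneg_left ht1 (by linarith))
    have h3 : M ^ 2 ≤ Real.exp (KK c * 3) * En q φ t1 :=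
      (hE0.trans h1).trans (mul_le_mul_of_nonneg_right h2 (En_nonneg _ _ _))
    calc Real.exp (-(KK c * 3)) * M ^ 2
        ≤ Real.exp (-(KK c * 3)) * (Real.exp (KK c * 3) * En q φ t1) :=
          mul_le_mul_of_nonneg_left h3 (Real.exp_pos _).le
      _ = En q φ t1 := by
          rw [← mul_assoc, ← Real.exp_add]
          simp
  -- the large derivative
  obtain ⟨j, hj, hj2⟩ : ∃ j ∈ Finset.range q, En q φ t1 / q ≤ iteratedDeriv j φ t1 ^ 2 := by
    refine Finset.exists_le_of_sum_le (Finset.nonempty_range_iff.2 hq.ne') ?_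
    rw [Finset.sum_const, Finset.card_range, nsmul_eq_mul, mul_div_cancel₀ _ (by positivity)]
    exact le_rfl
  have hjq := Finset.mem_range.1 hj
  set m := |iteratedDeriv j φ t1| with hm
  have hmE : En q φ t1 ≤ q * m ^ 2 := by
    rw [div_le_iff₀ (by linarith)] at hj2
    rw [hm, sq_abs]
    linarith
  have hm0 : 0 ≤ m := abs_nonneg _
  have hmk : 2 * (kap c * M) ≤ m := by
    refine (pow_le_pow_iff_left₀ (by positivity) hm0 (by norm_num : (2 : ℕ) ≠ 0)).1 ?_
    have h1 : Real.exp (-(KK c * 3)) / q * M ^ 2 ≤ m ^ 2 := by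
      rw [div_mul_eq_mul_div, div_le_iff₀ (by linarith)]
      linarith
    have h2 : 2 * kap c = Real.exp (-(KK c * 3)) / q := by
      unfold kap
      field_simp
    have h3 : (2 * kap c) ^ 2 ≤ 2 * kap c := by
      have h4 : 2 * kap c ≤ 1 := by
        rw [h2, div_le_one (by linarith)]
        have : Real.exp (-(KK c * 3)) ≤ 1 := Real.exp_le_one_iff.2 (by linarith)
        linarith
      nlinarith
    calc (2 * (kap c * M)) ^ 2 = (2 * kap c) ^ 2 * M ^ 2 := by ring
      _ ≤ 2 * kap c * M ^ 2 := mul_le_mul_of_nonneg_right h3 (sq_nonneg _)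
      _ ≤ m ^ 2 := by rw [h2]; exact h1
  -- the variation of the derivative
  have hvar : ∀ t ∈ Set.Icc t1 (t1 + d0 c),
      |iteratedDeriv j φ t - iteratedDeriv j φ t1| ≤ m / 2 := by
    intro t ht
    have hb : ∀ u ∈ Set.Icc t1 (t1 + d0 c), ‖deriv (iteratedDeriv j φ) u‖ ≤ BB c * m := by
      intro u hu
      rw [(hda hφ j u).deriv, Real.norm_eq_abs]
      refine abs_le_of_sq_le_sq ?_ (by positivity)
      have h1 := all_le c h u (j + 1) hjq
      have h2 := En_growth c hφ h t1 u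
      have h3 : Real.exp (KK c * |t1 - u|) ≤ Real.exp (KK c) := by
        refine Real.exp_le_exp.2 ?_
        have : |t1 - u| ≤ 1 := by
          rw [abs_le]
          constructor <;> linarith [hu.1, hu.2]
        nlinarith
      calc iteratedDeriv (j + 1) φ u ^ 2 ≤ KK c * En q φ u := h1
        _ ≤ KK c * (Real.exp (KK c) * (q * m ^ 2)) := by
            refine mul_le_mul_of_nonneg_left ?_ (by linarith)
            refine h2.trans ?_
            exact mul_le_mul h3 hmE (En_nonneg _ _ _) (Real.exp_pos _).le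
        _ = BB c * m ^ 2 := by
            unfold BB
            ring
        _ ≤ (BB c * m) ^ 2 := by
            rw [mul_pow]
            refine mul_le_mul_of_nonneg_right ?_ (sq_nonneg _)
            nlinarith
    have h1 := Convex.norm_image_sub_le_of_norm_deriv_le (fun x _ => diff_iter hφ j x) hb
      (convex_Icc _ _) (Set.left_mem_Icc.2 (by linarith)) ht
    rw [Real.norm_eq_abs, Real.norm_eq_abs] at h1
    refine h1.trans ?_
    have h2 : |t - t1| ≤ d0 c := by
      rw [abs_le]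
      constructor <;> linarith [ht.1, ht.2]
    calc BB c * m * |t - t1| ≤ BB c * m * d0 c := mul_le_mul_of_nonneg_left h2 (by positivity)
      _ = m / 2 := by
          unfold d0
          field_simp
  have hset : ∀ t, |φ t| ≤ r ^ q * M → |φ t| < (AA c * r) ^ j * (kap c * M) := by
    intro t ht
    refine ht.trans_lt ?_
    have h1 : (AA c * r) ^ q ≤ (AA c * r) ^ j :=
      pow_le_pow_of_le_one (by positivity) hAr hjq.le
    have h2 : AA c ≤ AA c ^ q := by
      simpa using pow_le_pow_right₀ hA1 hq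
    have h3 : AA c * kap c = 2 := by
      unfold AA
      field_simp
    calc r ^ q * M < 2 * (r ^ q * M) := by
          have : 0 < r ^ q * M := by positivity
          linarith
      _ = AA c * r ^ q * (kap c * M) := by
          rw [← h3]
          ring
      _ ≤ AA c ^ q * r ^ q * (kap c * M) := by
          refine mul_le_mul_of_nonneg_right ?_ (by positivity)
          exact mul_le_mul_of_nonneg_right h2 (by positivity)
      _ = (AA c * r) ^ q * (kap c * M) := by rw [mul_pow]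
      _ ≤ _ := mul_le_mul_of_nonneg_right h1 (by positivity)
  have hfin : ENNReal.ofReal ((2 ^ (j + 1) - 2) * (AA c * r)) ≤
      ENNReal.ofReal (2 ^ (q + 1) * (AA c * r)) := by
    refine ENNReal.ofReal_le_ofReal (mul_le_mul_of_nonneg_right ?_ (by positivity))
    have : (2 : ℝ) ^ (j + 1) ≤ 2 ^ (q + 1) := pow_le_pow_right₀ (by norm_num) (by omega)
    linarith
  rcases le_total 0 (iteratedDeriv j φ t1) with hs | hs
  · have hm' : m = iteratedDeriv j φ t1 := abs_of_nonneg hs
    refine le_trans (measure_mono ?_) ((sublevel j φ hφ (Set.Icc t1 (t1 + d0 c))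
      Set.ordConnected_Icc (kap c * M) (AA c * r) (by positivity) (by positivity) ?_).trans hfin)
    · exact fun t ht => ⟨ht.1, hset t ht.2⟩
    · intro t ht
      have := (abs_le.1 (hvar t ht)).1
      linarith
  · have hm' : m = -iteratedDeriv j φ t1 := abs_of_nonpos hs
    refine le_trans (measure_mono ?_) ((sublevel j (fun t => -φ t) hφ.neg
      (Set.Icc t1 (t1 + d0 c))
      Set.ordConnected_Icc (kap c * M) (AA c * r) (by positivity) (by positivity) ?_).trans hfin)
    · exact fun t ht => ⟨ht.1, by simpa using hset t ht.2⟩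
    · intro t ht
      have e : iteratedDeriv j (fun t => -φ t) t = -iteratedDeriv j φ t :=
        iteratedDeriv_fun_neg j φ t
      rw [e]
      have := (abs_le.1 (hvar t ht)).2
      linarith

/-- The number of intervals. -/
noncomputable def NN {q : ℕ} (c : Fin q → ℝ) : ℕ := ⌈2 / d0 c⌉₊

theorem glob {q : ℕ} (hq : 0 < q) (c : Fin q → ℝ) {φ : ℝ → ℝ} (hφ : ContDiff ℝ ∞ φ)
    (h : ∀ t, iteratedDeriv q φ t = ∑ j : Fin q, c j * iteratedDeriv j φ t) {M r t0 : ℝ}
    (hM : 0 < M) (hr : 0 < r) (hAr : AA c * r ≤ 1) (ht0 : M ≤ |φ t0|)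
    (ht0I : t0 ∈ Set.Icc (-1 : ℝ) 1) :
    volume {t | t ∈ Set.Icc (-1 : ℝ) 1 ∧ |φ t| ≤ r ^ q * M} ≤
      (NN c + 1 : ℕ) * ENNReal.ofReal (2 ^ (q + 1) * (AA c * r)) := by
  have hB := BB_ge hq c
  have hd0 : 0 < d0 c := by
    unfold d0
    positivity
  have hd01 : d0 c ≤ 1 := by
    unfold d0
    rw [div_le_one (by linarith)]
    linarith
  have hsub : {t | t ∈ Set.Icc (-1 : ℝ) 1 ∧ |φ t| ≤ r ^ q * M} ⊆
      ⋃ i ∈ Finset.range (NN c + 1), {t | t ∈ Set.Icc (-1 + i * d0 c) (-1 + i * d0 c + d0 c) ∧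
        |φ t| ≤ r ^ q * M} := by
    intro t ht
    obtain ⟨⟨ht1, ht2⟩, ht3⟩ := ht
    have hx : 0 ≤ (t + 1) / d0 c := div_nonneg (by linarith) hd0.le
    have h1 : (⌊(t + 1) / d0 c⌋₊ : ℝ) ≤ (t + 1) / d0 c := Nat.floor_le hx
    have h2 : (t + 1) / d0 c < ⌊(t + 1) / d0 c⌋₊ + 1 := Nat.lt_floor_add_one _
    rw [le_div_iff₀ hd0] at h1
    rw [div_lt_iff₀ hd0] at h2
    simp only [Set.mem_iUnion]
    refine ⟨⌊(t + 1) / d0 c⌋₊, ?_, ⟨?_, ?_⟩, ht3⟩
    · rw [Finset.mem_range, Nat.lt_succ_iff]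
      refine (Nat.floor_le_ceil _).trans (Nat.ceil_mono ?_)
      exact div_le_div_of_nonneg_right (by linarith) hd0.le
    · linarith
    · linarith
  refine (measure_mono hsub).trans ((measure_biUnion_finset_le _ _).trans ?_)
  refine (Finset.sum_le_card_nsmul _ _ (ENNReal.ofReal (2 ^ (q + 1) * (AA c * r)))
    fun i hi => ?_).trans ?_
  · refine loc hq c hφ h hM hr hAr ht0 ?_
    have hi' : i ≤ NN c := Nat.lt_succ_iff.1 (Finset.mem_range.1 hi)
    have h1 : (i : ℝ) ≤ 2 / d0 c + 1 := by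
      have h2 : (i : ℝ) ≤ NN c := by exact_mod_cast hi'
      have h3 : (NN c : ℝ) < 2 / d0 c + 1 := Nat.ceil_lt_add_one (by positivity)
      linarith
    have h4 : (i : ℝ) * d0 c ≤ 2 + d0 c := by
      calc (i : ℝ) * d0 c ≤ (2 / d0 c + 1) * d0 c := mul_le_mul_of_nonneg_right h1 hd0.le
        _ = 2 + d0 c := by field_simp
    have h5 : 0 ≤ (i : ℝ) * d0 c := by positivity
    rw [abs_le]
    constructor <;> linarith [ht0I.1, ht0I.2]
  · rw [Finset.card_range, nsmul_eq_mul]

end ODE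

/-- Sublevel sets of the solutions of a linear differential equation with constant
coefficients. -/
theorem t_ODE : S_ODE := by
  intro q c
  rcases Nat.eq_zero_or_pos q with rfl | hq
  · refine ⟨1, 1, one_pos, one_pos, fun φ hφ h M s hM hs hs1 hex => ?_⟩
    obtain ⟨t, -, ht⟩ := hex
    have := h t
    simp only [iteratedDeriv_zero, Finset.univ_eq_empty, Finset.sum_empty] at this
    rw [this, abs_zero] at ht
    exact absurd hM (not_lt.2 ht)
  have hkap : 0 < ODE.kap c := by
    unfold ODE.kap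
    have : (0 : ℝ) < q := by exact_mod_cast hq
    positivity
  have hA : 0 < ODE.AA c := by
    unfold ODE.AA
    positivity
  refine ⟨(ODE.NN c + 1 : ℕ) * (2 ^ (q + 1) * ODE.AA c) + 2 * ODE.AA c, (q : ℝ)⁻¹,
    by positivity, by positivity, fun φ hφ h M s hM hs hs1 hex => ?_⟩
  obtain ⟨t0, ht0I, ht0⟩ := hex
  set r : ℝ := s ^ (q : ℝ)⁻¹ with hr
  have hr0 : 0 < r := Real.rpow_pos_of_pos hs _
  have hrq : r ^ q = s := Real.rpow_inv_natCast_pow hs.le hq.ne'
  have hN : (0 : ℝ) ≤ (ODE.NN c + 1 : ℕ) * (2 ^ (q + 1) * ODE.AA c) := by positivity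
  rcases le_total (ODE.AA c * r) 1 with hAr | hAr
  · have h1 := ODE.glob hq c hφ h hM hr0 hAr ht0 ht0I
    rw [hrq] at h1
    have h2 : volume.real {t : ℝ | t ∈ Set.Icc (-1 : ℝ) 1 ∧ |φ t| ≤ s * M} ≤
        (ODE.NN c + 1 : ℕ) * (2 ^ (q + 1) * (ODE.AA c * r)) := by
      rw [Measure.real]
      have h3 : ((ODE.NN c + 1 : ℕ) : ENNReal) *
          ENNReal.ofReal (2 ^ (q + 1) * (ODE.AA c * r)) =
          ENNReal.ofReal ((ODE.NN c + 1 : ℕ) * (2 ^ (q + 1) * (ODE.AA c * r))) := by
        rw [ENNReal.ofReal_mul (p := ((ODE.NN c + 1 : ℕ) : ℝ)) (by positivity),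
          ENNReal.ofReal_natCast]
      rw [h3] at h1
      exact ENNReal.toReal_le_of_le_ofReal (by positivity) h1
    calc _ ≤ _ := h2
      _ = (ODE.NN c + 1 : ℕ) * (2 ^ (q + 1) * ODE.AA c) * r := by ring
      _ ≤ _ := mul_le_mul_of_nonneg_right (by linarith) hr0.le
  · have h2 : volume.real {t : ℝ | t ∈ Set.Icc (-1 : ℝ) 1 ∧ |φ t| ≤ s * M} ≤ 2 := by
      calc volume.real {t : ℝ | t ∈ Set.Icc (-1 : ℝ) 1 ∧ |φ t| ≤ s * M}
          ≤ volume.real (Set.Icc (-1 : ℝ) 1) :=
            measureReal_mono (fun t ht => ht.1) (by simp)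
        _ = 2 := by
            rw [Real.volume_real_Icc]
            norm_num
    calc _ ≤ _ := h2
      _ ≤ 2 * (ODE.AA c * r) := by linarith
      _ = 2 * ODE.AA c * r := by ring
      _ ≤ _ := mul_le_mul_of_nonneg_right (by linarith) hr0.le

end Pool.Agent.H189.WA
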