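import Mathlib
import Pool.Agent.H189.WA.Site

/-!
# Replacement of one source at a fixed cutoff
-/

open MeasureTheory Matrix
open scoped ComplexConjugate Matrix.Norms.Frobenius

namespace Pool.Agent.H189.WA

open Pool.Agent.H189.KS

set_option linter.unusedSectionVars false
set_option linter.unusedVariables false

noncomputable section

variable {N : ℕ} {G : Subgroup (UU N)} {D l M M' M'' n : ℕ} [NeZero l]
  [CompactSpace G] [SecondCountableTopology G] [MeasurableSpace G] [BorelSpace G]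
  (μ : Measure G) [IsProbabilityMeasure μ] [μ.IsHaarMeasure]

theorem fixedJ (hPOS : S_POS) (hG : IsClosed (G : Set (UU N))) {β : ℝ} (hβ : 0 < β)
    {w : (Link D l → G) → ℝ} (hw : Nice w) (hI : KI (ker β w)) {J : ℕ} (hJ : 1 ≤ J)
    {κ : G →* UU M} {κ' : G →* UU M'} {τ : G →* UU M''} {x y : Fin D → ZMod l}
    (A : Fin n → (Link D l → G) → Matrix (Fin M'') (Fin M) ℂ) (hA : ∀ k, Continuous (A k))
    (hcov : ∀ k γ U, A k (gt src tgt γ U) = (τ (γ x) : Mt M'') * A k U * (κ (γ x) : Mt M)ᴴ)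
    {C : ℝ} {a : ℕ} (hMB : ∀ k i j, MB μ β w C a (fun U => (A k U)ᴴ i j))
    {lam0 lam1 lam2 s : ℝ} (hl0 : 0 ≤ lam0) (hl1 : 0 < lam1) (hl2 : 0 ≤ lam2) (hs : 0 < s)
    (h0 : ∀ F : (Link D l → G) → ℂ, Continuous F → GI F →
      frm μ (ker β w) F F ≤ lam0 * n2 μ F)
    (h2 : ∀ Φ : (Link D l → G) → HV M'' M', Continuous Φ → PP τ κ' x y Φ →
      vf μ (ker β w) Φ Φ ≤ lam2 * nsq μ Φ)
    {Ψ0 : (Link D l → G) → HV M M'} (hΨ0 : Continuous Ψ0) (hP0 : PP κ κ' x y Ψ0)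
    (hn0 : nsq μ Ψ0 = 1) (hlow : lam1 / 2 ≤ vf μ (ker β w) Ψ0 Ψ0)
    (hup : vf μ (ker β w) Ψ0 Ψ0 ≤ lam1) {S : Set (Link D l → G)} (hSm : MeasurableSet S)
    (hS : ∀ U, U ∉ S → ∀ v : Fin M → ℂ,
      s * ∑ j, ‖v j‖ ^ 2 ≤ ∑ k, ∑ i, ‖(A k U *ᵥ v) i‖ ^ 2)
    (hconc : ∫ U, S.indicator (fun _ => (1 : ℝ)) U * ‖vo μ (ker β w) Ψ0 U‖ ^ 2
      ∂(Measure.pi fun _ : Link D l => μ) ≤ 1 / 8 * nsq μ (vo μ (ker β w) Ψ0)) :
    lam1 ≤ 48 * n * (M * 2 ^ M'' * (|C| * (J : ℝ) ^ a)) *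
      (lam2 + tl (β * N) J * lam0) / s := by
  obtain ⟨K, hKe⟩ : ∃ K, K = ker β w := ⟨_, rfl⟩
  have hK : Continuous fun q : (Link D l → G) × (Link D l → G) => K q.1 q.2 := by
    rw [hKe]; exact ker_cont β hw.1
  have hsy : ∀ U V, K U V = K V U := by rw [hKe]; exact ker_comm β w
  have hps : ∀ F, Continuous F → 0 ≤ frm μ K F F := fun F hF => by
    rw [hKe]; exact ker_psd μ hPOS hG hβ hw.1 hF
  have hK0 : ∀ U V, 0 ≤ K U V := fun U V => by rw [hKe]; exact (ker_pos β hw.2 U V).le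
  have hIK : KI K := by rw [hKe]; exact hI
  have hlm : ∀ k (Φ : (Link D l → G) → HV M'' M'), Continuous Φ →
      (Continuous fun U => lm M' (A k U)ᴴ (Φ U)) →
      vf μ K (fun U => lm M' (A k U)ᴴ (Φ U)) (fun U => lm M' (A k U)ᴴ (Φ U)) ≤
      M * 2 ^ M'' * (|C| * (J : ℝ) ^ a * (vf μ K Φ Φ +
        tl (β * N) J * frm μ K (hn Φ) (hn Φ))) := fun k Φ hΦ hAΦ => by
    rw [hKe]
    exact vf_lm μ hPOS hG hβ hw (hMB k) hΦ hAΦ hJ
  rw [← hKe] at h0 h2 hlow hup hconc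
  clear hKe
  obtain ⟨t, ht⟩ : ∃ t, t = tl (β * N) J := ⟨_, rfl⟩
  have ht0 : 0 ≤ t := by rw [ht]; exact tl_nonneg (by positivity) J
  rw [← ht] at hlm ⊢
  obtain ⟨Ψ, hΨ⟩ : ∃ Ψ, Ψ = vo μ K Ψ0 := ⟨_, rfl⟩
  have hΨc : Continuous Ψ := by rw [hΨ]; exact vo_cont μ hK hΨ0
  have hΨP : PP κ κ' x y Ψ := by rw [hΨ]; exact vo_PP μ hK hIK hΨ0 hP0
  obtain ⟨X, hX⟩ : ∃ X, X = nsq μ Ψ := ⟨_, rfl⟩
  have hvo : ∀ Φ : (Link D l → G) → HV M M', Continuous Φ →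
      vf μ K Φ Ψ0 = ∫ U, inner ℝ (Φ U) (Ψ U) ∂(Measure.pi fun _ : Link D l => μ) :=
    fun Φ hΦ => by rw [hΨ]; exact vf_vo μ hK hΦ hΨ0
  rw [← hΨ, ← hX] at hconc
  have hX1 : (lam1 / 2) ^ 2 ≤ X := by
    have h3 := inner_cs μ hΨ0 hΨc
    rw [← hvo Ψ0 hΨ0, hn0, one_mul, ← hX] at h3
    exact (pow_le_pow_left₀ (by positivity) hlow 2).trans h3
  have hX0 : 0 < X := lt_of_lt_of_le (by positivity) hX1
  obtain ⟨η, hη⟩ : ∃ η, η = s / 3 := ⟨_, rfl⟩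
  have hη0 : 0 < η := by rw [hη]; positivity
  obtain ⟨v, hv⟩ : ∃ v : (Link D l → G) → HV M M', v = fun U =>
    dv (fun k => A k U) η (Ψ U) := ⟨_, rfl⟩
  have hvc : Continuous v := by
    rw [hv]
    exact ((lm M').continuous.comp (Rm_cont hA hη0)).clm_apply hΨc
  have hvP : PP κ κ' x y v := by
    rw [hv]
    exact PP.lm (fun γ U => Rm_cov hη0 (κ (γ x)) (τ (γ x)) fun k => hcov k γ U) hΨP
  obtain ⟨Φ, hΦ⟩ : ∃ Φ : Fin n → (Link D l → G) → HV M'' M', Φ = fun k U =>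
    lm M' (A k U) (v U) := ⟨_, rfl⟩
  have hΦc : ∀ k, Continuous (Φ k) := fun k => by
    rw [hΦ]
    exact ((lm M').continuous.comp (hA k)).clm_apply hvc
  have hΦP : ∀ k, PP τ κ' x y (Φ k) := fun k => by
    rw [hΦ]
    exact PP.lm (fun γ U => hcov k γ U) hvP
  obtain ⟨Ξ, hΞ⟩ : ∃ Ξ : Fin n → (Link D l → G) → HV M M', Ξ = fun k U =>
    lm M' (A k U)ᴴ (Φ k U) := ⟨_, rfl⟩
  have hΞc : ∀ k, Continuous (Ξ k) := fun k => by
    rw [hΞ]
    exact ((lm M').continuous.comp (hA k).matrix_conjTranspose).clm_apply (hΦc k)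
  obtain ⟨F, hF⟩ : ∃ F : (Link D l → G) → HV M M', F = fun U => η • v U := ⟨_, rfl⟩
  have hFc : Continuous F := by rw [hF]; exact hvc.const_smul η
  have hdec : ∀ U, Ψ U = ∑ k, Ξ k U + F U := by
    intro U
    rw [hΞ, hF, hΦ, hv]
    exact dv_eq (fun k => A k U) hη0 (Ψ U)
  -- the remainder is small
  have hFn : nsq μ F ≤ 1 / 4 * X := by
    have h3 : ∀ U, ‖F U‖ ^ 2 ≤ S.indicator (fun _ => (1 : ℝ)) U * ‖Ψ U‖ ^ 2 +
        1 / 16 * ‖Ψ U‖ ^ 2 := by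
      intro U
      have e1 : ‖F U‖ = η * ‖v U‖ := by
        rw [hF]
        dsimp only
        rw [norm_smul, Real.norm_eq_abs, abs_of_pos hη0]
      have hn1 := norm_nonneg (F U)
      by_cases hU : U ∈ S
      · rw [Set.indicator_of_mem hU, one_mul]
        have h4 : ‖F U‖ ≤ ‖Ψ U‖ := by
          rw [e1, hv]
          exact dv_norm (fun k => A k U) hη0 (Ψ U)
        have h5 := pow_le_pow_left₀ hn1 h4 2
        have h6 : 0 ≤ ‖Ψ U‖ ^ 2 := by positivity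
        linarith
      · rw [Set.indicator_of_notMem hU, zero_mul, zero_add]
        have h4 : (s + η) * ‖v U‖ ≤ ‖Ψ U‖ := by
          rw [hv]
          exact dv_small (fun k => A k U) hη0 hs.le (hS U hU) (Ψ U)
        have h5 : ‖F U‖ ≤ 1 / 4 * ‖Ψ U‖ := by
          rw [e1]
          have : (s + η) = 4 * η := by rw [hη]; ring
          rw [this] at h4
          linarith
        have h6 := pow_le_pow_left₀ hn1 h5 2
        have h7 : (1 / 4 * ‖Ψ U‖) ^ 2 = 1 / 16 * ‖Ψ U‖ ^ 2 := by ring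
        rwa [h7] at h6
    have hi : Integrable (fun U => S.indicator (fun _ => (1 : ℝ)) U * ‖Ψ U‖ ^ 2)
        (Measure.pi fun _ : Link D l => μ) := by
      have h4 := (intg μ (hΨc.norm.pow 2)).indicator hSm
      refine (integrable_congr (Filter.Eventually.of_forall fun U => ?_)).1 h4
      by_cases hU : U ∈ S
      · rw [Set.indicator_of_mem hU, Set.indicator_of_mem hU, one_mul]; rfl
      · rw [Set.indicator_of_notMem hU, Set.indicator_of_notMem hU, zero_mul]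
    have hi2 : Integrable (fun U => 1 / 16 * ‖Ψ U‖ ^ 2) (Measure.pi fun _ : Link D l => μ) :=
      intg μ (continuous_const.mul (hΨc.norm.pow 2))
    have h4 : nsq μ F ≤ ∫ U, (S.indicator (fun _ => (1 : ℝ)) U * ‖Ψ U‖ ^ 2 +
        1 / 16 * ‖Ψ U‖ ^ 2) ∂(Measure.pi fun _ : Link D l => μ) :=
      integral_mono (intg μ (hFc.norm.pow 2)) (hi.add hi2) h3
    rw [integral_add hi hi2, integral_const_mul] at h4
    have h5 : ∫ U, ‖Ψ U‖ ^ 2 ∂(Measure.pi fun _ : Link D l => μ) = X := by rw [hX]; rfl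
    rw [h5] at h4
    linarith
  -- splitting of the norm
  obtain ⟨z, hz⟩ : ∃ z : Fin n → ℝ, z = fun k =>
    ∫ U, inner ℝ (Ξ k U) (Ψ U) ∂(Measure.pi fun _ : Link D l => μ) := ⟨_, rfl⟩
  obtain ⟨zF, hzF⟩ : ∃ zF : ℝ, zF =
    ∫ U, inner ℝ (F U) (Ψ U) ∂(Measure.pi fun _ : Link D l => μ) := ⟨_, rfl⟩
  have hsplit : X = ∑ k, z k + zF := by
    have h3 : ∀ U, ‖Ψ U‖ ^ 2 = ∑ k, inner ℝ (Ξ k U) (Ψ U) + inner ℝ (F U) (Ψ U) := by
      intro U
      rw [← real_inner_self_eq_norm_sq]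
      calc inner ℝ (Ψ U) (Ψ U) = inner ℝ (∑ k, Ξ k U + F U) (Ψ U) :=
            congrArg (fun ξ => inner ℝ ξ (Ψ U)) (hdec U)
        _ = _ := by rw [inner_add_left, sum_inner]
    have ci : ∀ k, Continuous fun U => inner ℝ (Ξ k U) (Ψ U) := fun k => (hΞc k).inner hΨc
    have cF : Continuous fun U => inner ℝ (F U) (Ψ U) := hFc.inner hΨc
    have i1 : Integrable (fun U => ∑ k, inner ℝ (Ξ k U) (Ψ U))
      (Measure.pi fun _ : Link D l => μ) := intg μ (continuous_finsetSum _ fun k _ => ci k)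
    rw [hX]
    unfold nsq
    simp only [h3]
    rw [integral_add i1 (intg μ cF), isum μ ci, hz, hzF]
  have hzF2 : zF ≤ X / 2 := by
    have h3 := inner_cs μ hFc hΨc
    rw [← hzF, ← hX] at h3
    have h4 : zF ^ 2 ≤ (X / 2) ^ 2 := by
      refine h3.trans ?_
      have := mul_le_mul_of_nonneg_right hFn hX0.le
      calc _ ≤ 1 / 4 * X * X := this
        _ = _ := by ring
    exact (abs_le_of_sq_le_sq' h4 (by positivity)).2
  have hzs : X / 2 ≤ ∑ k, z k := by linarith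
  obtain ⟨B, hB⟩ : ∃ B : ℝ, B = M * 2 ^ M'' * (|C| * (J : ℝ) ^ a) := ⟨_, rfl⟩
  have hB0 : 0 ≤ B := by rw [hB]; positivity
  have hlt : 0 ≤ lam2 + t * lam0 := by positivity
  have hzk : ∀ k, z k ^ 2 ≤ B * (lam2 + t * lam0) * lam1 * nsq μ (Φ k) := by
    intro k
    have h3 := vf_cs2 μ hK hsy hps (hΞc k) hΨ0
    rw [hvo (Ξ k) (hΞc k)] at h3
    have h4 : z k ^ 2 ≤ vf μ K (Ξ k) (Ξ k) * vf μ K Ψ0 Ψ0 := by rw [hz]; exact h3
    have hv1 : 0 ≤ vf μ K (Ξ k) (Ξ k) := vf_nonneg μ hK hps (hΞc k)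
    have h5 : vf μ K (Ξ k) (Ξ k) ≤ B * ((lam2 + t * lam0) * nsq μ (Φ k)) := by
      have h6 := hlm k (Φ k) (hΦc k) (by have := hΞc k; rw [hΞ] at this; exact this)
      have h7 : vf μ K (Ξ k) (Ξ k) ≤ B * (vf μ K (Φ k) (Φ k) +
          t * frm μ K (hn (Φ k)) (hn (Φ k))) := by
        rw [hΞ, hB]
        refine h6.trans (le_of_eq ?_)
        ring
      refine h7.trans (mul_le_mul_of_nonneg_left ?_ hB0)
      have h8 := h2 (Φ k) (hΦc k) (hΦP k)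
      have h9 := h0 (hn (Φ k)) (hn_cont (hΦc k)) (hn_GI (hΦP k))
      rw [nsq_hn] at h9
      have := mul_le_mul_of_nonneg_left h9 ht0
      nlinarith
    calc z k ^ 2 ≤ vf μ K (Ξ k) (Ξ k) * vf μ K Ψ0 Ψ0 := h4
      _ ≤ vf μ K (Ξ k) (Ξ k) * lam1 := mul_le_mul_of_nonneg_left hup hv1
      _ ≤ B * ((lam2 + t * lam0) * nsq μ (Φ k)) * lam1 :=
          mul_le_mul_of_nonneg_right h5 hl1.le
      _ = _ := by ring
  have hΦs : ∑ k, nsq μ (Φ k) ≤ X / η := by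
    have h3 : ∀ U, ∑ k, ‖Φ k U‖ ^ 2 ≤ ‖Ψ U‖ ^ 2 / η := by
      intro U
      rw [hΦ, hv]
      exact dv_sum (fun k => A k U) hη0 (Ψ U)
    have h4 : ∑ k, nsq μ (Φ k) = ∫ U, ∑ k, ‖Φ k U‖ ^ 2
        ∂(Measure.pi fun _ : Link D l => μ) := (isum μ fun k => (hΦc k).norm.pow 2).symm
    rw [h4]
    have c1 : Continuous fun U => ∑ k, ‖Φ k U‖ ^ 2 :=
      continuous_finsetSum _ fun k _ => (hΦc k).norm.pow 2
    have c3 : Continuous fun U => ‖Ψ U‖ ^ 2 / η := (hΨc.norm.pow 2).div_const η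
    refine (integral_mono (intg μ c1) (intg μ c3) h3).trans (le_of_eq ?_)
    rw [integral_div, hX]
    rfl
  have hfin : (X / 2) ^ 2 ≤ n * (B * (lam2 + t * lam0) * lam1 * (X / η)) := by
    have h3 : (X / 2) ^ 2 ≤ (∑ k, z k) ^ 2 := pow_le_pow_left₀ (by positivity) hzs 2
    have h4 : (∑ k, z k) ^ 2 ≤ n * ∑ k, z k ^ 2 := by
      have := sq_sum_le_card_mul_sum_sq (s := (Finset.univ : Finset (Fin n))) (f := z)
      rwa [Finset.card_univ, Fintype.card_fin] at this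
    refine h3.trans (h4.trans (mul_le_mul_of_nonneg_left ?_ (Nat.cast_nonneg n)))
    refine (Finset.sum_le_sum fun k _ => hzk k).trans ?_
    rw [← Finset.mul_sum]
    exact mul_le_mul_of_nonneg_left hΦs (by positivity)
  have hfin2 : X ≤ 4 * (n * (B * (lam2 + t * lam0) * lam1 / η)) := by
    have h3 : X * X ≤ 4 * (n * (B * (lam2 + t * lam0) * lam1 / η)) * X := by
      have e1 : 4 * (n * (B * (lam2 + t * lam0) * lam1 / η)) * X =
        4 * (n * (B * (lam2 + t * lam0) * lam1 * (X / η))) := by ring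
      rw [e1]
      nlinarith
    exact le_of_mul_le_mul_right h3 hX0
  have h9 : lam1 * lam1 ≤ 48 * n * B * (lam2 + t * lam0) / s * lam1 := by
    have e1 : 48 * n * B * (lam2 + t * lam0) / s * lam1 =
        4 * (4 * (n * (B * (lam2 + t * lam0) * lam1 / η))) := by
      rw [hη]
      field_simp
      ring
    rw [e1]
    nlinarith
  have h10 := le_of_mul_le_mul_right h9 hl1
  rw [hB] at h10
  exact h10

end

end Pool.Agent.H189.WA
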