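import Mathlib
import Pool.Agent.H189.WA.Base

/-!
# Elementary estimates
-/

open Filter

namespace Pool.Agent.H189.WA

noncomputable section

lemma tl_le {x : ℝ} (hx : 0 ≤ x) {b : ℝ} (hb : 0 ≤ b) (J : ℕ) :
    tl x J ≤ Real.exp (x * Real.exp b) * Real.exp (-(b * J)) := by
  obtain ⟨y, hy⟩ : ∃ y, y = x * Real.exp b := ⟨_, rfl⟩
  have hy0 : 0 ≤ y := by rw [hy]; positivity
  have hs : Summable fun n : ℕ => y ^ n / (n.factorial : ℝ) := Real.summable_pow_div_factorial y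
  have hs' : Summable fun j : ℕ => y ^ (j + J) / ((j + J).factorial : ℝ) :=
    (summable_nat_add_iff J).2 hs
  have he : ∑' n : ℕ, y ^ n / (n.factorial : ℝ) = Real.exp y := by
    rw [Real.exp_eq_exp_ℝ, NormedSpace.exp_eq_tsum_div]
  have h1 : ∑' j : ℕ, y ^ (j + J) / ((j + J).factorial : ℝ) ≤ Real.exp y := by
    rw [← he, ← hs.sum_add_tsum_nat_add J]
    have : 0 ≤ ∑ i ∈ Finset.range J, y ^ i / (i.factorial : ℝ) :=
      Finset.sum_nonneg fun i _ => by positivity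
    linarith
  have hx1 : Summable fun j : ℕ => x ^ (j + J) / ((j + J).factorial : ℝ) :=
    (summable_nat_add_iff J).2 (Real.summable_pow_div_factorial x)
  have h2 : tl x J ≤ ∑' j : ℕ, Real.exp (-(b * J)) * (y ^ (j + J) / ((j + J).factorial : ℝ)) := by
    refine hx1.tsum_le_tsum (fun j => ?_) (hs'.mul_left _)
    rw [hy, mul_pow, ← Real.exp_nat_mul]
    have h3 : Real.exp (-(b * J)) * (x ^ (j + J) * Real.exp (((j + J : ℕ) : ℝ) * b) /
        ((j + J).factorial : ℝ)) = Real.exp (j * b) * (x ^ (j + J) / ((j + J).factorial : ℝ)) := by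
      have h4 : Real.exp (((j + J : ℕ) : ℝ) * b) = Real.exp (j * b) * Real.exp (b * J) := by
        rw [← Real.exp_add]; congr 1; push_cast; ring
      have h5 : Real.exp (-(b * J)) * Real.exp (b * J) = 1 := by
        rw [← Real.exp_add, neg_add_cancel, Real.exp_zero]
      rw [h4]
      calc _ = Real.exp (-(b * J)) * Real.exp (b * J) * (Real.exp (j * b) *
            (x ^ (j + J) / ((j + J).factorial : ℝ))) := by ring
        _ = _ := by rw [h5, one_mul]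
    rw [h3]
    have h6 : 1 ≤ Real.exp (j * b) := Real.one_le_exp (by positivity)
    have h7 : 0 ≤ x ^ (j + J) / ((j + J).factorial : ℝ) := by positivity
    nlinarith
  rw [tsum_mul_left] at h2
  have h8 := mul_le_mul_of_nonneg_left h1 (Real.exp_pos (-(b * J))).le
  rw [← hy]
  linarith

lemma exists_J0 (B C : ℝ) (q : ℕ) : ∃ J0 : ℕ, 1 ≤ J0 ∧ ∀ J : ℕ, J0 ≤ J →
    B * ((J : ℝ) + 1) ^ q * Real.exp (-(J : ℝ)) ≤ 1 / 2 ∧ C * Real.exp (-(J : ℝ)) ≤ 1 / 16 := by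
  have h0 : Tendsto (fun x : ℝ => x ^ q * Real.exp (-x)) atTop (nhds 0) :=
    Real.tendsto_pow_mul_exp_neg_atTop_nhds_zero q
  have hJ : Tendsto (fun J : ℕ => (J : ℝ) + 1) atTop atTop :=
    tendsto_atTop_add_const_right _ _ tendsto_natCast_atTop_atTop
  have h1 : Tendsto (fun J : ℕ => (B * Real.exp 1) * (((J : ℝ) + 1) ^ q * Real.exp (-((J : ℝ) + 1))))
      atTop (nhds ((B * Real.exp 1) * 0)) := (h0.comp hJ).const_mul _
  have h2 : Tendsto (fun J : ℕ => C * Real.exp (-(J : ℝ))) atTop (nhds (C * 0)) :=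
    (Real.tendsto_exp_neg_atTop_nhds_zero.comp tendsto_natCast_atTop_atTop).const_mul _
  rw [mul_zero] at h1 h2
  have e1 := (h1.eventually_lt_const (show (0 : ℝ) < 1 / 2 by norm_num)).and
    (h2.eventually_lt_const (show (0 : ℝ) < 1 / 16 by norm_num))
  obtain ⟨J0, hJ0⟩ := eventually_atTop.1 e1
  refine ⟨J0 + 1, by omega, fun J hJ => ?_⟩
  obtain ⟨a1, a2⟩ := hJ0 J (by omega)
  refine ⟨?_, a2.le⟩
  have e2 : B * ((J : ℝ) + 1) ^ q * Real.exp (-(J : ℝ)) =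
      (B * Real.exp 1) * (((J : ℝ) + 1) ^ q * Real.exp (-((J : ℝ) + 1))) := by
    have : Real.exp (-(J : ℝ)) = Real.exp 1 * Real.exp (-((J : ℝ) + 1)) := by
      rw [← Real.exp_add]; congr 1; ring
    rw [this]; ring
  rw [e2]
  exact a1.le

/-- the choice of the level -/
lemma exists_s {Cs a : ℝ} (hCs : 0 < Cs) (ha : 0 < a) (P : ℕ) {ε : ℝ} (hε : 0 < ε) :
    ∃ (c : ℝ) (r : ℕ), 0 < c ∧ c ≤ 1 ∧ ∀ J : ℕ,
      Cs * (c * (((J : ℝ) + 1) ^ r)⁻¹) ^ a * ((J : ℝ) + 1) ^ P ≤ ε := by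
  obtain ⟨r, hr⟩ : ∃ r : ℕ, (P : ℝ) / a ≤ r := ⟨⌈(P : ℝ) / a⌉₊, Nat.le_ceil _⟩
  have hra : (P : ℝ) ≤ r * a := (div_le_iff₀ ha).1 hr
  obtain ⟨c, hc⟩ : ∃ c : ℝ, c = min 1 ((ε / Cs) ^ (1 / a)) := ⟨_, rfl⟩
  have hb : 0 < (ε / Cs) ^ (1 / a) := Real.rpow_pos_of_pos (by positivity) _
  have hc0 : 0 < c := by rw [hc]; exact lt_min one_pos hb
  refine ⟨c, r, hc0, by rw [hc]; exact min_le_left _ _, fun J => ?_⟩
  have hJ : (1 : ℝ) ≤ (J : ℝ) + 1 := by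
    have : (0 : ℝ) ≤ J := Nat.cast_nonneg J
    linarith
  have hJ0 : (0 : ℝ) < (J : ℝ) + 1 := by linarith
  rw [Real.mul_rpow hc0.le (by positivity)]
  have h1 : Cs * c ^ a ≤ ε := by
    have h2 : c ^ a ≤ ((ε / Cs) ^ (1 / a)) ^ a :=
      Real.rpow_le_rpow hc0.le (by rw [hc]; exact min_le_right _ _) ha.le
    rw [← Real.rpow_mul (by positivity), one_div, inv_mul_cancel₀ ha.ne', Real.rpow_one] at h2
    calc Cs * c ^ a ≤ Cs * (ε / Cs) := mul_le_mul_of_nonneg_left h2 hCs.le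
      _ = ε := by field_simp
  have h3 : ((((J : ℝ) + 1) ^ r)⁻¹) ^ a * ((J : ℝ) + 1) ^ P ≤ 1 := by
    rw [Real.inv_rpow (by positivity), ← Real.rpow_natCast ((J : ℝ) + 1) r,
      ← Real.rpow_mul hJ0.le, ← Real.rpow_natCast ((J : ℝ) + 1) P]
    have h4 : ((J : ℝ) + 1) ^ (P : ℝ) ≤ ((J : ℝ) + 1) ^ ((r : ℝ) * a) :=
      Real.rpow_le_rpow_of_exponent_le hJ hra
    have h5 : 0 < ((J : ℝ) + 1) ^ ((r : ℝ) * a) := Real.rpow_pos_of_pos hJ0 _
    rw [inv_mul_le_iff₀ h5, mul_one]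
    exact h4
  have h6 : 0 ≤ Cs * c ^ a := by positivity
  calc Cs * (c ^ a * ((((J : ℝ) + 1) ^ r)⁻¹) ^ a) * ((J : ℝ) + 1) ^ P
      = Cs * c ^ a * (((((J : ℝ) + 1) ^ r)⁻¹) ^ a * ((J : ℝ) + 1) ^ P) := by ring
    _ ≤ Cs * c ^ a * 1 := mul_le_mul_of_nonneg_left h3 h6
    _ ≤ ε := by rw [mul_one]; exact h1

end

end Pool.Agent.H189.WA
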