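import Mathlib
import Pool.Agent.H189.WA.Fix
import Pool.Agent.H189.WA.Num

/-!
# Replacement of one source
-/

open MeasureTheory Matrix
open scoped ComplexConjugate Matrix.Norms.Frobenius

namespace Pool.Agent.H189.WA

open Pool.Agent.H189.KS

set_option linter.unusedSectionVars false
set_option linter.unusedVariables false

noncomputable section

variable {N : ℕ} {G : Subgroup (UU N)} {D M M' M'' m : ℕ}

/-- the concentration estimate with the constant `Cn` -/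
def NC [MeasurableSpace G] (μ : Measure G) (m : ℕ) (β cw Cn : ℝ) : Prop :=
  ∀ (E : Type) [Fintype E] [DecidableEq E] (e : Fin m → E),
    Function.Injective e → ∀ (p α α' : (E → G) → Fin m → G), Continuous α → Continuous α' →
    (∀ U i, p U i = α U i * U (e i) * α' U i) →
    (∀ U U' : E → G, (∀ e', (∀ i, e' ≠ e i) → U e' = U' e') → α U = α U' ∧ α' U = α' U') →
    ∀ (w : (E → G) → ℝ), Continuous w → (∀ U, 0 < w U) →
    (∀ U U' : E → G, (∀ e', (∀ i, e' ≠ e i) → U e' = U' e') → w U ≤ cw * w U') →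
    ∀ (F : (E → G) → ℂ), Continuous F → ∀ S : Set (Fin m → G), MeasurableSet S → ∀ J : ℕ,
    ∫ U, S.indicator (fun _ => (1 : ℝ)) (p U) * ‖opr μ (ker β w) F U‖ ^ 2
        ∂(Measure.pi fun _ : E => μ) ≤
      Cn * (((J : ℝ) + 1) ^ (2 * N ^ 2 * m) * (Measure.pi fun _ : Fin m => μ).real S *
          n2 μ (opr μ (ker β w) F) +
        (1 + ((J : ℝ) + 1) ^ (2 * N ^ 2 * m) * (Measure.pi fun _ : Fin m => μ).real S) *
          tl (β * N) J ^ 2 * n2 μ (opr μ (ker β w) (av F)))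

variable [CompactSpace G] [SecondCountableTopology G] [MeasurableSpace G] [BorelSpace G]
  (μ : Measure G) [IsProbabilityMeasure μ] [μ.IsHaarMeasure]

/-- the positions of the loops -/
def pos (m : ℕ) (i : Fin m) : ℕ × ℕ := ((i : ℕ), 0)

/-- the concentration estimate for vector valued functions -/
lemma conc (hPOS : S_POS) (hG : IsClosed (G : Set (UU N))) {β : ℝ} (hβ : 0 < β) {Cn : ℝ}
    (hCn : 0 < Cn) (hNC : NC μ m β (Real.exp (β / 2 * (8 * N * D * m))) Cn)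
    {i0 i1 : Fin D} (h01 : i0 ≠ i1) {l : ℕ} [NeZero l] (hl : m + 2 ≤ l)
    {κ : G →* UU M} {κ' : G →* UU M'} {x y : Fin D → ZMod l} {lam0 : ℝ} (hl0 : 0 ≤ lam0)
    (h0 : ∀ F : (Link D l → G) → ℂ, Continuous F → GI F →
      frm μ (ker β (wt β)) F F ≤ lam0 * n2 μ F)
    {Ψ0 : (Link D l → G) → HV M M'} (hΨ0 : Continuous Ψ0) (hP0 : PP κ κ' x y Ψ0)
    (hn0 : nsq μ Ψ0 = 1) {S : Set (Fin m → G)} (hSm : MeasurableSet S) {J : ℕ}
    (hS : Cn * (((J : ℝ) + 1) ^ (2 * N ^ 2 * m) * (Measure.pi fun _ : Fin m => μ).real S) ≤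
      1 / 16) :
    ∫ U, S.indicator (fun _ => (1 : ℝ)) (lv i0 i1 x (pos m) U) *
        ‖vo μ (ker β (wt β)) Ψ0 U‖ ^ 2 ∂(Measure.pi fun _ : Link D l => μ) ≤
      1 / 16 * nsq μ (vo μ (ker β (wt β)) Ψ0) +
        (Cn + 1 / 16) * tl (β * N) J ^ 2 * ((M * M') * lam0 ^ 2) := by
  classical
  obtain ⟨δ, hδ⟩ : ∃ δ, δ = ((J : ℝ) + 1) ^ (2 * N ^ 2 * m) *
    (Measure.pi fun _ : Fin m => μ).real S := ⟨_, rfl⟩
  have hδ0 : 0 ≤ δ := by rw [hδ]; positivity
  rw [← hδ] at hS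
  have hq : ∀ q, ∫ U, S.indicator (fun _ => (1 : ℝ)) (lv i0 i1 x (pos m) U) *
        ‖opr μ (ker β (wt β)) (fun U => Ψ0 U q) U‖ ^ 2 ∂(Measure.pi fun _ : Link D l => μ) ≤
      Cn * (δ * n2 μ (opr μ (ker β (wt β)) fun U => Ψ0 U q) +
        (1 + δ) * tl (β * N) J ^ 2 * n2 μ (opr μ (ker β (wt β)) (av fun U => Ψ0 U q))) := by
    intro q
    rw [hδ]
    exact hNC (Link D l) (fun i => spl i0 i1 x (pos m i)) (fun i j hij => by
        have a1 := i.2
        have a2 := j.2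
        have h1 := spl_inj x h01 (w := pos m i) (w' := pos m j) (by simp only [pos]; omega)
          (by simp only [pos]; omega) (by simp only [pos]; omega) (by simp only [pos]; omega) hij
        exact Fin.ext (Prod.ext_iff.1 h1).1)
      (lv i0 i1 x (pos m)) (fun U i => hol (legA i0 i1 x (pos m i)) U)
      (fun U i => (hol (legA i0 i1 x ((pos m i).1, (pos m i).2 + 1)) U)⁻¹)
      (continuous_pi fun i => hol_cont _) (continuous_pi fun i => (hol_cont _).inv)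
      (fun U i => hol_lasso i0 i1 x (pos m i) U) (fun U U' hU => by
        have hleg : ∀ w' : ℕ × ℕ, hol (legA i0 i1 x w') U = hol (legA i0 i1 x w') U' := by
          intro w'
          refine hol_congr fun p hp => hU p.1 fun i => ?_
          have a1 := i.2
          exact spl_notMem x h01 (w := pos m i) (by simp only [pos]; omega) p hp
        exact ⟨funext fun i => hleg _, funext fun i => by rw [hleg]⟩)
      (wt β) (wt_nice β).1 (wt_nice β).2 (fun U U' hU => wt_var hβ _ U U' hU)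
      (fun U => Ψ0 U q) (ent_cont hΨ0 q) S hSm J
  obtain ⟨K, hKe⟩ : ∃ K : (Link D l → G) → (Link D l → G) → ℝ, K = ker β (wt β) := ⟨_, rfl⟩
  have hK : Continuous fun q : (Link D l → G) × (Link D l → G) => K q.1 q.2 := by
    rw [hKe]; exact ker_cont β (wt_nice β).1
  have hsy : ∀ U V, K U V = K V U := by rw [hKe]; exact ker_comm β _
  have hps : ∀ F, Continuous F → 0 ≤ frm μ K F F := fun F hF => by
    rw [hKe]; exact ker_psd μ hPOS hG hβ (wt_nice β).1 hF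
  have hK0 : ∀ U V, 0 ≤ K U V := fun U V => by
    rw [hKe]; exact (ker_pos β (wt_nice β).2 U V).le
  have hIK : KI K := by rw [hKe]; exact fun γ U V => ker_gt β γ U V
  rw [← hKe] at h0 hq ⊢
  clear hKe
  have hlm : Measurable fun U : Link D l → G => lv i0 i1 x (pos m) U := lv_cont.measurable
  have hint : ∀ f : (Link D l → G) → ℝ, Continuous f → Integrable (fun U =>
      S.indicator (fun _ => (1 : ℝ)) (lv i0 i1 x (pos m) U) * f U)
      (Measure.pi fun _ : Link D l => μ) := by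
    intro f hf
    have h4 := (intg μ hf).indicator (hlm hSm)
    refine (integrable_congr (Filter.Eventually.of_forall fun U => ?_)).1 h4
    by_cases hU : lv i0 i1 x (pos m) U ∈ S
    · rw [Set.indicator_of_mem (show U ∈ (fun U => lv i0 i1 x (pos m) U) ⁻¹' S from hU),
        Set.indicator_of_mem hU, one_mul]
    · rw [Set.indicator_of_notMem (show U ∉ (fun U => lv i0 i1 x (pos m) U) ⁻¹' S from hU),
        Set.indicator_of_notMem hU, zero_mul]
  have hoc : ∀ q, Continuous (opr μ K fun U => Ψ0 U q) := fun q => opr_cont μ hK (ent_cont hΨ0 q)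
  have e1 : ∫ U, S.indicator (fun _ => (1 : ℝ)) (lv i0 i1 x (pos m) U) *
        ‖vo μ K Ψ0 U‖ ^ 2 ∂(Measure.pi fun _ : Link D l => μ) =
      ∑ q, ∫ U, S.indicator (fun _ => (1 : ℝ)) (lv i0 i1 x (pos m) U) *
        ‖opr μ K (fun U => Ψ0 U q) U‖ ^ 2 ∂(Measure.pi fun _ : Link D l => μ) := by
    have hi : ∀ q, Integrable (fun U => S.indicator (fun _ => (1 : ℝ)) (lv i0 i1 x (pos m) U) *
        ‖opr μ K (fun U => Ψ0 U q) U‖ ^ 2) (Measure.pi fun _ : Link D l => μ) :=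
      fun q => hint _ ((hoc q).norm.pow 2)
    refine Eq.trans ?_ (integral_finsetSum _ fun q _ => hi q)
    refine integral_congr_ae (Filter.Eventually.of_forall fun U => ?_)
    dsimp only
    rw [normsq', Finset.mul_sum]
    rfl
  rw [e1]
  refine (Finset.sum_le_sum fun q _ => hq q).trans ?_
  have e2 : nsq μ (vo μ K Ψ0) = ∑ q, n2 μ (opr μ K fun U => Ψ0 U q) :=
    nsq_eq μ (vo_cont μ hK hΨ0)
  have h5 : ∀ q, n2 μ (opr μ K (av fun U => Ψ0 U q)) ≤ lam0 ^ 2 := by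
    intro q
    refine (n2_opr_av_le μ hK hK0 hΨ0 q).trans ?_
    have h6 := n2_opr_le μ hK hsy hps (P := GI) hl0 h0 (hn_cont hΨ0) (hn_GI hP0)
      (opr_GI μ hK hIK (hn_cont hΨ0) (hn_GI hP0))
    rwa [nsq_hn, hn0, mul_one] at h6
  have h7 : ∑ q : Fin M × Fin M', n2 μ (opr μ K (av fun U => Ψ0 U q)) ≤
      (M * M') * lam0 ^ 2 := by
    refine (Finset.sum_le_sum fun q _ => h5 q).trans (le_of_eq ?_)
    rw [Finset.sum_const, Finset.card_univ, Fintype.card_prod, Fintype.card_fin, Fintype.card_fin,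
      nsmul_eq_mul]
    push_cast
    ring
  have e3 : ∑ q, Cn * (δ * n2 μ (opr μ K fun U => Ψ0 U q) +
        (1 + δ) * tl (β * N) J ^ 2 * n2 μ (opr μ K (av fun U => Ψ0 U q))) =
      Cn * δ * nsq μ (vo μ K Ψ0) + (Cn + Cn * δ) * tl (β * N) J ^ 2 *
        ∑ q, n2 μ (opr μ K (av fun U => Ψ0 U q)) := by
    rw [e2, ← Finset.mul_sum, Finset.sum_add_distrib, ← Finset.mul_sum, ← Finset.mul_sum]
    ring
  rw [e3]
  have h8 : Cn * δ * nsq μ (vo μ K Ψ0) ≤ 1 / 16 * nsq μ (vo μ K Ψ0) :=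
    mul_le_mul_of_nonneg_right hS (nsq_nonneg' μ _)
  have h9 : 0 ≤ ∑ q, n2 μ (opr μ K (av fun U => Ψ0 U q)) :=
    Finset.sum_nonneg fun q _ => n2_nonneg μ _
  have h10 : (Cn + Cn * δ) * tl (β * N) J ^ 2 * ∑ q, n2 μ (opr μ K (av fun U => Ψ0 U q)) ≤
      (Cn + 1 / 16) * tl (β * N) J ^ 2 * ((M * M') * lam0 ^ 2) := by
    refine mul_le_mul ?_ h7 h9 (by positivity)
    exact mul_le_mul_of_nonneg_right (by linarith) (by positivity)
  linarith

set_option maxHeartbeats 8000000 in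
/-- **Replacement of one source.** -/
theorem one_site (hPOS : S_POS) (hMULT : S_MULT) (hNONC : S_NONC) (hCOVP : S_COVP)
    (hSPAN : S_SPAN) (hG : IsClosed (G : Set (UU N))) [ConnectedSpace G] {i0 i1 : Fin D}
    (h01 : i0 ≠ i1) (κ : G →* UU M) (κ' : G →* UU M') (τ : G →* UU M'') (hκ : Continuous κ)
    (hτ : Continuous τ) (hM : 0 < M'') (hcent : ∀ z : G, (∀ h : G, z * h = h * z) → ∃ c : ℂ,
      (κ z : Mt M) = c • 1 ∧ (τ z : Mt M'') = c • 1) {β : ℝ} (hβ : 0 < β) :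
    ∃ (C : ℝ) (A m : ℕ), 0 < C ∧ ∀ (l : ℕ) [NeZero l], m + 2 ≤ l →
      ∀ (x y : Fin D → ZMod l) (lam0 lam1 lam2 : ℝ), 0 < lam1 → lam1 ≤ lam0 → 0 ≤ lam2 →
      (∀ F : (Link D l → G) → ℂ, Continuous F → GI F →
        frm μ (ker β (wt β)) F F ≤ lam0 * n2 μ F) →
      (∀ Φ : (Link D l → G) → HV M'' M', Continuous Φ → PP τ κ' x y Φ →
        vf μ (ker β (wt β)) Φ Φ ≤ lam2 * nsq μ Φ) →
      ∀ Ψ0 : (Link D l → G) → HV M M', Continuous Ψ0 → PP κ κ' x y Ψ0 → nsq μ Ψ0 = 1 →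
        lam1 / 2 ≤ vf μ (ker β (wt β)) Ψ0 Ψ0 → vf μ (ker β (wt β)) Ψ0 Ψ0 ≤ lam1 →
      lam1 ≤ C * (1 + Real.log (lam0 / lam1)) ^ A * lam2 := by
  classical
  obtain ⟨m, hm⟩ := hSPAN N G hG μ
  obtain ⟨Cn, hCn, hnonc⟩ := hNONC N m β (Real.exp (β / 2 * (8 * N * D * m))) hβ (Real.exp_pos _)
  have hNC : NC μ m β (Real.exp (β / 2 * (8 * N * D * m))) Cn := hnonc G hG μ
  obtain ⟨n, h, Cs, a, hCs, ha, hpol, hcov, hset⟩ :=
    hCOVP N G hG μ M M'' κ τ hκ hτ hM hcent m hm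
  -- the multiplication bounds
  obtain ⟨C1, A1, hpath⟩ := MB.path μ hPOS hMULT hG hβ (2 * m + 4)
  have hex : ∀ k i j, ∃ (C : ℝ) (A : ℕ),
      ∀ (E : Type) [Fintype E] (w : (E → G) → ℝ), Nice w → ∀ p : (E → G) → Fin m → G,
      (∀ i a b, MB μ β w C1 A1 (fun U => mt (p U i) a b) ∧
        MB μ β w C1 A1 (fun U => conj (mt (p U i) a b))) →
      MB μ β w C A (fun U => conj (h k (p U) i j)) := fun k i j =>
    MB.pol μ hPOS hG hβ (hpol k i j).conj C1 A1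
  choose C2 A2 hC2 using hex
  obtain ⟨C3, hC3⟩ : ∃ C3 : ℝ, C3 = ∑ k, ∑ i, ∑ j, |C2 k i j| := ⟨_, rfl⟩
  obtain ⟨A3, hA3⟩ : ∃ A3 : ℕ, A3 = ∑ k, ∑ i, ∑ j, A2 k i j := ⟨_, rfl⟩
  have hC23 : ∀ k i j, C2 k i j ≤ C3 := by
    intro k i j
    rw [hC3]
    have b1 := Finset.single_le_sum (f := fun k => ∑ i, ∑ j, |C2 k i j|)
      (fun k _ => Finset.sum_nonneg fun i _ => Finset.sum_nonneg fun j _ => abs_nonneg _)
      (Finset.mem_univ k)
    have b2 := Finset.single_le_sum (f := fun i => ∑ j, |C2 k i j|)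
      (fun i _ => Finset.sum_nonneg fun j _ => abs_nonneg _) (Finset.mem_univ i)
    have b3 := Finset.single_le_sum (f := fun j => |C2 k i j|)
      (fun j _ => abs_nonneg _) (Finset.mem_univ j)
    exact (le_abs_self _).trans (b3.trans (b2.trans b1))
  have hA23 : ∀ k i j, A2 k i j ≤ A3 := by
    intro k i j
    rw [hA3]
    have b1 := Finset.single_le_sum (f := fun k => ∑ i, ∑ j, A2 k i j)
      (fun k _ => Nat.zero_le _) (Finset.mem_univ k)
    have b2 := Finset.single_le_sum (f := fun i => ∑ j, A2 k i j)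
      (fun i _ => Nat.zero_le _) (Finset.mem_univ i)
    have b3 := Finset.single_le_sum (f := fun j => A2 k i j)
      (fun j _ => Nat.zero_le _) (Finset.mem_univ j)
    exact b3.trans (b2.trans b1)
  -- the constants
  obtain ⟨ct, hct⟩ : ∃ ct, ct = Real.exp (β * N * Real.exp 3) := ⟨_, rfl⟩
  have hct0 : 0 < ct := by rw [hct]; exact Real.exp_pos _
  obtain ⟨cs, r, hcs0, hcs1, hcs⟩ := exists_s hCs ha (2 * N ^ 2 * m)
    (show (0 : ℝ) < 1 / (16 * Cn) by positivity)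
  obtain ⟨B, hB⟩ : ∃ B : ℝ, B = 48 * n * (M * 2 ^ M'' * |C3|) / cs := ⟨_, rfl⟩
  have hB0 : 0 ≤ B := by rw [hB]; positivity
  obtain ⟨C4, hC4⟩ : ∃ C4 : ℝ, C4 = 4 * (Cn + 1 / 16) * (M * M') := ⟨_, rfl⟩
  have hC40 : 0 ≤ C4 := by rw [hC4]; positivity
  obtain ⟨J0, hJ01, hJ0⟩ := exists_J0 (B * ct) (C4 * ct ^ 2) (A3 + r)
  refine ⟨2 * B * ((J0 : ℝ) + 2) ^ (A3 + r) + 1, A3 + r, m, by positivity, ?_⟩
  intro l _ hl x y lam0 lam1 lam2 hl1 hl10 hl2 h0 h2 Ψ0 hΨ0 hP0 hn0 hlow hup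
  have hl0 : 0 < lam0 := lt_of_lt_of_le hl1 hl10
  obtain ⟨L, hL⟩ : ∃ L, L = Real.log (lam0 / lam1) := ⟨_, rfl⟩
  have hL0 : 0 ≤ L := by
    rw [hL]
    exact Real.log_nonneg ((one_le_div hl1).2 hl10)
  have hLe : Real.exp L = lam0 / lam1 := by rw [hL, Real.exp_log (by positivity)]
  obtain ⟨J, hJ⟩ : ∃ J : ℕ, J = ⌈L⌉₊ + J0 := ⟨_, rfl⟩
  have hJ1 : 1 ≤ J := by omega
  have hJL : L ≤ J := by
    rw [hJ]; push_cast
    have := Nat.le_ceil L
    have h3 : (0 : ℝ) ≤ J0 := Nat.cast_nonneg _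
    linarith
  have hJU : (J : ℝ) + 1 ≤ ((J0 : ℝ) + 2) * (1 + L) := by
    rw [hJ]; push_cast
    have := (Nat.ceil_lt_add_one hL0).le
    have h3 : (0 : ℝ) ≤ J0 := Nat.cast_nonneg _
    nlinarith
  obtain ⟨hJa, hJb⟩ := hJ0 J (by omega)
  obtain ⟨T, hT⟩ : ∃ T, T = tl (β * N) J := ⟨_, rfl⟩
  have hT0 : 0 ≤ T := by rw [hT]; exact tl_nonneg (by positivity) J
  have hT1 : T ≤ ct * Real.exp (-(3 * J)) := by
    rw [hT, hct]
    exact tl_le (by positivity) (by norm_num) J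
  obtain ⟨ε, hε⟩ : ∃ ε, ε = Real.exp (-(J : ℝ)) := ⟨_, rfl⟩
  have hε0 : 0 < ε := by rw [hε]; exact Real.exp_pos _
  have hε1 : ε ≤ 1 := by
    rw [hε]
    exact Real.exp_le_one_iff.2 (by have : (0 : ℝ) ≤ J := Nat.cast_nonneg _; linarith)
  rw [← hε] at hJa hJb
  -- the tail times the ratio
  have hTl : T * lam0 ≤ ct * ε ^ 2 * lam1 := by
    have h3 : lam0 = Real.exp L * lam1 := by rw [hLe]; field_simp
    have h4 : Real.exp (-(3 * (J : ℝ))) * Real.exp L ≤ ε ^ 2 := by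
      rw [hε, ← Real.exp_add, ← Real.exp_nat_mul]
      refine Real.exp_le_exp.2 ?_
      push_cast
      linarith
    calc T * lam0 ≤ ct * Real.exp (-(3 * J)) * lam0 := mul_le_mul_of_nonneg_right hT1 hl0.le
      _ = ct * (Real.exp (-(3 * J)) * Real.exp L) * lam1 := by rw [h3]; ring
      _ ≤ ct * ε ^ 2 * lam1 := by
          refine mul_le_mul_of_nonneg_right (mul_le_mul_of_nonneg_left h4 hct0.le) hl1.le
  -- the level
  obtain ⟨s, hs⟩ : ∃ s : ℝ, s = cs * (((J : ℝ) + 1) ^ r)⁻¹ := ⟨_, rfl⟩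
  have hJp : (1 : ℝ) ≤ (J : ℝ) + 1 := by
    have : (0 : ℝ) ≤ J := Nat.cast_nonneg _
    linarith
  have hJp0 : (0 : ℝ) < (J : ℝ) + 1 := by linarith
  have hs0 : 0 < s := by rw [hs]; positivity
  have hs1 : s ≤ 1 := by
    rw [hs]
    have h3 : (((J : ℝ) + 1) ^ r)⁻¹ ≤ 1 := inv_le_one_of_one_le₀ (one_le_pow₀ hJp)
    have h4 : 0 ≤ (((J : ℝ) + 1) ^ r)⁻¹ := by positivity
    nlinarith
  obtain ⟨S, hSm, hSs, hS⟩ := hset s hs0 hs1
  have hcsJ := hcs J
  rw [← hs] at hcsJ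
  have hSn : Cn * (((J : ℝ) + 1) ^ (2 * N ^ 2 * m) * (Measure.pi fun _ : Fin m => μ).real S) ≤
      1 / 16 := by
    have h3 : ((J : ℝ) + 1) ^ (2 * N ^ 2 * m) * (Measure.pi fun _ : Fin m => μ).real S ≤
        1 / (16 * Cn) := by
      refine le_trans ?_ hcsJ
      rw [mul_comm]
      exact mul_le_mul_of_nonneg_right hSs (by positivity)
    calc _ ≤ Cn * (1 / (16 * Cn)) := mul_le_mul_of_nonneg_left h3 hCn.le
      _ = 1 / 16 := by field_simp
  have hconc := conc (i0 := i0) (i1 := i1) μ hPOS hG hβ hCn hNC h01 hl hl0.le h0 hΨ0 hP0 hn0 hSm hSn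
  -- the norm of the image
  have hX1 : (lam1 / 2) ^ 2 ≤ nsq μ (vo μ (ker β (wt β)) Ψ0) := by
    have hK : Continuous fun q : (Link D l → G) × (Link D l → G) => ker β (wt β) q.1 q.2 :=
      ker_cont β (wt_nice β).1
    have h3 := inner_cs μ hΨ0 (vo_cont μ hK hΨ0)
    rw [← vf_vo μ hK hΨ0 hΨ0, hn0, one_mul] at h3
    exact (pow_le_pow_left₀ (by positivity) hlow 2).trans h3
  obtain ⟨X, hX⟩ : ∃ X, X = nsq μ (vo μ (ker β (wt β)) Ψ0) := ⟨_, rfl⟩
  rw [← hX] at hconc hX1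
  have hsmall : (Cn + 1 / 16) * T ^ 2 * ((M * M') * lam0 ^ 2) ≤ 1 / 16 * X := by
    have h3 : T ^ 2 * lam0 ^ 2 ≤ ct ^ 2 * ε * lam1 ^ 2 := by
      have h4 := pow_le_pow_left₀ (by positivity) hTl 2
      have h5 : ε ^ 4 ≤ ε := by
        have := pow_le_pow_of_le_one hε0.le hε1 (show 1 ≤ 4 by norm_num)
        rwa [pow_one] at this
      have h6 := mul_le_mul_of_nonneg_left h5 (show 0 ≤ ct ^ 2 * lam1 ^ 2 by positivity)
      calc T ^ 2 * lam0 ^ 2 = (T * lam0) ^ 2 := by ring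
        _ ≤ (ct * ε ^ 2 * lam1) ^ 2 := h4
        _ = ct ^ 2 * lam1 ^ 2 * ε ^ 4 := by ring
        _ ≤ ct ^ 2 * lam1 ^ 2 * ε := h6
        _ = _ := by ring
    have h7 := mul_le_mul_of_nonneg_left h3 hC40
    have h8 : C4 * (ct ^ 2 * ε * lam1 ^ 2) = C4 * ct ^ 2 * ε * (4 * (lam1 / 2) ^ 2) := by ring
    have h9 : C4 * ct ^ 2 * ε * (4 * (lam1 / 2) ^ 2) ≤ 1 / 16 * (4 * X) :=
      mul_le_mul hJb (by linarith) (by positivity) (by norm_num)
    have h10 : (Cn + 1 / 16) * T ^ 2 * ((M * M') * lam0 ^ 2) =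
        C4 * (T ^ 2 * lam0 ^ 2) / 4 := by rw [hC4]; ring
    rw [h10]
    linarith
  rw [← hT] at hconc
  have hconc2 : ∫ U, S.indicator (fun _ => (1 : ℝ)) (lv i0 i1 x (pos m) U) *
        ‖vo μ (ker β (wt β)) Ψ0 U‖ ^ 2 ∂(Measure.pi fun _ : Link D l => μ) ≤ 1 / 8 * X := by
    linarith
  -- the matrices
  have hlm : Measurable fun U : Link D l → G => lv i0 i1 x (pos m) U := lv_cont.measurable
  have hMB : ∀ k i j, MB μ β (wt β) C3 A3 fun U : Link D l → G =>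
      (h k (lv i0 i1 x (pos m) U))ᴴ i j := by
    intro k i j
    have h3 := hC2 k j i (Link D l) (wt β) (wt_nice β) (fun U => lv i0 i1 x (pos m) U)
      (fun i' a' b' => hpath (Link D l) (wt β) (wt_nice β) (lasso i0 i1 x (pos m i')) (by
        rw [length_lasso]
        have := i'.2
        simp only [pos]
        omega) a' b')
    exact h3.mono μ hPOS hG hβ (wt_nice β) (hC23 k j i) (hA23 k j i)
  have hAc : ∀ k, Continuous fun U : Link D l → G => h k (lv i0 i1 x (pos m) U) := by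
    intro k
    refine continuous_matrix fun i j => ?_
    have h3 := (hMB k j i).1
    have h4 : Continuous fun U : Link D l → G =>
      conj ((h k (lv i0 i1 x (pos m) U))ᴴ j i) := Complex.continuous_conj.comp h3
    refine h4.congr fun U => ?_
    rw [conjTranspose_apply]
    exact Complex.conj_conj _
  have hfin := fixedJ μ hPOS hG hβ (wt_nice β) (fun γ U V => ker_gt β γ U V) hJ1
    (fun k U => h k (lv i0 i1 x (pos m) U)) hAc (fun k γ U => by
      rw [← hcov]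
      congr 1
      funext i
      exact hol_gt (isPath_lasso i0 i1 x (pos m i)) γ U) hMB hl0.le hl1 hl2 hs0 h0 h2 hΨ0 hP0 hn0
    hlow hup (S := (fun U => lv i0 i1 x (pos m) U) ⁻¹' S) (hlm hSm) (fun U hU v => hS _ hU v) (by
      rw [← hX]
      exact hconc2)
  rw [← hT] at hfin
  -- the conclusion
  have hJA : (J : ℝ) ^ A3 ≤ ((J : ℝ) + 1) ^ A3 :=
    pow_le_pow_left₀ (Nat.cast_nonneg _) (by linarith) _
  have hlt : 0 ≤ lam2 + T * lam0 := by positivity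
  have h3 : lam1 ≤ B * ((J : ℝ) + 1) ^ (A3 + r) * (lam2 + T * lam0) := by
    refine hfin.trans ?_
    have h4 : 48 * n * (M * 2 ^ M'' * (|C3| * (J : ℝ) ^ A3)) * (lam2 + T * lam0) / s =
        B * (J : ℝ) ^ A3 * ((J : ℝ) + 1) ^ r * (lam2 + T * lam0) := by
      rw [hB, hs]
      field_simp
    rw [h4, pow_add]
    refine mul_le_mul_of_nonneg_right ?_ hlt
    have h5 := mul_le_mul_of_nonneg_left hJA hB0
    have h6 := mul_le_mul_of_nonneg_right h5 (show 0 ≤ ((J : ℝ) + 1) ^ r by positivity)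
    linarith
  have h4 : B * ((J : ℝ) + 1) ^ (A3 + r) * (T * lam0) ≤ 1 / 2 * lam1 := by
    have h5 : T * lam0 ≤ ct * ε * lam1 := by
      refine hTl.trans ?_
      have h6 : ε ^ 2 ≤ ε := by nlinarith
      exact mul_le_mul_of_nonneg_right (mul_le_mul_of_nonneg_left h6 hct0.le) hl1.le
    calc _ ≤ B * ((J : ℝ) + 1) ^ (A3 + r) * (ct * ε * lam1) :=
          mul_le_mul_of_nonneg_left h5 (by positivity)
      _ = B * ct * ((J : ℝ) + 1) ^ (A3 + r) * ε * lam1 := by ring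
      _ ≤ _ := mul_le_mul_of_nonneg_right hJa hl1.le
  have h5 : lam1 ≤ 2 * B * ((J : ℝ) + 1) ^ (A3 + r) * lam2 := by
    have h6 : B * ((J : ℝ) + 1) ^ (A3 + r) * (lam2 + T * lam0) =
        B * ((J : ℝ) + 1) ^ (A3 + r) * lam2 + B * ((J : ℝ) + 1) ^ (A3 + r) * (T * lam0) := by ring
    rw [h6] at h3
    linarith
  have h6 : ((J : ℝ) + 1) ^ (A3 + r) ≤ ((J0 : ℝ) + 2) ^ (A3 + r) * (1 + L) ^ (A3 + r) := by
    rw [← mul_pow]
    exact pow_le_pow_left₀ hJp0.le hJU _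
  rw [← hL]
  have h7 : 2 * B * ((J : ℝ) + 1) ^ (A3 + r) * lam2 ≤
      2 * B * (((J0 : ℝ) + 2) ^ (A3 + r) * (1 + L) ^ (A3 + r)) * lam2 :=
    mul_le_mul_of_nonneg_right (mul_le_mul_of_nonneg_left h6 (by positivity)) hl2
  have h8 : 0 ≤ (1 + L) ^ (A3 + r) * lam2 := by positivity
  have h9 : (2 * B * ((J0 : ℝ) + 2) ^ (A3 + r) + 1) * (1 + L) ^ (A3 + r) * lam2 =
      2 * B * (((J0 : ℝ) + 2) ^ (A3 + r) * (1 + L) ^ (A3 + r)) * lam2 +
        (1 + L) ^ (A3 + r) * lam2 := by ring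
  rw [h9]
  linarith

end

end Pool.Agent.H189.WA
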