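import Mathlib
import Pool.Agent.H189.WA.Stm

/-!
# POS: products of powers and exponentials of `Re tr (U_e V_e*)` are positive definite kernels
-/

open MeasureTheory Matrix Filter
open scoped ComplexConjugate Topology

namespace Pool.Agent.H189.WA.POS

open Pool.Agent.H189.KS

set_option linter.unusedSectionVars false
set_option autoImplicit false

noncomputable section

variable {N : ℕ} {G : Subgroup (UU N)} {E : Type} [Fintype E]

theorem cUU (N : ℕ) : CompactSpace (UU N) := by
  have h1 : IsCompact (Set.pi Set.univ fun _ : Fin N => Set.pi Set.univ fun _ : Fin N => Metric.closedBall (0 : ℂ) 1) :=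
    isCompact_univ_pi fun _ => isCompact_univ_pi fun _ => isCompact_closedBall _ _
  have h2 : IsCompact ({M : Mt N | ∀ i j, M i j ∈ Metric.closedBall (0 : ℂ) 1} : Set (Mt N)) := by
    have : ({M : Mt N | ∀ i j, M i j ∈ Metric.closedBall (0 : ℂ) 1} : Set (Mt N)) = (Set.pi Set.univ fun _ : Fin N => Set.pi Set.univ fun _ : Fin N => Metric.closedBall (0 : ℂ) 1) := by
      ext M
      exact ⟨fun h i _ j _ => h i j, fun h i j => h i trivial j trivial⟩
    rw [this]; exact h1
  have h3 : IsClosed ((UU N : Submonoid (Mt N)) : Set (Mt N)) := by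
    have : ((UU N : Submonoid (Mt N)) : Set (Mt N)) = {M | star M * M = 1} := by
      ext M; exact Matrix.mem_unitaryGroup_iff'
    rw [this]
    exact isClosed_eq ((continuous_id.matrix_conjTranspose).mul continuous_id) continuous_const
  have h4 : IsCompact ((UU N : Submonoid (Mt N)) : Set (Mt N)) := by
    refine h2.of_isClosed_subset h3 ?_
    intro M hM i j
    rw [mem_closedBall_zero_iff]
    exact entry_norm_bound_of_unitary hM i j
  exact isCompact_iff_compactSpace.1 h4

theorem sUU (N : ℕ) : SecondCountableTopology (UU N) := by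
  have : SecondCountableTopology (Mt N) := inferInstanceAs (SecondCountableTopology (Fin N → Fin N → ℂ))
  exact TopologicalSpace.Subtype.secondCountableTopology _

theorem cint {Z V : Type} [TopologicalSpace Z] [CompactSpace Z] [MeasurableSpace Z]
    [OpensMeasurableSpace Z] [NormedAddCommGroup V] (μ : Measure Z) [IsFiniteMeasure μ]
    {f : Z → V} (hf : Continuous f) : Integrable f μ :=
  hf.integrable_of_hasCompactSupport (HasCompactSupport.of_compactSpace f)

/-- the coordinates of a matrix as real functions -/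
def cd (t : Fin N × Fin N × Bool) (g : G) : ℝ :=
  if t.2.2 then (mt g t.1 t.2.1).re else (mt g t.1 t.2.1).im

theorem cd_cont (t : Fin N × Fin N × Bool) : Continuous (cd t : G → ℝ) := by
  have h : Continuous fun g : G => mt g t.1 t.2.1 := mt_cont.matrix_elem t.1 t.2.1
  unfold cd
  split_ifs
  · exact Complex.continuous_re.comp h
  · exact Complex.continuous_im.comp h

theorem rt_eq (a b : G) : rt a b = ∑ t : Fin N × Fin N × Bool, cd t a * cd t b := by
  unfold rt
  rw [Matrix.trace, Complex.re_sum]
  rw [Fintype.sum_prod_type]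
  refine Finset.sum_congr rfl fun i _ => ?_
  rw [Matrix.diag_apply, Matrix.mul_apply, Complex.re_sum, Fintype.sum_prod_type]
  refine Finset.sum_congr rfl fun k _ => ?_
  rw [Fintype.sum_bool]
  simp only [cd, Matrix.conjTranspose_apply, Complex.mul_re, if_true]
  simp

theorem rt_cont (e : E) : Continuous fun z : (E → G) × (E → G) => rt (z.1 e) (z.2 e) := by
  simp only [rt_eq]
  refine continuous_finsetSum _ fun t _ => ?_
  exact ((cd_cont t).comp ((continuous_apply e).comp continuous_fst)).mul
    ((cd_cont t).comp ((continuous_apply e).comp continuous_snd))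

section meas

variable [CompactSpace G] [SecondCountableTopology G] [MeasurableSpace G] [BorelSpace G]
  (μ : Measure G) [IsProbabilityMeasure μ]

/-- the integrand of the form -/
def ig (K : (E → G) → (E → G) → ℝ) (F : (E → G) → ℂ) (z : (E → G) × (E → G)) : ℝ :=
  (conj (F z.1) * F z.2).re * K z.1 z.2

theorem ig_cont {K : (E → G) → (E → G) → ℝ} {F : (E → G) → ℂ}
    (hK : Continuous fun z : (E → G) × (E → G) => K z.1 z.2) (hF : Continuous F) :
    Continuous (ig K F) := by
  unfold ig
  refine (Complex.continuous_re.comp ?_).mul hK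
  exact (Complex.continuous_conj.comp (hF.comp continuous_fst)).mul (hF.comp continuous_snd)

theorem frm_eq {K : (E → G) → (E → G) → ℝ} {F : (E → G) → ℂ}
    (hK : Continuous fun z : (E → G) × (E → G) => K z.1 z.2) (hF : Continuous F) :
    frm μ K F F = ∫ z, ig K F z ∂((Measure.pi fun _ : E => μ).prod (Measure.pi fun _ : E => μ)) := by
  unfold frm
  rw [integral_prod _ (cint _ (ig_cont hK hF))]
  rfl

/-- positive definite continuous kernels -/
def PD (K : (E → G) → (E → G) → ℝ) : Prop :=
  (Continuous fun z : (E → G) × (E → G) => K z.1 z.2) ∧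
    ∀ F : (E → G) → ℂ, Continuous F → 0 ≤ frm μ K F F

theorem PD_w {w : (E → G) → ℝ} (hw : Continuous w) : PD μ fun U V => w U * w V := by
  refine ⟨(hw.comp continuous_fst).mul (hw.comp continuous_snd), fun F hF => ?_⟩
  unfold frm
  set ν : Measure (E → G) := Measure.pi fun _ : E => μ with hν
  set I : ℂ := ∫ V, (w V : ℂ) * F V ∂ν with hI
  have hc : Continuous fun V => (w V : ℂ) * F V :=
    (Complex.continuous_ofReal.comp hw).mul hF
  have h1 : ∀ U, ∫ V, (conj (F U) * F V).re * (w U * w V) ∂ν =
      (conj ((w U : ℂ) * F U) * I).re := by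
    intro U
    have e1 : ∀ V, (conj (F U) * F V).re * (w U * w V) =
        RCLike.re (conj ((w U : ℂ) * F U) * ((w V : ℂ) * F V)) := by
      intro V
      simp only [map_mul, Complex.conj_ofReal]
      simp
      ring
    simp only [e1]
    rw [integral_re ((cint ν hc).const_mul _), integral_const_mul]
    rfl
  simp only [h1]
  have h2 : ∫ U, (conj ((w U : ℂ) * F U) * I).re ∂ν = (conj I * I).re := by
    have e2 : ∀ U, (conj ((w U : ℂ) * F U) * I).re =
        RCLike.re (conj ((w U : ℂ) * F U) * I) := fun U => rfl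
    simp only [e2]
    have hc' : Continuous fun U => conj ((w U : ℂ) * F U) := Complex.continuous_conj.comp hc
    rw [integral_re ((cint ν hc').mul_const _), integral_mul_const, integral_conj, ← hI]
    rfl
  rw [h2]
  have h3 : conj I * I = ((Complex.normSq I : ℝ) : ℂ) := by
    rw [mul_comm, Complex.mul_conj]
  rw [h3, Complex.ofReal_re]
  exact Complex.normSq_nonneg I

theorem PD_mul {K : (E → G) → (E → G) → ℝ} (hK : PD μ K) {φ : (E → G) → ℝ} (hφ : Continuous φ) :
    PD μ fun U V => φ U * φ V * K U V := by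
  refine ⟨((hφ.comp continuous_fst).mul (hφ.comp continuous_snd)).mul hK.1, fun F hF => ?_⟩
  have h := hK.2 (fun U => (φ U : ℂ) * F U) ((Complex.continuous_ofReal.comp hφ).mul hF)
  refine le_of_le_of_eq h ?_
  unfold frm
  refine integral_congr_ae (Eventually.of_forall fun U => ?_)
  refine integral_congr_ae (Eventually.of_forall fun V => ?_)
  simp only [map_mul, Complex.conj_ofReal]
  have : (φ U : ℂ) * conj (F U) * ((φ V : ℂ) * F V) =
      ((φ U * φ V : ℝ) : ℂ) * (conj (F U) * F V) := by
    push_cast; ring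
  rw [this, Complex.re_ofReal_mul]
  ring

theorem PD_sum {ι : Type} (s : Finset ι) {K : ι → (E → G) → (E → G) → ℝ}
    (hK : ∀ i ∈ s, PD μ (K i)) : PD μ fun U V => ∑ i ∈ s, K i U V := by
  have hc : Continuous fun z : (E → G) × (E → G) => ∑ i ∈ s, K i z.1 z.2 :=
    continuous_finsetSum _ fun i hi => (hK i hi).1
  refine ⟨hc, fun F hF => ?_⟩
  rw [frm_eq μ hc hF]
  have h1 : ∀ z, ig (fun U V => ∑ i ∈ s, K i U V) F z = ∑ i ∈ s, ig (K i) F z := by
    intro z
    unfold ig
    rw [Finset.mul_sum]
  simp only [h1]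
  rw [integral_finsetSum _ fun i hi => cint _ (ig_cont (hK i hi).1 hF)]
  refine Finset.sum_nonneg fun i hi => ?_
  rw [← frm_eq μ (hK i hi).1 hF]
  exact (hK i hi).2 F hF

theorem PD_smul {K : (E → G) → (E → G) → ℝ} (hK : PD μ K) {c : ℝ} (hc : 0 ≤ c) :
    PD μ fun U V => c * K U V := by
  have h := PD_mul μ hK (φ := fun _ => Real.sqrt c) continuous_const
  have e : (fun U V : E → G => Real.sqrt c * Real.sqrt c * K U V) = fun U V => c * K U V := by
    funext U V
    rw [Real.mul_self_sqrt hc]
  rwa [e] at h

theorem PD_rt {K : (E → G) → (E → G) → ℝ} (hK : PD μ K) (e : E) :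
    PD μ fun U V => K U V * rt (U e) (V e) := by
  have h := PD_sum μ (Finset.univ : Finset (Fin N × Fin N × Bool))
    (K := fun t U V => cd t (U e) * cd t (V e) * K U V)
    (fun t _ => PD_mul μ hK (φ := fun U => cd t (U e)) ((cd_cont t).comp (continuous_apply e)))
  have e1 : (fun U V : E → G => ∑ t : Fin N × Fin N × Bool, cd t (U e) * cd t (V e) * K U V) =
      fun U V => K U V * rt (U e) (V e) := by
    funext U V
    rw [← Finset.sum_mul, ← rt_eq, mul_comm]
  rwa [e1] at h

theorem PD_rt_pow {K : (E → G) → (E → G) → ℝ} (hK : PD μ K) (e : E) (j : ℕ) :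
    PD μ fun U V => K U V * rt (U e) (V e) ^ j := by
  induction j with
  | zero => simpa using hK
  | succ j ih =>
    have h := PD_rt μ ih e
    have e1 : (fun U V : E → G => K U V * rt (U e) (V e) ^ j * rt (U e) (V e)) =
        fun U V => K U V * rt (U e) (V e) ^ (j + 1) := by
      funext U V
      rw [pow_succ, mul_assoc]
    rwa [e1] at h

theorem sum_le_exp_abs (x : ℝ) (J : ℕ) :
    |∑ j ∈ Finset.range J, x ^ j / (j.factorial : ℝ)| ≤ Real.exp |x| := by
  refine (Finset.abs_sum_le_sum_abs _ _).trans ?_
  have h := Real.sum_le_exp_of_nonneg (abs_nonneg x) J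
  refine le_trans (le_of_eq ?_) h
  refine Finset.sum_congr rfl fun j _ => ?_
  rw [abs_div, abs_pow, Nat.abs_cast]

theorem PD_exp {K : (E → G) → (E → G) → ℝ} (hK : PD μ K) (e : E) {b : ℝ} (hb : 0 ≤ b) :
    PD μ fun U V => K U V * Real.exp (b * rt (U e) (V e)) := by
  have hrt := rt_cont (G := G) e
  have hc : Continuous fun z : (E → G) × (E → G) => K z.1 z.2 * Real.exp (b * rt (z.1 e) (z.2 e)) :=
    hK.1.mul (Real.continuous_exp.comp (continuous_const.mul hrt))
  refine ⟨hc, fun F hF => ?_⟩
  have hJ : ∀ J : ℕ, PD μ fun U V : E → G => ∑ j ∈ Finset.range J,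
      b ^ j / (j.factorial : ℝ) * (K U V * rt (U e) (V e) ^ j) := fun J =>
    PD_sum μ (Finset.range J) (K := fun j U V => b ^ j / (j.factorial : ℝ) * (K U V * rt (U e) (V e) ^ j))
      (fun j _ => PD_smul μ (PD_rt_pow μ hK e j) (by positivity))
  have key : ∀ (J : ℕ) (U V : E → G), ∑ j ∈ Finset.range J,
      b ^ j / (j.factorial : ℝ) * (K U V * rt (U e) (V e) ^ j) =
      K U V * ∑ j ∈ Finset.range J, (b * rt (U e) (V e)) ^ j / (j.factorial : ℝ) := by
    intro J U V
    rw [Finset.mul_sum]
    refine Finset.sum_congr rfl fun j _ => ?_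
    rw [mul_pow]; ring
  rw [frm_eq μ hc hF]
  have hlim : Tendsto (fun J : ℕ => ∫ z, ig (fun U V : E → G => ∑ j ∈ Finset.range J,
      b ^ j / (j.factorial : ℝ) * (K U V * rt (U e) (V e) ^ j)) F z
        ∂((Measure.pi fun _ : E => μ).prod (Measure.pi fun _ : E => μ))) atTop
      (𝓝 (∫ z, ig (fun U V => K U V * Real.exp (b * rt (U e) (V e))) F z
        ∂((Measure.pi fun _ : E => μ).prod (Measure.pi fun _ : E => μ)))) := by
    refine tendsto_integral_of_dominated_convergence
      (fun z => |(conj (F z.1) * F z.2).re| * (|K z.1 z.2| * Real.exp |b * rt (z.1 e) (z.2 e)|))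
      ?_ ?_ ?_ ?_
    · intro J
      exact (cint _ (ig_cont (hJ J).1 hF)).aestronglyMeasurable
    · refine cint _ ?_
      refine (continuous_abs.comp (Complex.continuous_re.comp ?_)).mul
        ((continuous_abs.comp hK.1).mul (Real.continuous_exp.comp
          (continuous_abs.comp (continuous_const.mul hrt))))
      exact (Complex.continuous_conj.comp (hF.comp continuous_fst)).mul (hF.comp continuous_snd)
    · intro J
      refine Eventually.of_forall fun z => ?_
      unfold ig
      beta_reduce
      rw [key, Real.norm_eq_abs, abs_mul, abs_mul]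
      have := sum_le_exp_abs (b * rt (z.1 e) (z.2 e)) J
      gcongr
    · refine Eventually.of_forall fun z => ?_
      unfold ig
      refine Tendsto.const_mul _ ?_
      simp only [key]
      refine Tendsto.const_mul _ ?_
      have h := NormedSpace.expSeries_div_hasSum_exp (𝔸 := ℝ) (b * rt (z.1 e) (z.2 e))
      rw [← Real.exp_eq_exp_ℝ] at h
      exact h.tendsto_sum_nat
  refine ge_of_tendsto' hlim fun J => ?_
  rw [← frm_eq μ (hJ J).1 hF]
  exact (hJ J).2 F hF

theorem PD_prod {w : (E → G) → ℝ} (hw : Continuous w) (j : E → ℕ) (b : E → ℝ)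
    (hb : ∀ e, 0 ≤ b e) (s : Finset E) : PD μ fun U V => w U * w V *
      ∏ e ∈ s, (rt (U e) (V e) ^ j e * Real.exp (b e * rt (U e) (V e))) := by
  classical
  induction s using Finset.induction_on with
  | empty => simpa using PD_w μ hw
  | insert e s he ih =>
    have h := PD_exp μ (PD_rt_pow μ ih e (j e)) e (hb e)
    have e1 : (fun U V : E → G => (w U * w V *
        ∏ e ∈ s, (rt (U e) (V e) ^ j e * Real.exp (b e * rt (U e) (V e)))) *
          rt (U e) (V e) ^ j e * Real.exp (b e * rt (U e) (V e))) = fun U V => w U * w V *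
        ∏ e ∈ insert e s, (rt (U e) (V e) ^ j e * Real.exp (b e * rt (U e) (V e))) := by
      funext U V
      rw [Finset.prod_insert he]
      ring
    rwa [e1] at h

end meas

end

end Pool.Agent.H189.WA.POS

namespace Pool.Agent.H189.WA

open Pool.Agent.H189.KS MeasureTheory

theorem t_POS : S_POS := by
  intro N G hG _ _ μ _ E _ w hw j b hb F hF
  have h0 := POS.cUU N
  have h1 : CompactSpace G := isCompact_iff_compactSpace.1 hG.isCompact
  have h2 := POS.sUU N
  have h3 : SecondCountableTopology G := TopologicalSpace.Subtype.secondCountableTopology _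
  exact (POS.PD_prod μ hw j b hb Finset.univ).2 F hF

end Pool.Agent.H189.WA
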