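import Mathlib
import Pool.Agent.H189.WA.Stm

/-!
# The kernel of the transfer matrix is strictly positive definite
-/

open MeasureTheory Matrix Filter
open scoped ContDiff ComplexConjugate

namespace Pool.Agent.H189.WA

open Pool.Agent.H189.KS

set_option linter.unusedSectionVars false
set_option linter.unusedVariables false

noncomputable section

namespace STR

theorem cUU (N : ℕ) : CompactSpace (UU N) := by
  have h1 : IsCompact (Set.pi Set.univ fun _ : Fin N => Set.pi Set.univ fun _ : Fin N =>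
      Metric.closedBall (0 : ℂ) 1) :=
    isCompact_univ_pi fun _ => isCompact_univ_pi fun _ => isCompact_closedBall _ _
  have h2 : IsCompact ({M : Mt N | ∀ i j, M i j ∈ Metric.closedBall (0 : ℂ) 1} : Set (Mt N)) := by
    have : ({M : Mt N | ∀ i j, M i j ∈ Metric.closedBall (0 : ℂ) 1} : Set (Mt N)) =
        (Set.pi Set.univ fun _ : Fin N => Set.pi Set.univ fun _ : Fin N =>
          Metric.closedBall (0 : ℂ) 1) := by
      ext M
      exact ⟨fun h i _ j _ => h i j, fun h i j => h i trivial j trivial⟩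
    rw [this]; exact h1
  have h3 : IsClosed ((UU N : Submonoid (Mt N)) : Set (Mt N)) := by
    have : ((UU N : Submonoid (Mt N)) : Set (Mt N)) = {M | star M * M = 1} := by
      ext M; exact Matrix.mem_unitaryGroup_iff'
    rw [this]
    exact isClosed_eq ((continuous_id.matrix_conjTranspose).mul continuous_id) continuous_const
  have h4 : IsCompact ((UU N : Submonoid (Mt N)) : Set (Mt N)) := by
    refine h2.of_isClosed_subset h3 ?_
    intro M hM i j
    rw [mem_closedBall_zero_iff]
    exact entry_norm_bound_of_unitary hM i j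
  exact isCompact_iff_compactSpace.1 h4

theorem sUU (N : ℕ) : SecondCountableTopology (UU N) := by
  have : SecondCountableTopology (Mt N) :=
    inferInstanceAs (SecondCountableTopology (Fin N → Fin N → ℂ))
  exact TopologicalSpace.Subtype.secondCountableTopology _

theorem cint {Z V : Type} [TopologicalSpace Z] [CompactSpace Z] [MeasurableSpace Z]
    [OpensMeasurableSpace Z] [NormedAddCommGroup V] (μ : Measure Z) [IsFiniteMeasure μ]
    {f : Z → V} (hf : Continuous f) : Integrable f μ :=
  hf.integrable_of_hasCompactSupport (HasCompactSupport.of_compactSpace f)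

/-- the exponential series under the integral -/
theorem series {Z : Type} [TopologicalSpace Z] [CompactSpace Z] [MeasurableSpace Z]
    [OpensMeasurableSpace Z] (ρ : Measure Z) [IsProbabilityMeasure ρ] {q k : Z → ℝ}
    (qc : Continuous q) (kc : Continuous k) {β : ℝ} (hβ : 0 < β) :
    HasSum (fun n : ℕ => β ^ n / (n.factorial : ℝ) * ∫ p, q p * k p ^ n ∂ρ)
      (∫ p, q p * Real.exp (β * k p) ∂ρ) := by
  obtain ⟨M, hM⟩ : ∃ M, ∀ p, ‖k p‖ ≤ M := by
    obtain ⟨M, hM⟩ := isCompact_univ.exists_bound_of_continuousOn kc.continuousOn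
    exact ⟨M, fun p => hM p (Set.mem_univ p)⟩
  obtain ⟨Q, hQ⟩ : ∃ Q, ∀ p, ‖q p‖ ≤ Q := by
    obtain ⟨Q, hQ⟩ := isCompact_univ.exists_bound_of_continuousOn qc.continuousOn
    exact ⟨Q, fun p => hQ p (Set.mem_univ p)⟩
  have Fc : ∀ n : ℕ, Continuous fun p => β ^ n / (n.factorial : ℝ) * (q p * k p ^ n) := by
    intro n
    exact continuous_const.mul (qc.mul (kc.pow n))
  have hint : ∀ n : ℕ, Integrable (fun p => β ^ n / (n.factorial : ℝ) * (q p * k p ^ n)) ρ :=
    fun n => cint _ (Fc n)
  have hb : ∀ (n : ℕ) p, ‖β ^ n / (n.factorial : ℝ) * (q p * k p ^ n)‖ ≤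
      |Q| * ((β * |M|) ^ n / (n.factorial : ℝ)) := by
    intro n p
    rw [norm_mul, norm_mul, norm_pow, Real.norm_of_nonneg (by positivity), mul_pow]
    have h2 : ‖k p‖ ≤ |M| := (hM p).trans (le_abs_self M)
    have h3 : ‖q p‖ ≤ |Q| := (hQ p).trans (le_abs_self Q)
    calc β ^ n / (n.factorial : ℝ) * (‖q p‖ * ‖k p‖ ^ n) ≤
          β ^ n / (n.factorial : ℝ) * (|Q| * |M| ^ n) := by gcongr
      _ = |Q| * (β ^ n * |M| ^ n / (n.factorial : ℝ)) := by ring
  have hsum : Summable fun n : ℕ => ∫ p, ‖β ^ n / (n.factorial : ℝ) * (q p * k p ^ n)‖ ∂ρ := by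
    refine Summable.of_nonneg_of_le (fun n => integral_nonneg fun p => norm_nonneg _)
      (f := fun n : ℕ => |Q| * ((β * |M|) ^ n / (n.factorial : ℝ))) ?_
      ((Real.summable_pow_div_factorial _).mul_left _)
    intro n
    calc ∫ p, ‖β ^ n / (n.factorial : ℝ) * (q p * k p ^ n)‖ ∂ρ
        ≤ ∫ p, |Q| * ((β * |M|) ^ n / (n.factorial : ℝ)) ∂ρ :=
          integral_mono (hint n).norm (integrable_const _) (hb n)
      _ = |Q| * ((β * |M|) ^ n / (n.factorial : ℝ)) := by simp
  have hs := hasSum_integral_of_summable_integral_norm hint hsum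
  have htot : ∀ p, ∑' n : ℕ, β ^ n / (n.factorial : ℝ) * (q p * k p ^ n) =
      q p * Real.exp (β * k p) := by
    intro p
    have h1 := NormedSpace.expSeries_div_hasSum_exp (𝔸 := ℝ) (β * k p)
    rw [← Real.exp_eq_exp_ℝ] at h1
    rw [← (h1.mul_left (q p)).tsum_eq]
    refine tsum_congr fun n => ?_
    rw [mul_pow]
    ring
  simp_rw [htot] at hs
  simp_rw [integral_const_mul] at hs
  exact hs

section core

variable {X : Type} [TopologicalSpace X] [CompactSpace X] [SecondCountableTopology X]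
  [MeasurableSpace X] [BorelSpace X] (ν : Measure X) [IsProbabilityMeasure ν]

/-- the integral of a product form -/
theorem prodform {h : X → ℂ} (hh : Continuous h) :
    ∫ p : X × X, (conj (h p.1) * h p.2).re ∂(ν.prod ν) = ‖∫ U, h U ∂ν‖ ^ 2 := by
  have h1 : Continuous fun p : X × X => conj (h p.1) * h p.2 := by fun_prop
  have h2 : ∫ p : X × X, (conj (h p.1) * h p.2).re ∂(ν.prod ν) =
      (∫ p : X × X, conj (h p.1) * h p.2 ∂(ν.prod ν)).re :=
    integral_re (𝕜 := ℂ) (cint _ h1)
  rw [h2, integral_prod_mul (fun U => conj (h U)) h, integral_conj, ← Complex.normSq_eq_conj_mul_self,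
    Complex.ofReal_re, Complex.normSq_eq_norm_sq]

variable {ι : Type} [Fintype ι] (y : ι → C(X, ℝ))

theorem moments {β : ℝ} (hβ : 0 < β) {H : X → ℂ} (hH : Continuous H)
    (h0 : ∫ U, ∫ V, (conj (H U) * H V).re * Real.exp (β * ∑ c, y c U * y c V) ∂ν ∂ν = 0)
    (n : ℕ) (c : Fin n → ι) : ∫ U, ((∏ t, y (c t) U : ℝ) : ℂ) * H U ∂ν = 0 := by
  classical
  have kc : Continuous fun p : X × X => ∑ c, y c p.1 * y c p.2 := by fun_prop
  have qc : Continuous fun p : X × X => (conj (H p.1) * H p.2).re :=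
    Complex.continuous_re.comp (by fun_prop)
  have hs := series (ν.prod ν) qc kc hβ
  have hlim : ∫ p : X × X, (conj (H p.1) * H p.2).re *
      Real.exp (β * ∑ c, y c p.1 * y c p.2) ∂(ν.prod ν) = 0 := by
    rw [integral_prod]
    · exact h0
    · exact cint _ (qc.mul (Real.continuous_exp.comp (continuous_const.mul kc)))
  rw [hlim] at hs
  have hyc : ∀ (n : ℕ) (c : Fin n → ι), Continuous fun U => ((∏ t, y (c t) U : ℝ) : ℂ) * H U := by
    intro n c
    refine Continuous.mul ?_ hH
    exact Complex.continuous_ofReal.comp (continuous_finsetProd _ fun t _ => (y (c t)).continuous)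
  have hFn : ∀ n : ℕ, ∫ p : X × X, (conj (H p.1) * H p.2).re *
      (∑ c, y c p.1 * y c p.2) ^ n ∂(ν.prod ν) =
      ∑ c : Fin n → ι, ‖∫ U, ((∏ t, y (c t) U : ℝ) : ℂ) * H U ∂ν‖ ^ 2 := by
    intro n
    have e : ∀ p : X × X, (conj (H p.1) * H p.2).re * (∑ c, y c p.1 * y c p.2) ^ n =
        ∑ c : Fin n → ι, (conj (((∏ t, y (c t) p.1 : ℝ) : ℂ) * H p.1) *
          (((∏ t, y (c t) p.2 : ℝ) : ℂ) * H p.2)).re := by
      intro p
      rw [Fintype.sum_pow]
      have e2 : ∀ c : Fin n → ι, (conj (((∏ t, y (c t) p.1 : ℝ) : ℂ) * H p.1) *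
          (((∏ t, y (c t) p.2 : ℝ) : ℂ) * H p.2)).re =
          (conj (H p.1) * H p.2).re * (∏ t, (y (c t) p.1 * y (c t) p.2)) := by
        intro c
        rw [Finset.prod_mul_distrib, map_mul, Complex.conj_ofReal]
        have : ((∏ t, y (c t) p.1 : ℝ) : ℂ) * conj (H p.1) *
            (((∏ t, y (c t) p.2 : ℝ) : ℂ) * H p.2) =
            (((∏ t, y (c t) p.1) * ∏ t, y (c t) p.2 : ℝ) : ℂ) * (conj (H p.1) * H p.2) := by
          push_cast
          ring
        rw [this, Complex.re_ofReal_mul, mul_comm]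
      simp_rw [e2]
      rw [← Finset.mul_sum]
    simp_rw [e]
    rw [integral_finsetSum]
    · refine Finset.sum_congr rfl fun c _ => ?_
      exact prodform ν (hyc n c)
    · intro c _
      refine cint _ ?_
      have h1 := hyc n c
      refine Complex.continuous_re.comp ?_
      exact (Complex.continuous_conj.comp (h1.comp continuous_fst)).mul (h1.comp continuous_snd)
  simp_rw [hFn] at hs
  have hpos : ∀ n : ℕ, 0 ≤ β ^ n / (n.factorial : ℝ) *
      ∑ c : Fin n → ι, ‖∫ U, ((∏ t, y (c t) U : ℝ) : ℂ) * H U ∂ν‖ ^ 2 := by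
    intro n
    positivity
  have hz := congrFun ((hasSum_zero_iff_of_nonneg hpos).1 hs) n
  simp only [Pi.zero_apply] at hz
  have hb : β ^ n / (n.factorial : ℝ) ≠ 0 := by positivity
  have hz2 := (mul_eq_zero.1 hz).resolve_left hb
  have hz3 := (Finset.sum_eq_zero_iff_of_nonneg (fun c _ => by positivity)).1 hz2 c
    (Finset.mem_univ c)
  exact norm_eq_zero.1 (pow_eq_zero_iff (two_ne_zero) |>.1 hz3)

/-- the continuous functions which are orthogonal to all monomials times `H` -/
def SM (H : X → ℂ) : Set C(X, ℝ) :=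
  {f | ∀ (n : ℕ) (c : Fin n → ι), ∫ U, ((f U * ∏ t, y (c t) U : ℝ) : ℂ) * H U ∂ν = 0}

theorem SM_cont {H : X → ℂ} (hH : Continuous H) (f : C(X, ℝ)) (n : ℕ) (c : Fin n → ι) :
    Integrable (fun U => ((f U * ∏ t, y (c t) U : ℝ) : ℂ) * H U) ν := by
  refine cint _ (Continuous.mul ?_ hH)
  exact Complex.continuous_ofReal.comp
    (f.continuous.mul (continuous_finsetProd _ fun t _ => (y (c t)).continuous))

theorem adj {β : ℝ} (hβ : 0 < β) {H : X → ℂ} (hH : Continuous H)
    (h0 : ∫ U, ∫ V, (conj (H U) * H V).re * Real.exp (β * ∑ c, y c U * y c V) ∂ν ∂ν = 0)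
    (f : C(X, ℝ)) (hf : f ∈ Algebra.adjoin ℝ (Set.range y)) :
    ∫ U, ((f U : ℝ) : ℂ) * H U ∂ν = 0 := by
  have key : ∀ g ∈ SM ν y H, f * g ∈ SM ν y H := by
    induction hf using Algebra.adjoin_induction with
    | mem f hf =>
      obtain ⟨b, rfl⟩ := hf
      intro g hg n c
      have h1 := hg (n + 1) (Fin.cons b c)
      simp only [Fin.prod_univ_succ, Fin.cons_zero, Fin.cons_succ] at h1
      rw [← h1]
      refine integral_congr_ae (Eventually.of_forall fun U => ?_)
      simp only [ContinuousMap.mul_apply]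
      push_cast
      ring
    | algebraMap r =>
      intro g hg n c
      have h1 := hg n c
      have h2 : ∀ U, (((algebraMap ℝ C(X, ℝ) r * g) U * ∏ t, y (c t) U : ℝ) : ℂ) * H U =
          (r : ℂ) * (((g U * ∏ t, y (c t) U : ℝ) : ℂ) * H U) := by
        intro U
        have h3 : (algebraMap ℝ C(X, ℝ) r) U = r := by
          rw [Algebra.algebraMap_eq_smul_one, ContinuousMap.smul_apply, ContinuousMap.one_apply,
            smul_eq_mul, mul_one]
        rw [ContinuousMap.mul_apply, h3]
        push_cast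
        ring
      simp_rw [h2]
      rw [integral_const_mul, h1, mul_zero]
    | add f f' _ _ h h' =>
      intro g hg n c
      have h2 : ∀ U, ((((f + f') * g) U * ∏ t, y (c t) U : ℝ) : ℂ) * H U =
          (((f * g) U * ∏ t, y (c t) U : ℝ) : ℂ) * H U +
          (((f' * g) U * ∏ t, y (c t) U : ℝ) : ℂ) * H U := by
        intro U
        simp only [ContinuousMap.mul_apply, ContinuousMap.add_apply]
        push_cast
        ring
      simp_rw [h2]
      rw [integral_add (SM_cont ν y hH _ n c) (SM_cont ν y hH _ n c), h g hg n c, h' g hg n c,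
        add_zero]
    | mul f f' _ _ h h' =>
      intro g hg
      rw [mul_assoc]
      exact h _ (h' g hg)
  have hone : (1 : C(X, ℝ)) ∈ SM ν y H := by
    intro n c
    simp only [ContinuousMap.one_apply, one_mul]
    exact moments ν y hβ hH h0 n c
  have h1 := key 1 hone 0 (fun i => i.elim0)
  simpa using h1

theorem core [ν.IsOpenPosMeasure] (hsep : ∀ U V : X, U ≠ V → ∃ c, y c U ≠ y c V)
    {β : ℝ} (hβ : 0 < β) {H : X → ℂ} (hH : Continuous H)
    (h0 : ∫ U, ∫ V, (conj (H U) * H V).re * Real.exp (β * ∑ c, y c U * y c V) ∂ν ∂ν = 0) :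
    ∀ U, H U = 0 := by
  set A : Subalgebra ℝ C(X, ℝ) := Algebra.adjoin ℝ (Set.range y) with hA
  have hAs : A.SeparatesPoints := by
    intro U V hUV
    obtain ⟨c, hc⟩ := hsep U V hUV
    exact ⟨y c, ⟨y c, Algebra.subset_adjoin ⟨c, rfl⟩, rfl⟩, hc⟩
  -- all integrals vanish
  have hall : ∀ f : C(X, ℝ), ∫ U, ((f U : ℝ) : ℂ) * H U ∂ν = 0 := by
    intro f
    set D := ∫ U, ‖H U‖ ∂ν with hD
    have hD0 : 0 ≤ D := integral_nonneg fun U => norm_nonneg _
    have hle : ∀ ε : ℝ, 0 < ε → ‖∫ U, ((f U : ℝ) : ℂ) * H U ∂ν‖ ≤ ε * D := by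
      intro ε hε
      obtain ⟨g, hg⟩ := ContinuousMap.exists_mem_subalgebra_near_continuousMap_of_separatesPoints
        A hAs f ε hε
      have hg0 := adj ν y hβ hH h0 g.1 g.2
      have i1 : Integrable (fun U => ((f U : ℝ) : ℂ) * H U) ν :=
        cint _ ((Complex.continuous_ofReal.comp f.continuous).mul hH)
      have i2 : Integrable (fun U => ((g.1 U : ℝ) : ℂ) * H U) ν :=
        cint _ ((Complex.continuous_ofReal.comp g.1.continuous).mul hH)
      have e1 : ∫ U, ((f U : ℝ) : ℂ) * H U ∂ν =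
          ∫ U, (((f U : ℝ) : ℂ) * H U - ((g.1 U : ℝ) : ℂ) * H U) ∂ν := by
        rw [integral_sub i1 i2, hg0, sub_zero]
      rw [e1]
      refine (norm_integral_le_integral_norm _).trans ?_
      rw [hD, ← integral_const_mul]
      refine integral_mono (i1.sub i2).norm ((cint ν hH.norm).const_mul ε) ?_
      intro U
      simp only
      rw [← sub_mul, norm_mul, ← Complex.ofReal_sub, Complex.norm_real]
      have h1 : ‖f U - g.1 U‖ ≤ ε := by
        have h2 : ‖((g : C(X, ℝ)) - f) U‖ ≤ ‖(g : C(X, ℝ)) - f‖ := ContinuousMap.norm_coe_le_norm _ U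
        rw [ContinuousMap.sub_apply] at h2
        rw [norm_sub_rev]
        exact h2.trans hg.le
      exact mul_le_mul_of_nonneg_right h1 (norm_nonneg _)
    have h1 : ‖∫ U, ((f U : ℝ) : ℂ) * H U ∂ν‖ ≤ 0 := by
      refine le_of_forall_pos_le_add fun ε hε => ?_
      have h2 := hle (ε / (D + 1)) (by positivity)
      refine h2.trans ?_
      rw [zero_add, div_mul_eq_mul_div, div_le_iff₀ (by positivity)]
      nlinarith
    exact norm_le_zero_iff.1 h1
  have hre : Continuous fun U => (H U).re := Complex.continuous_re.comp hH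
  have him : Continuous fun U => (H U).im := Complex.continuous_im.comp hH
  have h1 := congrArg Complex.re (hall ⟨fun U => (H U).re, hre⟩)
  have h2 := congrArg Complex.im (hall ⟨fun U => (H U).im, him⟩)
  have i1 : Integrable (fun U => (((H U).re : ℝ) : ℂ) * H U) ν :=
    cint _ ((Complex.continuous_ofReal.comp hre).mul hH)
  have i2 : Integrable (fun U => (((H U).im : ℝ) : ℂ) * H U) ν :=
    cint _ ((Complex.continuous_ofReal.comp him).mul hH)
  have e1 : ∫ U, (H U).re ^ 2 ∂ν = 0 := by
    have h3 : ∫ U, ((((H U).re : ℝ) : ℂ) * H U).re ∂ν = (∫ U, (((H U).re : ℝ) : ℂ) * H U ∂ν).re :=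
      integral_re (𝕜 := ℂ) i1
    have h4 : ∀ U, ((((H U).re : ℝ) : ℂ) * H U).re = (H U).re ^ 2 := by
      intro U
      rw [Complex.re_ofReal_mul, sq]
    simp_rw [h4] at h3
    rw [h3]
    simpa using h1
  have e2 : ∫ U, (H U).im ^ 2 ∂ν = 0 := by
    have h3 : ∫ U, ((((H U).im : ℝ) : ℂ) * H U).im ∂ν = (∫ U, (((H U).im : ℝ) : ℂ) * H U ∂ν).im :=
      integral_im (𝕜 := ℂ) i2
    have h4 : ∀ U, ((((H U).im : ℝ) : ℂ) * H U).im = (H U).im ^ 2 := by
      intro U
      rw [Complex.im_ofReal_mul, sq]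
    simp_rw [h4] at h3
    rw [h3]
    simpa using h2
  have z : ∀ g : X → ℝ, Continuous g → ∫ U, g U ^ 2 ∂ν = 0 → ∀ U, g U = 0 := by
    intro g hg hg0 U
    have h5 : (fun U => g U ^ 2) =ᵐ[ν] 0 :=
      (integral_eq_zero_iff_of_nonneg (fun U => sq_nonneg _) (cint ν (hg.pow 2))).1 hg0
    have h6 : (fun U => g U ^ 2) = fun _ => (0 : ℝ) :=
      (Continuous.ae_eq_iff_eq ν (hg.pow 2) continuous_const).1 h5
    have h7 := congrFun h6 U
    exact pow_eq_zero_iff (two_ne_zero) |>.1 h7
  intro U
  exact Complex.ext (z _ hre e1 U) (z _ him e2 U)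

end core

end STR

open STR in
/-- TARGET -/
theorem t_STR : S_STR := by
  intro N G hG _ _ μ _ _ E _ w hw hw0 β hβ F hF h0
  have : CompactSpace (UU N) := cUU N
  have : SecondCountableTopology (UU N) := sUU N
  have : CompactSpace G := isCompact_iff_compactSpace.1 hG.isCompact
  have : SecondCountableTopology G := TopologicalSpace.Subtype.secondCountableTopology _
  classical
  set ν : Measure (E → G) := Measure.pi fun _ : E => μ with hν
  set H : (E → G) → ℂ := fun U => (w U : ℂ) * F U with hH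
  have Hc : Continuous H := (Complex.continuous_ofReal.comp hw).mul hF
  have ent : ∀ (e : E) (i j : Fin N), Continuous fun U : E → G => mt (U e) i j := by
    intro e i j
    exact (continuous_apply_apply i j).comp (mt_cont.comp (continuous_apply e))
  let y : E × Fin N × Fin N × Bool → C(E → G, ℝ) := fun c =>
    match c with
    | (e, i, j, false) => ⟨fun U => (mt (U e) i j).re, Complex.continuous_re.comp (ent e i j)⟩
    | (e, i, j, true) => ⟨fun U => (mt (U e) i j).im, Complex.continuous_im.comp (ent e i j)⟩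
  have hsum : ∀ U V : E → G, ∑ c, y c U * y c V = ∑ e, rt (U e) (V e) := by
    intro U V
    simp only [Fintype.sum_prod_type, Fintype.sum_bool]
    refine Finset.sum_congr rfl fun e _ => ?_
    unfold rt
    rw [Matrix.trace, Complex.re_sum]
    refine Finset.sum_congr rfl fun i _ => ?_
    rw [Matrix.diag_apply, Matrix.mul_apply, Complex.re_sum]
    refine Finset.sum_congr rfl fun j _ => ?_
    rw [Matrix.conjTranspose_apply]
    show (mt (U e) i j).im * (mt (V e) i j).im + (mt (U e) i j).re * (mt (V e) i j).re = _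
    simp only [Complex.mul_re, Complex.star_def, Complex.conj_re, Complex.conj_im]
    ring
  have hsep : ∀ U V : E → G, U ≠ V → ∃ c, y c U ≠ y c V := by
    intro U V hUV
    by_contra hc
    push Not at hc
    apply hUV
    funext e
    refine mt_inj ?_
    ext i j
    exact Complex.ext (hc (e, i, j, false)) (hc (e, i, j, true))
  have key := core ν y hsep hβ Hc (by
    rw [← h0]
    unfold frm
    refine integral_congr_ae (Eventually.of_forall fun U => ?_)
    simp only
    refine integral_congr_ae (Eventually.of_forall fun V => ?_)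
    simp only
    rw [hsum, hH]
    unfold ker
    rw [← Real.exp_sum, ← Finset.mul_sum]
    simp only
    have : conj ((w U : ℂ) * F U) * ((w V : ℂ) * F V) =
        ((w U * w V : ℝ) : ℂ) * (conj (F U) * F V) := by
      rw [map_mul, Complex.conj_ofReal]
      push_cast
      ring
    rw [this, Complex.re_ofReal_mul]
    ring)
  intro U
  have h1 := key U
  rw [hH] at h1
  simp only at h1
  rcases mul_eq_zero.1 h1 with h2 | h2
  · exact absurd (Complex.ofReal_eq_zero.1 h2) (hw0 U).ne'
  · exact h2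

end

end Pool.Agent.H189.WA
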