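import Mathlib
import Pool.Agent.H189.WA.Stm

open MeasureTheory Matrix Filter
open scoped ContDiff ComplexConjugate Topology

namespace Pool.Agent.H189.WA

open Pool.Agent.H189.KS

set_option linter.unusedSectionVars false
set_option linter.unusedVariables false

namespace SUBL

noncomputable section

/-! ### an abstract group with one-parameter subgroups -/

section abs

variable {P : Type} [Group P] [TopologicalSpace P] [IsTopologicalGroup P]

/-- the mean over a one-parameter subgroup -/
def av (v : ℝ → P) (H : P → ℝ) (p : P) : ℝ := ∫ t in (-1 : ℝ)..1, H (p * v t)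

/-- the derivative -/
def dv (v : ℝ → P) (H : P → ℝ) (p : P) : ℝ := deriv (fun t => H (p * v t)) 0

theorem av_mem (V : Submodule ℝ (P → ℝ)) [FiniteDimensional ℝ V] (v : ℝ → P) (hv : Continuous v)
    (inv : ∀ H ∈ V, ∀ t, (fun p => H (p * v t)) ∈ V) (cont : ∀ H ∈ V, Continuous H)
    {H : P → ℝ} (hH : H ∈ V) : av v H ∈ V := by
  classical
  let b := Module.finBasis ℝ V
  let T : ℝ → V := fun t => ⟨fun p => H (p * v t), inv H hH t⟩
  have hT : Continuous T := by
    refine Continuous.subtype_mk ?_ _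
    exact continuous_pi fun p => (cont H hH).comp (continuous_const.mul hv)
  have hc : ∀ j, Continuous (fun t => b.coord j (T t)) := fun j =>
    (LinearMap.continuous_of_finiteDimensional (b.coord j)).comp hT
  have key : av v H = ∑ j, (∫ t in (-1:ℝ)..1, b.coord j (T t)) • ((b j : V) : P → ℝ) := by
    funext p
    have h1 : ∀ t, H (p * v t) = ∑ j, b.coord j (T t) * ((b j : V) : P → ℝ) p := by
      intro t
      have h := congrArg (fun x : V => (x : P → ℝ) p) (b.sum_repr (T t))
      simp only [AddSubmonoidClass.coe_finsetSum, Submodule.coe_smul, Finset.sum_apply,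
        Pi.smul_apply, smul_eq_mul] at h
      exact h.symm
    unfold av
    simp only [h1]
    rw [intervalIntegral.integral_finsetSum]
    · simp only [Finset.sum_apply, Pi.smul_apply, smul_eq_mul, intervalIntegral.integral_mul_const]
    · intro j _
      exact ((hc j).mul continuous_const).intervalIntegrable _ _
  rw [key]
  exact V.sum_mem fun j _ => V.smul_mem _ (b j).2

theorem dv_mem (V : Submodule ℝ (P → ℝ)) [FiniteDimensional ℝ V] (v : ℝ → P) (hv0 : v 0 = 1)
    (inv : ∀ H ∈ V, ∀ t, (fun p => H (p * v t)) ∈ V)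
    (sm : ∀ H ∈ V, ∀ p, ContDiff ℝ ∞ (fun t => H (p * v t)))
    {H : P → ℝ} (hH : H ∈ V) : dv v H ∈ V := by
  have hcl : IsClosed (V : Set (P → ℝ)) := Submodule.closed_of_finiteDimensional V
  have hlim : Tendsto (fun t : ℝ => t⁻¹ • ((fun p => H (p * v t)) - H)) (𝓝[≠] 0) (𝓝 (dv v H)) := by
    rw [tendsto_pi_nhds]
    intro p
    have hd : HasDerivAt (fun t => H (p * v t)) (dv v H p) 0 :=
      ((sm H hH p).differentiable (by simp)).differentiableAt.hasDerivAt
    rw [hasDerivAt_iff_tendsto_slope] at hd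
    refine hd.congr' ?_
    filter_upwards with t
    simp only [slope, sub_zero, hv0, mul_one, vsub_eq_sub, Pi.smul_apply, Pi.sub_apply, smul_eq_mul]
  refine hcl.mem_of_tendsto hlim ?_
  filter_upwards with t
  exact V.smul_mem _ (V.sub_mem (inv H hH t) hH)

/-- the differential equation -/
theorem ode (V : Submodule ℝ (P → ℝ)) [FiniteDimensional ℝ V] (v : ℝ → P) (hv0 : v 0 = 1)
    (hadd : ∀ s t, v (s + t) = v s * v t)
    (inv : ∀ H ∈ V, ∀ t, (fun p => H (p * v t)) ∈ V)
    (sm : ∀ H ∈ V, ∀ p, ContDiff ℝ ∞ (fun t => H (p * v t))) :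
    ∃ (q : ℕ) (c : Fin q → ℝ), ∀ H ∈ V, ∀ p, ∀ t,
      iteratedDeriv q (fun t => H (p * v t)) t =
        ∑ j : Fin q, c j * iteratedDeriv j (fun t => H (p * v t)) t := by
  have hd : ∀ H ∈ V, ∀ p, HasDerivAt (fun t => H (p * v t)) (dv v H p) 0 := fun H hH p =>
    ((sm H hH p).differentiable (by simp)).differentiableAt.hasDerivAt
  let D : V →ₗ[ℝ] V :=
    { toFun := fun H => ⟨dv v H, dv_mem V v hv0 inv sm H.2⟩
      map_add' := by
        intro H K
        refine Subtype.ext (funext fun p => ?_)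
        exact ((hd H H.2 p).add (hd K K.2 p)).deriv
      map_smul' := by
        intro c H
        refine Subtype.ext (funext fun p => ?_)
        exact ((hd H H.2 p).const_mul c).deriv }
  have hD : ∀ (H : V) (p : P) (t : ℝ), HasDerivAt (fun t => (H : P → ℝ) (p * v t))
      ((D H : P → ℝ) (p * v t)) t := by
    intro H p t
    have h1 := hd H H.2 (p * v t)
    have h2 : HasDerivAt (fun s => (H : P → ℝ) (p * v t * v (s - t))) ((D H : P → ℝ) (p * v t)) t := by
      have h3 : HasDerivAt (fun s : ℝ => s - t) 1 t := (hasDerivAt_id t).sub_const t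
      have h5 := HasDerivAt.comp_of_eq (h₂ := fun s => (H : P → ℝ) (p * v t * v s))
        (h := fun s : ℝ => s - t) t h1 h3 (sub_self t).symm
      rw [mul_one] at h5
      exact h5
    refine h2.congr_of_eventuallyEq (Eventually.of_forall fun s => ?_)
    dsimp only
    rw [mul_assoc, ← hadd, add_sub_cancel]
  have hit : ∀ (j : ℕ) (H : V) (p : P), iteratedDeriv j (fun t => (H : P → ℝ) (p * v t)) =
      fun t => (((D ^ j) H : V) : P → ℝ) (p * v t) := by
    intro j
    induction j with
    | zero => intro H p; simp [iteratedDeriv_zero]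
    | succ j ih =>
      intro H p
      rw [iteratedDeriv_succ, ih]
      funext t
      rw [(hD ((D ^ j) H) p t).deriv, pow_succ']
      rfl
  refine ⟨D.charpoly.natDegree, fun j => - D.charpoly.coeff j, ?_⟩
  intro H hH p t
  have hch := LinearMap.aeval_self_charpoly D
  rw [Polynomial.aeval_eq_sum_range, Finset.sum_range_succ, D.charpoly_monic.coeff_natDegree,
    one_smul] at hch
  have h1 := congrArg (fun L : V →ₗ[ℝ] V => ((L ⟨H, hH⟩ : V) : P → ℝ) (p * v t)) hch
  simp only [LinearMap.add_apply, LinearMap.sum_apply, LinearMap.smul_apply, Submodule.coe_add,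
    AddSubmonoidClass.coe_finsetSum, Submodule.coe_smul, Pi.add_apply, Finset.sum_apply,
    Pi.smul_apply, smul_eq_mul, LinearMap.zero_apply, Submodule.coe_zero, Pi.zero_apply] at h1
  have h2 := congrFun (hit D.charpoly.natDegree ⟨H, hH⟩ p) t
  have h3 : ∀ j : ℕ, iteratedDeriv j (fun t => H (p * v t)) t =
      (((D ^ j) ⟨H, hH⟩ : V) : P → ℝ) (p * v t) := fun j => congrFun (hit j ⟨H, hH⟩ p) t
  simp only [h3]
  rw [Finset.sum_range (fun j => D.charpoly.coeff j * (((D ^ j) ⟨H, hH⟩ : V) : P → ℝ) (p * v t))] at h1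
  simp only [neg_mul, Finset.sum_neg_distrib]
  linarith

/-- power bounds for the measures of the sublevel sets -/
def SL [MeasurableSpace P] (μ : Measure P) (H : P → ℝ) : Prop :=
  ∃ C a : ℝ, 0 < C ∧ 0 < a ∧ ∀ s : ℝ, 0 < s → μ.real {p | H p ≤ s} ≤ C * s ^ a

theorem fub [MeasurableSpace P] [BorelSpace P] [SecondCountableTopology P] (μ : Measure P)
    [IsProbabilityMeasure μ] [μ.IsMulRightInvariant] (v : ℝ → P) (hv : Continuous v)
    {H : P → ℝ} (hH : Continuous H) (hav : Continuous (av v H)) (s e r : ℝ) (he : 0 ≤ e)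
    (hb : ∀ p, r < av v H p →
      volume.real {t : ℝ | t ∈ Set.Icc (-1 : ℝ) 1 ∧ H (p * v t) ≤ s} ≤ e) :
    2 * μ.real {p | H p ≤ s} ≤ e + 2 * μ.real {p | av v H p ≤ r} := by
  let ν : Measure ℝ := volume.restrict (Set.Icc (-1:ℝ) 1)
  have hν : ν Set.univ = 2 := by
    simp only [ν, Measure.restrict_apply MeasurableSet.univ, Set.univ_inter, Real.volume_Icc]
    norm_num
  have : IsFiniteMeasure ν := ⟨by rw [hν]; norm_num⟩
  let A : Set (ℝ × P) := {x | H (x.2 * v x.1) ≤ s}
  have hA : MeasurableSet A := by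
    refine IsClosed.measurableSet ?_
    exact isClosed_le (hH.comp (continuous_snd.mul (hv.comp continuous_fst))) continuous_const
  have hB : MeasurableSet {p | av v H p ≤ r} :=
    (isClosed_le hav continuous_const).measurableSet
  have h1 : (ν.prod μ) A = 2 * μ {p | H p ≤ s} := by
    rw [Measure.prod_apply hA]
    have h : ∀ t, μ (Prod.mk t ⁻¹' A) = μ {p | H p ≤ s} := fun t =>
      measure_preimage_mul_right μ (v t) {p | H p ≤ s}
    simp only [h]
    rw [lintegral_const, hν, mul_comm]
  have h2 : (ν.prod μ) A ≤ ENNReal.ofReal e + 2 * μ {p | av v H p ≤ r} := by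
    rw [Measure.prod_apply_symm hA]
    have h : ∀ p, ν ((fun t => (t, p)) ⁻¹' A) ≤
        ENNReal.ofReal e + Set.indicator {p | av v H p ≤ r} (fun _ => (2 : ENNReal)) p := by
      intro p
      by_cases hp : av v H p ≤ r
      · rw [Set.indicator_of_mem (by exact hp)]
        calc ν ((fun t => (t, p)) ⁻¹' A) ≤ ν Set.univ := measure_mono (Set.subset_univ _)
          _ = 2 := hν
          _ ≤ _ := le_add_self
      · rw [Set.indicator_of_notMem (by exact hp), add_zero]
        have h3 := hb p (not_le.1 hp)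
        have h4 : ν ((fun t => (t, p)) ⁻¹' A) =
            volume {t : ℝ | t ∈ Set.Icc (-1 : ℝ) 1 ∧ H (p * v t) ≤ s} := by
          simp only [ν]
          rw [Measure.restrict_apply (measurable_prodMk_right hA), Set.inter_comm]
          rfl
        rw [h4]
        have h5 : volume {t : ℝ | t ∈ Set.Icc (-1 : ℝ) 1 ∧ H (p * v t) ≤ s} ≠ ⊤ := by
          refine ne_top_of_le_ne_top (b := volume (Set.Icc (-1:ℝ) 1)) ?_
            (measure_mono fun t ht => ht.1)
          rw [Real.volume_Icc]; exact ENNReal.ofReal_ne_top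
        rw [← ENNReal.ofReal_toReal h5]
        exact ENNReal.ofReal_le_ofReal h3
    calc ∫⁻ p, ν ((fun t => (t, p)) ⁻¹' A) ∂μ
        ≤ ∫⁻ p, (ENNReal.ofReal e +
          Set.indicator {p | av v H p ≤ r} (fun _ => (2 : ENNReal)) p) ∂μ := lintegral_mono h
      _ = _ := by
        rw [lintegral_add_left measurable_const, lintegral_const, measure_univ, mul_one,
          lintegral_indicator_const hB]
  rw [h1] at h2
  have h3 := ENNReal.toReal_mono (by finiteness) h2
  rw [ENNReal.toReal_mul, ENNReal.toReal_add (by finiteness) (by finiteness), ENNReal.toReal_mul,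
    ENNReal.toReal_ofReal he] at h3
  simpa [Measure.real] using h3

theorem sup_big [CompactSpace P] (v : ℝ → P) (hv : Continuous v) {H : P → ℝ} (hH : Continuous H)
    (H0 : ∀ p, 0 ≤ H p) (p : P) (r : ℝ) (hr : 2 * r < av v H p) :
    ∃ t ∈ Set.Icc (-1 : ℝ) 1, r ≤ |H (p * v t)| := by
  by_contra hcon
  push Not at hcon
  have hc : Continuous fun t => H (p * v t) := hH.comp (continuous_const.mul hv)
  have h1 : av v H p ≤ ∫ t in (-1 : ℝ)..1, r := by
    unfold av
    refine intervalIntegral.integral_mono_on (by norm_num) (hc.intervalIntegrable _ _)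
      intervalIntegrable_const fun t ht => ?_
    exact (le_abs_self _).trans (hcon t ht).le
  rw [intervalIntegral.integral_const] at h1
  simp only [smul_eq_mul] at h1
  linarith

theorem claim (hODE : S_ODE) [CompactSpace P] [MeasurableSpace P] [BorelSpace P]
    [SecondCountableTopology P] (μ : Measure P) [IsProbabilityMeasure μ] [μ.IsMulRightInvariant]
    (V : Submodule ℝ (P → ℝ)) [FiniteDimensional ℝ V] (v : ℝ → P) (hv : Continuous v)
    (hv0 : v 0 = 1) (hadd : ∀ s t, v (s + t) = v s * v t)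
    (inv : ∀ H ∈ V, ∀ t, (fun p => H (p * v t)) ∈ V) (cont : ∀ H ∈ V, Continuous H)
    (sm : ∀ H ∈ V, ∀ p, ContDiff ℝ ∞ (fun t => H (p * v t)))
    {H : P → ℝ} (hH : H ∈ V) (H0 : ∀ p, 0 ≤ H p) (hSL : SL μ (av v H)) : SL μ H := by
  obtain ⟨q, c, hqc⟩ := ode V v hv0 hadd inv sm
  obtain ⟨C1, a1, hC1, ha1, h1⟩ := hODE q c
  obtain ⟨C, a, hC, ha, h2⟩ := hSL
  have ha' : 0 < min (a1 / 2) (a / 2) := lt_min (by linarith) (by linarith)
  have h2a : 0 < (2 : ℝ) ^ a := Real.rpow_pos_of_pos (by norm_num) _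
  refine ⟨C1 + C * 2 ^ a + 1, min (a1 / 2) (a / 2), by positivity, ha', fun s hs => ?_⟩
  rcases le_or_gt 1 s with hs1 | hs1
  · have h3 : μ.real {p | H p ≤ s} ≤ 1 := measureReal_le_one
    have h4 : (1 : ℝ) ≤ s ^ min (a1 / 2) (a / 2) := Real.one_le_rpow hs1 ha'.le
    have h5 : 0 ≤ C * (2 : ℝ) ^ a := by positivity
    nlinarith
  · have hq : 0 < √s := Real.sqrt_pos.2 hs
    have hqs : √s * √s = s := Real.mul_self_sqrt hs.le
    have hq1 : √s ≤ 1 := Real.sqrt_le_one.2 hs1.le
    have hpow : ∀ b : ℝ, (√s) ^ b = s ^ (b / 2) := by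
      intro b
      rw [Real.sqrt_eq_rpow, ← Real.rpow_mul hs.le]
      congr 1
      ring
    have h3 := fub μ v hv (cont H hH) (cont _ (av_mem V v hv inv cont hH)) s
      (C1 * (√s) ^ a1) (2 * √s) (by positivity) (fun p hp => by
        have h4 := h1 (fun t => H (p * v t)) (sm H hH p) (hqc H hH p) (√s) (√s) hq hq hq1
          (sup_big v hv (cont H hH) H0 p _ hp)
        simp only [abs_of_nonneg (H0 _), hqs] at h4
        exact h4)
    have h4 := h2 (2 * √s) (by positivity)
    rw [Real.mul_rpow (by norm_num) hq.le, hpow] at h4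
    rw [hpow] at h3
    have h5 : s ^ (a1 / 2) ≤ s ^ min (a1 / 2) (a / 2) :=
      Real.rpow_le_rpow_of_exponent_ge hs hs1.le (min_le_left _ _)
    have h6 : s ^ (a / 2) ≤ s ^ min (a1 / 2) (a / 2) :=
      Real.rpow_le_rpow_of_exponent_ge hs hs1.le (min_le_right _ _)
    have h7 : 0 < s ^ min (a1 / 2) (a / 2) := Real.rpow_pos_of_pos hs _
    have h8 : C1 * s ^ (a1 / 2) ≤ C1 * s ^ min (a1 / 2) (a / 2) :=
      mul_le_mul_of_nonneg_left h5 hC1.le
    have h9 : C * 2 ^ a * s ^ (a / 2) ≤ C * 2 ^ a * s ^ min (a1 / 2) (a / 2) :=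
      mul_le_mul_of_nonneg_left h6 (by positivity)
    have h10 : 0 < C1 * s ^ min (a1 / 2) (a / 2) := by positivity
    nlinarith

theorem av_pos_iff (v : ℝ → P) (hv : Continuous v) {H : P → ℝ} (hH : Continuous H)
    (H0 : ∀ p, 0 ≤ H p) (p : P) : 0 < av v H p ↔ ∃ t ∈ Set.Icc (-1 : ℝ) 1, 0 < H (p * v t) := by
  have hc : Continuous fun t => H (p * v t) := hH.comp (continuous_const.mul hv)
  constructor
  · intro h
    by_contra hcon
    push Not at hcon
    have h1 : av v H p ≤ ∫ t in (-1 : ℝ)..1, (0 : ℝ) := by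
      unfold av
      exact intervalIntegral.integral_mono_on (by norm_num) (hc.intervalIntegrable _ _)
        intervalIntegrable_const fun t ht => hcon t ht
    simp only [intervalIntegral.integral_zero] at h1
    linarith
  · intro h
    unfold av
    exact intervalIntegral.integral_pos (by norm_num) hc.continuousOn (fun t _ => H0 _) h

theorem av_nonneg (v : ℝ → P) {H : P → ℝ} (H0 : ∀ p, 0 ≤ H p) (p : P) : 0 ≤ av v H p := by
  unfold av
  exact intervalIntegral.integral_nonneg (by norm_num) fun t _ => H0 _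

variable {D : Type}

/-- iterated means -/
def Iw (u : D → ℝ → P) (w : List D) (H : P → ℝ) : P → ℝ := w.foldr (fun d K => av (u d) K) H

theorem Iw_nonneg (u : D → ℝ → P) (w : List D) {H : P → ℝ} (H0 : ∀ p, 0 ≤ H p) :
    ∀ p, 0 ≤ Iw u w H p := by
  induction w with
  | nil => exact H0
  | cons d w ih => exact av_nonneg (u d) ih

theorem Iw_mem (V : Submodule ℝ (P → ℝ)) [FiniteDimensional ℝ V] (u : D → ℝ → P)
    (hu : ∀ d, Continuous (u d)) (inv : ∀ H ∈ V, ∀ d t, (fun p => H (p * u d t)) ∈ V)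
    (cont : ∀ H ∈ V, Continuous H) (w : List D) {H : P → ℝ} (hH : H ∈ V) : Iw u w H ∈ V := by
  induction w with
  | nil => exact hH
  | cons d w ih => exact av_mem V (u d) (hu d) (fun H hH t => inv H hH d t) cont ih

theorem cover [CompactSpace P] (V : Submodule ℝ (P → ℝ)) [FiniteDimensional ℝ V] (u : D → ℝ → P)
    (hu : ∀ d, Continuous (u d)) (hu0 : ∀ d, u d 0 = 1) (hadd : ∀ d s t, u d (s + t) = u d s * u d t)
    (hdense : Dense ((Subgroup.closure {g : P | ∃ d t, g = u d t} : Subgroup P) : Set P))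
    (inv : ∀ H ∈ V, ∀ d t, (fun p => H (p * u d t)) ∈ V) (cont : ∀ H ∈ V, Continuous H)
    {H : P → ℝ} (hH : H ∈ V) (H0 : ∀ p, 0 ≤ H p) (hne : ∃ p, 0 < H p) :
    ∃ w : List D, ∀ p, 0 < Iw u w H p := by
  let A : List D → Set P := fun w => {p | 0 < Iw u w H p}
  have hcw : ∀ w, Continuous (Iw u w H) := fun w => cont _ (Iw_mem V u hu inv cont w hH)
  have hopen : ∀ w, IsOpen (A w) := fun w => isOpen_lt continuous_const (hcw w)
  have hcons : ∀ d w p, p ∈ A (d :: w) ↔ ∃ t ∈ Set.Icc (-1 : ℝ) 1, p * u d t ∈ A w := fun d w p =>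
    av_pos_iff (u d) (hu d) (hcw w) (Iw_nonneg u w H0) p
  have hone : ∀ d w, A w ⊆ A (d :: w) := fun d w p hp =>
    (hcons d w p).2 ⟨0, by constructor <;> norm_num, by rw [hu0, mul_one]; exact hp⟩
  have happ1 : ∀ v w, A w ⊆ A (v ++ w) := by
    intro v w
    induction v with
    | nil => exact subset_rfl
    | cons d v ih => exact ih.trans (hone d (v ++ w))
  have happ2 : ∀ v w, A v ⊆ A (v ++ w) := by
    intro v w
    induction v with
    | nil =>
      have := happ1 w []
      rw [List.append_nil] at this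
      exact this
    | cons d v ih =>
      intro p hp
      obtain ⟨t, ht, h⟩ := (hcons d v p).1 hp
      exact (hcons d (v ++ w) p).2 ⟨t, ht, ih h⟩
  have hdir : Directed (· ⊆ ·) A := fun v w => ⟨v ++ w, happ2 v w, happ1 v w⟩
  have hback : ∀ d, ∀ t ∈ Set.Icc (-1 : ℝ) 1, ∀ p, p * u d t ∈ (⋃ w, A w) → p ∈ ⋃ w, A w := by
    intro d t ht p hp
    obtain ⟨w, hw⟩ := Set.mem_iUnion.1 hp
    exact Set.mem_iUnion.2 ⟨d :: w, (hcons d w p).2 ⟨t, ht, hw⟩⟩
  have hneg : ∀ d t, u d t * u d (-t) = 1 := by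
    intro d t
    rw [← hadd, add_neg_cancel, hu0]
  let K : Subgroup P :=
    { carrier := {g | ∀ p, p ∈ (⋃ w, A w) ↔ p * g ∈ ⋃ w, A w}
      mul_mem' := by
        intro g h hg hh p
        rw [← mul_assoc]
        exact (hg p).trans (hh _)
      one_mem' := by
        intro p
        rw [mul_one]
      inv_mem' := by
        intro g hg p
        have := hg (p * g⁻¹)
        rw [inv_mul_cancel_right] at this
        exact this.symm }
  have hsmall : ∀ d, ∀ t ∈ Set.Icc (-1 : ℝ) 1, u d t ∈ K := by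
    intro d t ht p
    refine ⟨fun hp => ?_, hback d t ht p⟩
    refine hback d (-t) ⟨by linarith [ht.2], by linarith [ht.1]⟩ _ ?_
    rw [mul_assoc, hneg, mul_one]
    exact hp
  have hpw : ∀ d (k : ℕ) (s : ℝ), u d (k * s) = u d s ^ k := by
    intro d k s
    induction k with
    | zero => simp [hu0]
    | succ k ih =>
      rw [pow_succ, ← ih, ← hadd]
      congr 1
      push_cast
      ring
  have hall : ∀ d t, u d t ∈ K := by
    intro d t
    obtain ⟨k, hk⟩ := exists_nat_gt |t|
    have hk0 : (0 : ℝ) < k := lt_of_le_of_lt (abs_nonneg t) hk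
    have h1 : u d t = u d (t / k) ^ k := by
      rw [← hpw]
      congr 1
      field_simp
    rw [h1]
    refine K.pow_mem (hsmall d _ (abs_le.1 ?_)) k
    rw [abs_div, abs_of_pos hk0, div_le_one hk0]
    exact hk.le
  have hle : Subgroup.closure {g : P | ∃ d t, g = u d t} ≤ K := by
    rw [Subgroup.closure_le]
    rintro g ⟨d, t, rfl⟩
    exact hall d t
  have hO : IsOpen (⋃ w, A w) := isOpen_iUnion hopen
  have hU : ∀ p, p ∈ ⋃ w, A w := by
    intro p
    obtain ⟨p0, hp0⟩ := hne
    have h1 : IsOpen {h : P | p * h ∈ ⋃ w, A w} := hO.preimage (continuous_const.mul continuous_id)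
    obtain ⟨h, h2, h3⟩ := hdense.exists_mem_open h1
      ⟨p⁻¹ * p0, by
        show p * (p⁻¹ * p0) ∈ ⋃ w, A w
        rw [mul_inv_cancel_left]
        exact Set.mem_iUnion.2 ⟨[], hp0⟩⟩
    exact (hle h2 p).2 h3
  obtain ⟨w, hw⟩ := isCompact_univ.elim_directed_cover A hopen (fun p _ => hU p) hdir
  exact ⟨w, fun p => hw trivial⟩

theorem absmain (hODE : S_ODE) [CompactSpace P] [MeasurableSpace P] [BorelSpace P]
    [SecondCountableTopology P] (μ : Measure P) [IsProbabilityMeasure μ] [μ.IsMulRightInvariant]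
    (V : Submodule ℝ (P → ℝ)) [FiniteDimensional ℝ V] (u : D → ℝ → P)
    (hu : ∀ d, Continuous (u d)) (hu0 : ∀ d, u d 0 = 1) (hadd : ∀ d s t, u d (s + t) = u d s * u d t)
    (hdense : Dense ((Subgroup.closure {g : P | ∃ d t, g = u d t} : Subgroup P) : Set P))
    (inv : ∀ H ∈ V, ∀ d t, (fun p => H (p * u d t)) ∈ V) (cont : ∀ H ∈ V, Continuous H)
    (sm : ∀ H ∈ V, ∀ d p, ContDiff ℝ ∞ (fun t => H (p * u d t)))
    {H : P → ℝ} (hH : H ∈ V) (H0 : ∀ p, 0 ≤ H p) (hne : ∃ p, 0 < H p) : SL μ H := by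
  obtain ⟨w, hw⟩ := cover V u hu hu0 hadd hdense inv cont hH H0 hne
  have hcw : Continuous (Iw u w H) := cont _ (Iw_mem V u hu inv cont w hH)
  obtain ⟨p0, -, hp0⟩ := isCompact_univ.exists_isMinOn (Set.univ_nonempty (α := P))
    hcw.continuousOn
  have hmin : ∀ p, Iw u w H p0 ≤ Iw u w H p := fun p => hp0 (Set.mem_univ p)
  have hSL : SL μ (Iw u w H) := by
    refine ⟨(Iw u w H p0)⁻¹, 1, inv_pos.2 (hw p0), one_pos, fun s hs => ?_⟩
    rw [Real.rpow_one]
    rcases lt_or_ge s (Iw u w H p0) with h | h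
    · have h1 : {p | Iw u w H p ≤ s} = ∅ := by
        ext p
        simp only [Set.mem_ofPred_eq, Set.mem_empty_iff_false, iff_false, not_le]
        exact h.trans_le (hmin p)
      rw [h1, measureReal_empty]
      have := hw p0
      positivity
    · refine measureReal_le_one.trans ?_
      rw [inv_mul_eq_div, le_div_iff₀ (hw p0), one_mul]
      exact h
  clear hw hcw hp0 hmin
  induction w with
  | nil => exact hSL
  | cons d w ih =>
    exact ih (claim hODE μ V (u d) (hu d) (hu0 d) (hadd d) (fun H hH t => inv H hH d t) cont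
      (fun H hH p => sm H hH d p) (Iw_mem V u hu inv cont w hH) (Iw_nonneg u w H0) hSL)

end abs

/-! ### the group -/

theorem rinv {G : Type} [Group G] [TopologicalSpace G] [IsTopologicalGroup G] [CompactSpace G]
    [T2Space G] [SecondCountableTopology G]
    [MeasurableSpace G] [BorelSpace G] (μ : Measure G)
    [IsProbabilityMeasure μ] [μ.IsHaarMeasure] : μ.IsMulRightInvariant := by
  refine ⟨fun g => ?_⟩
  have : IsProbabilityMeasure (Measure.map (fun x : G => x * g) μ) :=
    Measure.isProbabilityMeasure_map (measurable_mul_const g).aemeasurable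
  exact Measure.isHaarMeasure_eq_of_isProbabilityMeasure _ _

theorem cUU (N : ℕ) : CompactSpace (UU N) := by
  have h1 : IsCompact (Set.pi Set.univ fun _ : Fin N => Set.pi Set.univ fun _ : Fin N => Metric.closedBall (0 : ℂ) 1) :=
    isCompact_univ_pi fun _ => isCompact_univ_pi fun _ => isCompact_closedBall _ _
  have h2 : IsCompact ({M : Mt N | ∀ i j, M i j ∈ Metric.closedBall (0 : ℂ) 1} : Set (Mt N)) := by
    have : ({M : Mt N | ∀ i j, M i j ∈ Metric.closedBall (0 : ℂ) 1} : Set (Mt N)) = (Set.pi Set.univ fun _ : Fin N => Set.pi Set.univ fun _ : Fin N => Metric.closedBall (0 : ℂ) 1) := by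
      ext M
      exact ⟨fun h i _ j _ => h i j, fun h i j => h i trivial j trivial⟩
    rw [this]; exact h1
  have h3 : IsClosed ((UU N : Submonoid (Mt N)) : Set (Mt N)) := by
    have : ((UU N : Submonoid (Mt N)) : Set (Mt N)) = {M | star M * M = 1} := by
      ext M; exact Matrix.mem_unitaryGroup_iff'
    rw [this]
    exact isClosed_eq ((continuous_id.matrix_conjTranspose).mul continuous_id) continuous_const
  have h4 : IsCompact ((UU N : Submonoid (Mt N)) : Set (Mt N)) := by
    refine h2.of_isClosed_subset h3 ?_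
    intro M hM i j
    rw [mem_closedBall_zero_iff]
    exact entry_norm_bound_of_unitary hM i j
  exact isCompact_iff_compactSpace.1 h4

theorem sUU (N : ℕ) : SecondCountableTopology (UU N) := by
  have : SecondCountableTopology (Mt N) := inferInstanceAs (SecondCountableTopology (Fin N → Fin N → ℂ))
  exact TopologicalSpace.Subtype.secondCountableTopology _

section conc

variable {N n : ℕ} {G : Subgroup (UU N)} {ι : Type} [Fintype ι] [DecidableEq ι]

section frob

open scoped Matrix.Norms.Frobenius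

theorem ex_smooth (B : LieBasis G n) (a : Fin n) (i j : Fin N) :
    ContDiff ℝ ∞ (fun t => mt (B.ex a t) i j) := by
  have h1 : ContDiff ℝ ∞ (NormedSpace.exp : Mt N → Mt N) :=
    contDiff_iff_contDiffAt.2 fun x => (NormedSpace.exp_analytic (𝕂 := ℝ) x).contDiffAt
  have h2 : ContDiff ℝ ∞ (fun t : ℝ => NormedSpace.exp (t • B.X a)) :=
    h1.comp (contDiff_id.smul contDiff_const)
  have h3 : ContDiff ℝ ∞ (fun M : Mt N => M i j) :=
    (LinearMap.toContinuousLinearMap (Matrix.entryLinearMap ℝ ℂ i j)).contDiff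
  have h4 := h3.comp h2
  have h5 : (fun t => mt (B.ex a t) i j) =
      (fun M : Mt N => M i j) ∘ fun t : ℝ => NormedSpace.exp (t • B.X a) := by
    funext t
    rw [B.ex_eq]
    rfl
  rw [h5]
  exact h4

theorem ex_cont (B : LieBasis G n) (a : Fin n) : Continuous (B.ex a) := by
  have h1 : Continuous (fun t => mt (B.ex a t)) := by
    have : (fun t => mt (B.ex a t)) = fun t : ℝ => NormedSpace.exp (t • B.X a) := funext (B.ex_eq a)
    rw [this]
    exact (NormedSpace.exp_continuous (𝔸 := Mt N)).comp (continuous_id.smul continuous_const)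
  exact Continuous.subtype_mk (Continuous.subtype_mk h1 _) _

end frob

/-- the one-parameter subgroups of the product -/
def uu (B : LieBasis G n) (d : ι × Fin n) (t : ℝ) : ι → G := Pi.mulSingle d.1 (B.ex d.2 t)

theorem uu_zero (B : LieBasis G n) (d : ι × Fin n) : uu B d 0 = 1 := by
  unfold uu
  rw [ex_zero, Pi.mulSingle_one]

theorem uu_add (B : LieBasis G n) (d : ι × Fin n) (s t : ℝ) :
    uu B d (s + t) = uu B d s * uu B d t := by
  unfold uu
  rw [ex_add, Pi.mulSingle_mul]

theorem uu_cont (B : LieBasis G n) (d : ι × Fin n) : Continuous (uu B d) := by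
  refine continuous_pi fun i => ?_
  unfold uu
  by_cases h : i = d.1
  · subst h
    simp only [Pi.mulSingle_eq_same]
    exact ex_cont B d.2
  · simp only [Pi.mulSingle_eq_of_ne h]
    exact continuous_const

theorem uu_dense (B : LieBasis G n)
    (hG : Dense ((Subgroup.closure {g : G | ∃ a t, g = B.ex a t} : Subgroup G) : Set G)) :
    Dense ((Subgroup.closure {g : ι → G | ∃ d t, g = uu B d t} : Subgroup (ι → G)) :
      Set (ι → G)) := by
  have h1 : Subgroup.pi Set.univ
      (fun _ : ι => Subgroup.closure {g : G | ∃ a t, g = B.ex a t}) ≤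
      Subgroup.closure {g : ι → G | ∃ d t, g = uu B d t} := by
    rw [Subgroup.pi_le_iff]
    intro i
    rw [Subgroup.map_le_iff_le_comap, Subgroup.closure_le]
    rintro g ⟨a, t, rfl⟩
    exact Subgroup.subset_closure ⟨(i, a), t, rfl⟩
  refine Dense.mono (fun x hx => h1 hx) ?_
  rw [Subgroup.coe_pi]
  exact dense_pi _ fun _ _ => hG

/-- nice functions -/
def nice (B : LieBasis G n) : Subalgebra ℝ ((ι → G) → ℝ) where
  carrier := {H | Continuous H ∧ ∀ (d : ι × Fin n) (p : ι → G),
    ContDiff ℝ ∞ (fun t => H (p * uu B d t))}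
  mul_mem' := fun {a b} ha hb => ⟨ha.1.mul hb.1, fun d p => (ha.2 d p).mul (hb.2 d p)⟩
  add_mem' := fun {a b} ha hb => ⟨ha.1.add hb.1, fun d p => (ha.2 d p).add (hb.2 d p)⟩
  algebraMap_mem' := fun r => ⟨continuous_const, fun d p => contDiff_const⟩

/-- contained in a finite dimensional space of nice functions which is invariant under
translations -/
def Rep (B : LieBasis G n) (F : (ι → G) → ℝ) : Prop :=
  ∃ V : Submodule ℝ ((ι → G) → ℝ), V.FG ∧ F ∈ V ∧
    (∀ (g : ι → G), ∀ H ∈ V, (fun p => H (p * g)) ∈ V) ∧ ∀ H ∈ V, H ∈ nice B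

theorem Rep.add {B : LieBasis G n} {F H : (ι → G) → ℝ} (hF : Rep B F) (hH : Rep B H) :
    Rep B (fun p => F p + H p) := by
  obtain ⟨V, h1, h2, h3, h4⟩ := hF
  obtain ⟨W, k1, k2, k3, k4⟩ := hH
  refine ⟨V ⊔ W, h1.sup k1, Submodule.add_mem_sup h2 k2, fun g K hK => ?_, fun K hK => ?_⟩
  · obtain ⟨x, hx, y, hy, rfl⟩ := Submodule.mem_sup.1 hK
    exact Submodule.add_mem_sup (h3 g x hx) (k3 g y hy)
  · obtain ⟨x, hx, y, hy, rfl⟩ := Submodule.mem_sup.1 hK
    exact (nice B).add_mem (h4 x hx) (k4 y hy)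

theorem Rep.mul {B : LieBasis G n} {F H : (ι → G) → ℝ} (hF : Rep B F) (hH : Rep B H) :
    Rep B (fun p => F p * H p) := by
  obtain ⟨V, h1, h2, h3, h4⟩ := hF
  obtain ⟨W, k1, k2, k3, k4⟩ := hH
  refine ⟨V * W, h1.mul k1, Submodule.mul_mem_mul h2 k2, fun g K hK => ?_, fun K hK => ?_⟩
  · refine Submodule.mul_induction_on hK (fun x hx y hy => ?_) (fun x y hx hy => ?_)
    · exact Submodule.mul_mem_mul (h3 g x hx) (k3 g y hy)
    · exact (V * W).add_mem hx hy
  · refine Submodule.mul_induction_on hK (fun x hx y hy => ?_) (fun x y hx hy => ?_)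
    · exact (nice B).mul_mem (h4 x hx) (k4 y hy)
    · exact (nice B).add_mem hx hy

theorem Rep.const (B : LieBasis G n) (c : ℝ) : Rep B (fun _ : ι → G => c) := by
  refine ⟨Submodule.span ℝ {fun _ => 1}, Submodule.fg_span_singleton _, ?_, fun g K hK => ?_,
    fun K hK => ?_⟩
  · rw [Submodule.mem_span_singleton]
    exact ⟨c, funext fun p => by simp⟩
  · rw [Submodule.mem_span_singleton] at hK ⊢
    obtain ⟨a, rfl⟩ := hK
    exact ⟨a, rfl⟩
  · rw [Submodule.mem_span_singleton] at hK
    obtain ⟨a, rfl⟩ := hK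
    exact (nice B).smul_mem (nice B).one_mem a

theorem entry_mul (p g : ι → G) (i : ι) (a b : Fin N) :
    mt ((p * g) i) a b = ∑ c, mt (p i) a c * mt (g i) c b := by
  rw [Pi.mul_apply, mt_mul, Matrix.mul_apply]

theorem entry_cont (i : ι) (a b : Fin N) : Continuous (fun p : ι → G => mt (p i) a b) :=
  (mt_cont.comp (continuous_apply i)).matrix_elem a b

theorem uu_smooth (B : LieBasis G n) (d : ι × Fin n) (i : ι) (a b : Fin N) :
    ContDiff ℝ ∞ (fun t => mt (uu B d t i) a b) := by
  unfold uu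
  by_cases h : i = d.1
  · subst h
    simp only [Pi.mulSingle_eq_same]
    exact ex_smooth B d.2 a b
  · simp only [Pi.mulSingle_eq_of_ne h]
    exact contDiff_const

theorem entry_smooth (B : LieBasis G n) (d : ι × Fin n) (p : ι → G) (i : ι) (a b : Fin N) :
    ContDiff ℝ ∞ (fun t => mt ((p * uu B d t) i) a b) := by
  simp only [entry_mul]
  exact ContDiff.sum fun c _ => contDiff_const.mul (uu_smooth B d i c b)

/-- the real and imaginary parts of the entries of a row -/
def gen (i : ι) (a : Fin N) (c : Fin N × Bool) (p : ι → G) : ℝ :=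
  if c.2 then (mt (p i) a c.1).re else (mt (p i) a c.1).im

theorem Rep.gen (B : LieBasis G n) (i : ι) (a : Fin N) (c : Fin N × Bool) :
    Rep B (gen (G := G) i a c) := by
  refine ⟨Submodule.span ℝ (Set.range (SUBL.gen (G := G) i a)),
    Submodule.fg_span (Set.finite_range _), Submodule.subset_span ⟨c, rfl⟩, fun g K hK => ?_,
    fun K hK => ?_⟩
  · refine Submodule.span_induction (p := fun H _ => (fun p => H (p * g)) ∈
      Submodule.span ℝ (Set.range (SUBL.gen (G := G) i a))) ?_ ?_ ?_ ?_ hK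
    · rintro H ⟨⟨b, e⟩, rfl⟩
      cases e
      · have h1 : (fun p => SUBL.gen (G := G) i a (b, false) (p * g)) =
            ∑ c, ((mt (g i) c b).im • SUBL.gen (G := G) i a (c, true) +
              (mt (g i) c b).re • SUBL.gen (G := G) i a (c, false)) := by
          funext p
          simp only [SUBL.gen, entry_mul, Complex.im_sum, Complex.mul_im, Finset.sum_apply,
            Pi.add_apply, Pi.smul_apply, smul_eq_mul, if_true, Bool.false_eq_true, if_false]
          exact Finset.sum_congr rfl fun c _ => by ring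
        rw [h1]
        exact Submodule.sum_mem _ fun c _ => Submodule.add_mem _
          (Submodule.smul_mem _ _ (Submodule.subset_span ⟨_, rfl⟩))
          (Submodule.smul_mem _ _ (Submodule.subset_span ⟨_, rfl⟩))
      · have h1 : (fun p => SUBL.gen (G := G) i a (b, true) (p * g)) =
            ∑ c, ((mt (g i) c b).re • SUBL.gen (G := G) i a (c, true) +
              (-(mt (g i) c b).im) • SUBL.gen (G := G) i a (c, false)) := by
          funext p
          simp only [SUBL.gen, entry_mul, Complex.re_sum, Complex.mul_re, Finset.sum_apply,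
            Pi.add_apply, Pi.smul_apply, smul_eq_mul, if_true, Bool.false_eq_true, if_false]
          exact Finset.sum_congr rfl fun c _ => by ring
        rw [h1]
        exact Submodule.sum_mem _ fun c _ => Submodule.add_mem _
          (Submodule.smul_mem _ _ (Submodule.subset_span ⟨_, rfl⟩))
          (Submodule.smul_mem _ _ (Submodule.subset_span ⟨_, rfl⟩))
    · exact Submodule.zero_mem _
    · intro x y _ _ hx hy
      exact Submodule.add_mem _ hx hy
    · intro r x _ hx
      exact Submodule.smul_mem _ r hx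
  · have h1 : Submodule.span ℝ (Set.range (SUBL.gen (G := G) i a)) ≤
        Subalgebra.toSubmodule (nice B) := by
      rw [Submodule.span_le]
      rintro H ⟨⟨b, e⟩, rfl⟩
      cases e
      · exact ⟨Complex.continuous_im.comp (entry_cont i a b), fun d p =>
          Complex.imCLM.contDiff.comp (entry_smooth B d p i a b)⟩
      · exact ⟨Complex.continuous_re.comp (entry_cont i a b), fun d p =>
          Complex.reCLM.contDiff.comp (entry_smooth B d p i a b)⟩
    exact h1 hK

theorem Rep.pol (B : LieBasis G n) {f : (ι → G) → ℂ} (hf : IsPol f) :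
    Rep B (fun p => (f p).re) ∧ Rep B (fun p => (f p).im) := by
  induction hf with
  | const c => exact ⟨Rep.const B _, Rep.const B _⟩
  | ent i a b => exact ⟨Rep.gen B i a (b, true), Rep.gen B i a (b, false)⟩
  | cnj i a b =>
    refine ⟨?_, ?_⟩
    · simp only [Complex.conj_re]
      exact Rep.gen B i a (b, true)
    · have h := (Rep.const (ι := ι) B (-1)).mul (Rep.gen B i a (b, false))
      simp only [Complex.conj_im]
      have h1 : (fun p : ι → G => -(mt (p i) a b).im) =
          fun p => -1 * SUBL.gen (G := G) i a (b, false) p := by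
        funext p
        simp [SUBL.gen]
      rw [h1]
      exact h
  | add _ _ h1 h2 =>
    simp only [Complex.add_re, Complex.add_im]
    exact ⟨h1.1.add h2.1, h1.2.add h2.2⟩
  | mul _ _ h1 h2 =>
    simp only [Complex.mul_re, Complex.mul_im]
    refine ⟨?_, (h1.1.mul h2.2).add (h1.2.mul h2.1)⟩
    have h := (h1.1.mul h2.1).add ((Rep.const (ι := ι) B (-1)).mul (h1.2.mul h2.2))
    simp only [neg_mul, one_mul, ← sub_eq_add_neg] at h
    exact h

end conc

end

end SUBL

open SUBL in
theorem t_SUBL (hODE : S_ODE) (hGEN : S_GEN) (hLB : S_LB) : S_SUBL := by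
  intro N G hG _ _ _ μ _ _ m f hf hne
  obtain ⟨n, ⟨B⟩⟩ := hLB N G hG
  have hc : CompactSpace (UU N) := cUU N
  have hs : SecondCountableTopology (UU N) := sUU N
  have hcG : CompactSpace G := isCompact_iff_compactSpace.1 hG.isCompact
  have hsG : SecondCountableTopology G := TopologicalSpace.Subtype.secondCountableTopology _
  have hr : μ.IsMulRightInvariant := rinv μ
  have hrep : Rep B (fun p : Fin m → G => (f p).re * (f p).re + (f p).im * (f p).im) :=
    ((Rep.pol B hf).1.mul (Rep.pol B hf).1).add ((Rep.pol B hf).2.mul (Rep.pol B hf).2)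
  obtain ⟨V, h1, h2, h3, h4⟩ := hrep
  have hfd : FiniteDimensional ℝ V := Module.Finite.iff_fg.2 h1
  have hsq : ∀ p, (f p).re * (f p).re + (f p).im * (f p).im = ‖f p‖ ^ 2 := by
    intro p
    rw [← Complex.normSq_eq_norm_sq, Complex.normSq_apply]
  have hSL : SL (Measure.pi fun _ : Fin m => μ)
      (fun p : Fin m → G => (f p).re * (f p).re + (f p).im * (f p).im) := by
    refine absmain hODE _ V (uu B) (uu_cont B) (uu_zero B) (uu_add B)
      (uu_dense B (hGEN N n G hG B)) (fun H hH d t => h3 _ H hH) (fun H hH => (h4 H hH).1)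
      (fun H hH d p => (h4 H hH).2 d p) h2 (fun p => ?_) ?_
    · rw [hsq]; positivity
    · obtain ⟨p, hp⟩ := hne
      refine ⟨p, ?_⟩
      rw [hsq]
      have := norm_pos_iff.2 hp
      positivity
  obtain ⟨C, a, hC, ha, h⟩ := hSL
  refine ⟨C, 2 * a, hC, by linarith, fun s hs => ?_⟩
  have h5 := h (s ^ 2) (by positivity)
  have h6 : (s ^ 2) ^ a = s ^ (2 * a) := by
    rw [← Real.rpow_natCast, ← Real.rpow_mul hs.le]
    norm_num
  rw [h6] at h5
  have h7 : {p : Fin m → G | ‖f p‖ ≤ s} =
      {p | (f p).re * (f p).re + (f p).im * (f p).im ≤ s ^ 2} := by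
    ext p
    simp only [Set.mem_ofPred_eq, hsq]
    exact (pow_le_pow_iff_left₀ (norm_nonneg _) hs.le two_ne_zero).symm
  rw [h7]
  exact h5

end Pool.Agent.H189.WA
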