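import Mathlib
import Pool.Agent.H189.WA.Stm

/-!
# SUPB. The supremum bound for polynomials of bounded degree
-/

open MeasureTheory Matrix Filter
open scoped ContDiff ComplexConjugate

namespace Pool.Agent.H189.WA.SUPB

open Pool.Agent.H189.KS

set_option linter.unusedSectionVars false

noncomputable section

/-! ### the general bound -/

section gen

variable {Γ : Type} [Group Γ] [TopologicalSpace Γ] [IsTopologicalGroup Γ] [CompactSpace Γ]
  [MeasurableSpace Γ] [BorelSpace Γ] (ν : Measure Γ) [IsProbabilityMeasure ν]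

/-- the left translate -/
def tr (g : Γ) (f : C(Γ, ℂ)) : C(Γ, ℂ) := ⟨fun p => f (g * p), by fun_prop⟩

lemma tr_apply (g : Γ) (f : C(Γ, ℂ)) (p : Γ) : tr g f p = f (g * p) := rfl

/-- the embedding in the square integrable functions -/
def em : C(Γ, ℂ) →L[ℂ] Lp ℂ 2 ν := ContinuousMap.toLp 2 ν ℂ

lemma em_inner (f g : C(Γ, ℂ)) : inner ℂ (em ν f) (em ν g) = ∫ x, g x * conj (f x) ∂ν := by
  unfold em
  exact ContinuousMap.inner_toLp ν f g

lemma em_norm (f : C(Γ, ℂ)) : ‖em ν f‖ ^ 2 = ∫ x, ‖f x‖ ^ 2 ∂ν := by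
  have h1 := em_inner ν f f
  rw [inner_self_eq_norm_sq_to_K] at h1
  have h2 : (fun x => f x * conj (f x)) = fun x => ((‖f x‖ ^ 2 : ℝ) : ℂ) := by
    funext x
    rw [Complex.mul_conj, Complex.normSq_eq_norm_sq]
  rw [h2, integral_complex_ofReal] at h1
  have h3 : ((‖em ν f‖ ^ 2 : ℝ) : ℂ) = ((∫ x, ‖f x‖ ^ 2 ∂ν : ℝ) : ℂ) := by
    rw [← h1]
    push_cast
    rfl
  exact_mod_cast h3

lemma onb [ν.IsOpenPosMeasure] (W : Submodule ℂ C(Γ, ℂ)) [FiniteDimensional ℂ W] :
    ∃ (D : ℕ) (e : Fin D → C(Γ, ℂ)), D ≤ Module.finrank ℂ W ∧ (∀ k, e k ∈ W) ∧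
      Orthonormal ℂ (fun k => em ν (e k)) ∧
      ∀ f ∈ W, f = ∑ k, (inner ℂ (em ν (e k)) (em ν f) : ℂ) • e k := by
  classical
  let L : C(Γ, ℂ) →ₗ[ℂ] Lp ℂ 2 ν := (em ν).toLinearMap
  have hinj : Function.Injective L := ContinuousMap.toLp_injective ν
  let W' : Submodule ℂ (Lp ℂ 2 ν) := W.map L
  have : FiniteDimensional ℂ W' := inferInstance
  let b := stdOrthonormalBasis ℂ W'
  have hb : ∀ k, ∃ f ∈ W, L f = (b k : Lp ℂ 2 ν) := fun k => (Submodule.mem_map.1 (b k).2)
  choose e he1 he2 using hb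
  refine ⟨Module.finrank ℂ W', e, Submodule.finrank_map_le L W, he1, ?_, ?_⟩
  · have h1 := b.orthonormal
    have h2 : (fun k => em ν (e k)) = fun k => ((b k : W') : Lp ℂ 2 ν) := by
      funext k; exact he2 k
    rw [h2]
    exact h1.comp_linearIsometry W'.subtypeₗᵢ
  · intro f hf
    apply hinj
    have h3 : L f ∈ W' := Submodule.mem_map_of_mem hf
    have h4 := b.sum_repr' (⟨L f, h3⟩ : W')
    have h5 : ((∑ k, (inner ℂ (b k) (⟨L f, h3⟩ : W') : ℂ) • b k : W') : Lp ℂ 2 ν) = L f :=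
      congrArg Subtype.val h4
    rw [map_sum]
    simp only [map_smul]
    rw [← h5, Submodule.coe_sum]
    refine Finset.sum_congr rfl fun k _ => ?_
    rw [he2 k, show em ν (e k) = (b k : Lp ℂ 2 ν) from he2 k]
    rfl

/-- the bound -/
theorem bound [ν.IsOpenPosMeasure] [ν.IsMulLeftInvariant] (W : Submodule ℂ C(Γ, ℂ))
    [FiniteDimensional ℂ W] (hW : ∀ g, ∀ f ∈ W, tr g f ∈ W) (f : C(Γ, ℂ)) (hf : f ∈ W) (p : Γ) :
    ‖f p‖ ^ 2 ≤ Module.finrank ℂ W * ∫ q, ‖f q‖ ^ 2 ∂ν := by
  obtain ⟨D, e, hD, heW, heo, hes⟩ := onb ν W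
  set K : Γ → ℝ := fun p => ∑ k, ‖e k p‖ ^ 2 with hK
  have hKn : ∀ p, 0 ≤ K p := fun p => Finset.sum_nonneg fun k _ => by positivity
  -- the norm of a combination
  have hn : ∀ a : Fin D → ℂ, ∫ x, ‖(∑ k, a k • e k : C(Γ, ℂ)) x‖ ^ 2 ∂ν = ∑ k, ‖a k‖ ^ 2 := by
    intro a
    rw [← em_norm, map_sum]
    simp only [map_smul]
    have h1 := heo.inner_sum a a Finset.univ
    rw [inner_self_eq_norm_sq_to_K] at h1
    have h2 : ((‖∑ k, a k • em ν (e k)‖ ^ 2 : ℝ) : ℂ) = ((∑ k, ‖a k‖ ^ 2 : ℝ) : ℂ) := by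
      push_cast
      refine Eq.trans h1 (Finset.sum_congr rfl fun k _ => ?_)
      rw [mul_comm, Complex.mul_conj, Complex.normSq_eq_norm_sq]
      push_cast
      rfl
    exact_mod_cast h2
  -- Cauchy-Schwarz
  have hcs : ∀ f ∈ W, ∀ p, ‖f p‖ ^ 2 ≤ K p * ∫ q, ‖f q‖ ^ 2 ∂ν := by
    intro f hf p
    have h1 := hes f hf
    set a : Fin D → ℂ := fun k => inner ℂ (em ν (e k)) (em ν f) with ha
    have h2 : ∫ q, ‖f q‖ ^ 2 ∂ν = ∑ k, ‖a k‖ ^ 2 := by
      rw [← hn a, ← h1]
    have h3 : f p = ∑ k, a k * e k p := by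
      conv_lhs => rw [h1]
      rw [ContinuousMap.sum_apply]
      rfl
    rw [h2, h3]
    have h4 : ‖∑ k, a k * e k p‖ ≤ ∑ k, ‖a k‖ * ‖e k p‖ := by
      refine (norm_sum_le _ _).trans (le_of_eq ?_)
      simp only [norm_mul]
    have h5 : (∑ k, ‖a k‖ * ‖e k p‖) ^ 2 ≤ (∑ k, ‖a k‖ ^ 2) * ∑ k, ‖e k p‖ ^ 2 :=
      Finset.sum_mul_sq_le_sq_mul_sq _ _ _
    calc ‖∑ k, a k * e k p‖ ^ 2 ≤ (∑ k, ‖a k‖ * ‖e k p‖) ^ 2 := by gcongr
      _ ≤ _ := by rw [mul_comm (K p)]; exact h5
  -- invariance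
  have hinv : ∀ p g, K p ≤ K (g * p) := by
    intro p g
    rcases eq_or_lt_of_le (hKn p) with h0 | h0
    · rw [← h0]; exact hKn _
    set F : C(Γ, ℂ) := ∑ k, conj (e k p) • e k with hF
    have hFW : F ∈ W := Submodule.sum_mem _ fun k _ => W.smul_mem _ (heW k)
    have hFn : ∫ q, ‖F q‖ ^ 2 ∂ν = K p := by
      rw [hF, hn]
      simp only [hK, RCLike.norm_conj]
    have hFp : F p = (K p : ℂ) := by
      rw [hF, ContinuousMap.sum_apply, hK]
      push_cast
      refine Finset.sum_congr rfl fun k _ => ?_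
      change conj (e k p) * e k p = _
      rw [mul_comm, Complex.mul_conj, Complex.normSq_eq_norm_sq]
      push_cast
      rfl
    have h1 := hcs (tr g⁻¹ F) (hW _ F hFW) (g * p)
    have h2 : ∫ q, ‖tr g⁻¹ F q‖ ^ 2 ∂ν = K p := by
      rw [← hFn]
      exact integral_mul_left_eq_self (fun q => ‖F q‖ ^ 2) g⁻¹
    rw [h2, tr_apply, inv_mul_cancel_left, hFp, Complex.norm_real, Real.norm_of_nonneg h0.le,
      sq] at h1
    exact le_of_mul_le_mul_right h1 h0
  have hconst : ∀ q, K q = K p := by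
    intro q
    refine le_antisymm ?_ ?_
    · have := hinv q (p * q⁻¹)
      rwa [inv_mul_cancel_right] at this
    · have := hinv p (q * p⁻¹)
      rwa [inv_mul_cancel_right] at this
  have hKD : K p = D := by
    have h1 : ∫ q, K q ∂ν = K p := by
      simp_rw [hconst]
      simp
    rw [← h1, hK]
    dsimp only
    rw [integral_finsetSum]
    · have h2 : ∀ k, ∫ q, ‖e k q‖ ^ 2 ∂ν = 1 := by
        intro k
        rw [← em_norm, heo.1 k, one_pow]
      simp [h2]
    · intro k _
      have : Continuous fun q => ‖e k q‖ ^ 2 := by fun_prop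
      exact this.integrable_of_hasCompactSupport (HasCompactSupport.of_compactSpace _)
  have h1 := hcs f hf p
  rw [hKD] at h1
  have h2 : 0 ≤ ∫ q, ‖f q‖ ^ 2 ∂ν := integral_nonneg fun q => by positivity
  calc ‖f p‖ ^ 2 ≤ D * ∫ q, ‖f q‖ ^ 2 ∂ν := h1
    _ ≤ _ := by gcongr

end gen

/-! ### the coordinates -/

section crd

variable {N : ℕ} {G : Subgroup (UU N)}

/-- the indices of the coordinates -/
abbrev Ix (N : ℕ) := Fin N × Fin N × Bool

lemma crd_cont (c : Option (Ix N)) : Continuous (crd c : G → ℂ) := by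
  rcases c with _ | ⟨a, b, _ | _⟩
  · exact continuous_const
  · exact (continuous_apply_apply a b).comp (mt_cont (G := G))
  · exact Complex.continuous_conj.comp ((continuous_apply_apply a b).comp (mt_cont (G := G)))

/-- the coordinates of a product -/
lemma crd_mul (g : G) (c : Option (Ix N)) : ∃ M : Option (Ix N) → ℂ, ∀ h : G,
    crd c (g * h) = ∑ o, M o * crd o h := by
  classical
  rcases c with _ | ⟨a, b, _ | _⟩
  · refine ⟨fun o => if o = none then 1 else 0, fun h => ?_⟩
    simp [crd]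
  · refine ⟨fun o => ∑ k, if o = some (k, b, false) then mt g a k else 0, fun h => ?_⟩
    have h1 : crd (some (a, b, false)) (g * h) = ∑ k, mt g a k * mt h k b := by
      change mt (g * h) a b = _
      rw [mt_mul, Matrix.mul_apply]
    rw [h1]
    simp_rw [Finset.sum_mul]
    rw [Finset.sum_comm]
    refine Finset.sum_congr rfl fun k _ => ?_
    simp only [ite_mul, zero_mul, Finset.sum_ite_eq', Finset.mem_univ, if_true]
    rfl
  · refine ⟨fun o => ∑ k, if o = some (k, b, true) then conj (mt g a k) else 0, fun h => ?_⟩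
    have h1 : crd (some (a, b, true)) (g * h) = ∑ k, conj (mt g a k) * conj (mt h k b) := by
      change conj (mt (g * h) a b) = _
      rw [mt_mul, Matrix.mul_apply, map_sum]
      simp only [map_mul]
    rw [h1]
    simp_rw [Finset.sum_mul]
    rw [Finset.sum_comm]
    refine Finset.sum_congr rfl fun k _ => ?_
    simp only [ite_mul, zero_mul, Finset.sum_ite_eq', Finset.mem_univ, if_true]
    rfl

variable {m J : ℕ}

/-- the monomials -/
def psi (c : Fin m → Fin J → Option (Ix N)) : C(Fin m → G, ℂ) :=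
  ⟨fun p => ∏ i, ∏ t, crd (c i t) (p i),
    continuous_finsetProd _ fun i _ => continuous_finsetProd _ fun t _ =>
      (crd_cont (c i t)).comp (continuous_apply i)⟩

lemma psi_apply (c : Fin m → Fin J → Option (Ix N)) (p : Fin m → G) :
    psi c p = ∏ i, ∏ t, crd (c i t) (p i) := rfl

/-- the monomials with given exponents -/
def phi (κ : Fin m → Ix N → Fin (J + 1)) : C(Fin m → G, ℂ) :=
  ⟨fun p => ∏ i, ∏ x, crd (some x) (p i) ^ (κ i x : ℕ),
    continuous_finsetProd _ fun i _ => continuous_finsetProd _ fun x _ =>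
      ((crd_cont (some x)).comp (continuous_apply i)).pow _⟩

lemma psi_eq_phi (c : Fin m → Fin J → Option (Ix N)) :
    ∃ κ : Fin m → Ix N → Fin (J + 1), (psi c : C(Fin m → G, ℂ)) = phi κ := by
  classical
  have hlt : ∀ i x, (Finset.univ.filter fun t => c i t = some x).card < J + 1 := by
    intro i x
    have := Finset.card_filter_le (Finset.univ : Finset (Fin J)) fun t => c i t = some x
    rw [Finset.card_univ, Fintype.card_fin] at this
    omega
  refine ⟨fun i x => ⟨_, hlt i x⟩, ?_⟩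
  ext p
  change ∏ i, ∏ t, crd (c i t) (p i) = ∏ i, ∏ x, crd (some x) (p i) ^
    (Finset.univ.filter fun t => c i t = some x).card
  refine Finset.prod_congr rfl fun i _ => ?_
  have h1 : ∏ t, crd (c i t) (p i) = ∏ o : Option (Ix N), ∏ t ∈ Finset.univ.filter
      (fun t => c i t = o), crd (c i t) (p i) := by
    rw [Finset.prod_fiberwise]
  rw [h1, Fintype.prod_option]
  have h2 : ∏ t ∈ Finset.univ.filter (fun t => c i t = none), crd (c i t) (p i) = 1 := by
    refine Finset.prod_eq_one fun t ht => ?_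
    rw [(Finset.mem_filter.1 ht).2]
    rfl
  rw [h2, one_mul]
  refine Finset.prod_congr rfl fun x _ => ?_
  rw [← Finset.prod_const]
  refine Finset.prod_congr rfl fun t ht => ?_
  rw [(Finset.mem_filter.1 ht).2]

/-- the span of the monomials -/
def WW (N : ℕ) (G : Subgroup (UU N)) (m J : ℕ) : Submodule ℂ C(Fin m → G, ℂ) :=
  Submodule.span ℂ (Set.range (psi (N := N) (G := G) (m := m) (J := J)))

lemma WW_le : WW N G m J ≤
    Submodule.span ℂ (Set.range (phi (N := N) (G := G) (m := m) (J := J))) := by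
  refine Submodule.span_mono ?_
  rintro _ ⟨c, rfl⟩
  obtain ⟨κ, h⟩ := psi_eq_phi (G := G) c
  exact ⟨κ, h.symm⟩

instance : FiniteDimensional ℂ (WW N G m J) :=
  FiniteDimensional.span_of_finite ℂ (Set.finite_range _)

lemma WW_finrank : Module.finrank ℂ (WW N G m J) ≤ (J + 1) ^ (2 * N ^ 2 * m) := by
  classical
  have hf : FiniteDimensional ℂ
      (Submodule.span ℂ (Set.range (phi (N := N) (G := G) (m := m) (J := J)))) :=
    FiniteDimensional.span_of_finite ℂ (Set.finite_range _)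
  refine (Submodule.finrank_mono WW_le).trans ?_
  refine (finrank_range_le_card (R := ℂ) (phi (N := N) (G := G) (m := m) (J := J))).trans ?_
  rw [Fintype.card_fun, Fintype.card_fun, Fintype.card_fin, Fintype.card_fin, Fintype.card_prod,
    Fintype.card_prod, Fintype.card_fin, Fintype.card_bool, ← pow_mul]
  refine le_of_eq ?_
  congr 1
  ring

/-- the translate of a monomial -/
lemma psi_tr (g : Fin m → G) (c : Fin m → Fin J → Option (Ix N)) :
    tr g (psi c : C(Fin m → G, ℂ)) ∈ WW N G m J := by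
  classical
  have h1 : ∀ i t, ∃ M : Option (Ix N) → ℂ, ∀ h : G, crd (c i t) (g i * h) = ∑ o, M o * crd o h :=
    fun i t => crd_mul (g i) (c i t)
  choose M hM using h1
  have h2 : tr g (psi c : C(Fin m → G, ℂ)) =
      ∑ c' : Fin m → Fin J → Option (Ix N), (∏ i, ∏ t, M i t (c' i t)) • psi c' := by
    ext p
    rw [ContinuousMap.sum_apply]
    change ∏ i, ∏ t, crd (c i t) (g i * p i) = ∑ c' : Fin m → Fin J → Option (Ix N),
      (∏ i, ∏ t, M i t (c' i t)) * ∏ i, ∏ t, crd (c' i t) (p i)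
    have h3 : ∀ i, ∏ t, crd (c i t) (g i * p i) =
        ∑ s : Fin J → Option (Ix N), ∏ t, (M i t (s t) * crd (s t) (p i)) := by
      intro i
      simp_rw [hM]
      rw [Finset.prod_univ_sum, Fintype.piFinset_univ]
    simp_rw [h3]
    rw [Finset.prod_univ_sum, Fintype.piFinset_univ]
    refine Finset.sum_congr rfl fun c' _ => ?_
    simp_rw [Finset.prod_mul_distrib]
  rw [h2]
  exact Submodule.sum_mem _ fun c' _ =>
    Submodule.smul_mem _ _ (Submodule.subset_span ⟨c', rfl⟩)

lemma WW_tr (g : Fin m → G) (f : C(Fin m → G, ℂ)) (hf : f ∈ WW N G m J) :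
    tr g f ∈ WW N G m J := by
  induction hf using Submodule.span_induction with
  | mem x hx =>
    obtain ⟨c, rfl⟩ := hx
    exact psi_tr g c
  | zero => exact Submodule.zero_mem _
  | add x y _ _ hx hy => exact Submodule.add_mem _ hx hy
  | smul a x _ hx => exact Submodule.smul_mem _ a hx

end crd

end

end Pool.Agent.H189.WA.SUPB

namespace Pool.Agent.H189.WA

open Pool.Agent.H189.KS

theorem SUPB.cUU (N : ℕ) : CompactSpace (UU N) := by
  have h1 : IsCompact (Set.pi Set.univ fun _ : Fin N => Set.pi Set.univ fun _ : Fin N =>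
      Metric.closedBall (0 : ℂ) 1) :=
    isCompact_univ_pi fun _ => isCompact_univ_pi fun _ => isCompact_closedBall _ _
  have h2 : IsCompact ({M : Mt N | ∀ i j, M i j ∈ Metric.closedBall (0 : ℂ) 1} : Set (Mt N)) := by
    have : ({M : Mt N | ∀ i j, M i j ∈ Metric.closedBall (0 : ℂ) 1} : Set (Mt N)) =
        (Set.pi Set.univ fun _ : Fin N => Set.pi Set.univ fun _ : Fin N =>
          Metric.closedBall (0 : ℂ) 1) := by
      ext M
      exact ⟨fun h i _ j _ => h i j, fun h i j => h i trivial j trivial⟩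
    rw [this]; exact h1
  have h3 : IsClosed ((UU N : Submonoid (Mt N)) : Set (Mt N)) := by
    have : ((UU N : Submonoid (Mt N)) : Set (Mt N)) = {M | star M * M = 1} := by
      ext M; exact Matrix.mem_unitaryGroup_iff'
    rw [this]
    exact isClosed_eq ((continuous_id.matrix_conjTranspose).mul continuous_id) continuous_const
  have h4 : IsCompact ((UU N : Submonoid (Mt N)) : Set (Mt N)) := by
    refine h2.of_isClosed_subset h3 ?_
    intro M hM i j
    rw [mem_closedBall_zero_iff]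
    exact entry_norm_bound_of_unitary hM i j
  exact isCompact_iff_compactSpace.1 h4

theorem SUPB.sUU (N : ℕ) : SecondCountableTopology (UU N) := by
  have : SecondCountableTopology (Mt N) :=
    inferInstanceAs (SecondCountableTopology (Fin N → Fin N → ℂ))
  exact TopologicalSpace.Subtype.secondCountableTopology _

theorem t_SUPB : S_SUPB := by
  intro N G hG _ _ μ _ _ m J A f hf p
  have hcU : CompactSpace (UU N) := SUPB.cUU N
  have hsU : SecondCountableTopology (UU N) := SUPB.sUU N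
  have hcG : CompactSpace G := isCompact_iff_compactSpace.1 hG.isCompact
  have hsG : SecondCountableTopology G := TopologicalSpace.Subtype.secondCountableTopology _
  set F : C(Fin m → G, ℂ) := ∑ c, A c • SUPB.psi c with hF
  have hFW : F ∈ SUPB.WW N G m J := Submodule.sum_mem _ fun c _ =>
    Submodule.smul_mem _ _ (Submodule.subset_span ⟨c, rfl⟩)
  have hFf : ∀ q, F q = f q := by
    intro q
    rw [hf q, hF, ContinuousMap.sum_apply]
    rfl
  have h1 := SUPB.bound (Measure.pi fun _ : Fin m => μ) (SUPB.WW N G m J)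
    (fun g f hf => SUPB.WW_tr g f hf) F hFW p
  simp only [hFf] at h1
  refine h1.trans ?_
  have h2 : 0 ≤ ∫ q, ‖f q‖ ^ 2 ∂(Measure.pi fun _ : Fin m => μ) :=
    integral_nonneg fun q => by positivity
  refine mul_le_mul_of_nonneg_right ?_ h2
  have h3 := SUPB.WW_finrank (N := N) (G := G) (m := m) (J := J)
  calc (Module.finrank ℂ (SUPB.WW N G m J) : ℝ) ≤ (((J + 1) ^ (2 * N ^ 2 * m) : ℕ) : ℝ) := by
        exact_mod_cast h3
    _ = _ := by push_cast; rfl

end Pool.Agent.H189.WA
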