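import Mathlib
import Pool.Agent.H189.WA.One
import Pool.Agent.H189.WA.Pos
import Pool.Agent.H189.WA.Mult
import Pool.Agent.H189.WA.Str
import Pool.Agent.H189.WA.Supb
import Pool.Agent.H189.WA.Nonc
import Pool.Agent.H189.WA.Ode
import Pool.Agent.H189.WA.Gen
import Pool.Agent.H189.WA.Subl
import Pool.Agent.H189.WA.Covp
import Pool.Agent.H189.KS.Span
import Pool.Agent.H189.KS.Lev

/-!
# The tops of the form in the sectors
-/

open MeasureTheory Matrix
open scoped ComplexConjugate Matrix.Norms.Frobenius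

namespace Pool.Agent.H189.WA

open Pool.Agent.H189.KS

set_option linter.unusedSectionVars false
set_option linter.unusedVariables false

noncomputable section

variable {N : ℕ} {G : Subgroup (UU N)} {D M M' M'' : ℕ}

/-- the top of the form in a sector -/
def topv {E : Type} [Fintype E] [MeasurableSpace G] (μ : Measure G) (K : (E → G) → (E → G) → ℝ)
    (P : ((E → G) → HV M M') → Prop) : ℝ :=
  sSup {t : ℝ | ∃ Ψ, Continuous Ψ ∧ P Ψ ∧ nsq μ Ψ = 1 ∧ vf μ K Ψ Ψ = t}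

/-- the top of the form in the sector without charges -/
def top0 {E : Type} [Fintype E] [MeasurableSpace G] (μ : Measure G) (K : (E → G) → (E → G) → ℝ)
    (P : ((E → G) → ℂ) → Prop) : ℝ :=
  sSup {t : ℝ | ∃ F, Continuous F ∧ P F ∧ n2 μ F = 1 ∧ frm μ K F F = t}

variable [CompactSpace G] [SecondCountableTopology G] [MeasurableSpace G] [BorelSpace G]
  (μ : Measure G) [IsProbabilityMeasure μ]

section general

variable {E : Type} [Fintype E] {K : (E → G) → (E → G) → ℝ}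
  (hK : Continuous fun q : (E → G) × (E → G) => K q.1 q.2)

include hK in
lemma frm_bdd : ∃ B : ℝ, 0 ≤ B ∧ ∀ F : (E → G) → ℂ, Continuous F → frm μ K F F ≤ B * n2 μ F := by
  obtain ⟨B, hB0, hB⟩ := exists_bd hK
  refine ⟨B, hB0, fun F hF => ?_⟩
  obtain ⟨π, hπ⟩ : ∃ π, π = Measure.pi fun _ : E => μ := ⟨_, rfl⟩
  have hπp : IsProbabilityMeasure π := by rw [hπ]; infer_instance
  have h1 : ∫ q : (E → G) × (E → G), (B / 2) * (‖F q.1‖ ^ 2 + ‖F q.2‖ ^ 2) ∂(π.prod π) =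
      B * n2 μ F := by
    have i1 : Integrable (fun q : (E → G) × (E → G) => ‖F q.1‖ ^ 2) (π.prod π) := by
      rw [hπ]; exact intg2 μ ((hF.comp continuous_fst).norm.pow 2)
    have i2 : Integrable (fun q : (E → G) × (E → G) => ‖F q.2‖ ^ 2) (π.prod π) := by
      rw [hπ]; exact intg2 μ ((hF.comp continuous_snd).norm.pow 2)
    rw [integral_const_mul, integral_add i1 i2,
      integral_fun_fst (fun U => ‖F U‖ ^ 2), integral_fun_snd (fun U => ‖F U‖ ^ 2)]
    have : ∫ U, ‖F U‖ ^ 2 ∂π = n2 μ F := by rw [hπ]; rfl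
    rw [this]
    simp only [probReal_univ, one_smul]
    ring
  rw [frm_prod μ hK hF hF, ← h1, hπ]
  refine integral_mono (intg2 μ (c2 hK hF hF)) (intg2 μ (continuous_const.mul
    (((hF.comp continuous_fst).norm.pow 2).add ((hF.comp continuous_snd).norm.pow 2))))
    fun q => ?_
  dsimp only
  have h2 : |(conj (F q.1) * F q.2).re| ≤ ‖F q.1‖ * ‖F q.2‖ := by
    refine (Complex.abs_re_le_norm _).trans (le_of_eq ?_)
    rw [norm_mul, RCLike.norm_conj]
  have h3 : |K q.1 q.2| ≤ B := hB q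
  have h4 : (conj (F q.1) * F q.2).re * K q.1 q.2 ≤ ‖F q.1‖ * ‖F q.2‖ * B := by
    refine (le_abs_self _).trans ?_
    rw [abs_mul]
    exact mul_le_mul h2 h3 (abs_nonneg _) (by positivity)
  nlinarith [sq_nonneg (‖F q.1‖ - ‖F q.2‖), mul_nonneg hB0 (sq_nonneg (‖F q.1‖ - ‖F q.2‖))]

include hK in
lemma vf_bdd : ∃ B : ℝ, 0 ≤ B ∧ ∀ Ψ : (E → G) → HV M M', Continuous Ψ →
    vf μ K Ψ Ψ ≤ B * nsq μ Ψ := by
  obtain ⟨B, hB0, hB⟩ := frm_bdd μ hK
  refine ⟨B, hB0, fun Ψ hΨ => ?_⟩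
  rw [nsq_eq μ hΨ, Finset.mul_sum]
  exact Finset.sum_le_sum fun q _ => hB _ (ent_cont hΨ q)

lemma vf_smul (c : ℝ) (Ψ : (E → G) → HV M M') :
    vf μ K (fun U => c • Ψ U) (fun U => c • Ψ U) = c ^ 2 * vf μ K Ψ Ψ := by
  unfold vf
  rw [Finset.mul_sum]
  refine Finset.sum_congr rfl fun q _ => ?_
  have h1 : (fun U => (c • Ψ U) q) = fun U => (c : ℂ) * Ψ U q := by
    funext U
    show c • Ψ U q = (c : ℂ) * Ψ U q
    exact Complex.real_smul
  rw [h1, frm_cmul, Complex.norm_real, Real.norm_eq_abs, sq_abs]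

lemma n2_smul (c : ℝ) (F : (E → G) → ℂ) : n2 μ (fun U => (c : ℂ) * F U) = c ^ 2 * n2 μ F := by
  unfold n2
  rw [← integral_const_mul]
  refine integral_congr_ae (Filter.Eventually.of_forall fun U => ?_)
  dsimp only
  rw [norm_mul, mul_pow, Complex.norm_real, Real.norm_eq_abs, sq_abs]

include hK in
lemma top0_bdd (P : ((E → G) → ℂ) → Prop) :
    BddAbove {t : ℝ | ∃ F, Continuous F ∧ P F ∧ n2 μ F = 1 ∧ frm μ K F F = t} := by
  obtain ⟨B, hB0, hB⟩ := frm_bdd μ hK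
  refine ⟨B, ?_⟩
  rintro t ⟨F, hF, -, h1, rfl⟩
  have := hB F hF
  rwa [h1, mul_one] at this

include hK in
lemma topv_bdd (P : ((E → G) → HV M M') → Prop) :
    BddAbove {t : ℝ | ∃ Ψ, Continuous Ψ ∧ P Ψ ∧ nsq μ Ψ = 1 ∧ vf μ K Ψ Ψ = t} := by
  obtain ⟨B, hB0, hB⟩ := vf_bdd (M := M) (M' := M') μ hK
  refine ⟨B, ?_⟩
  rintro t ⟨Ψ, hΨ, -, h1, rfl⟩
  have := hB Ψ hΨ
  rwa [h1, mul_one] at this

include hK in
lemma le_top0 {P : ((E → G) → ℂ) → Prop} (hP : ∀ (c : ℝ) F, P F → P fun U => (c : ℂ) * F U)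
    {F : (E → G) → ℂ} (hF : Continuous F) (h : P F) : frm μ K F F ≤ top0 μ K P * n2 μ F := by
  rcases (n2_nonneg μ F).eq_or_lt with h0 | h0
  · obtain ⟨B, hB0, hB⟩ := frm_bdd μ hK
    have := hB F hF
    rw [← h0, mul_zero] at this ⊢
    exact this
  · obtain ⟨c, hc⟩ : ∃ c : ℝ, c = (Real.sqrt (n2 μ F))⁻¹ := ⟨_, rfl⟩
    have hc2 : c ^ 2 * n2 μ F = 1 := by
      rw [hc, inv_pow, Real.sq_sqrt h0.le, inv_mul_cancel₀ h0.ne']
    have h2 : c ^ 2 * frm μ K F F ≤ top0 μ K P := by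
      refine le_csSup (top0_bdd μ hK P) ⟨fun U => (c : ℂ) * F U, continuous_const.mul hF,
        hP c F h, ?_, ?_⟩
      · rw [n2_smul, hc2]
      · rw [frm_cmul, Complex.norm_real, Real.norm_eq_abs, sq_abs]
    have h3 := mul_le_mul_of_nonneg_right h2 h0.le
    calc frm μ K F F = c ^ 2 * n2 μ F * frm μ K F F := by rw [hc2, one_mul]
      _ = c ^ 2 * frm μ K F F * n2 μ F := by ring
      _ ≤ _ := h3

include hK in
lemma le_topv {P : ((E → G) → HV M M') → Prop} (hP : ∀ (c : ℝ) Ψ, P Ψ → P fun U => c • Ψ U)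
    {Ψ : (E → G) → HV M M'} (hΨ : Continuous Ψ) (h : P Ψ) :
    vf μ K Ψ Ψ ≤ topv μ K P * nsq μ Ψ := by
  classical
  rcases (nsq_nonneg' μ Ψ).eq_or_lt with h0 | h0
  · obtain ⟨B, hB0, hB⟩ := vf_bdd (M := M) (M' := M') μ hK
    have := hB Ψ hΨ
    rw [← h0, mul_zero] at this ⊢
    exact this
  · obtain ⟨c, hc⟩ : ∃ c : ℝ, c = (Real.sqrt (nsq μ Ψ))⁻¹ := ⟨_, rfl⟩
    have hc2 : c ^ 2 * nsq μ Ψ = 1 := by
      rw [hc, inv_pow, Real.sq_sqrt h0.le, inv_mul_cancel₀ h0.ne']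
    have h2 : c ^ 2 * vf μ K Ψ Ψ ≤ topv μ K P := by
      refine le_csSup (topv_bdd μ hK P) ⟨fun U => c • Ψ U, hΨ.const_smul c,
        hP c Ψ h, ?_, ?_⟩
      · rw [nsq_smul, hc2]
      · rw [vf_smul]
    have h3 := mul_le_mul_of_nonneg_right h2 h0.le
    calc vf μ K Ψ Ψ = c ^ 2 * nsq μ Ψ * vf μ K Ψ Ψ := by rw [hc2, one_mul]
      _ = c ^ 2 * vf μ K Ψ Ψ * nsq μ Ψ := by ring
      _ ≤ _ := h3

include hK in
lemma topv_nonneg (hps : ∀ F, Continuous F → 0 ≤ frm μ K F F) (P : ((E → G) → HV M M') → Prop) :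
    0 ≤ topv μ K P := by
  refine Real.sSup_nonneg ?_
  rintro t ⟨Ψ, hΨ, -, -, rfl⟩
  exact vf_nonneg μ hK hps hΨ

include hK in
lemma top0_nonneg (hps : ∀ F, Continuous F → 0 ≤ frm μ K F F) (P : ((E → G) → ℂ) → Prop) :
    0 ≤ top0 μ K P := by
  refine Real.sSup_nonneg ?_
  rintro t ⟨F, hF, -, -, rfl⟩
  exact hps F hF

lemma topv_near {P : ((E → G) → HV M M') → Prop} (h0 : 0 < topv μ K P) :
    ∃ Ψ, Continuous Ψ ∧ P Ψ ∧ nsq μ Ψ = 1 ∧ topv μ K P / 2 ≤ vf μ K Ψ Ψ := by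
  have hne : {t : ℝ | ∃ Ψ, Continuous Ψ ∧ P Ψ ∧ nsq μ Ψ = 1 ∧ vf μ K Ψ Ψ = t}.Nonempty := by
    rw [Set.nonempty_iff_ne_empty]
    intro h
    unfold topv at h0
    rw [h, Real.sSup_empty] at h0
    exact lt_irrefl _ h0
  obtain ⟨t, ⟨Ψ, a1, a2, a3, rfl⟩, ht⟩ := exists_lt_of_lt_csSup hne
    (show topv μ K P / 2 < sSup _ from half_lt_self h0)
  exact ⟨Ψ, a1, a2, a3, ht.le⟩

/-- complex conjugation -/
lemma frm_conj (F : (E → G) → ℂ) :
    frm μ K (fun U => conj (F U)) (fun U => conj (F U)) = frm μ K F F := by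
  unfold frm
  refine integral_congr_ae (Filter.Eventually.of_forall fun U => ?_)
  dsimp only
  refine integral_congr_ae (Filter.Eventually.of_forall fun V => ?_)
  dsimp only
  rw [← map_mul, Complex.conj_re]

lemma vf_swap (Ψ : (E → G) → HV M M') :
    vf μ K (fun U => (swp (Ψ U) : HV M' M)) (fun U => (swp (Ψ U) : HV M' M)) =
      vf μ K Ψ Ψ := by
  unfold vf
  rw [Fintype.sum_prod_type, Fintype.sum_prod_type, Finset.sum_comm]
  refine Finset.sum_congr rfl fun i _ => Finset.sum_congr rfl fun j _ => ?_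
  exact frm_conj μ fun U => Ψ U (i, j)

end general

section lattice

variable {l : ℕ} [NeZero l] {K : (Link D l → G) → (Link D l → G) → ℝ}
  (hK : Continuous fun q : (Link D l → G) × (Link D l → G) => K q.1 q.2)
  {κ : G →* UU M} {κ' : G →* UU M'} {x y : Fin D → ZMod l}

include hK in
lemma topv_swap_le : topv μ K (PP κ' κ y x) ≤ topv μ K (PP κ κ' x y) ∨
    topv μ K (PP κ' κ y x) = 0 := by
  by_cases hne : {t : ℝ | ∃ Ψ, Continuous Ψ ∧ PP κ' κ y x Ψ ∧ nsq μ Ψ = 1 ∧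
      vf μ K Ψ Ψ = t}.Nonempty
  · left
    refine csSup_le hne ?_
    rintro t ⟨Ψ, a1, a2, a3, rfl⟩
    refine le_csSup (topv_bdd μ hK _) ⟨fun U => (swp (Ψ U) : HV M M'),
      swp.continuous.comp a1, a2.swap, ?_, vf_swap μ Ψ⟩
    rw [nsq_iso μ swp swp_norm, a3]
  · right
    rw [Set.not_nonempty_iff_eq_empty] at hne
    unfold topv
    rw [hne, Real.sSup_empty]

include hK in
lemma topv_swap (hps : ∀ F, Continuous F → 0 ≤ frm μ K F F) :
    topv μ K (PP κ' κ y x) = topv μ K (PP κ κ' x y) := by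
  have h1 := topv_nonneg (M := M') (M' := M) μ hK hps (PP κ' κ y x)
  have h2 := topv_nonneg (M := M) (M' := M') μ hK hps (PP κ κ' x y)
  refine le_antisymm ?_ ?_
  · rcases topv_swap_le (κ := κ) (κ' := κ') (x := x) (y := y) μ hK with h | h
    · exact h
    · rw [h]; exact h2
  · rcases topv_swap_le (κ := κ') (κ' := κ) (x := y) (y := x) μ hK with h | h
    · exact h
    · rw [h]; exact h1

lemma GI.smul (c : ℝ) {F : (Link D l → G) → ℂ} (h : GI F) : GI fun U => (c : ℂ) * F U := by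
  intro γ U
  show (c : ℂ) * F (gt src tgt γ U) = (c : ℂ) * F U
  rw [h γ U]

include hK in
lemma topv_le_top0 (hps : ∀ F, Continuous F → 0 ≤ frm μ K F F) (hK0 : ∀ U V, 0 ≤ K U V) :
    topv μ K (PP κ κ' x y) ≤ top0 μ K GI := by
  refine Real.sSup_le ?_ (top0_nonneg μ hK hps _)
  rintro t ⟨Ψ, hΨ, hP, h1, rfl⟩
  have h2 : vf μ K Ψ Ψ ≤ frm μ K (hn Ψ) (hn Ψ) := by
    refine le_trans ?_ (sum_av_le μ hK hK0 hΨ)
    exact Finset.sum_le_sum fun q _ => frm_le_av μ hK hK0 (ent_cont hΨ q)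
  have h3 := le_top0 μ hK (fun c F h => GI.smul c h) (hn_cont hΨ) (hn_GI hP)
  rw [nsq_hn, h1, mul_one] at h3
  exact h2.trans h3

/-- paths exist -/
lemma exists_path (x y : Fin D → ZMod l) : ∃ p : List (Link D l × Bool), isPath src tgt x p y := by
  classical
  have h : ∀ s : Finset (Fin D), ∃ p : List (Link D l × Bool),
      isPath src tgt x p (x + ∑ i ∈ s, (y i - x i).val • unitv i) := by
    intro s
    induction s using Finset.induction_on with
    | empty =>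
      refine ⟨[], ?_⟩
      show x = x + ∑ i ∈ (∅ : Finset (Fin D)), (y i - x i).val • unitv i
      rw [Finset.sum_empty, add_zero]
    | insert i s hi ih =>
      obtain ⟨p, hp⟩ := ih
      refine ⟨p ++ sp i (x + ∑ i ∈ s, (y i - x i).val • unitv i) (y i - x i).val,
        isPath_append hp ?_⟩
      have h1 := isPath_sp i (x + ∑ i ∈ s, (y i - x i).val • unitv i) (y i - x i).val
      rw [Finset.sum_insert hi]
      have e : x + ((y i - x i).val • unitv i + ∑ i ∈ s, (y i - x i).val • unitv i) =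
        x + ∑ i ∈ s, (y i - x i).val • unitv i + (y i - x i).val • unitv i := by abel
      rw [e]
      exact h1
  obtain ⟨p, hp⟩ := h Finset.univ
  have e : x + ∑ i, (y i - x i).val • unitv i = y := by
    funext j
    rw [Pi.add_apply, Finset.sum_apply, Finset.sum_eq_single j]
    · rw [nsmul_unitv_same, ZMod.natCast_val, ZMod.cast_id', id]
      ring
    · intro i _ hij
      exact nsmul_unitv_ne (Ne.symm hij) _
    · intro h; exact absurd (Finset.mem_univ j) h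
  rw [e] at hp
  exact ⟨p, hp⟩

/-- the sector of a pair of conjugate charges is not trivial -/
lemma topv_pos (hSTR : S_STR) (hPOS : S_POS) (hG : IsClosed (G : Set (UU N)))
    [μ.IsHaarMeasure] {β : ℝ} (hβ : 0 < β) (hM : 0 < M) (hκ : Continuous κ) :
    0 < topv μ (ker β (wt β)) (PP κ κ x y) := by
  obtain ⟨K, hKe⟩ : ∃ K : (Link D l → G) → (Link D l → G) → ℝ, K = ker β (wt β) := ⟨_, rfl⟩
  have hK : Continuous fun q : (Link D l → G) × (Link D l → G) => K q.1 q.2 := by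
    rw [hKe]; exact ker_cont β (wt_nice β).1
  have hps : ∀ F, Continuous F → 0 ≤ frm μ K F F := fun F hF => by
    rw [hKe]; exact ker_psd μ hPOS hG hβ (wt_nice β).1 hF
  have hstr : ∀ F, Continuous F → frm μ K F F = 0 → ∀ U, F U = 0 := fun F hF => by
    rw [hKe]; exact hSTR N G hG μ (Link D l) (wt β) (wt_nice β).1 (wt_nice β).2 β hβ F hF
  rw [← hKe]
  obtain ⟨p, hp⟩ := exists_path x y
  obtain ⟨Ψ, hΨ⟩ : ∃ Ψ : (Link D l → G) → HV M M, Ψ = fun U => ofM (κ (hol p U) : Mt M) :=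
    ⟨_, rfl⟩
  have hc : Continuous Ψ := by
    have h1 : Continuous fun U : Link D l → G => (κ (hol p U) : Mt M) :=
      continuous_subtype_val.comp (hκ.comp (hol_cont p))
    rw [hΨ]
    refine cont_of_ent fun q => ?_
    exact h1.matrix_elem q.1 q.2
  have hP : PP κ κ x y Ψ := by
    intro γ U
    rw [hΨ]
    dsimp only
    rw [hol_gt hp γ U, map_mul, map_mul, map_inv]
    rfl
  by_contra hcon
  have h0 : topv μ K (PP κ κ x y) = 0 :=
    le_antisymm (not_lt.1 hcon) (topv_nonneg μ hK hps _)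
  have h1 := le_topv μ hK (fun c Ψ h => PP.smul c h) hc hP
  rw [h0, zero_mul] at h1
  have h2 : ∀ q, frm μ K (fun U => Ψ U q) (fun U => Ψ U q) = 0 := by
    have h3 : vf μ K Ψ Ψ = 0 := le_antisymm h1 (vf_nonneg μ hK hps hc)
    intro q
    exact (Finset.sum_eq_zero_iff_of_nonneg fun q _ => hps _ (ent_cont hc q)).1 h3 q
      (Finset.mem_univ q)
  have h4 : ∀ i j, (κ (hol p (fun _ => (1 : G))) : Mt M) i j = 0 := by
    intro i j
    have := hstr _ (ent_cont hc (i, j)) (h2 (i, j)) fun _ => 1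
    rw [hΨ] at this
    exact this
  have h5 : (κ (hol p (fun _ => (1 : G))) : Mt M) = 0 := by ext i j; exact h4 i j
  have h6 := unit_mul (κ (hol p (fun _ => (1 : G))))
  rw [h5, Matrix.mul_zero] at h6
  have h7 := congrFun (congrFun h6 ⟨0, hM⟩) ⟨0, hM⟩
  rw [Matrix.one_apply_eq] at h7
  exact zero_ne_one h7

end lattice

end

end Pool.Agent.H189.WA
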