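import Mathlib
import Pool.Agent.H189.WA.Top

/-!
# The potentials of two representations with the same central character
-/

open MeasureTheory Matrix
open scoped ComplexConjugate Matrix.Norms.Frobenius

namespace Pool.Agent.H189.WA

open Pool.Agent.H189.KS

set_option linter.unusedSectionVars false
set_option linter.unusedVariables false

noncomputable section

/-- from the factors to the logarithms -/
lemma log_step {lam0 a b C : ℝ} {A : ℕ} (ha : 0 < a) (hb : 0 < b) (h0 : 0 < lam0)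
    (ha0 : a ≤ lam0) (hC : 0 < C)
    (h : a ≤ C * (1 + Real.log (lam0 / a)) ^ A * b) :
    Real.log (lam0 / b) ≤ Real.log (lam0 / a) + Real.log C +
      A * Real.log (1 + Real.log (lam0 / a)) := by
  have hL : 0 ≤ Real.log (lam0 / a) := Real.log_nonneg ((one_le_div ha).2 ha0)
  have hL1 : 0 < 1 + Real.log (lam0 / a) := by linarith
  have h1 : Real.log a ≤ Real.log (C * (1 + Real.log (lam0 / a)) ^ A * b) :=
    Real.log_le_log ha h
  rw [Real.log_mul (by positivity) hb.ne', Real.log_mul hC.ne' (by positivity),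
    Real.log_pow] at h1
  rw [Real.log_div h0.ne' hb.ne']
  have h2 := Real.log_div h0.ne' ha.ne'
  linarith

/-- two steps -/
lemma two_steps {C1 C2 : ℝ} (hC1 : 0 < C1) (hC2 : 0 < C2) (A1 A2 : ℕ) : ∃ C : ℝ, 0 < C ∧
    ∀ V1 V2 V3 : ℝ, 0 ≤ V1 → 0 ≤ V2 → V2 ≤ V1 + Real.log C1 + A1 * Real.log (1 + V1) →
      V3 ≤ V2 + Real.log C2 + A2 * Real.log (1 + V2) → V3 ≤ V1 + C * Real.log (2 + V1) := by
  obtain ⟨a, ha⟩ : ∃ a, a = |Real.log C1| := ⟨_, rfl⟩
  obtain ⟨b, hb⟩ : ∃ b, b = |Real.log C2| := ⟨_, rfl⟩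
  have ha0 : 0 ≤ a := by rw [ha]; exact abs_nonneg _
  have hb0 : 0 ≤ b := by rw [hb]; exact abs_nonneg _
  have ha1 : Real.log C1 ≤ a := by rw [ha]; exact le_abs_self _
  have hb1 : Real.log C2 ≤ b := by rw [hb]; exact le_abs_self _
  have hl2 : 0 < Real.log 2 := Real.log_pos one_lt_two
  obtain ⟨c, hc⟩ : ∃ c, c = (a + b + A2 * Real.log (1 + a + A1)) / Real.log 2 := ⟨_, rfl⟩
  have hlc : 0 ≤ Real.log (1 + a + A1) := Real.log_nonneg (by
    have : (0 : ℝ) ≤ A1 := Nat.cast_nonneg _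
    linarith)
  have hc0 : 0 ≤ c := by rw [hc]; positivity
  refine ⟨A1 + A2 + c + 1, by positivity, ?_⟩
  intro V1 V2 V3 h1 h2 h12 h23
  have hA1 : (0 : ℝ) ≤ A1 := Nat.cast_nonneg _
  have hA2 : (0 : ℝ) ≤ A2 := Nat.cast_nonneg _
  have e1 : Real.log (1 + V1) ≤ Real.log (2 + V1) := Real.log_le_log (by linarith) (by linarith)
  have e2 : Real.log 2 ≤ Real.log (2 + V1) := Real.log_le_log (by norm_num) (by linarith)
  have e3 : Real.log (1 + V1) ≤ V1 := by
    have := Real.log_le_sub_one_of_pos (show 0 < 1 + V1 by linarith)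
    linarith
  -- the second potential
  have e4 : 1 + V2 ≤ (1 + a + A1) * (1 + V1) := by
    have := mul_le_mul_of_nonneg_left e3 hA1
    nlinarith [mul_nonneg ha0 h1]
  have e5 : Real.log (1 + V2) ≤ Real.log (1 + a + A1) + Real.log (1 + V1) := by
    rw [← Real.log_mul (by positivity) (by positivity)]
    exact Real.log_le_log (by linarith) e4
  have e6 := mul_le_mul_of_nonneg_left e5 hA2
  have e7 : a + b + A2 * Real.log (1 + a + A1) ≤ c * Real.log (2 + V1) := by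
    have h3 : c * Real.log 2 = a + b + A2 * Real.log (1 + a + A1) := by
      rw [hc]; field_simp
    rw [← h3]
    exact mul_le_mul_of_nonneg_left e2 hc0
  have e8 := mul_le_mul_of_nonneg_left e1 hA1
  have e9 := mul_le_mul_of_nonneg_left e1 hA2
  have e10 : 0 ≤ Real.log (2 + V1) := by linarith
  linarith

variable {N : ℕ} {G : Subgroup (UU N)} {D M M' : ℕ}

/-- the potential -/
def pot [MeasurableSpace G] (μ : Measure G) {l : ℕ} [NeZero l] (β : ℝ) (κ : G →* UU M)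
    (x y : Fin D → ZMod l) : ℝ :=
  Real.log (top0 μ (ker β (wt β)) (GI (D := D) (l := l)) /
    topv μ (ker β (wt β)) (PP (M := M) (M' := M) κ κ x y))

lemma t_COVP' : S_COVP := t_COVP (t_SUBL t_ODE t_GEN t_LB)

lemma t_NONC' : S_NONC := t_NONC t_SUPB

set_option maxHeartbeats 8000000 in
/-- **One direction of the theorem.** -/
theorem nality_le (hG : IsClosed (G : Set (UU N))) [ConnectedSpace G] [MeasurableSpace G]
    [BorelSpace G] (μ : Measure G) [IsProbabilityMeasure μ] [μ.IsHaarMeasure]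
    (hD : 2 ≤ D) (κ : G →* UU M) (τ : G →* UU M') (hκ : Continuous κ) (hτ : Continuous τ)
    (hM : 0 < M) (hM' : 0 < M') (hcent : ∀ z : G, (∀ h : G, z * h = h * z) → ∃ c : ℂ,
      (κ z : Mt M) = c • 1 ∧ (τ z : Mt M') = c • 1) {β : ℝ} (hβ : 0 < β) :
    ∃ C : ℝ, 0 < C ∧ ∀ (l : ℕ) [NeZero l], C ≤ l → ∀ x y : Fin D → ZMod l,
      pot μ β τ x y ≤ pot μ β κ x y + C * Real.log (2 + pot μ β κ x y) := by
  have hcU : CompactSpace (UU N) := E0AL.cUU N
  have hcs : CompactSpace G := isCompact_iff_compactSpace.1 hG.isCompact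
  have hsc0 : SecondCountableTopology (UU N) := E0AL.sUU N
  have hsc : SecondCountableTopology G := TopologicalSpace.Subtype.secondCountableTopology _
  have hMULT := t_MULT t_POS
  obtain ⟨i0, i1, h01⟩ : ∃ i0 i1 : Fin D, i0 ≠ i1 :=
    ⟨⟨0, by omega⟩, ⟨1, by omega⟩, by simp⟩
  obtain ⟨C1, A1, m1, hC1, h1⟩ := one_site (D := D) μ t_POS hMULT t_NONC' t_COVP' t_SPAN hG h01
    κ κ τ hκ hτ hM' hcent hβ
  obtain ⟨C2, A2, m2, hC2, h2⟩ := one_site (D := D) μ t_POS hMULT t_NONC' t_COVP' t_SPAN hG h01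
    κ τ τ hκ hτ hM' hcent hβ
  obtain ⟨C, hC, hst⟩ := two_steps hC1 hC2 A1 A2
  refine ⟨C + m1 + m2 + 2, by positivity, ?_⟩
  intro l _ hl x y
  have hm1 : m1 + 2 ≤ l := by
    have h3 : ((m1 + 2 : ℕ) : ℝ) ≤ l := by
      push_cast
      have : (0 : ℝ) ≤ m2 := Nat.cast_nonneg _
      linarith
    exact_mod_cast h3
  have hm2 : m2 + 2 ≤ l := by
    have h3 : ((m2 + 2 : ℕ) : ℝ) ≤ l := by
      push_cast
      have : (0 : ℝ) ≤ m1 := Nat.cast_nonneg _
      linarith
    exact_mod_cast h3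
  obtain ⟨K, hKe⟩ : ∃ K : (Link D l → G) → (Link D l → G) → ℝ, K = ker β (wt β) := ⟨_, rfl⟩
  have hK : Continuous fun q : (Link D l → G) × (Link D l → G) => K q.1 q.2 := by
    rw [hKe]; exact ker_cont β (wt_nice β).1
  have hps : ∀ F, Continuous F → 0 ≤ frm μ K F F := fun F hF => by
    rw [hKe]; exact ker_psd μ t_POS hG hβ (wt_nice β).1 hF
  have hK0 : ∀ U V, 0 ≤ K U V := fun U V => by
    rw [hKe]; exact (ker_pos β (wt_nice β).2 U V).le
  have hpos : 0 < topv μ K (PP (M := M) (M' := M) κ κ x y) := by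
    rw [hKe]; exact topv_pos μ t_STR t_POS hG hβ hM hκ
  have hpos3 : 0 < topv μ K (PP (M := M') (M' := M') τ τ x y) := by
    rw [hKe]; exact topv_pos μ t_STR t_POS hG hβ hM' hτ
  have g1 := h1 l hm1 x y
  have g2 := h2 l hm2 y x
  unfold pot
  rw [← hKe] at g1 g2 ⊢
  clear hKe
  obtain ⟨lam0, hlam0⟩ : ∃ lam0, lam0 = top0 μ K (GI (D := D) (l := l)) := ⟨_, rfl⟩
  have h0 : ∀ F : (Link D l → G) → ℂ, Continuous F → GI F → frm μ K F F ≤ lam0 * n2 μ F :=
    fun F hF hI => by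
      rw [hlam0]
      exact le_top0 μ hK (fun c F h => GI.smul c h) hF hI
  have ha0 : topv μ K (PP (M := M) (M' := M) κ κ x y) ≤ lam0 := by
    rw [hlam0]; exact topv_le_top0 μ hK hps hK0
  have hb0 : topv μ K (PP (M := M') (M' := M) τ κ x y) ≤ lam0 := by
    rw [hlam0]; exact topv_le_top0 μ hK hps hK0
  have hlp : 0 < lam0 := lt_of_lt_of_le hpos ha0
  -- first step
  obtain ⟨Ψ1, b1, b2, b3, b4⟩ := topv_near μ hpos
  have b5 : vf μ K Ψ1 Ψ1 ≤ topv μ K (PP (M := M) (M' := M) κ κ x y) := by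
    have := le_topv μ hK (fun c Ψ h => PP.smul c h) b1 b2
    rwa [b3, mul_one] at this
  have s1 := g1 lam0 _ (topv μ K (PP (M := M') (M' := M) τ κ x y)) hpos ha0
    (topv_nonneg μ hK hps _) h0
    (fun Φ hΦ hP => le_topv μ hK (fun c Ψ h => PP.smul c h) hΦ hP) Ψ1 b1 b2 b3 b4 b5
  have hV1 : 0 ≤ Real.log (lam0 / topv μ K (PP (M := M) (M' := M) κ κ x y)) :=
    Real.log_nonneg ((one_le_div hpos).2 ha0)
  have hpos2 : 0 < topv μ K (PP (M := M') (M' := M) τ κ x y) := by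
    by_contra hcon
    have h3 : topv μ K (PP (M := M') (M' := M) τ κ x y) = 0 :=
      le_antisymm (not_lt.1 hcon) (topv_nonneg μ hK hps _)
    rw [h3, mul_zero] at s1
    linarith
  have hV2 : 0 ≤ Real.log (lam0 / topv μ K (PP (M := M') (M' := M) τ κ x y)) :=
    Real.log_nonneg ((one_le_div hpos2).2 hb0)
  -- second step
  have sw1 : topv μ K (PP (M := M) (M' := M') κ τ y x) =
    topv μ K (PP (M := M') (M' := M) τ κ x y) := topv_swap μ hK hps
  have sw2 : topv μ K (PP (M := M') (M' := M') τ τ y x) =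
    topv μ K (PP (M := M') (M' := M') τ τ x y) := topv_swap μ hK hps
  have hpos2' : 0 < topv μ K (PP (M := M) (M' := M') κ τ y x) := by rw [sw1]; exact hpos2
  obtain ⟨Ψ2, d1, d2, d3, d4⟩ := topv_near μ hpos2'
  have d5 : vf μ K Ψ2 Ψ2 ≤ topv μ K (PP (M := M) (M' := M') κ τ y x) := by
    have := le_topv μ hK (fun c Ψ h => PP.smul c h) d1 d2
    rwa [d3, mul_one] at this
  have s2 := g2 lam0 _ (topv μ K (PP (M := M') (M' := M') τ τ y x)) hpos2' (by rw [sw1]; exact hb0)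
    (topv_nonneg μ hK hps _) h0
    (fun Φ hΦ hP => le_topv μ hK (fun c Ψ h => PP.smul c h) hΦ hP) Ψ2 d1 d2 d3 d4 d5
  rw [sw1, sw2] at s2
  rw [← hlam0]
  have f1 := log_step hpos hpos2 hlp ha0 hC1 s1
  have f2 := log_step hpos2 hpos3 hlp hb0 hC2 s2
  have f3 := hst _ _ _ hV1 hV2 f1 f2
  have f4 : C * Real.log (2 + Real.log (lam0 / topv μ K (PP (M := M) (M' := M) κ κ x y))) ≤
      (C + m1 + m2 + 2) *
        Real.log (2 + Real.log (lam0 / topv μ K (PP (M := M) (M' := M) κ κ x y))) := by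
    refine mul_le_mul_of_nonneg_right ?_ (Real.log_nonneg (by linarith))
    have a1 : (0 : ℝ) ≤ m1 := Nat.cast_nonneg _
    have a2 : (0 : ℝ) ≤ m2 := Nat.cast_nonneg _
    linarith
  linarith

/-- the tops are positive -/
theorem pot_pos (hG : IsClosed (G : Set (UU N))) [MeasurableSpace G]
    [BorelSpace G] (μ : Measure G) [IsProbabilityMeasure μ] [μ.IsHaarMeasure]
    (κ : G →* UU M) (hκ : Continuous κ) (hM : 0 < M) {β : ℝ} (hβ : 0 < β) {l : ℕ} [NeZero l]
    (x y : Fin D → ZMod l) :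
    0 < topv μ (ker β (wt β)) (PP (M := M) (M' := M) κ κ x y) ∧
      topv μ (ker β (wt β)) (PP (M := M) (M' := M) κ κ x y) ≤
        top0 μ (ker β (wt β)) (GI (D := D) (l := l)) := by
  have hcU : CompactSpace (UU N) := E0AL.cUU N
  have hcs : CompactSpace G := isCompact_iff_compactSpace.1 hG.isCompact
  have hsc0 : SecondCountableTopology (UU N) := E0AL.sUU N
  have hsc : SecondCountableTopology G := TopologicalSpace.Subtype.secondCountableTopology _
  refine ⟨topv_pos μ t_STR t_POS hG hβ hM hκ, topv_le_top0 μ (ker_cont β (wt_nice β).1)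
    (fun F hF => ker_psd μ t_POS hG hβ (wt_nice β).1 hF)
    fun U V => (ker_pos β (wt_nice β).2 U V).le⟩

/-- the logarithms of `2 + V` are comparable -/
lemma log_comp {C : ℝ} (hC : 0 < C) : ∃ C' : ℝ, 0 < C' ∧ ∀ V W : ℝ, 0 ≤ V → 0 ≤ W →
    W ≤ V + C * Real.log (2 + V) → Real.log (2 + W) ≤ C' * Real.log (2 + V) := by
  have hl2 : 0 < Real.log 2 := Real.log_pos one_lt_two
  have hl1 : 0 ≤ Real.log (1 + C) := Real.log_nonneg (by linarith)
  refine ⟨Real.log (1 + C) / Real.log 2 + 1, by positivity, ?_⟩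
  intro V W hV hW h
  have e2 : Real.log 2 ≤ Real.log (2 + V) := Real.log_le_log (by norm_num) (by linarith)
  have e3 : Real.log (2 + V) ≤ 2 + V := by
    have := Real.log_le_sub_one_of_pos (show 0 < 2 + V by linarith)
    linarith
  have e4 : 2 + W ≤ (1 + C) * (2 + V) := by
    have := mul_le_mul_of_nonneg_left e3 hC.le
    linarith
  have e5 : Real.log (2 + W) ≤ Real.log (1 + C) + Real.log (2 + V) := by
    rw [← Real.log_mul (by positivity) (by positivity)]
    exact Real.log_le_log (by linarith) e4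
  have e6 : Real.log (1 + C) ≤ Real.log (1 + C) / Real.log 2 * Real.log (2 + V) := by
    have h3 : Real.log (1 + C) / Real.log 2 * Real.log 2 = Real.log (1 + C) := by field_simp
    have h4 := mul_le_mul_of_nonneg_left e2 (show 0 ≤ Real.log (1 + C) / Real.log 2 by positivity)
    rwa [h3] at h4
  linarith

/-- **The theorem.** -/
theorem nality (hG : IsClosed (G : Set (UU N))) [ConnectedSpace G] [MeasurableSpace G]
    [BorelSpace G] (μ : Measure G) [IsProbabilityMeasure μ] [μ.IsHaarMeasure]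
    (hD : 2 ≤ D) (κ : G →* UU M) (τ : G →* UU M') (hκ : Continuous κ) (hτ : Continuous τ)
    (hM : 0 < M) (hM' : 0 < M') (hcent : ∀ z : G, (∀ h : G, z * h = h * z) → ∃ c : ℂ,
      (κ z : Mt M) = c • 1 ∧ (τ z : Mt M') = c • 1) {β : ℝ} (hβ : 0 < β) :
    ∃ C : ℝ, ∀ (l : ℕ) [NeZero l], C ≤ l → ∀ x y : Fin D → ZMod l,
      |pot μ β κ x y - pot μ β τ x y| ≤ C * Real.log (2 + pot μ β κ x y) := by
  obtain ⟨C1, hC1, h1⟩ := nality_le hG μ hD κ τ hκ hτ hM hM' hcent hβ
  obtain ⟨C2, hC2, h2⟩ := nality_le hG μ hD τ κ hτ hκ hM' hM (fun z hz => by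
    obtain ⟨c, a, b⟩ := hcent z hz
    exact ⟨c, b, a⟩) hβ
  obtain ⟨C3, hC3, h3⟩ := log_comp hC1
  refine ⟨C1 + C2 + C2 * C3, ?_⟩
  intro l _ hl x y
  have hp3 : 0 ≤ C2 * C3 := by positivity
  have e1 := h1 l (by linarith) x y
  have e2 := h2 l (by linarith) x y
  have a1 := pot_pos (D := D) hG μ κ hκ hM hβ x y
  have a2 := pot_pos (D := D) hG μ τ hτ hM' hβ x y
  have v1 : 0 ≤ pot μ β κ x y := Real.log_nonneg ((one_le_div a1.1).2 a1.2)
  have v2 : 0 ≤ pot μ β τ x y := Real.log_nonneg ((one_le_div a2.1).2 a2.2)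
  have e3 := h3 _ _ v1 v2 e1
  have hl : 0 ≤ Real.log (2 + pot μ β κ x y) := Real.log_nonneg (by linarith)
  have e4 := mul_le_mul_of_nonneg_left e3 hC2.le
  rw [abs_le]
  constructor
  · nlinarith [mul_nonneg hC2.le hl, mul_nonneg hp3 hl]
  · nlinarith [mul_nonneg hC2.le hl, mul_nonneg hC1.le hl]

end

end Pool.Agent.H189.WA
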