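import Mathlib
import Pool.Agent.H189.WA.Nal
import Pool.Agent.H189.WA.Lin

/-!
# The linear bound and the final form
-/

open MeasureTheory Matrix
open scoped ComplexConjugate Matrix.Norms.Frobenius

namespace Pool.Agent.H189.WA

open Pool.Agent.H189.KS

set_option linter.unusedSectionVars false
set_option linter.unusedVariables false

noncomputable section

variable {N : ℕ} {G : Subgroup (UU N)} {D M M' : ℕ}

/-- the potential grows at most linearly -/
theorem pot_lin (hLIN1 : S_LIN1) (hG : IsClosed (G : Set (UU N))) [MeasurableSpace G]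
    [BorelSpace G] (μ : Measure G) [IsProbabilityMeasure μ] [μ.IsHaarMeasure]
    (κ : G →* UU M) (hκ : Continuous κ) (hM : 0 < M) {β : ℝ} (hβ : 0 < β) :
    ∃ c : ℝ, 0 ≤ c ∧ ∀ (l : ℕ) [NeZero l] (x : Fin D → ZMod l) (i : Fin D) (R : ℕ), R ≤ l →
      pot μ β κ x (x + R • unitv i) ≤ c * R := by
  have hcU : CompactSpace (UU N) := E0AL.cUU N
  have hcs : CompactSpace G := isCompact_iff_compactSpace.1 hG.isCompact
  have hsc0 : SecondCountableTopology (UU N) := E0AL.sUU N
  have hsc : SecondCountableTopology G := TopologicalSpace.Subtype.secondCountableTopology _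
  obtain ⟨c, hc, h⟩ := t_LIN hLIN1 N G hG μ M κ hκ hM β hβ D
  refine ⟨c, hc, ?_⟩
  intro l _ x i R hR
  obtain ⟨a1, a2⟩ := pot_pos (D := D) hG μ κ hκ hM hβ x (x + R • unitv i)
  have hK : Continuous fun q : (Link D l → G) × (Link D l → G) => ker β (wt β) q.1 q.2 :=
    ker_cont β (wt_nice β).1
  have h1 := h l x i R hR _ a1.le (fun Ψ hΨ hP => le_topv μ hK (fun c Ψ h => PP.smul c h) hΨ hP)
  have h2 : top0 μ (ker β (wt β)) (GI (D := D) (l := l)) ≤ Real.exp (c * R) *
      topv μ (ker β (wt β)) (PP (M := M) (M' := M) κ κ x (x + R • unitv i)) := by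
    refine Real.sSup_le ?_ (by positivity)
    rintro t ⟨F, hF, hI, hn, rfl⟩
    have := h1 F hF hI
    rwa [hn, mul_one] at this
  unfold pot
  rw [← Real.log_exp (c * R)]
  exact Real.log_le_log (div_pos (lt_of_lt_of_le a1 a2) a1) ((div_le_iff₀ a1).2 h2)

/-- the logarithm of a linear bound -/
lemma log_lin {c : ℝ} (hc : 0 ≤ c) : ∃ C' : ℝ, 0 < C' ∧ ∀ (V : ℝ) (R : ℕ), 0 ≤ V → V ≤ c * R →
    Real.log (2 + V) ≤ C' * Real.log (2 + R) := by
  have hl2 : 0 < Real.log 2 := Real.log_pos one_lt_two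
  have hl1 : 0 ≤ Real.log (1 + c) := Real.log_nonneg (by linarith)
  refine ⟨Real.log (1 + c) / Real.log 2 + 1, by positivity, ?_⟩
  intro V R hV h
  have hR : (0 : ℝ) ≤ R := Nat.cast_nonneg R
  have e2 : Real.log 2 ≤ Real.log (2 + R) := Real.log_le_log (by norm_num) (by linarith)
  have e4 : 2 + V ≤ (1 + c) * (2 + R) := by nlinarith
  have e5 : Real.log (2 + V) ≤ Real.log (1 + c) + Real.log (2 + R) := by
    rw [← Real.log_mul (by positivity) (by positivity)]
    exact Real.log_le_log (by linarith) e4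
  have e6 : Real.log (1 + c) ≤ Real.log (1 + c) / Real.log 2 * Real.log (2 + R) := by
    have h3 : Real.log (1 + c) / Real.log 2 * Real.log 2 = Real.log (1 + c) := by field_simp
    have h4 := mul_le_mul_of_nonneg_left e2 (show 0 ≤ Real.log (1 + c) / Real.log 2 by positivity)
    rwa [h3] at h4
  linarith

/-- **The theorem, with the linear bound.** -/
theorem nality_lin (hLIN1 : S_LIN1) (hG : IsClosed (G : Set (UU N))) [ConnectedSpace G]
    [MeasurableSpace G] [BorelSpace G] (μ : Measure G) [IsProbabilityMeasure μ] [μ.IsHaarMeasure]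
    (hD : 2 ≤ D) (κ : G →* UU M) (τ : G →* UU M') (hκ : Continuous κ) (hτ : Continuous τ)
    (hM : 0 < M) (hM' : 0 < M') (hcent : ∀ z : G, (∀ h : G, z * h = h * z) → ∃ c : ℂ,
      (κ z : Mt M) = c • 1 ∧ (τ z : Mt M') = c • 1) {β : ℝ} (hβ : 0 < β) :
    ∃ C : ℝ, ∀ (l : ℕ) [NeZero l], C ≤ l →
      (∀ x y : Fin D → ZMod l,
        |pot μ β κ x y - pot μ β τ x y| ≤ C * Real.log (2 + pot μ β κ x y)) ∧
      ∀ (x : Fin D → ZMod l) (i : Fin D) (R : ℕ), R ≤ l →
        pot μ β κ x (x + R • unitv i) ≤ C * R ∧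
        |pot μ β κ x (x + R • unitv i) - pot μ β τ x (x + R • unitv i)| ≤
          C * Real.log (2 + R) := by
  obtain ⟨C1, h1⟩ := nality hG μ hD κ τ hκ hτ hM hM' hcent hβ
  obtain ⟨c, hc, h2⟩ := pot_lin (D := D) hLIN1 hG μ κ hκ hM hβ
  obtain ⟨C2, hC2, h3⟩ := log_lin hc
  refine ⟨|C1| + c + |C1| * C2, ?_⟩
  intro l _ hl
  have p1 : 0 ≤ |C1| := abs_nonneg _
  have p2 : 0 ≤ |C1| * C2 := by positivity
  have hl1 : C1 ≤ l := by
    have := le_abs_self C1
    linarith
  have hV : ∀ x y : Fin D → ZMod l, 0 ≤ pot μ β κ x y := fun x y => by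
    have a1 := pot_pos (D := D) hG μ κ hκ hM hβ x y
    exact Real.log_nonneg ((one_le_div a1.1).2 a1.2)
  have hA : ∀ x y : Fin D → ZMod l,
      |pot μ β κ x y - pot μ β τ x y| ≤ |C1| * Real.log (2 + pot μ β κ x y) := by
    intro x y
    refine (h1 l hl1 x y).trans (mul_le_mul_of_nonneg_right (le_abs_self _) ?_)
    exact Real.log_nonneg (by have := hV x y; linarith)
  refine ⟨fun x y => (hA x y).trans ?_, fun x i R hR => ⟨?_, ?_⟩⟩
  · refine mul_le_mul_of_nonneg_right (by linarith) ?_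
    exact Real.log_nonneg (by have := hV x y; linarith)
  · refine (h2 l x i R hR).trans ?_
    exact mul_le_mul_of_nonneg_right (by linarith) (Nat.cast_nonneg R)
  · have e1 := h3 _ R (hV x (x + R • unitv i)) (h2 l x i R hR)
    have e2 := mul_le_mul_of_nonneg_left e1 p1
    have e3 : 0 ≤ Real.log (2 + R) := Real.log_nonneg (by
      have : (0 : ℝ) ≤ R := Nat.cast_nonneg R
      linarith)
    have e4 := hA x (x + R • unitv i)
    nlinarith [mul_nonneg p1 e3, mul_nonneg hc e3]

end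

end Pool.Agent.H189.WA
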