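import Mathlib
import Pool.Agent.H189.WA.Stm2
import Pool.Agent.H189.WA.Pos
import Pool.Agent.H189.WA.Str

open MeasureTheory Matrix
open scoped ComplexConjugate

namespace Pool.Agent.H189.WA.LIN1

open Pool.Agent.H189.KS

set_option linter.unusedSectionVars false
set_option linter.unusedVariables false

section dec

open scoped MatrixOrder ComplexOrder

theorem psd_dec {n : ℕ} {A : Matrix (Fin n) (Fin n) ℂ} (hA : A.PosSemidef) :
    ∃ B : Matrix (Fin n) (Fin n) ℂ, A = Bᴴ * B := by
  obtain ⟨B, hB⟩ := CStarAlgebra.nonneg_iff_eq_star_mul_self.mp hA.nonneg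
  exact ⟨B, hB⟩

end dec

noncomputable section

variable {N : ℕ} {G : Subgroup (UU N)}

/-- change of one link -/
def upd {E : Type} [DecidableEq E] (e : E) (U : E → G) (a : Unit → G) : E → G :=
  Function.update U e (a ())

theorem mp_upd [MeasurableSpace G] (μ : Measure G) [IsProbabilityMeasure μ] {E : Type} [Fintype E]
    [DecidableEq E] (e : E) :
    MeasurePreserving (fun p : (E → G) × (Unit → G) => upd e p.1 p.2)
      ((Measure.pi fun _ : E => μ).prod (Measure.pi fun _ : Unit => μ))
      (Measure.pi fun _ : E => μ) := by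
  have hm : Measurable (fun p : (E → G) × (Unit → G) => upd e p.1 p.2) := by
    apply measurable_pi_lambda
    intro e'
    by_cases h : e' = e
    · subst h
      simp only [upd, Function.update_self]
      exact (measurable_pi_apply ()).comp measurable_snd
    · simp only [upd, Function.update_of_ne h]
      exact (measurable_pi_apply e').comp measurable_fst
  refine ⟨hm, ?_⟩
  symm
  apply Measure.pi_eq
  intro s hs
  rw [Measure.map_apply hm (MeasurableSet.univ_pi hs)]
  have h1 : (fun p : (E → G) × (Unit → G) => upd e p.1 p.2) ⁻¹' (Set.pi Set.univ s) =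
      (Set.pi Set.univ (Function.update s e Set.univ)) ×ˢ
        (Set.pi Set.univ fun _ : Unit => s e) := by
    ext p
    simp only [Set.mem_preimage, Set.mem_pi, Set.mem_univ, forall_true_left, Set.mem_prod]
    constructor
    · intro h
      refine ⟨fun e' => ?_, fun _ => ?_⟩
      · by_cases h' : e' = e
        · subst h'
          rw [Function.update_self]
          exact Set.mem_univ _
        · rw [Function.update_of_ne h']
          have := h e'
          rwa [upd, Function.update_of_ne h'] at this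
      · have := h e
        rwa [upd, Function.update_self] at this
    · rintro ⟨h, h2⟩ e'
      by_cases h' : e' = e
      · subst h'
        rw [upd, Function.update_self]
        exact h2 ()
      · rw [upd, Function.update_of_ne h']
        have := h e'
        rwa [Function.update_of_ne h'] at this
  rw [h1, Measure.prod_prod, Measure.pi_pi, Measure.pi_pi]
  rw [← Finset.mul_prod_erase Finset.univ _ (Finset.mem_univ e),
    ← Finset.mul_prod_erase Finset.univ (fun i => μ (s i)) (Finset.mem_univ e),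
    Function.update_self, measure_univ, one_mul, Fintype.prod_unique, mul_comm]
  congr 1
  refine Finset.prod_congr rfl fun e' he' => ?_
  rw [Function.update_of_ne (Finset.ne_of_mem_erase he')]

variable [CompactSpace G] [SecondCountableTopology G] [MeasurableSpace G] [BorelSpace G]
  (μ : Measure G) [IsProbabilityMeasure μ]

theorem upd_cont {E : Type} [DecidableEq E] (e : E) :
    Continuous fun p : (E → G) × (Unit → G) => upd e p.1 p.2 := by
  refine continuous_pi fun e' => ?_
  by_cases h : e' = e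
  · subst h
    simp only [upd, Function.update_self]
    exact (continuous_apply ()).comp continuous_snd
  · simp only [upd, Function.update_of_ne h]
    exact (continuous_apply e').comp continuous_fst

theorem cint {Z V : Type} [TopologicalSpace Z] [CompactSpace Z] [MeasurableSpace Z]
    [OpensMeasurableSpace Z] [NormedAddCommGroup V] (ν : Measure Z) [IsFiniteMeasure ν]
    {f : Z → V} (hf : Continuous f) : Integrable f ν :=
  hf.integrable_of_hasCompactSupport (HasCompactSupport.of_compactSpace f)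

/-- one link is integrated first -/
theorem fub1 {E : Type} [Fintype E] [DecidableEq E] (e : E) {g : (E → G) → ℝ}
    (hg : Continuous g) :
    ∫ U, g U ∂(Measure.pi fun _ : E => μ) =
      ∫ U, ∫ a, g (upd e U a) ∂(Measure.pi fun _ : Unit => μ) ∂(Measure.pi fun _ : E => μ) := by
  have h := mp_upd μ e (E := E)
  conv_lhs => rw [← h.map_eq]
  rw [integral_map h.measurable.aemeasurable (by rw [h.map_eq]; exact (intg μ hg).aestronglyMeasurable)]
  rw [integral_prod]
  exact cint _ (hg.comp (upd_cont e))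

theorem cpar {Y Z V : Type} [TopologicalSpace Y] [LocallyCompactSpace Y] [TopologicalSpace Z] [CompactSpace Z]
    [MeasurableSpace Z] [OpensMeasurableSpace Z] [FirstCountableTopology Y] [SecondCountableTopology Z]
    [NormedAddCommGroup V] [NormedSpace ℝ V] (ν : Measure Z) [IsFiniteMeasure ν]
    {f : Y → Z → V} (hf : Continuous fun q : Y × Z => f q.1 q.2) :
    Continuous fun y => ∫ z, f y z ∂ν := by
  have h := continuous_parametric_integral_of_continuous
    (μ := ν) (f := f) (s := Set.univ) hf isCompact_univ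
  simpa using h

/-- one link is integrated first, in both variables -/
theorem fub2 {E : Type} [Fintype E] [DecidableEq E] (e : E) {h : (E → G) → (E → G) → ℝ}
    (hh : Continuous fun q : (E → G) × (E → G) => h q.1 q.2) :
    ∫ U, ∫ V, h U V ∂(Measure.pi fun _ : E => μ) ∂(Measure.pi fun _ : E => μ) =
      ∫ U, ∫ V, ∫ a, ∫ b, h (upd e U a) (upd e V b) ∂(Measure.pi fun _ : Unit => μ)
        ∂(Measure.pi fun _ : Unit => μ) ∂(Measure.pi fun _ : E => μ)
        ∂(Measure.pi fun _ : E => μ) := by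
  have c1 : Continuous fun U => ∫ V, h U V ∂(Measure.pi fun _ : E => μ) := cont_param μ hh
  rw [fub1 μ e c1]
  refine integral_congr_ae (Filter.Eventually.of_forall fun U => ?_)
  dsimp only
  have c2 : ∀ a, Continuous fun V => h (upd e U a) V := fun a =>
    hh.comp (Continuous.prodMk_right (upd e U a))
  have e1 : ∀ a, ∫ V, h (upd e U a) V ∂(Measure.pi fun _ : E => μ) =
      ∫ V, ∫ b, h (upd e U a) (upd e V b) ∂(Measure.pi fun _ : Unit => μ)
        ∂(Measure.pi fun _ : E => μ) := fun a => fub1 μ e (c2 a)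
  simp only [e1]
  have c3 : Continuous fun q : ((Unit → G) × (E → G)) × (Unit → G) =>
      h (upd e U q.1.1) (upd e q.1.2 q.2) := by
    have d1 : Continuous fun q : ((Unit → G) × (E → G)) × (Unit → G) => upd e U q.1.1 :=
      (upd_cont e).comp (continuous_const.prodMk (continuous_fst.comp continuous_fst))
    have d2 : Continuous fun q : ((Unit → G) × (E → G)) × (Unit → G) => upd e q.1.2 q.2 :=
      (upd_cont e).comp ((continuous_snd.comp continuous_fst).prodMk continuous_snd)
    exact hh.comp (d1.prodMk d2)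
  have c4 : Continuous fun q : (Unit → G) × (E → G) =>
      ∫ b, h (upd e U q.1) (upd e q.2 b) ∂(Measure.pi fun _ : Unit => μ) :=
    cpar (Measure.pi fun _ : Unit => μ)
      (f := fun (q : (Unit → G) × (E → G)) (b : Unit → G) => h (upd e U q.1) (upd e q.2 b)) c3
  rw [integral_integral_swap]
  exact cint _ c4

/-! ### the matrix of one link -/

theorem abs_T {Y ι : Type} [TopologicalSpace Y] [CompactSpace Y] [LocallyCompactSpace Y]
    [SecondCountableTopology Y] [MeasurableSpace Y] [BorelSpace Y] (ν : Measure Y)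
    [IsFiniteMeasure ν] [Fintype ι] (w : ι → ℂ) (q : Y → Y → ℝ) (x : ι → Y → Y → ℂ)
    (hq : Continuous fun p : Y × Y => q p.1 p.2)
    (hx : ∀ i, Continuous fun p : Y × Y => x i p.1 p.2) :
    (∑ i, w i * ∫ a, ∫ b, (q a b : ℂ) * x i a b ∂ν ∂ν).re =
      ∫ a, ∫ b, q a b * (∑ i, w i * x i a b).re ∂ν ∂ν := by
  have c0 : ∀ i, Continuous fun p : Y × Y => (q p.1 p.2 : ℂ) * x i p.1 p.2 := fun i =>
    (Complex.continuous_ofReal.comp hq).mul (hx i)
  have c : ∀ i, Continuous fun p : Y × Y => w i * ((q p.1 p.2 : ℂ) * x i p.1 p.2) := fun i =>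
    continuous_const.mul (c0 i)
  have cT : Continuous fun p : Y × Y => ∑ i, w i * ((q p.1 p.2 : ℂ) * x i p.1 p.2) :=
    continuous_finsetSum _ fun i _ => c i
  have e1 : ∑ i, w i * ∫ a, ∫ b, (q a b : ℂ) * x i a b ∂ν ∂ν =
      ∫ a, ∫ b, ∑ i, w i * ((q a b : ℂ) * x i a b) ∂ν ∂ν := by
    have e3 : ∀ a, ∫ b, ∑ i, w i * ((q a b : ℂ) * x i a b) ∂ν =
        ∑ i, w i * ∫ b, (q a b : ℂ) * x i a b ∂ν := by
      intro a
      have ci : ∀ i, Integrable (fun b => w i * ((q a b : ℂ) * x i a b)) ν := fun i =>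
        cint ν ((c i).comp (Continuous.prodMk_right a))
      rw [integral_finsetSum _ fun i _ => ci i]
      refine Finset.sum_congr rfl fun i _ => ?_
      exact integral_const_mul _ _
    simp only [e3]
    have c2 : ∀ i, Continuous fun a => w i * ∫ b, (q a b : ℂ) * x i a b ∂ν := fun i =>
      continuous_const.mul (cpar ν (f := fun a b => (q a b : ℂ) * x i a b) (c0 i))
    rw [integral_finsetSum _ fun i _ => cint ν (c2 i)]
    refine Finset.sum_congr rfl fun i _ => ?_
    exact (integral_const_mul _ _).symm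
  rw [e1]
  have c3 : Continuous fun a => ∫ b, ∑ i, w i * ((q a b : ℂ) * x i a b) ∂ν :=
    cpar ν (f := fun a b => ∑ i, w i * ((q a b : ℂ) * x i a b)) cT
  have r1' : (∫ a, ∫ b, ∑ i, w i * ((q a b : ℂ) * x i a b) ∂ν ∂ν).re =
      ∫ a, (∫ b, ∑ i, w i * ((q a b : ℂ) * x i a b) ∂ν).re ∂ν :=
    (Complex.reCLM.integral_comp_comm (cint ν c3)).symm
  rw [r1']
  refine integral_congr_ae (Filter.Eventually.of_forall fun a => ?_)
  dsimp only
  have r2' : (∫ b, ∑ i, w i * ((q a b : ℂ) * x i a b) ∂ν).re =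
      ∫ b, (∑ i, w i * ((q a b : ℂ) * x i a b)).re ∂ν :=
    (Complex.reCLM.integral_comp_comm (cint ν (cT.comp (Continuous.prodMk_right a)))).symm
  rw [r2']
  refine integral_congr_ae (Filter.Eventually.of_forall fun b => ?_)
  dsimp only
  rw [← Complex.re_ofReal_mul, Finset.mul_sum]
  congr 1
  refine Finset.sum_congr rfl fun i _ => ?_
  ring

theorem abs_H {Y : Type} [TopologicalSpace Y] [CompactSpace Y] [LocallyCompactSpace Y]
    [SecondCountableTopology Y] [MeasurableSpace Y] [BorelSpace Y] (ν : Measure Y)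
    [IsFiniteMeasure ν] (f g : Y → Y → ℂ) (hg : Continuous fun p : Y × Y => g p.1 p.2)
    (hfg : ∀ a b, conj (f a b) = g b a) :
    conj (∫ a, ∫ b, f a b ∂ν ∂ν) = ∫ a, ∫ b, g a b ∂ν ∂ν := by
  rw [← integral_conj]
  have e : ∀ a, conj (∫ b, f a b ∂ν) = ∫ b, g b a ∂ν := by
    intro a
    rw [← integral_conj]
    simp only [hfg]
  simp only [e]
  rw [integral_integral_swap]
  exact cint _ (hg.comp (continuous_snd.prodMk continuous_fst))

section mat

variable {M : ℕ} (κ : G →* UU M)

/-- the matrix of the representation -/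
def kp (g : G) : Mt M := (κ g : Mt M)

theorem kp_cont (hκ : Continuous κ) (i j : Fin M) : Continuous fun g => kp κ g i j := by
  have h1 : Continuous fun g => (κ g : Mt M) := continuous_subtype_val.comp hκ
  exact h1.matrix_elem i j

theorem kp_mul (g h : G) : kp κ (g * h) = kp κ g * kp κ h := by
  unfold kp
  rw [map_mul]
  rfl

theorem kp_one : kp κ 1 = 1 := by
  unfold kp
  rw [map_one]
  rfl

/-- the kernel of one link -/
def q1 (β : ℝ) (a b : Unit → G) : ℝ := Real.exp (β * rt (a ()) (b ()))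

theorem q1_cont (β : ℝ) : Continuous fun p : (Unit → G) × (Unit → G) => q1 β p.1 p.2 := by
  have h2 : Continuous fun q : (Unit → G) × (Unit → G) => rt (q.1 ()) (q.2 ()) :=
    POS.rt_cont (G := G) (E := Unit) ()
  exact Real.continuous_exp.comp (continuous_const.mul h2)

/-- the matrix valued kernel -/
def XX (a b : Unit → G) : Mt M := (kp κ (a ()))ᴴ * kp κ (b ())

/-- its entries -/
def xx (p : Fin M × Fin M) (a b : Unit → G) : ℂ := XX κ a b p.1 p.2

theorem XX_cont (hκ : Continuous κ) (p : Fin M × Fin M) :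
    Continuous fun z : (Unit → G) × (Unit → G) => xx κ p z.1 z.2 := by
  have e : (fun z : (Unit → G) × (Unit → G) => xx κ p z.1 z.2) = fun z =>
      ∑ k, star (kp κ (z.1 ()) k p.1) * kp κ (z.2 ()) k p.2 := by
    funext z
    unfold xx XX
    rw [Matrix.mul_apply]
    rfl
  rw [e]
  refine continuous_finsetSum _ fun k _ => ?_
  refine Continuous.mul ?_ ?_
  · exact continuous_star.comp ((kp_cont κ hκ k p.1).comp ((continuous_apply ()).comp continuous_fst))
  · exact (kp_cont κ hκ k p.2).comp ((continuous_apply ()).comp continuous_snd)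

theorem XX_H (a b : Unit → G) : (XX κ a b)ᴴ = XX κ b a := by
  unfold XX
  rw [conjTranspose_mul, conjTranspose_conjTranspose]

theorem q1_comm (β : ℝ) (a b : Unit → G) : q1 β a b = q1 β b a := by
  unfold q1
  rw [rt_comm]

/-- the integral over one link -/
def DD (β : ℝ) : Mt M := Matrix.of fun i j =>
  ∫ a, ∫ b, (q1 β a b : ℂ) * xx κ (i, j) a b ∂(Measure.pi fun _ : Unit => μ)
    ∂(Measure.pi fun _ : Unit => μ)

theorem lin_expand (T : Mt M →ₗ[ℂ] ℂ) (A : Mt M) :
    T A = ∑ p : Fin M × Fin M, T (Matrix.single p.1 p.2 1) * A p.1 p.2 := by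
  conv_lhs => rw [matrix_eq_sum_single A]
  rw [map_sum, Fintype.sum_prod_type]
  refine Finset.sum_congr rfl fun i _ => ?_
  rw [map_sum]
  refine Finset.sum_congr rfl fun j _ => ?_
  have h : Matrix.single i j (A i j) = (A i j) • (Matrix.single i j 1 : Mt M) := by
    rw [Matrix.smul_single, smul_eq_mul, mul_one]
  rw [h, map_smul, smul_eq_mul, mul_comm]

theorem DD_T (hκ : Continuous κ) (β : ℝ) (T : Mt M →ₗ[ℂ] ℂ) :
    (T (DD μ κ β)).re = ∫ a, ∫ b, q1 β a b * (T (XX κ a b)).re ∂(Measure.pi fun _ : Unit => μ)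
      ∂(Measure.pi fun _ : Unit => μ) := by
  have h := abs_T (Measure.pi fun _ : Unit => μ) (fun p : Fin M × Fin M => T (Matrix.single p.1 p.2 1))
    (q1 β) (xx κ) (q1_cont β) (XX_cont κ hκ)
  rw [lin_expand T (DD μ κ β)]
  have e : ∀ a b, T (XX κ a b) = ∑ p : Fin M × Fin M, T (Matrix.single p.1 p.2 1) * xx κ p a b :=
    fun a b => lin_expand T (XX κ a b)
  simp only [e]
  exact h

theorem DD_herm (hκ : Continuous κ) (β : ℝ) : (DD μ κ β).IsHermitian := by
  ext i j
  rw [conjTranspose_apply]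
  refine abs_H (Measure.pi fun _ : Unit => μ) (fun a b => (q1 β a b : ℂ) * xx κ (j, i) a b)
    (fun a b => (q1 β a b : ℂ) * xx κ (i, j) a b)
    ((Complex.continuous_ofReal.comp (q1_cont β)).mul (XX_cont κ hκ (i, j))) ?_
  intro a b
  have e : xx κ (i, j) b a = conj (xx κ (j, i) a b) := by
    unfold xx
    rw [← XX_H κ a b]
    rfl
  rw [map_mul, Complex.conj_ofReal, q1_comm, e]

/-- the quadratic form as a linear functional of the matrix -/
def TQ (x : Fin M → ℂ) : Mt M →ₗ[ℂ] ℂ where
  toFun A := star x ⬝ᵥ (A *ᵥ x)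
  map_add' A B := by rw [add_mulVec, dotProduct_add]
  map_smul' c A := by rw [smul_mulVec, dotProduct_smul, RingHom.id_apply]

theorem TQ_apply (x : Fin M → ℂ) (A : Mt M) : TQ x A = star x ⬝ᵥ (A *ᵥ x) := rfl

/-- the vector valued function of one link -/
def Fk (x : Fin M → ℂ) (k : Fin M) (a : Unit → G) : ℂ := (kp κ (a ()) *ᵥ x) k

theorem Fk_cont (hκ : Continuous κ) (x : Fin M → ℂ) (k : Fin M) : Continuous (Fk κ x k) := by
  have e : Fk κ x k = fun a => ∑ j, kp κ (a ()) k j * x j := by
    funext a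
    rfl
  rw [e]
  refine continuous_finsetSum _ fun j _ => ?_
  exact ((kp_cont κ hκ k j).comp (continuous_apply ())).mul continuous_const

theorem TQ_XX (x : Fin M → ℂ) (a b : Unit → G) :
    (TQ x (XX κ a b)).re = ∑ k, (conj (Fk κ x k a) * Fk κ x k b).re := by
  rw [TQ_apply]
  unfold XX Fk
  rw [← mulVec_mulVec, dotProduct_mulVec, ← star_mulVec, dotProduct, Complex.re_sum]
  rfl

theorem ker_one (β : ℝ) (U V : Unit → G) : ker β (fun _ => (1 : ℝ)) U V = q1 β U V := by
  unfold ker q1
  simp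

theorem TQ_DD (hκ : Continuous κ) (β : ℝ) (x : Fin M → ℂ) :
    (TQ x (DD μ κ β)).re = ∑ k, frm μ (ker β fun _ => (1 : ℝ)) (Fk κ x k) (Fk κ x k) := by
  rw [DD_T μ κ hκ β]
  have hK : Continuous fun q : (Unit → G) × (Unit → G) => ker β (fun _ => (1 : ℝ)) q.1 q.2 :=
    ker_cont β continuous_const
  have c0 : ∀ k, Continuous fun q : (Unit → G) × (Unit → G) =>
      (conj (Fk κ x k q.1) * Fk κ x k q.2).re * ker β (fun _ => (1 : ℝ)) q.1 q.2 := fun k =>
    c2 (G := G) (E := Unit) (K := ker β (fun _ => (1 : ℝ))) (F := Fk κ x k) (H := Fk κ x k) hK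
      (Fk_cont κ hκ x k) (Fk_cont κ hκ x k)
  unfold frm
  rw [← integral_finsetSum _ fun k _ => cint _ (cpar _
    (f := fun U V => (conj (Fk κ x k U) * Fk κ x k V).re * ker β (fun _ => (1 : ℝ)) U V) (c0 k))]
  refine integral_congr_ae (Filter.Eventually.of_forall fun a => ?_)
  dsimp only
  have ci : ∀ k, Integrable (fun b => (conj (Fk κ x k a) * Fk κ x k b).re *
      ker β (fun _ => (1 : ℝ)) a b) (Measure.pi fun _ : Unit => μ) := by
    intro k
    have h1 := (c0 k).comp (Continuous.prodMk_right a)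
    exact cint _ h1
  rw [← integral_finsetSum _ fun k _ => ci k]
  refine integral_congr_ae (Filter.Eventually.of_forall fun b => ?_)
  dsimp only
  rw [TQ_XX, ker_one, ← Finset.sum_mul, mul_comm]

theorem TQ_pos [μ.IsHaarMeasure] (hG : IsClosed (G : Set (UU N))) (hκ : Continuous κ) {β : ℝ}
    (hβ : 0 < β) {x : Fin M → ℂ} (hx : x ≠ 0) : 0 < (TQ x (DD μ κ β)).re := by
  rw [TQ_DD μ κ hκ]
  have h0 : ∀ k ∈ Finset.univ, 0 ≤ frm μ (ker β fun _ => (1 : ℝ)) (Fk κ x k) (Fk κ x k) :=
    fun k _ => ker_psd μ t_POS hG hβ continuous_const (Fk_cont κ hκ x k)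
  refine lt_of_le_of_ne (Finset.sum_nonneg h0) ?_
  intro h
  have h1 := (Finset.sum_eq_zero_iff_of_nonneg h0).1 h.symm
  apply hx
  funext k
  have h2 := t_STR N G hG μ Unit (fun _ => (1 : ℝ)) continuous_const (fun _ => one_pos) β hβ
    (Fk κ x k) (Fk_cont κ hκ x k) (h1 k (Finset.mem_univ k)) (fun _ => 1)
  unfold Fk at h2
  rw [kp_one, one_mulVec] at h2
  exact h2

theorem TQ_smul (r : ℝ) (x : Fin M → ℂ) (A : Mt M) :
    (TQ (r • x) A).re = r ^ 2 * (TQ x A).re := by
  rw [TQ_apply, TQ_apply]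
  have e1 : star (r • x) = r • star x := by
    funext i
    simp
  rw [e1, smul_dotProduct, mulVec_smul, dotProduct_smul, Complex.smul_re, Complex.smul_re,
    smul_eq_mul, smul_eq_mul]
  ring

theorem TQ_cont (A : Mt M) : Continuous fun x : Fin M → ℂ => (TQ x A).re := by
  have e : (fun x : Fin M → ℂ => (TQ x A).re) = fun x =>
      (∑ i, star (x i) * ∑ j, A i j * x j).re := by
    funext x
    rfl
  rw [e]
  refine Complex.continuous_re.comp (continuous_finsetSum _ fun i _ => ?_)
  refine (continuous_star.comp (continuous_apply i)).mul (continuous_finsetSum _ fun j _ => ?_)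
  exact continuous_const.mul (continuous_apply j)

theorem TQ_lower [μ.IsHaarMeasure] (hG : IsClosed (G : Set (UU N))) (hκ : Continuous κ) {β : ℝ}
    (hβ : 0 < β) (hM : 0 < M) :
    ∃ c : ℝ, 0 < c ∧ ∀ x : Fin M → ℂ, c * ∑ i, ‖x i‖ ^ 2 ≤ (TQ x (DD μ κ β)).re := by
  have hne : Nonempty (Fin M) := ⟨⟨0, hM⟩⟩
  have hnt : Nontrivial (Fin M → ℂ) := inferInstance
  have hcs : IsCompact (Metric.sphere (0 : Fin M → ℂ) 1) := isCompact_sphere _ _
  have hns : (Metric.sphere (0 : Fin M → ℂ) 1).Nonempty :=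
    NormedSpace.sphere_nonempty.2 zero_le_one
  obtain ⟨x0, hx0, hmin⟩ := hcs.exists_isMinOn hns (TQ_cont (DD μ κ β)).continuousOn
  have hx0' : x0 ≠ 0 := by
    rintro rfl
    simp at hx0
  have hm := TQ_pos μ κ hG hκ hβ hx0'
  have hM' : (0 : ℝ) < M := by exact_mod_cast hM
  refine ⟨(TQ x0 (DD μ κ β)).re / M, by positivity, fun x => ?_⟩
  by_cases hx : x = 0
  · subst hx
    have e : TQ (0 : Fin M → ℂ) (DD μ κ β) = 0 := by
      rw [TQ_apply]
      simp
    rw [e]
    simp
  · have hnx : 0 < ‖x‖ := norm_pos_iff.2 hx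
    have hu : (‖x‖⁻¹ : ℝ) • x ∈ Metric.sphere (0 : Fin M → ℂ) 1 := by
      rw [mem_sphere_zero_iff_norm, norm_smul, norm_inv, norm_norm, inv_mul_cancel₀ hnx.ne']
    have h1 : (TQ x0 (DD μ κ β)).re ≤ (TQ ((‖x‖⁻¹ : ℝ) • x) (DD μ κ β)).re := hmin hu
    rw [TQ_smul] at h1
    have h2 : ∑ i, ‖x i‖ ^ 2 ≤ M * ‖x‖ ^ 2 := by
      calc ∑ i, ‖x i‖ ^ 2 ≤ ∑ _i : Fin M, ‖x‖ ^ 2 := Finset.sum_le_sum fun i _ =>
            pow_le_pow_left₀ (norm_nonneg _) (norm_le_pi_norm x i) 2
        _ = M * ‖x‖ ^ 2 := by simp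
    have h3 : (TQ x0 (DD μ κ β)).re * ‖x‖ ^ 2 ≤ (TQ x (DD μ κ β)).re := by
      have h4 := mul_le_mul_of_nonneg_right h1 (by positivity : 0 ≤ ‖x‖ ^ 2)
      have h5 : (‖x‖⁻¹) ^ 2 * (TQ x (DD μ κ β)).re * ‖x‖ ^ 2 = (TQ x (DD μ κ β)).re := by
        field_simp
      rwa [h5] at h4
    calc (TQ x0 (DD μ κ β)).re / M * ∑ i, ‖x i‖ ^ 2
        ≤ (TQ x0 (DD μ κ β)).re / M * (M * ‖x‖ ^ 2) :=
          mul_le_mul_of_nonneg_left h2 (by positivity)
      _ = (TQ x0 (DD μ κ β)).re * ‖x‖ ^ 2 := by field_simp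
      _ ≤ _ := h3

open scoped ComplexOrder in
/-- the decomposition -/
theorem DD_dec [μ.IsHaarMeasure] (hG : IsClosed (G : Set (UU N))) (hκ : Continuous κ) {β : ℝ}
    (hβ : 0 < β) (hM : 0 < M) :
    ∃ c : ℝ, 0 < c ∧ ∃ S : Mt M, DD μ κ β = (c : ℂ) • (1 : Mt M) + Sᴴ * S := by
  obtain ⟨c, hc, h⟩ := TQ_lower μ κ hG hκ hβ hM
  refine ⟨c, hc, ?_⟩
  have hH : (DD μ κ β - (c : ℂ) • (1 : Mt M)).IsHermitian := by
    refine (DD_herm μ κ hκ β).sub ?_
    unfold Matrix.IsHermitian
    rw [conjTranspose_smul, conjTranspose_one]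
    simp
  have hP : (DD μ κ β - (c : ℂ) • (1 : Mt M)).PosSemidef := by
    refine PosSemidef.of_dotProduct_mulVec_nonneg hH fun x => ?_
    have him := hH.im_star_dotProduct_mulVec_self x
    rw [Complex.nonneg_iff]
    refine ⟨?_, him.symm⟩
    have e : star x ⬝ᵥ ((DD μ κ β - (c : ℂ) • (1 : Mt M)) *ᵥ x) =
        TQ x (DD μ κ β) - (c : ℂ) * ∑ i, ((‖x i‖ ^ 2 : ℝ) : ℂ) := by
      rw [sub_mulVec, dotProduct_sub, smul_mulVec, one_mulVec, dotProduct_smul, smul_eq_mul,
        TQ_apply]
      congr 2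
      refine Finset.sum_congr rfl fun i _ => ?_
      rw [Pi.star_apply, ← Complex.normSq_eq_norm_sq, ← Complex.mul_conj, mul_comm]
      rfl
    rw [e, Complex.sub_re, ← Complex.ofReal_sum, Complex.re_ofReal_mul, Complex.ofReal_re]
    linarith [h x]
  obtain ⟨S, hS⟩ := psd_dec hP
  refine ⟨S, ?_⟩
  rw [← hS]
  abel

/-! ### lists of links -/

section lst

variable {E : Type} [Fintype E]

theorem tr_eq (A B : Mt M) : (trace (Aᴴ * B)).re = ∑ i, ∑ j, (conj (A i j) * B i j).re := by
  rw [Matrix.trace, Complex.re_sum, Finset.sum_comm]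
  refine Finset.sum_congr rfl fun j _ => ?_
  rw [diag_apply, Matrix.mul_apply, Complex.re_sum]
  rfl

/-- the form of the entries of a matrix valued function -/
theorem frm_mat {K : (E → G) → (E → G) → ℝ}
    (hK : Continuous fun q : (E → G) × (E → G) => K q.1 q.2) {A : (E → G) → Mt M}
    (hA : ∀ i j, Continuous fun U => A U i j) :
    ∑ i, ∑ j, frm μ K (fun U => A U i j) (fun U => A U i j) =
      ∫ U, ∫ V, (trace ((A U)ᴴ * A V)).re * K U V ∂(Measure.pi fun _ : E => μ)
        ∂(Measure.pi fun _ : E => μ) := by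
  have c0 : ∀ p : Fin M × Fin M, Continuous fun q : (E → G) × (E → G) =>
      (conj (A q.1 p.1 p.2) * A q.2 p.1 p.2).re * K q.1 q.2 := fun p => by
    have h := c2 hK (hA p.1 p.2) (hA p.1 p.2)
    exact h
  rw [← Fintype.sum_prod_type']
  unfold frm
  have c1 : ∀ p : Fin M × Fin M, Integrable (fun U => ∫ V, (conj (A U p.1 p.2) * A V p.1 p.2).re *
      K U V ∂(Measure.pi fun _ : E => μ)) (Measure.pi fun _ : E => μ) := by
    intro p
    have h := cpar (Measure.pi fun _ : E => μ)
      (f := fun U V => (conj (A U p.1 p.2) * A V p.1 p.2).re * K U V) (c0 p)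
    exact cint _ h
  rw [← integral_finsetSum _ fun p _ => c1 p]
  refine integral_congr_ae (Filter.Eventually.of_forall fun U => ?_)
  dsimp only
  have ci : ∀ p : Fin M × Fin M, Integrable (fun V => (conj (A U p.1 p.2) * A V p.1 p.2).re *
      K U V) (Measure.pi fun _ : E => μ) := by
    intro p
    have h1 := (c0 p).comp (Continuous.prodMk_right U)
    exact cint _ h1
  rw [← integral_finsetSum _ fun p _ => ci p]
  refine integral_congr_ae (Filter.Eventually.of_forall fun V => ?_)
  dsimp only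
  rw [← Finset.sum_mul, tr_eq, Fintype.sum_prod_type]

/-- the matrix of the holonomy -/
def PL (l : List E) (U : E → G) : Mt M := kp κ (l.map U).prod

theorem PL_nil (U : E → G) : PL κ [] U = 1 := by
  unfold PL
  rw [List.map_nil, List.prod_nil, kp_one]

theorem PL_cons (e : E) (l : List E) (U : E → G) :
    PL κ (e :: l) U = kp κ (U e) * PL κ l U := by
  unfold PL
  rw [List.map_cons, List.prod_cons, kp_mul]

theorem list_cont (l : List E) : Continuous fun U : E → G => (l.map U).prod := by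
  induction l with
  | nil => simpa using continuous_const
  | cons e l ih =>
    simp only [List.map_cons, List.prod_cons]
    exact (continuous_apply e).mul ih

theorem PL_cont (hκ : Continuous κ) (l : List E) (i j : Fin M) :
    Continuous fun U : E → G => PL κ l U i j :=
  (kp_cont κ hκ i j).comp (list_cont l)

theorem kerB_cont (B : Finset E) (β : ℝ) :
    Continuous fun q : (E → G) × (E → G) => kerB B β q.1 q.2 := by
  unfold kerB
  refine continuous_finsetProd _ fun e _ => Real.continuous_exp.comp (continuous_const.mul ?_)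
  exact POS.rt_cont e

theorem kerB_psd (hG : IsClosed (G : Set (UU N))) {β : ℝ} (hβ : 0 < β) (B : Finset E)
    {F : (E → G) → ℂ} (hF : Continuous F) : 0 ≤ frm μ (kerB B β) F F := by
  classical
  have h := t_POS N G hG μ E (fun _ => (1 : ℝ)) continuous_const (fun _ => 0)
    (fun e => if e ∈ B then β else 0) (fun e => by split_ifs; exacts [hβ.le, le_rfl]) F hF
  have h2 : (fun U V : E → G => (1 : ℝ) * 1 *
      ∏ e, (rt (U e) (V e) ^ 0 * Real.exp ((if e ∈ B then β else 0) * rt (U e) (V e)))) =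
      kerB B β := by
    funext U V
    unfold kerB
    rw [one_mul, one_mul]
    have e1 : ∀ e : E, rt (U e) (V e) ^ 0 * Real.exp ((if e ∈ B then β else 0) * rt (U e) (V e)) =
        if e ∈ B then Real.exp (β * rt (U e) (V e)) else 1 := by
      intro e
      split_ifs <;> simp
    simp only [e1]
    rw [Finset.prod_ite_mem, Finset.univ_inter]
  rw [h2] at h
  exact h

/-- the functional of the matrix in the middle -/
def TP (P Q : Mt M) : Mt M →ₗ[ℂ] ℂ where
  toFun A := trace (Pᴴ * A * Q)
  map_add' A B := by rw [Matrix.mul_add, Matrix.add_mul, trace_add]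
  map_smul' c A := by
    rw [Matrix.mul_smul, Matrix.smul_mul, trace_smul, RingHom.id_apply]

theorem TP_apply (P Q A : Mt M) : TP P Q A = trace (Pᴴ * A * Q) := rfl

variable [DecidableEq E]

theorem map_upd {e : E} {l : List E} (he : e ∉ l) (U : E → G) (a : Unit → G) :
    l.map (upd e U a) = l.map U := by
  refine List.map_congr_left fun e' h => ?_
  have hne : e' ≠ e := by
    rintro rfl
    exact he h
  rw [upd, Function.update_of_ne hne]

theorem PL_upd {e : E} {l : List E} (he : e ∉ l) (U : E → G) (a : Unit → G) :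
    PL κ l (upd e U a) = PL κ l U := by
  unfold PL
  rw [map_upd he]

theorem kerB_upd {e : E} {B : Finset E} (he : e ∉ B) (β : ℝ) (U V : E → G) (a b : Unit → G) :
    kerB (insert e B) β (upd e U a) (upd e V b) = q1 β a b * kerB B β U V := by
  unfold kerB
  rw [Finset.prod_insert he]
  congr 1
  · unfold q1
    rw [upd, upd, Function.update_self, Function.update_self]
  · refine Finset.prod_congr rfl fun e' h => ?_
    have hne : e' ≠ e := by
      rintro rfl
      exact he h
    rw [upd, upd, Function.update_of_ne hne, Function.update_of_ne hne]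

theorem tr_cont {A : (E → G) → Mt M} (hA : ∀ i j, Continuous fun U => A U i j) :
    Continuous fun q : (E → G) × (E → G) => (trace ((A q.1)ᴴ * A q.2)).re := by
  have e : (fun q : (E → G) × (E → G) => (trace ((A q.1)ᴴ * A q.2)).re) = fun q =>
      ∑ i, ∑ j, (conj (A q.1 i j) * A q.2 i j).re := by
    funext q
    exact tr_eq _ _
  rw [e]
  refine continuous_finsetSum _ fun i _ => continuous_finsetSum _ fun j _ => ?_
  refine Complex.continuous_re.comp (Continuous.mul ?_ ?_)
  · exact Complex.continuous_conj.comp ((hA i j).comp continuous_fst)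
  · exact (hA i j).comp continuous_snd

/-- the first link is integrated -/
theorem step (hκ : Continuous κ) (β : ℝ) {e : E} {l : List E} (he : e ∉ l) :
    ∑ i, ∑ j, frm μ (kerB (e :: l).toFinset β) (fun U => PL κ (e :: l) U i j)
        (fun U => PL κ (e :: l) U i j) =
      ∫ U, ∫ V, (TP (PL κ l U) (PL κ l V) (DD μ κ β)).re * kerB l.toFinset β U V
        ∂(Measure.pi fun _ : E => μ) ∂(Measure.pi fun _ : E => μ) := by
  rw [frm_mat μ (kerB_cont _ β) (PL_cont κ hκ (e :: l))]
  have hc : Continuous fun q : (E → G) × (E → G) =>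
      (trace ((PL κ (e :: l) q.1)ᴴ * PL κ (e :: l) q.2)).re *
        kerB (e :: l).toFinset β q.1 q.2 :=
    (tr_cont (PL_cont κ hκ (e :: l))).mul (kerB_cont _ β)
  rw [fub2 μ e (h := fun U V => (trace ((PL κ (e :: l) U)ᴴ * PL κ (e :: l) V)).re *
        kerB (e :: l).toFinset β U V) hc]
  refine integral_congr_ae (Filter.Eventually.of_forall fun U => ?_)
  refine integral_congr_ae (Filter.Eventually.of_forall fun V => ?_)
  dsimp only
  have he' : e ∉ l.toFinset := by rwa [List.mem_toFinset]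
  have e1 : ∀ a b : Unit → G, (trace ((PL κ (e :: l) (upd e U a))ᴴ *
      PL κ (e :: l) (upd e V b))).re * kerB (e :: l).toFinset β (upd e U a) (upd e V b) =
      (q1 β a b * (TP (PL κ l U) (PL κ l V) (XX κ a b)).re) * kerB l.toFinset β U V := by
    intro a b
    rw [List.toFinset_cons, kerB_upd he', PL_cons, PL_cons, PL_upd κ he, PL_upd κ he]
    have e2 : kp κ (upd e U a e) = kp κ (a ()) := by
      rw [upd, Function.update_self]
    have e3 : kp κ (upd e V b e) = kp κ (b ()) := by
      rw [upd, Function.update_self]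
    rw [e2, e3, TP_apply, XX, conjTranspose_mul]
    have e4 : (PL κ l U)ᴴ * (kp κ (a ()))ᴴ * (kp κ (b ()) * PL κ l V) =
        (PL κ l U)ᴴ * ((kp κ (a ()))ᴴ * kp κ (b ())) * PL κ l V := by
      simp only [Matrix.mul_assoc]
    rw [e4]
    ring
  simp only [e1]
  rw [DD_T μ κ hκ β, ← integral_mul_const]
  refine integral_congr_ae (Filter.Eventually.of_forall fun a => ?_)
  dsimp only
  rw [← integral_mul_const]

theorem step2 (hG : IsClosed (G : Set (UU N))) (hκ : Continuous κ) {β : ℝ} (hβ : 0 < β)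
    {c : ℝ} {S : Mt M} (hD : DD μ κ β = (c : ℂ) • (1 : Mt M) + Sᴴ * S) {e : E} {l : List E}
    (he : e ∉ l) :
    c * ∑ i, ∑ j, frm μ (kerB l.toFinset β) (fun U => PL κ l U i j) (fun U => PL κ l U i j) ≤
      ∑ i, ∑ j, frm μ (kerB (e :: l).toFinset β) (fun U => PL κ (e :: l) U i j)
        (fun U => PL κ (e :: l) U i j) := by
  rw [step μ κ hκ β he, hD]
  have hS : ∀ i j, Continuous fun U : E → G => (S * PL κ l U) i j := by
    intro i j
    have e1 : (fun U : E → G => (S * PL κ l U) i j) = fun U => ∑ k, S i k * PL κ l U k j := by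
      funext U
      rw [Matrix.mul_apply]
    rw [e1]
    exact continuous_finsetSum _ fun k _ => continuous_const.mul (PL_cont κ hκ l k j)
  have e1 : ∀ U V : E → G, (TP (PL κ l U) (PL κ l V) ((c : ℂ) • (1 : Mt M) + Sᴴ * S)).re *
      kerB l.toFinset β U V = c * ((trace ((PL κ l U)ᴴ * PL κ l V)).re * kerB l.toFinset β U V) +
        (trace ((S * PL κ l U)ᴴ * (S * PL κ l V))).re * kerB l.toFinset β U V := by
    intro U V
    rw [map_add, map_smul, TP_apply, TP_apply, Matrix.mul_one, smul_eq_mul, Complex.add_re,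
      Complex.re_ofReal_mul, conjTranspose_mul]
    have e4 : (PL κ l U)ᴴ * (Sᴴ * S) * PL κ l V = (PL κ l U)ᴴ * Sᴴ * (S * PL κ l V) := by
      simp only [Matrix.mul_assoc]
    rw [e4]
    ring
  simp only [e1]
  have k := kerB_cont (G := G) l.toFinset β
  have c1 : Continuous fun q : (E → G) × (E → G) =>
      c * ((trace ((PL κ l q.1)ᴴ * PL κ l q.2)).re * kerB l.toFinset β q.1 q.2) :=
    continuous_const.mul ((tr_cont (PL_cont κ hκ l)).mul k)
  have c2' : Continuous fun q : (E → G) × (E → G) =>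
      (trace ((S * PL κ l q.1)ᴴ * (S * PL κ l q.2))).re * kerB l.toFinset β q.1 q.2 :=
    (tr_cont hS).mul k
  have i1 : ∀ U, ∫ V, (c * ((trace ((PL κ l U)ᴴ * PL κ l V)).re * kerB l.toFinset β U V) +
      (trace ((S * PL κ l U)ᴴ * (S * PL κ l V))).re * kerB l.toFinset β U V)
        ∂(Measure.pi fun _ : E => μ) =
      c * (∫ V, (trace ((PL κ l U)ᴴ * PL κ l V)).re * kerB l.toFinset β U V
        ∂(Measure.pi fun _ : E => μ)) +
      ∫ V, (trace ((S * PL κ l U)ᴴ * (S * PL κ l V))).re * kerB l.toFinset β U V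
        ∂(Measure.pi fun _ : E => μ) := by
    intro U
    have a1 := c1.comp (Continuous.prodMk_right U)
    have a2 := c2'.comp (Continuous.prodMk_right U)
    rw [← integral_const_mul]
    exact integral_add (cint _ a1) (cint _ a2)
  simp only [i1]
  have b1 : Continuous fun U => ∫ V, (trace ((PL κ l U)ᴴ * PL κ l V)).re * kerB l.toFinset β U V
        ∂(Measure.pi fun _ : E => μ) :=
    cpar _ (f := fun U V => (trace ((PL κ l U)ᴴ * PL κ l V)).re * kerB l.toFinset β U V)
      ((tr_cont (PL_cont κ hκ l)).mul k)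
  have b2 : Continuous fun U => ∫ V, (trace ((S * PL κ l U)ᴴ * (S * PL κ l V))).re *
      kerB l.toFinset β U V ∂(Measure.pi fun _ : E => μ) :=
    cpar _ (f := fun U V => (trace ((S * PL κ l U)ᴴ * (S * PL κ l V))).re *
      kerB l.toFinset β U V) c2'
  have i2 : ∫ U, (c * (∫ V, (trace ((PL κ l U)ᴴ * PL κ l V)).re * kerB l.toFinset β U V
        ∂(Measure.pi fun _ : E => μ)) +
      ∫ V, (trace ((S * PL κ l U)ᴴ * (S * PL κ l V))).re * kerB l.toFinset β U V
        ∂(Measure.pi fun _ : E => μ)) ∂(Measure.pi fun _ : E => μ) =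
      c * (∫ U, ∫ V, (trace ((PL κ l U)ᴴ * PL κ l V)).re * kerB l.toFinset β U V
        ∂(Measure.pi fun _ : E => μ) ∂(Measure.pi fun _ : E => μ)) +
      ∫ U, ∫ V, (trace ((S * PL κ l U)ᴴ * (S * PL κ l V))).re * kerB l.toFinset β U V
        ∂(Measure.pi fun _ : E => μ) ∂(Measure.pi fun _ : E => μ) := by
    rw [← integral_const_mul]
    exact integral_add (cint _ (continuous_const.mul b1)) (cint _ b2)
  rw [i2, ← frm_mat μ k (PL_cont κ hκ l), ← frm_mat μ k hS]
  have hn : 0 ≤ ∑ i, ∑ j, frm μ (kerB l.toFinset β) (fun U => (S * PL κ l U) i j)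
      (fun U => (S * PL κ l U) i j) :=
    Finset.sum_nonneg fun i _ => Finset.sum_nonneg fun j _ => kerB_psd μ hG hβ _ (hS i j)
  linarith

theorem base (hκ : Continuous κ) (β : ℝ) :
    ∑ i, ∑ j, frm μ (kerB (([] : List E).toFinset) β) (fun U => PL κ [] U i j)
        (fun U => PL κ [] U i j) = M := by
  rw [frm_mat μ (kerB_cont _ β) (PL_cont κ hκ [])]
  simp [PL_nil, kerB, Matrix.trace_one]

theorem main (hG : IsClosed (G : Set (UU N))) (hκ : Continuous κ) {β : ℝ} (hβ : 0 < β)
    {c : ℝ} (hc : 0 < c) {S : Mt M} (hD : DD μ κ β = (c : ℂ) • (1 : Mt M) + Sᴴ * S)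
    (l : List E) (hl : l.Nodup) :
    M * c ^ l.length ≤
      ∑ i, ∑ j, frm μ (kerB l.toFinset β) (fun U => PL κ l U i j) (fun U => PL κ l U i j) := by
  induction l with
  | nil =>
    rw [base μ κ hκ β]
    simp
  | cons e l ih =>
    have h1 := (List.nodup_cons.1 hl).1
    have h2 := ih (List.nodup_cons.1 hl).2
    refine le_trans ?_ (step2 μ κ hG hκ hβ hD h1)
    rw [List.length_cons, pow_succ]
    calc (M : ℝ) * (c ^ l.length * c) = c * (M * c ^ l.length) := by ring
      _ ≤ _ := mul_le_mul_of_nonneg_left h2 hc.le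

end lst

end mat

end

end Pool.Agent.H189.WA.LIN1

namespace Pool.Agent.H189.WA

open Pool.Agent.H189.KS MeasureTheory

theorem t_LIN1 : S_LIN1 := by
  intro N G hG _ _ μ _ _ M κ hκ β hβ
  have h0 : CompactSpace (UU N) := E0AL.cUU N
  have h1 : CompactSpace G := isCompact_iff_compactSpace.1 hG.isCompact
  have h2 : SecondCountableTopology (UU N) := E0AL.sUU N
  have h3 : SecondCountableTopology G := TopologicalSpace.Subtype.secondCountableTopology _
  rcases Nat.eq_zero_or_pos M with hM | hM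
  · subst hM
    refine ⟨1, one_pos, fun E _ _ L _ => ?_⟩
    simp
  · obtain ⟨c, hc, S, hS⟩ := LIN1.DD_dec μ κ hG hκ hβ hM
    exact ⟨c, hc, fun E _ _ L hL => LIN1.main μ κ hG hκ hβ hc hS L hL⟩

end Pool.Agent.H189.WA
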